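import Pool.Agent.T2H54.CL.Stm
import Pool.Agent.TH347.GS.A4

set_option autoImplicit false

/-!
CL-A4RQ (helper77): the mean square form of CTRQ (adapted from `Pool.Agent.T2H54.TP.A4R`).
-/

namespace Pool.Agent.T2H54.CL.A4RQ

open Complex MeasureTheory Set
open Pool.Agent.TH612.CF Pool.Agent.TH612.GS Pool.Agent.T2H54.SB Pool.Agent.T2H54.TP
open Pool.Agent.TH347.GS (wy wy_cont wy_nonneg wy_int zN_cont im1 im2 cs)
open scoped ENNReal

noncomputable section

variable {n : ℕ}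

lemma mP_univ' (n : ℕ) {T : ℝ} (hT : 0 ≤ T) :
    mP (Fin n) T univ = ENNReal.ofReal (T ^ n) := by
  unfold mP
  rw [Measure.pi_univ]
  simp only [Measure.restrict_apply MeasurableSet.univ, univ_inter, Real.volume_Icc, sub_zero]
  rw [Finset.prod_const, Finset.card_univ, Fintype.card_fin, ENNReal.ofReal_pow hT]

lemma hc_cont (j : Fin (n + 1)) : Continuous fun h : Fin n → ℝ => hc h j := by
  refine Fin.cases ?_ (fun i => ?_) j
  · simp only [hc, Fin.cons_zero]; exact continuous_const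
  · simp only [hc, Fin.cons_succ]; exact continuous_apply _

lemma gk_cont (a b : Fin (n + 1) → ℝ) (i : Fin (n + 1) ⊕ Fin (n + 1)) :
    Continuous fun h : Fin n → ℝ => gk a b h i := by
  rcases i with i | i
  · simp only [gk, Sum.elim_inl]; exact (hc_cont i).add continuous_const
  · simp only [gk, Sum.elim_inr]; exact (hc_cont i).add continuous_const

/-- `GMq` on the line to the left -/
def Gyq (M : ℕ) (a b : Fin (n + 1) → ℝ) (h : Fin n → ℝ) (y : ℝ) : ℂ :=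
  GMq M a b h (-(1 / 4) + I * (y / (Real.log M / 2)))

lemma Gyq_cont (M : ℕ) (a b : Fin (n + 1) → ℝ) :
    Continuous fun q : (Fin n → ℝ) × ℝ => Gyq M a b q.1 q.2 := by
  have hg : ∀ i : Fin (n + 1) ⊕ Fin (n + 1), Continuous fun q : (Fin n → ℝ) × ℝ =>
      ((gk a b q.1 i : ℝ) : ℂ) := fun i =>
    Complex.continuous_ofReal.comp ((gk_cont a b i).comp continuous_fst)
  have hs : Continuous fun q : (Fin n → ℝ) × ℝ =>
      (-(1 / 4) + I * ((q.2 : ℂ) / ((Real.log M : ℂ) / 2)) : ℂ) := by fun_prop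
  have hs' : Continuous fun q : (Fin n → ℝ) × ℝ =>
      I * (-(1 / 4) + I * ((q.2 : ℂ) / ((Real.log M : ℂ) / 2))) / 2 :=
    (continuous_const.mul hs).div_const 2
  unfold Gyq GMq
  refine Continuous.mul ?_ ?_
  · rw [← continuousOn_univ]
    refine FH_cont (c := 1 / 8) isOpen_univ (by norm_num) (fun j => ?_) (fun j => ?_)
      fun q _ j => ?_
    · rw [continuousOn_univ]
      exact (hg _).sub hs'
    · rw [continuousOn_univ]
      exact (hg _).add hs'
    · have e : ((q.2 : ℂ) / ((Real.log M : ℂ) / 2)) = ((q.2 / (Real.log M / 2) : ℝ) : ℂ) := by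
        push_cast
        rfl
      rw [e]
      constructor
      · rw [im1]
        norm_num
      · rw [im2]
        norm_num
  · refine continuous_finsetProd _ fun p _ => ?_
    refine zN_cont M ?_
    exact (continuous_const.add hs).add (continuous_const.mul ((hg _).sub (hg _)))

end

end Pool.Agent.T2H54.CL.A4RQ

namespace Pool.Agent.T2H54.CL

open Complex MeasureTheory Set
open Pool.Agent.TH612.CF Pool.Agent.TH612.GS Pool.Agent.T2H54.SB Pool.Agent.T2H54.TP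
open Pool.Agent.TH347.GS (wy wy_cont wy_nonneg wy_int zN_cont im1 im2 cs)
open A4RQ
open scoped ENNReal

theorem t_A4RQ (hC : S_CTRQ) (hG : S_GLRQ) : S_A4RQ := by
  intro n ψ hψ
  obtain ⟨C, M₀, hC0, hM₀, hC⟩ := hC n ψ hψ
  obtain ⟨C', hC'0, hG⟩ := hG n
  obtain ⟨W, hW⟩ : ∃ W : ℝ≥0∞, W = ∫⁻ y : ℝ, ENNReal.ofReal (wy y) := ⟨_, rfl⟩
  have hWt : W ≠ ⊤ := by
    rw [hW]
    exact wy_int
  refine ⟨2 * C ^ 2 * (1 + W.toReal ^ 2 * C'), M₀, by positivity, hM₀, ?_⟩
  intro a b T M hM hT hMT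
  have hM1 : 1 ≤ M := by omega
  have hMp : (0 : ℝ) < M := by exact_mod_cast hM1
  have hT0 : (0 : ℝ) ≤ T := by linarith
  have key : ∀ h : Fin n → ℝ,
      ENNReal.ofReal (‖SPq ψ M a b h - GMq M a b h 0‖ ^ 2) ≤
      ENNReal.ofReal (2 * C ^ 2 * (M : ℝ) ^ (-(1 / 8) : ℝ)) *
        (1 + W * ∫⁻ y : ℝ, ENNReal.ofReal (wy y) * ENNReal.ofReal (‖Gyq M a b h y‖ ^ 2)) := by
    intro h
    have h1 := hC M a b h hM
    have h1' : ‖SPq ψ M a b h - GMq M a b h 0‖ ≤ C * (M : ℝ) ^ (-(1 / 16) : ℝ) *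
        (1 + ∫ y : ℝ, wy y * ‖Gyq M a b h y‖) := h1
    obtain ⟨J, hJ⟩ : ∃ J : ℝ, J = ∫ y : ℝ, wy y * ‖Gyq M a b h y‖ := ⟨_, rfl⟩
    rw [← hJ] at h1'
    have hJ0 : 0 ≤ J := by
      rw [hJ]
      exact integral_nonneg fun y => mul_nonneg (wy_nonneg y) (norm_nonneg _)
    have h2 : ‖SPq ψ M a b h - GMq M a b h 0‖ ^ 2 ≤
        2 * C ^ 2 * (M : ℝ) ^ (-(1 / 8) : ℝ) * (1 + J ^ 2) := by
      have h3 := pow_le_pow_left₀ (norm_nonneg _) h1' 2
      have h4 : ((M : ℝ) ^ (-(1 / 16) : ℝ)) ^ 2 = (M : ℝ) ^ (-(1 / 8) : ℝ) := by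
        rw [← Real.rpow_natCast, ← Real.rpow_mul hMp.le]
        norm_num
      have h6 : 0 ≤ C ^ 2 * (M : ℝ) ^ (-(1 / 8) : ℝ) := by positivity
      calc ‖SPq ψ M a b h - GMq M a b h 0‖ ^ 2 ≤
            (C * (M : ℝ) ^ (-(1 / 16) : ℝ) * (1 + J)) ^ 2 := h3
        _ = C ^ 2 * ((M : ℝ) ^ (-(1 / 16) : ℝ)) ^ 2 * (1 + J) ^ 2 := by ring
        _ = C ^ 2 * (M : ℝ) ^ (-(1 / 8) : ℝ) * (1 + J) ^ 2 := by rw [h4]
        _ ≤ C ^ 2 * (M : ℝ) ^ (-(1 / 8) : ℝ) * (2 * (1 + J ^ 2)) := by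
            apply mul_le_mul_of_nonneg_left _ h6
            nlinarith [sq_nonneg (1 - J)]
        _ = _ := by ring
    have hmeas : Measurable fun y : ℝ => ‖Gyq M a b h y‖ :=
      ((Gyq_cont M a b).comp (Continuous.prodMk_right h)).norm.measurable
    have h5 := cs (fun y => ‖Gyq M a b h y‖) hmeas (fun y => norm_nonneg _)
    rw [← hJ, ← hW] at h5
    calc ENNReal.ofReal (‖SPq ψ M a b h - GMq M a b h 0‖ ^ 2) ≤
        ENNReal.ofReal (2 * C ^ 2 * (M : ℝ) ^ (-(1 / 8) : ℝ) * (1 + J ^ 2)) :=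
          ENNReal.ofReal_le_ofReal h2
      _ = ENNReal.ofReal (2 * C ^ 2 * (M : ℝ) ^ (-(1 / 8) : ℝ)) * ENNReal.ofReal (1 + J ^ 2) :=
          ENNReal.ofReal_mul (by positivity)
      _ ≤ _ := by
          refine mul_le_mul' le_rfl ?_
          rw [ENNReal.ofReal_add zero_le_one (sq_nonneg J), ENNReal.ofReal_one]
          exact add_le_add le_rfl h5
  have hF : ∫⁻ h, (∫⁻ y : ℝ, ENNReal.ofReal (wy y) * ENNReal.ofReal (‖Gyq M a b h y‖ ^ 2))
      ∂(mP (Fin n) T) ≤ W * ENNReal.ofReal (C' * T ^ n) := by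
    haveI : SFinite (mP (Fin n) T) := by unfold mP; infer_instance
    rw [lintegral_lintegral_swap]
    · calc ∫⁻ y : ℝ, ∫⁻ h, ENNReal.ofReal (wy y) * ENNReal.ofReal (‖Gyq M a b h y‖ ^ 2)
            ∂(mP (Fin n) T)
          ≤ ∫⁻ y, ENNReal.ofReal (wy y) * ENNReal.ofReal (C' * T ^ n) := by
            refine lintegral_mono fun y => ?_
            rw [lintegral_const_mul' _ _ ENNReal.ofReal_ne_top]
            refine mul_le_mul' le_rfl ?_
            have h7 := hG a b T M (y / (Real.log M / 2)) hM1 hMT hT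
            refine le_trans (le_of_eq ?_) h7
            refine lintegral_congr fun γ => ?_
            unfold Gyq
            push_cast
            rfl
        _ = W * ENNReal.ofReal (C' * T ^ n) := by
            rw [lintegral_mul_const' _ _ ENNReal.ofReal_ne_top, ← hW]
    · refine Measurable.aemeasurable ?_
      exact ((wy_cont.comp continuous_snd).measurable.ennreal_ofReal).mul
        (((Gyq_cont M a b).norm.pow 2).measurable.ennreal_ofReal)
  calc ∫⁻ h, ENNReal.ofReal (‖SPq ψ M a b h - GMq M a b h 0‖ ^ 2)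
        ∂(mP (Fin n) T) ≤
      ∫⁻ h, ENNReal.ofReal (2 * C ^ 2 * (M : ℝ) ^ (-(1 / 8) : ℝ)) *
        (1 + W * ∫⁻ y : ℝ, ENNReal.ofReal (wy y) * ENNReal.ofReal (‖Gyq M a b h y‖ ^ 2))
          ∂(mP (Fin n) T) := lintegral_mono key
    _ = ENNReal.ofReal (2 * C ^ 2 * (M : ℝ) ^ (-(1 / 8) : ℝ)) *
        (mP (Fin n) T univ + W * ∫⁻ h, (∫⁻ y : ℝ, ENNReal.ofReal (wy y) *
          ENNReal.ofReal (‖Gyq M a b h y‖ ^ 2)) ∂(mP (Fin n) T)) := by
        rw [lintegral_const_mul' _ _ ENNReal.ofReal_ne_top, lintegral_add_left measurable_const,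
          lintegral_const_mul' _ _ hWt, lintegral_const, one_mul]
    _ ≤ ENNReal.ofReal (2 * C ^ 2 * (M : ℝ) ^ (-(1 / 8) : ℝ)) *
        (ENNReal.ofReal (T ^ n) + W * (W * ENNReal.ofReal (C' * T ^ n))) := by
        rw [mP_univ' n hT0]
        exact mul_le_mul' le_rfl (add_le_add le_rfl (mul_le_mul' le_rfl hF))
    _ = ENNReal.ofReal (2 * C ^ 2 * (1 + W.toReal ^ 2 * C') * T ^ n *
        (M : ℝ) ^ (-(1 / 8) : ℝ)) := by
        have hw0 : (0 : ℝ) ≤ W.toReal := ENNReal.toReal_nonneg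
        rw [← ENNReal.ofReal_toReal hWt, ← ENNReal.ofReal_mul hw0, ← ENNReal.ofReal_mul hw0,
          ← ENNReal.ofReal_add (by positivity) (by positivity),
          ← ENNReal.ofReal_mul (by positivity), ENNReal.toReal_ofReal hw0]
        congr 1
        ring

end Pool.Agent.T2H54.CL
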