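import Pool.Agent.T2H54.CL.Asm4

set_option autoImplicit false

/-! Assembly of project CL: main theorem. -/

namespace Pool.Agent.T2H54.CL

open Complex Filter Topology MeasureTheory Set
open Pool.Agent.TH612.CF Pool.Agent.TH612.GS Pool.Agent.T2H54.SB Pool.Agent.T2H54.TP
open Pool.Agent.W182.KO hiding ee SS_summable DD
open scoped ContDiff

noncomputable section

variable {n : ℕ}

lemma sw_le {a b : Fin (n + 1) → ℝ} {D : ℝ} (hD : ∀ p, |a p| ≤ D ∧ |b p| ≤ D)
    (J : Finset (Fin (n + 1))) : ∀ p, |sw J a b p| ≤ D ∧ |sw J b a p| ≤ D := by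
  intro p
  unfold sw
  split_ifs
  · exact ⟨(hD p).2, (hD p).1⟩
  · exact hD p

lemma zpQ {a b : Fin (n + 1) → ℝ} {T C7 K1 D : ℝ} {h : Fin n → ℝ} (hT3 : 3 ≤ T)
    (hLg : 1 ≤ Real.log T) (hC7 : 0 < C7) (hK10 : 0 ≤ K1)
    (hD : ∀ p, |a p| ≤ D ∧ |b p| ≤ D) (hTD : 2 * D + 1 ≤ T ^ (1 / 2 : ℝ)) (hTD2 : 2 * D ≤ T)
    (hK1 : ∀ j, ‖riemannZeta (1 + I * ((a j - b j : ℝ) : ℂ))‖ ≤ K1)
    (hK2 : ∀ j, ‖riemannZeta (1 - I * ((a j - b j : ℝ) : ℂ))‖ ≤ K1)
    (hone : ∀ v : ℝ, 1 ≤ |v| → |v| ≤ 2 * T → ‖riemannZeta (1 + I * v)‖ ≤ C7 * Real.log (2 * T))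
    (hh : h ∈ SepH n T) (π : Equiv.Perm (Fin (n + 1) ⊕ Fin (n + 1))) :
    ‖zp (gk a b h) π‖ ≤ BF (n + 1) (1 / 8) * ((2 * C7 + K1) * Real.log T) ^ ((n + 1) ^ 2) := by
  have hTp : 0 < T := by linarith
  have hlog2 : Real.log (2 * T) ≤ 2 * Real.log T := by
    rw [Real.log_mul (by norm_num) hTp.ne']
    have : Real.log 2 ≤ Real.log T := Real.log_le_log (by norm_num) (by linarith)
    linarith
  have m1 : K1 ≤ (2 * C7 + K1) * Real.log T := by
    calc K1 ≤ 2 * C7 + K1 := by linarith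
      _ = (2 * C7 + K1) * 1 := (mul_one _).symm
      _ ≤ (2 * C7 + K1) * Real.log T := mul_le_mul_of_nonneg_left hLg (by linarith)
  have m2 : C7 * Real.log (2 * T) ≤ (2 * C7 + K1) * Real.log T := by
    calc C7 * Real.log (2 * T) ≤ C7 * (2 * Real.log T) := mul_le_mul_of_nonneg_left hlog2 hC7.le
      _ = (2 * C7) * Real.log T := by ring
      _ ≤ (2 * C7 + K1) * Real.log T := mul_le_mul_of_nonneg_right (by linarith) (by linarith)
  refine zp_bdF (by positivity) (fun p q hpq => ?_) π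
  by_cases hcl : cl p = cl q
  · rcases p with p | p <;> rcases q with q | q
    · exact absurd (by simpa [cl] using hcl) (fun h : p = q => hpq (by rw [h]))
    · have hpq' : p = q := by simpa [cl] using hcl
      subst hpq'
      have e3 : (gk a b h (Sum.inl p) - gk a b h (Sum.inr p) : ℝ) = a p - b p := by
        simp [gk]
      rw [e3]
      exact (hK1 p).trans m1
    · have hpq' : p = q := by simpa [cl] using hcl
      subst hpq'
      have e3 : (1 + I * ((gk a b h (Sum.inr p) - gk a b h (Sum.inl p) : ℝ) : ℂ)) =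
          1 - I * ((a p - b p : ℝ) : ℂ) := by
        simp [gk]; ring
      rw [e3]
      exact (hK2 p).trans m1
    · exact absurd (by simpa [cl] using hcl) (fun h : p = q => hpq (by rw [h]))
  · have hs := SepH_diff hh hD hcl
    have hoff : ∀ p : Fin (n + 1) ⊕ Fin (n + 1), |Sum.elim a b p| ≤ D := by
      intro p
      cases p with
      | inl p => exact (hD p).1
      | inr p => exact (hD p).2
    have hcb : ∀ j, 0 ≤ hc h j ∧ hc h j ≤ T := by
      intro j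
      unfold hc
      refine Fin.cases ?_ (fun j => ?_) j
      · simp only [Fin.cons_zero]; exact ⟨le_rfl, hTp.le⟩
      · simp only [Fin.cons_succ]; exact hh.1 j
    have hup : |gk a b h p - gk a b h q| ≤ 2 * T := by
      rw [gk_eq, gk_eq, abs_le]
      have h1 := abs_le.1 (hoff p)
      have h2 := abs_le.1 (hoff q)
      have h3 := hcb (cl p)
      have h4 := hcb (cl q)
      constructor <;> linarith [h1.1, h1.2, h2.1, h2.2, h3.1, h3.2, h4.1, h4.2]
    exact (hone _ (by linarith) hup).trans m2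

set_option maxHeartbeats 40000000 in
theorem mainQ (hK1 : S_K1) (hOPB : S_OPB) (hVB : S_VBQ) (hQD : S_QDQ) (hTN : S_TNQ)
    (hSS : S_SSRQ) (hA4 : S_A4RQ) (hZM : S_ZMRQ) (hNS : S_NSQ) (hSW : S_SWQ) (hQ4 : S_Q4)
    (hONE : S_ONE) (n : ℕ) (hn : 1 ≤ n) :
    ∃ δ : ℝ, 0 < δ ∧ ∀ a b : Fin (n + 1) → ℝ, (∀ j, a j ≠ b j) → ∃ T₀ : ℝ, ∀ T : ℝ,
      T₀ ≤ T → mP (Fin n) T (BadQ a b T (T * T ^ (-δ))) ≤ ENNReal.ofReal (T ^ n * T ^ (-δ)) := by
  classical
  set k : ℕ := n + 1 with hk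
  obtain ⟨θ, hθ, hθ1, hpar⟩ := paramsF k (c := 1 / 8) (by norm_num) le_rfl
  have hk0 : (0:ℝ) ≤ k := Nat.cast_nonneg k
  set e : ℝ := θ / (8 * (k + 1)) with he
  have he0 : 0 < e := by positivity
  have heθ : e ≤ θ / 8 := by
    rw [he, div_le_div_iff₀ (by positivity) (by norm_num)]
    nlinarith
  have he1 : e ≤ 1 := by linarith
  have h4ke : 4 * k * e ≤ θ / 2 := by
    rw [he, ← mul_div_assoc, div_le_div_iff₀ (by positivity) (by norm_num)]
    nlinarith
  refine ⟨2 * θ, by positivity, fun a b hab => ?_⟩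
  obtain ⟨ψ, hψ⟩ := exists_cut
  obtain ⟨Cv, Tv, hCv, hTv, hv⟩ := vAll hVB a b hab he0
  obtain ⟨C1, T1, hC1, hT1, h1⟩ := opAll hK1 hOPB a b hab he0
  obtain ⟨C3, hC3, h3⟩ := hSS n ψ hψ
  obtain ⟨C4, M0, hC4, hM0, h4⟩ := hA4 n ψ hψ
  have hZM' : ∀ J : Finset (Fin (n + 1)), _ := fun J => hZM n (sw J a b) (sw J b a)
  choose C5 T5 B5 hC5 hT5 h5 using hZM'
  obtain ⟨C6, T6, hC6, hT6, h6⟩ := hSW n a b
  obtain ⟨C7, T7, hC7, hT7, h7⟩ := hONE
  obtain ⟨Cq, Tq, hCq, hTq, hq⟩ := Q_bound hQ4 (a 0) (b 0) he0 he1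
  obtain ⟨Ct, Tt, hCt0, hTt, ht⟩ := hTN n a b hab
  -- sums over the subsets
  set CS : ℝ := ∑ J : Finset (Fin (n + 1)), C5 J with hCS
  set TS : ℝ := ∑ J : Finset (Fin (n + 1)), T5 J with hTS
  set BS : ℕ := ∑ J : Finset (Fin (n + 1)), B5 J with hBS
  have hCS0 : 0 ≤ CS := Finset.sum_nonneg fun J _ => (hC5 J).le
  have hCSJ : ∀ J, C5 J ≤ CS := fun J =>
    Finset.single_le_sum (f := C5) (fun i _ => (hC5 i).le) (Finset.mem_univ J)
  have hTSJ : ∀ J, T5 J ≤ TS := fun J =>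
    Finset.single_le_sum (f := T5) (fun i _ => by linarith [hT5 i]) (Finset.mem_univ J)
  have hBSJ : ∀ J, B5 J ≤ BS := fun J =>
    Finset.single_le_sum (f := B5) (fun i _ => Nat.zero_le _) (Finset.mem_univ J)
  set D : ℝ := ∑ p : Fin (n + 1), (|a p| + |b p|) with hDdef
  have hD : ∀ p, |a p| ≤ D ∧ |b p| ≤ D := by
    intro p
    have g0 : |a p| + |b p| ≤ D := Finset.single_le_sum (f := fun p => |a p| + |b p|)
      (fun i _ => by positivity) (Finset.mem_univ p)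
    have g1 := abs_nonneg (a p)
    have g2 := abs_nonneg (b p)
    constructor <;> linarith
  have hD0 : 0 ≤ D := Finset.sum_nonneg fun i _ => by positivity
  set K0 : ℝ := ∑ J : Finset (Fin (n + 1)), ‖zc (sw J a b) (sw J b a)‖ with hK0
  have hK00 : 0 ≤ K0 := Finset.sum_nonneg fun J _ => norm_nonneg _
  have hK0J : ∀ J : Finset (Fin (n + 1)), ‖zc (sw J a b) (sw J b a)‖ ≤ K0 := fun J =>
    Finset.single_le_sum (f := fun J : Finset (Fin (n + 1)) => ‖zc (sw J a b) (sw J b a)‖)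
      (fun i _ => norm_nonneg _) (Finset.mem_univ J)
  set K1 : ℝ := ∑ j : Fin (n + 1), (‖riemannZeta (1 + I * ((a j - b j : ℝ) : ℂ))‖ +
    ‖riemannZeta (1 - I * ((a j - b j : ℝ) : ℂ))‖) with hK1def
  have hK10 : 0 ≤ K1 := Finset.sum_nonneg fun J _ => by positivity
  have hK1j : ∀ j : Fin (n + 1), ‖riemannZeta (1 + I * ((a j - b j : ℝ) : ℂ))‖ +
      ‖riemannZeta (1 - I * ((a j - b j : ℝ) : ℂ))‖ ≤ K1 := fun j =>
    Finset.single_le_sum (f := fun j : Fin (n + 1) =>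
      ‖riemannZeta (1 + I * ((a j - b j : ℝ) : ℂ))‖ + ‖riemannZeta (1 - I * ((a j - b j : ℝ) : ℂ))‖)
      (fun i _ => by positivity) (Finset.mem_univ j)
  have hK1a : ∀ j, ‖riemannZeta (1 + I * ((a j - b j : ℝ) : ℂ))‖ ≤ K1 := fun j => by
    have := hK1j j
    have := norm_nonneg (riemannZeta (1 - I * ((a j - b j : ℝ) : ℂ)))
    linarith
  have hK1b : ∀ j, ‖riemannZeta (1 - I * ((a j - b j : ℝ) : ℂ))‖ ≤ K1 := fun j => by
    have := hK1j j
    have := norm_nonneg (riemannZeta (1 + I * ((a j - b j : ℝ) : ℂ)))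
    linarith
  set P0 : ℝ := (Fintype.card (Equiv.Perm (Fin (n + 1) ⊕ Fin (n + 1))) : ℝ) with hP0
  have hP0' : 0 ≤ P0 := Nat.cast_nonneg _
  set P1 : ℝ := (Fintype.card (Finset (Fin (n + 1))) : ℝ) with hP1
  have hP1' : 0 ≤ P1 := Nat.cast_nonneg _
  set Z7 : ℝ := P0 * (BF k (1 / 8) * (2 * C7 + K1) ^ (k ^ 2)) with hZ7
  have hZ7' : 0 ≤ Z7 := mul_nonneg hP0' (mul_nonneg (BF_nonneg _ _) (by positivity))
  set Cc : ℝ := 4 ^ n * C1 ^ 2 + C3 + C4 + CS + P0 * C6 + Z7 + 16 * (n + 1) ^ 2 + Ct + P1 * K0 +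
    P1 with hCc
  set Bt : ℕ := BS + 2 + k ^ 2 with hBt
  obtain ⟨T0, hT0⟩ := hpar Cc Bt M0
  obtain ⟨Tw, hTw⟩ := eventually_atTop.1
    ((tendsto_rpow_atTop (half_pos hθ)).eventually_ge_atTop (Cv ^ n + Cv ^ (n - 1) + Cq))
  obtain ⟨Td, hTd⟩ := eventually_atTop.1
    ((tendsto_rpow_atTop (by norm_num : (0:ℝ) < 1 / 2)).eventually_ge_atTop (2 * D + 1))
  refine ⟨max T0 (max T1 (max Tv (max TS (max T6 (max T7 (max Tq (max Tt (max Tw
    (max Td (2 * D + 3)))))))))), fun T hT => ?_⟩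
  have hTT0 := (le_max_left _ _).trans hT
  have hT' := (le_max_right _ _).trans hT
  have hTT1 : T1 ≤ T := (le_max_left _ _).trans hT'
  have hT'' := (le_max_right _ _).trans hT'
  have hTTv : Tv ≤ T := (le_max_left _ _).trans hT''
  have hT3 := (le_max_right _ _).trans hT''
  have hTTS : TS ≤ T := (le_max_left _ _).trans hT3
  have hT5' := (le_max_right _ _).trans hT3
  have hTT6 : T6 ≤ T := (le_max_left _ _).trans hT5'
  have hT6' := (le_max_right _ _).trans hT5'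
  have hTT7 : T7 ≤ T := (le_max_left _ _).trans hT6'
  have hT7' := (le_max_right _ _).trans hT6'
  have hTTq : Tq ≤ T := (le_max_left _ _).trans hT7'
  have hT8 := (le_max_right _ _).trans hT7'
  have hTTt : Tt ≤ T := (le_max_left _ _).trans hT8
  have hT9 := (le_max_right _ _).trans hT8
  have hTTw : Tw ≤ T := (le_max_left _ _).trans hT9
  have hT10 := (le_max_right _ _).trans hT9
  have hTTd : Td ≤ T := (le_max_left _ _).trans hT10
  have hTD3 : 2 * D + 3 ≤ T := (le_max_right _ _).trans hT10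
  have hTD := hTd T hTTd
  have hTge3 : 3 ≤ T := by linarith
  have hTp : 0 < T := by linarith
  have hT1' : 1 ≤ T := by linarith
  -- the sizes
  have hHc : T ^ (1 / 8 : ℝ) ≤ T := by
    calc T ^ (1 / 8 : ℝ) ≤ T ^ (1 : ℝ) := Real.rpow_le_rpow_of_exponent_le hT1' (by norm_num)
      _ = T := Real.rpow_one T
  obtain ⟨y, N, L, P⟩ := hT0 T T hTT0 hHc
  have hT16 := P.hT
  have hLg := P.hlog
  have hy16 := P.hy16
  have hy0 : 0 < y := by linarith
  have hy1 : 1 ≤ y := by linarith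
  have hN1 : 1 ≤ N := by have := P.hN2; omega
  have hN0 : (0:ℝ) < N := by exact_mod_cast (by omega : 0 < N)
  have hN1r : (1:ℝ) ≤ N := by exact_mod_cast hN1
  have hL0 : (0:ℝ) < L := by have := P.hJ1; exact_mod_cast (by omega : 0 < L)
  have hTL : 0 < T / L := by positivity
  have hy1' : ∀ n : ℕ, 1 ≤ y ^ n := fun n => one_le_pow₀ hy1
  have hyn : ∀ n : ℕ, 1 ≤ n → 16 ≤ y ^ n := fun n hn =>
    hy16.trans (le_self_pow₀ hy1 (by omega))
  have hHh : T ^ (1 / 2 : ℝ) * T ^ (1 / 2 : ℝ) = T := by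
    rw [← Real.rpow_add hTp]; norm_num
  have hN8T : (N:ℝ) ≤ T ^ (1 / 8 : ℝ) := (le_self_pow₀ hN1r (by omega : 3 * k ≠ 0)).trans P.hN4
  have hN4T : (N:ℝ) ≤ T ^ (1 / 4 : ℝ) :=
    hN8T.trans (Real.rpow_le_rpow_of_exponent_le hT1' (by norm_num))
  have hNT : (N:ℝ) ≤ T := hN8T.trans hHc
  have cst : ∀ (a : ℝ) (b : ℕ), 0 ≤ a → a ≤ Cc → b ≤ Bt → a * Real.log T ^ b ≤ y := by
    intro a b hc0 hc hb
    refine le_trans ?_ P.hC
    have : Real.log T ^ b ≤ Real.log T ^ Bt := pow_le_pow_right₀ hLg hb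
    gcongr
  have hPC : 0 ≤ P0 * C6 := by positivity
  have hPK : 0 ≤ P1 * K0 := by positivity
  have hC12 : 0 ≤ 4 ^ n * C1 ^ 2 := by positivity
  have hk0' : (0:ℝ) ≤ 16 * (n + 1) ^ 2 := by positivity
  have c1 : 4 ^ n * C1 ^ 2 ≤ y := by simpa using cst _ 0 hC12 (by rw [hCc]; linarith) (by omega)
  have c3 : C3 ≤ y := by simpa using cst C3 0 hC3.le (by rw [hCc]; linarith) (by omega)
  have c4 : C4 ≤ y := by simpa using cst C4 0 hC4.le (by rw [hCc]; linarith) (by omega)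
  have c5 : ∀ J, C5 J * Real.log T ^ B5 J ≤ y := by
    intro J
    refine le_trans ?_ (cst CS BS hCS0 (by rw [hCc]; linarith) (by omega))
    have g1 : Real.log T ^ B5 J ≤ Real.log T ^ BS := pow_le_pow_right₀ hLg (hBSJ J)
    have g2 := hCSJ J
    have g3 : 0 ≤ Real.log T ^ B5 J := by positivity
    exact mul_le_mul g2 g1 g3 hCS0
  have c6 : P0 * C6 * Real.log T ^ 2 ≤ y := cst _ _ hPC (by rw [hCc]; linarith) (by omega)
  have c7 : Z7 * Real.log T ^ (k ^ 2) ≤ y := cst _ _ hZ7' (by rw [hCc]; linarith) (by omega)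
  have c8 : 16 * ((n:ℝ) + 1) ^ 2 ≤ y := by simpa using cst _ 0 hk0' (by rw [hCc]; linarith) (by omega)
  have c9 : Ct ≤ y := by simpa using cst Ct 0 hCt0.le (by rw [hCc]; linarith) (by omega)
  have c10 : P1 * K0 ≤ y := by simpa using cst _ 0 hPK (by rw [hCc]; linarith) (by omega)
  have c11 : P1 ≤ y := by simpa using cst _ 0 hP1' (by rw [hCc]; linarith) (by omega)
  have hone := (h7 (2 * T) 1 (by linarith) le_rfl (by
    push_cast
    exact Real.one_le_rpow (by linarith) (by norm_num))).1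
  -- the values of zeta
  set Z : ℝ := BF k (1 / 8) * ((2 * C7 + K1) * Real.log T) ^ (k ^ 2) with hZdef
  have hZ0 : 0 ≤ Z := by
    rw [hZdef]
    exact mul_nonneg (BF_nonneg _ _) (by positivity)
  have hZ : P0 * Z ≤ y := by
    refine le_trans (le_of_eq ?_) c7
    rw [hZ7, hZdef, mul_pow]; ring
  have hz : ∀ h ∈ SepH n T, ∀ π : Equiv.Perm (Fin (n + 1) ⊕ Fin (n + 1)),
      ‖zp (gk a b h) π‖ ≤ Z := fun h' hh' π =>
    zpQ hTge3 hLg hC7 hK10 hD hTD (by linarith) hK1a hK1b hone hh' π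
  have hTNd : ∀ h ∈ SepH n T, ∀ S : ℝ, 0 ≤ S → S ≤ T → ‖TNdq a b N S h‖ ≤ T / y ^ 4 := by
    intro h' hh' S hS0 hST
    have g1 : (N:ℝ) ^ (2 * n) ≤ (N:ℝ) ^ (3 * k) := pow_le_pow_right₀ hN1r (by omega)
    refine (ht T S N h' hTTt hS0 hST hN1 (g1.trans P.hN4) fun i => (hh'.1 i).1).trans ?_
    have g2 : (N:ℝ) ^ (2 * n) ≤ T ^ (1 / 12 : ℝ) := by
      have g3 : (N:ℝ) ^ (2 * n) ≤ ((N:ℝ) ^ (3 * k)) ^ (2 / 3 : ℝ) := by
        rw [← Real.rpow_natCast, ← Real.rpow_natCast, ← Real.rpow_mul hN0.le]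
        refine Real.rpow_le_rpow_of_exponent_le hN1r ?_
        rw [hk]
        push_cast
        linarith
      refine g3.trans ?_
      have g4 : ((N:ℝ) ^ (3 * k)) ^ (2 / 3 : ℝ) ≤ (T ^ (1 / 8 : ℝ)) ^ (2 / 3 : ℝ) :=
        Real.rpow_le_rpow (by positivity) P.hN4 (by norm_num)
      refine g4.trans (le_of_eq ?_)
      rw [← Real.rpow_mul hTp.le]
      norm_num
    have g5 : y ^ 5 ≤ T ^ (1 / 16 : ℝ) := by
      have g6 : (y ^ 40) ^ (1 / 8 : ℝ) ≤ (T ^ (1 / 2 : ℝ)) ^ (1 / 8 : ℝ) :=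
        Real.rpow_le_rpow (by positivity) P.hyH (by norm_num)
      rw [← Real.rpow_mul hTp.le, ← Real.rpow_natCast, ← Real.rpow_mul hy0.le] at g6
      rw [← Real.rpow_natCast]
      convert g6 using 2 <;> norm_num
    rw [le_div_iff₀ (by positivity)]
    calc Ct * (N:ℝ) ^ (2 * n) * T ^ (5 / 6 : ℝ) * y ^ 4
        ≤ y * T ^ (1 / 12 : ℝ) * T ^ (5 / 6 : ℝ) * y ^ 4 := by gcongr
      _ = y ^ 5 * (T ^ (1 / 12 : ℝ) * T ^ (5 / 6 : ℝ)) := by ring
      _ ≤ T ^ (1 / 16 : ℝ) * (T ^ (1 / 12 : ℝ) * T ^ (5 / 6 : ℝ)) := by gcongr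
      _ = T ^ ((1 / 16 : ℝ) + (1 / 12 + 5 / 6)) := by
          rw [← Real.rpow_add hTp, ← Real.rpow_add hTp]
      _ ≤ T ^ (1 : ℝ) := Real.rpow_le_rpow_of_exponent_le hT1' (by norm_num)
      _ = T := Real.rpow_one T
  -- the mean squares
  have hTw' := hTw T hTTw
  have hCvn : 0 ≤ Cv ^ n := by positivity
  have hCvn1 : 0 ≤ Cv ^ (n - 1) := by positivity
  have hTe1 : 1 ≤ T ^ e := Real.one_le_rpow hT1' he0.le
  have hyy : T ^ (θ / 2) * T ^ (θ / 2) = y := by
    rw [P.hy, ← Real.rpow_add hTp]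
    congr 1
    ring
  have hTen : ∀ m : ℕ, m ≤ n → (T ^ e) ^ m ≤ T ^ (θ / 2) := by
    intro m hm
    rw [← Real.rpow_natCast, ← Real.rpow_mul hTp.le]
    refine Real.rpow_le_rpow_of_exponent_le hT1' ?_
    have h5 : (m:ℝ) ≤ k := by
      rw [hk]; push_cast
      have : (m:ℝ) ≤ n := by exact_mod_cast hm
      linarith
    have h6 : 0 ≤ (k:ℝ) * e := by positivity
    calc e * (m:ℝ) ≤ e * k := by gcongr
      _ ≤ 4 * k * e := by linarith
      _ ≤ θ / 2 := h4ke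
  set V : ℝ := Cv * T ^ (1 + e) with hV
  have hV0 : 0 ≤ V := by positivity
  have hVe : V = Cv * T ^ e * T := by
    rw [hV, add_comm, Real.rpow_add hTp, Real.rpow_one]; ring
  have hVk : V ^ n ≤ y * T ^ n := by
    rw [hVe, mul_pow, mul_pow]
    have g1 := hTen n le_rfl
    calc Cv ^ n * (T ^ e) ^ n * T ^ n ≤ T ^ (θ / 2) * T ^ (θ / 2) * T ^ n := by
          gcongr
          linarith
      _ = y * T ^ n := by rw [hyy]
  have hVk1 : V ^ (n - 1) ≤ y * T ^ (n - 1) := by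
    rw [hVe, mul_pow, mul_pow]
    have g1 := hTen (n - 1) (by omega)
    calc Cv ^ (n - 1) * (T ^ e) ^ (n - 1) * T ^ (n - 1) ≤ T ^ (θ / 2) * T ^ (θ / 2) * T ^ (n - 1) := by
          gcongr
          linarith
      _ = y * T ^ (n - 1) := by rw [hyy]
  have hQS : ∀ S, 0 ≤ S → S ≤ T → ∫ t in (0:ℝ)..S, ‖Bab (a 0) (b 0) t‖ ^ 2 ≤ y * T := by
    intro S hS0 hST
    refine (hq T S hTTq hS0 hST).trans ?_
    have g1 : T ^ e ≤ T ^ (θ / 2) := Real.rpow_le_rpow_of_exponent_le hT1' (by linarith)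
    calc Cq * T ^ e * T ≤ T ^ (θ / 2) * T ^ (θ / 2) * T := by
          gcongr
          linarith
      _ = y * T := by rw [hyy]
  have hT2e : (T ^ e) ^ 2 ≤ y := by
    rw [P.hy, ← Real.rpow_natCast, ← Real.rpow_mul hTp.le]
    refine Real.rpow_le_rpow_of_exponent_le hT1' ?_
    push_cast
    linarith
  -- the target for each piece
  have hT2k : T ^ n = T * T ^ (n - 1) := by
    rw [← pow_succ']
    congr 1
    omega
  have hTk : 0 < T ^ n := by positivity
  have hTk1 : 0 < T ^ (n - 1) := by positivity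
  set b' : ℝ := T ^ n / y ^ 3 with hb'
  have hb0 : 0 < b' := by positivity
  have hNinv : 1 / (N:ℝ) ≤ 2 / y ^ 320 := by
    rw [div_le_div_iff₀ hN0 (by positivity)]
    have := P.hN
    linarith
  have hNinv' : 1 / (N:ℝ) ≤ 2 / y ^ 80 := by
    refine hNinv.trans ?_
    have : y ^ 80 ≤ y ^ 320 := pow_le_pow_right₀ hy1 (by norm_num)
    gcongr
  have hy80 : y ^ 80 ≤ T := by
    calc y ^ 80 = y ^ 40 * y ^ 40 := by ring
      _ ≤ T ^ (1 / 2 : ℝ) * T ^ (1 / 2 : ℝ) := by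
          have := P.hyH
          gcongr
      _ = T := hHh
  have hN3 : 2 * (N:ℝ) ^ (3 * (n + 1) ^ 2) ≤ T := P.hN3
  -- the three differences
  have b3 : C3 * T ^ n * (N:ℝ) ^ (-(1 / 8) : ℝ) * y ^ 10 ≤ b' / (4 * y) := by
    have e := P.hN8
    calc C3 * T ^ n * (N:ℝ) ^ (-(1 / 8) : ℝ) * y ^ 10
        ≤ y * T ^ n * (2 / y ^ 40) * y ^ 10 := by gcongr
      _ = T ^ n / y ^ 3 / (4 * y) * (8 / y ^ 25) := by field_simp; ring
      _ ≤ T ^ n / y ^ 3 / (4 * y) * 1 := by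
          gcongr
          rw [div_le_one (by positivity)]
          linarith [hyn 25 (by norm_num)]
      _ = b' / (4 * y) := by rw [mul_one]
  have b4 : C4 * T ^ n * (N:ℝ) ^ (-(1 / 8) : ℝ) * y ^ 10 ≤ b' / (4 * y) := by
    have e := P.hN8
    calc C4 * T ^ n * (N:ℝ) ^ (-(1 / 8) : ℝ) * y ^ 10
        ≤ y * T ^ n * (2 / y ^ 40) * y ^ 10 := by gcongr
      _ = T ^ n / y ^ 3 / (4 * y) * (8 / y ^ 25) := by field_simp; ring
      _ ≤ T ^ n / y ^ 3 / (4 * y) * 1 := by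
          gcongr
          rw [div_le_one (by positivity)]
          linarith [hyn 25 (by norm_num)]
      _ = b' / (4 * y) := by rw [mul_one]
  have b5 : ∀ c : ℝ, c ≤ y → c * T ^ n / N * y ^ 10 ≤ b' / (4 * y) := by
    intro c hc
    calc c * T ^ n / N * y ^ 10 = c * T ^ n * (1 / N) * y ^ 10 := by ring
      _ ≤ y * T ^ n * (2 / y ^ 80) * y ^ 10 := by gcongr
      _ = T ^ n / y ^ 3 / (4 * y) * (8 / y ^ 65) := by field_simp; ring
      _ ≤ T ^ n / y ^ 3 / (4 * y) * 1 := by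
          gcongr
          rw [div_le_one (by positivity)]
          linarith [hyn 65 (by norm_num)]
      _ = b' / (4 * y) := by rw [mul_one]
  have w1 : mP (Fin n) T (⋃ J : Finset (Fin (n + 1)), W3q ψ (sw J a b) (sw J b a) T y N) ≤
      ENNReal.ofReal b' := by
    have each : ∀ J : Finset (Fin (n + 1)), mP (Fin n) T (W3q ψ (sw J a b) (sw J b a) T y N) ≤
        ENNReal.ofReal (3 * (b' / (4 * y))) := fun J =>
      cheb3q (c := b' / (4 * y)) hy0 (sw_le hD J) hTD (h3 _ _ T N P.hN2 hNT)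
        (h4 _ _ T N P.hM hT1' hN3) (h5 J T N ((hTSJ J).trans hTTS) hN1 hN4T) (by positivity)
        b3 b4 (b5 _ (c5 J))
    have hsub : (⋃ J : Finset (Fin (n + 1)), W3q ψ (sw J a b) (sw J b a) T y N) =
        ⋃ J ∈ (Finset.univ : Finset (Finset (Fin (n + 1)))), W3q ψ (sw J a b) (sw J b a) T y N := by
      simp
    rw [hsub]
    refine (measure_biUnion_finset_le _ _).trans ((Finset.sum_le_sum fun J _ => each J).trans ?_)
    rw [Finset.sum_const, nsmul_eq_mul, Finset.card_univ, ← ENNReal.ofReal_natCast,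
      ← ENNReal.ofReal_mul (by positivity)]
    refine ENNReal.ofReal_le_ofReal ?_
    calc (Fintype.card (Finset (Fin (n + 1))) : ℝ) * (3 * (b' / (4 * y)))
        ≤ y * (3 * (b' / (4 * y))) := by gcongr
      _ = 3 / 4 * b' := by field_simp
      _ ≤ b' := by linarith
  have hgrid : ∀ i ∈ Finset.range (L + 1), 0 ≤ (i:ℝ) * (T / L) ∧ (i:ℝ) * (T / L) ≤ T := by
    intro i hi
    have hi' : (i:ℝ) ≤ L := by exact_mod_cast Nat.lt_succ_iff.1 (Finset.mem_range.1 hi)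
    refine ⟨by positivity, ?_⟩
    calc (i:ℝ) * (T / L) ≤ L * (T / L) := by gcongr
      _ = T := by field_simp
  have hL3 : ((L + 1 : ℕ) : ℝ) ≤ 3 * y ^ 16 := by
    push_cast
    have := P.hJu
    linarith [hyn 16 (by norm_num)]
  -- U1
  set KK : ℝ := (C1 * T ^ (1 + e) * (N : ℝ) ^ (-(1 / 2) : ℝ)) ^ 2 with hKK
  have hKK0 : 0 ≤ KK := by positivity
  have hKKe : KK = C1 ^ 2 * (T ^ e) ^ 2 * T ^ 2 * (1 / N) := by
    have g1 : (N:ℝ) ^ (-(1 / 2) : ℝ) * (N:ℝ) ^ (-(1 / 2) : ℝ) = 1 / N := by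
      rw [← Real.rpow_add hN0]
      norm_num
      rw [Real.rpow_neg_one]
    have g2 : T ^ (1 + e) = T ^ e * T := by
      rw [add_comm, Real.rpow_add hTp, Real.rpow_one]
    rw [hKK, g2, ← g1]
    ring
  have u1 : ∑ i ∈ Finset.range (L + 1), mP (Fin n) T
      {h | T / y ^ 4 < ‖A1q a b N (i * (T / L)) h‖} ≤ ENNReal.ofReal b' := by
    refine sum_ofReal_le' (b := 4 ^ n * KK * V ^ (n - 1) * (y * T) /
      (T / y ^ 4) ^ 2) (fun i hi => ?_) ?_
    · obtain ⟨g0, g1⟩ := hgrid i hi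
      refine cheb ((A1q_cont a b N _).norm.aemeasurable) (by positivity)
        ((z1Q T _ KK V N a b hTp.le g0 hKK0 hV0 (fun i R hR => h1 i T _ N R hTT1 g0 g1 hN1 hN8T hR)
          (fun i v hv0 hv1 => (hv i T v N hTTv hv0 (hv1.trans g1) hN1 hN8T).1)
          (fun i v hv0 hv1 => (hv i T v N hTTv hv0 (hv1.trans g1) hN1 hN8T).2)).trans
          (ENNReal.ofReal_le_ofReal ?_))
      have := hQS _ g0 g1
      gcongr
    · calc ((L + 1 : ℕ) : ℝ) * (4 ^ n * KK * V ^ (n - 1) * (y * T) / (T / y ^ 4) ^ 2)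
          = ((L + 1 : ℕ) : ℝ) * ((4 ^ n * C1 ^ 2) * (T ^ e) ^ 2 * T ^ 2 * (1 / N) * V ^ (n - 1) *
              (y * T) / (T / y ^ 4) ^ 2) := by rw [hKKe]; ring
        _ ≤ (3 * y ^ 16) * (y * y * T ^ 2 * (2 / y ^ 80) * (y * T ^ (n - 1)) * (y * T) /
              (T / y ^ 4) ^ 2) := by gcongr
        _ = T ^ n / y ^ 3 * (6 / y ^ 49) := by
            rw [hT2k]; field_simp; ring
        _ ≤ T ^ n / y ^ 3 * 1 := by
            gcongr
            rw [div_le_one (by positivity)]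
            linarith [hyn 49 (by norm_num)]
        _ = b' := by rw [mul_one]
  -- U6
  have hTr : T ^ (n - 1 : ℝ) = T ^ (n - 1) := by
    rw [← Real.rpow_natCast]
    congr 1
    rw [Nat.cast_sub (by omega)]
    push_cast
    ring
  have u6 : ∑ i ∈ Finset.range (L + 1), mP (Fin n) T
      (⋃ π ∈ Oq n, {h | T / y ^ 8 < ‖IG (i * (T / L)) (gk a b h) π‖}) ≤ ENNReal.ofReal b' := by
    refine sum_ofReal_le' (b := P0 * (C6 * T ^ 2 * Real.log T ^ 2 * T ^ (n - 1) /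
      (T / y ^ 8) ^ 2)) (fun i hi => ?_) ?_
    · obtain ⟨g0, g1⟩ := hgrid i hi
      refine (measure_biUnion_finset_le _ _).trans ?_
      calc ∑ π ∈ Oq n, mP (Fin n) T {h | T / y ^ 8 < ‖IG (i * (T / L)) (gk a b h) π‖}
          ≤ ∑ _π ∈ Oq n, ENNReal.ofReal (C6 * T ^ 2 * Real.log T ^ 2 * T ^ (n - 1) /
              (T / y ^ 8) ^ 2) := by
            refine Finset.sum_le_sum fun π hπ => ?_
            have hsw := h6 T _ π hTT6 g0 g1 hπ
            rw [hTr] at hsw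
            exact cheb (((IG_cont _ π).comp (gk_cont a b)).norm.aemeasurable)
              (by positivity) hsw
        _ = ENNReal.ofReal (((Oq n).card : ℝ) * (C6 * T ^ 2 * Real.log T ^ 2 *
              T ^ (n - 1) / (T / y ^ 8) ^ 2)) := by
            rw [Finset.sum_const, nsmul_eq_mul, ENNReal.ofReal_mul (by positivity),
              ENNReal.ofReal_natCast]
        _ ≤ _ := by
            refine ENNReal.ofReal_le_ofReal ?_
            gcongr
            rw [hP0]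
            exact_mod_cast Finset.card_le_univ _
    · calc ((L + 1 : ℕ) : ℝ) * (P0 * (C6 * T ^ 2 * Real.log T ^ 2 * T ^ (n - 1) /
            (T / y ^ 8) ^ 2))
          = ((L + 1 : ℕ) : ℝ) * ((P0 * C6 * Real.log T ^ 2) * T ^ 2 * T ^ (n - 1) /
              (T / y ^ 8) ^ 2) := by
            ring
        _ ≤ (3 * y ^ 16) * (y * T ^ 2 * T ^ (n - 1) / (T / y ^ 8) ^ 2) := by
            gcongr
        _ = (3 * y ^ 33) * T ^ (n - 1) := by
            field_simp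
        _ = T ^ (n - 1) * y ^ 80 / y ^ 3 * (3 / y ^ 44) := by field_simp
        _ ≤ T ^ (n - 1) * T / y ^ 3 * 1 := by
            have g9 : 3 / y ^ 44 ≤ 1 := by
              rw [div_le_one (by positivity)]
              linarith [hyn 44 (by norm_num)]
            have g10 : T ^ (n - 1) * y ^ 80 / y ^ 3 ≤ T ^ (n - 1) * T / y ^ 3 := by
              gcongr
            exact mul_le_mul g10 g9 (by positivity) (by positivity)
        _ = b' := by rw [mul_one, hb', hT2k]; ring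
  -- U7
  have u7 : ∑ i ∈ Finset.range L, mP (Fin n) T {h | T / y ^ 4 <
      ∫ t in (i * (T / L))..((i + 1 : ℕ) * (T / L)), ‖ZQ a b h t‖} ≤ ENNReal.ofReal b' := by
    set cI : ℕ → ℝ := fun i => ∫ t in ((i:ℝ) * (T / L))..((i + 1 : ℕ) * (T / L)),
      ‖Bab (a 0) (b 0) t‖ ^ 2 with hcI
    have hcI0 : ∀ i, 0 ≤ cI i := fun i => by
      rw [hcI]
      refine intervalIntegral.integral_nonneg ?_ fun t _ => sq_nonneg _
      gcongr
      push_cast; linarith
    have hsum : ∑ i ∈ Finset.range L, cI i ≤ y * T := by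
      have hB2 : Continuous fun t : ℝ => ‖Bab (a 0) (b 0) t‖ ^ 2 := (Bab_cont _ _).norm.pow 2
      have := intervalIntegral.sum_integral_adjacent_intervals (μ := volume)
        (f := fun t : ℝ => ‖Bab (a 0) (b 0) t‖ ^ 2) (a := fun i : ℕ => (i:ℝ) * (T / L)) (n := L)
        fun i _ => hB2.intervalIntegrable _ _
      rw [hcI, this]
      have e1 : ((0 : ℕ) : ℝ) * (T / L) = 0 := by simp
      have e2 : (L:ℝ) * (T / L) = T := by field_simp
      rw [e1, e2]
      exact hQS T hTp.le le_rfl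
    have each : ∀ i ∈ Finset.range L, mP (Fin n) T {h | T / y ^ 4 <
        ∫ t in (i * (T / L))..((i + 1 : ℕ) * (T / L)), ‖ZQ a b h t‖} ≤
        ENNReal.ofReal ((T / L) * V ^ n / (T / y ^ 4) ^ 2 * cI i) := by
      intro i hi
      obtain ⟨g0, _⟩ := hgrid i (Finset.mem_range.2 (by have := Finset.mem_range.1 hi; omega))
      obtain ⟨_, g1⟩ := hgrid (i + 1) (Finset.mem_range.2 (by have := Finset.mem_range.1 hi; omega))
      have hle : (i:ℝ) * (T / L) ≤ ((i + 1 : ℕ) : ℝ) * (T / L) := by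
        gcongr
        push_cast; linarith
      have hh := z2Q T _ _ V a b hTp.le hle hV0 (fun i v hv0 hv1 =>
        (hv i T v N hTTv (g0.trans hv0) (hv1.trans g1) hN1 hN8T).1)
      have e : ((i + 1 : ℕ) : ℝ) * (T / L) - i * (T / L) = T / L := by push_cast; ring
      rw [e] at hh
      refine (cheb ((intZQ_cont a b _ _).aemeasurable) (by positivity) hh).trans
        (ENNReal.ofReal_le_ofReal (le_of_eq ?_))
      rw [hcI]
      ring
    refine (Finset.sum_le_sum each).trans ?_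
    rw [← ENNReal.ofReal_sum_of_nonneg (fun i _ => mul_nonneg (by positivity) (hcI0 i)),
      ← Finset.mul_sum]
    refine ENNReal.ofReal_le_ofReal ?_
    calc (T / L) * V ^ n / (T / y ^ 4) ^ 2 * ∑ i ∈ Finset.range L, cI i
        ≤ (T / L) * (y * T ^ n) / (T / y ^ 4) ^ 2 * (y * T) := by
          refine mul_le_mul ?_ hsum (Finset.sum_nonneg fun i _ => hcI0 i) (by positivity)
          gcongr
      _ = y ^ 10 * T ^ n * (1 / L) := by field_simp
      _ ≤ y ^ 10 * T ^ n * (1 / y ^ 16) := by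
          have := P.hJl
          gcongr
      _ = T ^ n / y ^ 3 * (1 / y ^ 3) := by field_simp
      _ ≤ T ^ n / y ^ 3 * 1 := by
          gcongr
          rw [div_le_one (by positivity)]
          exact hy1' 3
      _ = b' := by rw [mul_one]
  -- U8
  have u8 : mP (Fin n) T (SepH n T)ᶜ ≤ ENNReal.ofReal b' := by
    refine (hNS n T hT1').trans (ENNReal.ofReal_le_ofReal ?_)
    have e : T ^ (n - 1 / 2 : ℝ) = T ^ n / T ^ (1 / 2 : ℝ) := by
      rw [Real.rpow_sub hTp]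
      congr 1
      exact Real.rpow_natCast T n
    rw [e]
    have hyT2 := P.hyH
    calc 4 * ((n:ℝ) + 1) ^ 2 * (T ^ n / T ^ (1 / 2 : ℝ)) ≤ y * (T ^ n / y ^ 40) := by
          gcongr
          nlinarith [sq_nonneg ((n:ℝ) + 1)]
      _ = T ^ n / y ^ 3 * (1 / y ^ 36) := by field_simp
      _ ≤ T ^ n / y ^ 3 * 1 := by
          gcongr
          rw [div_le_one (by positivity)]
          exact hy1' 36
      _ = b' := by rw [mul_one]
  -- conclusion
  have eL : T * T ^ (-(2 * θ)) = T / y ^ 2 := by rw [P.e1]; ring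
  have eH : T ^ n * T ^ (-(2 * θ)) = T ^ n / y ^ 2 := by rw [P.e1]; ring
  rw [eL, eH]
  refine (measure_mono (BadQ_sub hQD ψ hTge3 hy16 P.hJ1 P.hJl hK00 c10 hK0J hZ0 hZ hz
    hTNd)).trans ?_
  have step : ∀ {A B : Set (Fin n → ℝ)} {x z : ℝ}, 0 ≤ x → 0 ≤ z →
      mP (Fin n) T A ≤ ENNReal.ofReal x → mP (Fin n) T B ≤ ENNReal.ofReal z →
      mP (Fin n) T (A ∪ B) ≤ ENNReal.ofReal (x + z) := by
    intro A B x z hx hz hA hB
    rw [ENNReal.ofReal_add hx hz]
    exact (measure_union_le _ _).trans (add_le_add hA hB)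
  have tot := step (by positivity) (by positivity) (step (by positivity) (by positivity)
    (step (by positivity) (by positivity) (step (by positivity) (by positivity) u8 w1)
    ((measure_biUnion_finset_le _ _).trans u1)) ((measure_biUnion_finset_le _ _).trans u6))
    ((measure_biUnion_finset_le _ _).trans u7)
  refine tot.trans (ENNReal.ofReal_le_ofReal ?_)
  have e7 : b' + b' + b' + b' + b' = 5 * b' := by ring
  rw [e7, hb']
  calc 5 * (T ^ n / y ^ 3) ≤ y * (T ^ n / y ^ 3) := by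
        gcongr
        linarith
    _ = T ^ n / y ^ 2 := by field_simp

end

end Pool.Agent.T2H54.CL
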