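import Pool.Agent.T2H54.CL.Stm
import Pool.Agent.T2H54.TP.CTR

/-!
Package CTRQ of the project CL: the smoothed sum of the reduced coefficients by a contour shift
(port of `Pool.Agent.T2H54.TP.CTR`).
-/

set_option autoImplicit false

namespace Pool.Agent.T2H54.CL

open Complex Filter Topology MeasureTheory Set
open Pool.Agent.TH612.CF Pool.Agent.TH612.GS Pool.Agent.T2H54.SB Pool.Agent.T2H54.TP
open Pool.Agent.TH757.GS
open Pool.Agent.W182.KO hiding ee SS_summable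
open Pool.Agent.T2H54.TP.PkgCTR

noncomputable section

namespace PkgCTRQ

lemma moA_eq (c : ℝ) (g : ℕ) : moA c g = fm c 0 g := by
  show (ArithmeticFunction.moebius g : ℂ) * (g : ℂ) ^ (-(1 + I * (c : ℂ))) = fm c 0 g
  unfold fm
  simp

lemma conv_le (f g : ArithmeticFunction ℂ) {F G e : ℝ} (hF : 0 ≤ F) (hG : 0 ≤ G)
    (hf : ∀ m : ℕ, 1 ≤ m → ‖f m‖ ≤ F * (m : ℝ) ^ e)
    (hg : ∀ m : ℕ, 1 ≤ m → ‖g m‖ ≤ G * (m : ℝ) ^ e)
    {C δ : ℝ} (hC : ∀ m : ℕ, 1 ≤ m → (m.divisors.card : ℝ) ≤ C * (m : ℝ) ^ δ) (m : ℕ)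
    (hm : 1 ≤ m) : ‖(f * g) m‖ ≤ C * (F * G) * (m : ℝ) ^ (e + δ) := by
  have hm0 : (0 : ℝ) < m := by exact_mod_cast hm
  rw [ArithmeticFunction.mul_apply]
  refine (norm_sum_le_of_le _ (n := fun _ => F * G * (m : ℝ) ^ e) fun p hp => ?_).trans ?_
  · have hp' := Nat.mem_divisorsAntidiagonal.1 hp
    have hp1 : 1 ≤ p.1 := Nat.one_le_iff_ne_zero.2 fun h => hp'.2 (by rw [← hp'.1, h, zero_mul])
    have hp2 : 1 ≤ p.2 := Nat.one_le_iff_ne_zero.2 fun h => hp'.2 (by rw [← hp'.1, h, mul_zero])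
    have h1 := hf p.1 hp1
    have h2 := hg p.2 hp2
    have h4 : (m : ℝ) ^ e = (p.1 : ℝ) ^ e * (p.2 : ℝ) ^ e := by
      rw [← Real.mul_rpow (by positivity) (by positivity), ← hp'.1]
      push_cast
      rfl
    rw [norm_mul, h4]
    calc ‖f p.1‖ * ‖g p.2‖ ≤ (F * (p.1 : ℝ) ^ e) * (G * (p.2 : ℝ) ^ e) := by gcongr
      _ = _ := by ring
  · rw [Finset.sum_const, nsmul_eq_mul]
    have h5 : ((m.divisorsAntidiagonal).card : ℝ) ≤ C * (m : ℝ) ^ δ := by
      have h6 : (m.divisorsAntidiagonal).card = m.divisors.card := by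
        rw [← Nat.map_div_right_divisors, Finset.card_map]
      rw [h6]
      exact hC m hm
    calc _ ≤ (C * (m : ℝ) ^ δ) * (F * G * (m : ℝ) ^ e) := by gcongr
      _ = _ := by rw [Real.rpow_add hm0]; ring

lemma mo_le (k : ℕ) : ∀ δ : ℝ, 0 < δ → ∃ D : ℝ, 0 ≤ D ∧ ∀ (c : Fin k → ℝ) (m : ℕ), 1 ≤ m →
    ‖(∏ j, moA (c j)) m‖ ≤ D * (m : ℝ) ^ (-1 + δ) := by
  induction k with
  | zero =>
    intro δ hδ
    refine ⟨1, zero_le_one, fun c m hm => ?_⟩
    rw [Finset.univ_eq_empty, Finset.prod_empty, one_mul]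
    by_cases h : m = 1
    · subst h
      simp
    · rw [ArithmeticFunction.one_apply_ne h, norm_zero]
      positivity
  | succ k ih =>
    intro δ hδ
    obtain ⟨D, hD0, hD⟩ := ih (δ / 2) (by linarith)
    obtain ⟨C, hC0, hC⟩ := Pool.Agent.H510R2.divisor_bound (δ / 2) (by linarith)
    refine ⟨C * (1 * D), by positivity, fun c m hm => ?_⟩
    rw [Fin.prod_univ_succ]
    have h := conv_le (moA (c 0)) (∏ j : Fin k, moA (c j.succ)) (e := -1 + δ / 2) zero_le_one hD0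
      (fun g hg => by
        rw [moA_eq, one_mul]
        refine (fm_le (c 0) 0 hg).trans ?_
        exact Real.rpow_le_rpow_of_exponent_le (by exact_mod_cast hg) (by linarith))
      (fun g hg => hD (fun j => c j.succ) g hg) hC m hm
    have e : (-1 + δ / 2 + δ / 2 : ℝ) = -1 + δ := by ring
    rw [e] at h
    exact h

variable {n : ℕ}

lemma Aq_zero (a b : Fin (n + 1) → ℝ) (h : Fin n → ℝ) : Aq a b h 0 = 0 := by
  simp

lemma Aq_le (n : ℕ) : ∃ D : ℝ, 0 ≤ D ∧ ∀ (a b : Fin (n + 1) → ℝ) (h : Fin n → ℝ) (m : ℕ), 1 ≤ m →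
    ‖Aq a b h m‖ ≤ D * (m : ℝ) ^ (-(31 / 32) : ℝ) := by
  obtain ⟨D, hD0, hD⟩ := dr_le' (n + 1)
  obtain ⟨D', hD0', hD'⟩ := mo_le (n + 1) (1 / 64) (by norm_num)
  obtain ⟨C, hC0, hC⟩ := Pool.Agent.H510R2.divisor_bound (1 / 64) (by norm_num)
  refine ⟨C * (D' * D), by positivity, fun a b h m hm => ?_⟩
  have e1 : (-1 + 1 / 64 : ℝ) = -(63 / 64) := by norm_num
  rw [e1] at hD'
  have h1 := conv_le (∏ j, moA (a j - b j)) (drA (gk a b h)) (e := -(63 / 64)) hD0' hD0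
    (fun g hg => hD' (fun j => a j - b j) g hg) (fun g hg => hD (gk a b h) g hg) hC m hm
  have e2 : (-(63 / 64) + 1 / 64 : ℝ) = -(31 / 32) := by norm_num
  rw [e2] at h1
  exact h1

/-! ### the series -/

lemma LS_mo (k : ℕ) (s : ℂ) (hs : s.re = 1 / 4) : ∀ c : Fin k → ℝ,
    LSeriesSummable (fun m => (∏ j, moA (c j)) m) s ∧
    LSeries (fun m => (∏ j, moA (c j)) m) s * ∏ j, riemannZeta (1 + s + I * (c j : ℂ)) = 1 := by
  induction k with
  | zero =>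
    intro c
    have e0 : (fun m => (∏ j : Fin 0, moA (c j)) m) =
        (fun m => (1 : ArithmeticFunction ℂ) m) := by
      funext m
      rw [Finset.univ_eq_empty, Finset.prod_empty]
    rw [e0]
    have e1 : (fun m => (1 : ArithmeticFunction ℂ) m) = LSeries.delta := by
      funext m
      unfold LSeries.delta
      rw [ArithmeticFunction.one_apply]
    rw [e1]
    refine ⟨?_, ?_⟩
    · refine summable_of_ne_finset_zero (s := {1}) fun m hm => ?_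
      rw [LSeries.term_delta, if_neg (fun h => hm (Finset.mem_singleton.2 h))]
    · rw [LSeries_delta]
      simp
  | succ k ih =>
    intro c
    obtain ⟨h1, h2⟩ := ih (fun j => c j.succ)
    have e0 : (fun m => (∏ j : Fin (k + 1), moA (c j)) m) =
        (fun m => (moA (c 0) * ∏ j : Fin k, moA (c j.succ)) m) := by
      funext m
      rw [Fin.prod_univ_succ]
    have e1 : (fun m => moA (c 0) m) = fm (c 0) 0 := by
      funext m
      exact moA_eq _ _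
    have h3 : LSeriesSummable (fun m => moA (c 0) m) s := by
      rw [e1]
      exact sm_fm (c 0) 0 hs
    have h4 : LSeries (fun m => moA (c 0) m) s * riemannZeta (1 + s + I * (c 0 : ℂ)) = 1 := by
      have h5 := LS_fm (c 0) 0 hs
      rw [e1]
      have e2 : (1 + s + I * (c 0 : ℂ)) = 1 + s + I * (((c 0 : ℝ) : ℂ) - ((0 : ℝ) : ℂ)) := by
        push_cast
        ring
      rw [e2]
      exact h5
    rw [e0, Fin.prod_univ_succ]
    refine ⟨ArithmeticFunction.LSeriesSummable_mul h3 h1, ?_⟩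
    have h6 := ArithmeticFunction.LSeries_mul' h3 h1
    rw [h6]
    linear_combination (LSeries (fun m => (∏ j : Fin k, moA (c j.succ)) m) s *
      ∏ j : Fin k, riemannZeta (1 + s + I * (c j.succ : ℂ))) * h4 + h2

lemma prod_OD (f : Fin (n + 1) × Fin (n + 1) → ℂ) :
    ∏ j, ∏ l, f (j, l) = (∏ j, f (j, j)) * ∏ p ∈ OD n, f p := by
  have h6 := Fintype.prod_prod_type f
  rw [← h6, ← Finset.prod_filter_mul_prod_filter_not Finset.univ
    (fun p : Fin (n + 1) × Fin (n + 1) => p.1 = p.2)]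
  congr 1
  symm
  refine Finset.prod_nbij' (fun j => (j, j)) (fun p => p.1) ?_ ?_ ?_ ?_ ?_
  · intro j _
    simp
  · intro p _
    exact Finset.mem_univ _
  · intro j _
    rfl
  · intro p hp
    have hp' : p.1 = p.2 := (Finset.mem_filter.1 hp).2
    exact Prod.ext rfl hp'
  · intro j _
    rfl

lemma gk_diag (a b : Fin (n + 1) → ℝ) (h : Fin n → ℝ) (j : Fin (n + 1)) :
    ((gk a b h (Sum.inl j) : ℝ) : ℂ) - (gk a b h (Sum.inr j) : ℂ) = ((a j - b j : ℝ) : ℂ) := by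
  show ((hc h j + a j : ℝ) : ℂ) - ((hc h j + b j : ℝ) : ℂ) = _
  push_cast
  ring

lemma Aq_series (a b : Fin (n + 1) → ℝ) (h : Fin n → ℝ) {s : ℂ} (hs : s.re = 1 / 4) :
    ∑' m : ℕ, Aq a b h m * (m : ℂ) ^ (-s) =
      FH (as (gk a b h) s) (bs (gk a b h) s) * ∏ p ∈ OD n,
        riemannZeta (1 + s + I * ((gk a b h (Sum.inl p.1) : ℂ) -
          (gk a b h (Sum.inr p.2) : ℂ))) := by
  obtain ⟨hm1, hm2⟩ := LS_mo (n + 1) s hs (fun j => a j - b j)
  have hd := gk_diag a b h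
  set γ := gk a b h with hγ
  have hdr0 : dr γ 0 = 0 := by
    unfold dr
    exact dg_zero _ _
  have hd1 : LSeriesSummable (fun m => drA γ m) s := sm_dr γ hs
  have h1 := ArithmeticFunction.LSeries_mul' hm1 hd1
  have h2 : (fun m => ((∏ j, moA (a j - b j)) * drA γ) m) = fun m => Aq a b h m := rfl
  rw [h2, LS_eq _ (Aq_zero a b h)] at h1
  rw [h1]
  have h2' : LSeries (fun m => drA γ m) s = ∑' m : ℕ, dr γ m * (m : ℂ) ^ (-s) := LS_eq (dr γ) hdr0 s
  rw [h2']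
  have hT : Tb (1 / 8) (as γ s) (bs γ s) := Tb_as γ (by rw [hs]; norm_num)
  have h3 := zh_eq (a := as γ s) (b := bs γ s) (c := 1 / 8) (δ := 1 / 8) (by norm_num) hT
    (by norm_num) (fun j => by
      rw [as_im, bs_im, hs]
      constructor <;> norm_num)
  have h4 : ∑' m, dg (as γ s) (bs γ s) m = ∑' m : ℕ, dr γ m * (m : ℂ) ^ (-s) := by
    refine tsum_congr fun m => ?_
    rcases Nat.eq_zero_or_pos m with rfl | hm
    · rw [dg_zero, hdr0, zero_mul]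
    · exact dg_as γ s m (by omega)
  have e2 : ∀ j l, 1 + I * as γ s j - I * bs γ s l =
      1 + s + I * ((γ (Sum.inl j) : ℂ) - (γ (Sum.inr l) : ℂ)) := by
    intro j l
    unfold as bs
    linear_combination (-s) * I_mul_I
  rw [h4] at h3
  simp only [e2] at h3
  rw [← h3]
  have h5 := prod_OD (fun p : Fin (n + 1) × Fin (n + 1) =>
    riemannZeta (1 + s + I * ((γ (Sum.inl p.1) : ℂ) - (γ (Sum.inr p.2) : ℂ))))
  simp only at h5
  rw [h5]
  simp only [hd]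
  linear_combination (FH (as γ s) (bs γ s) * ∏ p ∈ OD n,
        riemannZeta (1 + s + I * ((γ (Sum.inl p.1) : ℂ) - (γ (Sum.inr p.2) : ℂ)))) * hm2

lemma EA_GMq (n : ℕ) : ∃ K : ℝ, 0 ≤ K ∧ ∀ (a b : Fin (n + 1) → ℝ) (h : Fin n → ℝ) (M : ℕ) (s : ℂ),
    1 ≤ M → s.re = 1 / 4 →
    ‖EA M (Aq a b h) s - GMq M a b h s‖ ≤ K * (M : ℝ) ^ (-(3 / 16) : ℝ) := by
  obtain ⟨D, hD0, hD⟩ := Aq_le n
  have hZ1 : (1 : ℝ) ≤ max 1 Z0 := le_max_left _ _
  have hBF : 0 ≤ BF (n + 1) (1 / 8) := (Real.exp_pos _).le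
  refine ⟨D * Z0 + BF (n + 1) (1 / 8) * ((OD n).card * (max 1 Z0) ^ (OD n).card * Z0),
    by have := Z0_nonneg; positivity, fun a b h M s hM hs => ?_⟩
  have hM0 : (0 : ℝ) < M := by exact_mod_cast hM
  set γ := gk a b h with hγ
  have hT : Tb (1 / 8) (as γ s) (bs γ s) := Tb_as γ (by rw [hs]; norm_num)
  have hf : ∀ m : ℕ, 1 ≤ m → ‖Aq a b h m * (m : ℂ) ^ (-s)‖ ≤ D * (m : ℝ) ^ (-(39 / 32) : ℝ) := by
    intro m hm
    have hm0 : (0 : ℝ) < m := by exact_mod_cast hm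
    rw [norm_mul, Complex.norm_natCast_cpow_of_pos hm, Complex.neg_re, hs]
    have e : (m : ℝ) ^ (-(39 / 32) : ℝ) = (m : ℝ) ^ (-(31 / 32) : ℝ) * (m : ℝ) ^ (-(1 / 4) : ℝ) := by
      rw [← Real.rpow_add hm0]
      norm_num
    rw [e, ← mul_assoc]
    exact mul_le_mul_of_nonneg_right (hD a b h m hm) (by positivity)
  obtain ⟨_, _, _, h2⟩ := tl hD0 (by rw [Aq_zero, zero_mul]) hf
  have h3 := h2 M hM
  rw [Aq_series a b h hs] at h3
  have e1 : ∑ m ∈ Finset.Icc 1 M, Aq a b h m * (m : ℂ) ^ (-s) = EA M (Aq a b h) s := rfl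
  rw [e1, ← hγ] at h3
  have hre : ∀ j l, (1 + s + I * ((γ (Sum.inl j) : ℂ) - (γ (Sum.inr l) : ℂ))).re = 5 / 4 := by
    intro j l
    have e : (1 + s + I * ((γ (Sum.inl j) : ℂ) - (γ (Sum.inr l) : ℂ))).re = 1 + s.re := by simp
    rw [e, hs]
    norm_num
  have h4 := prod_sub_le (OD n)
    (fun x => riemannZeta (1 + s + I * ((γ (Sum.inl x.1) : ℂ) - (γ (Sum.inr x.2) : ℂ))))
    (fun x => zN M (1 + s + I * ((γ (Sum.inl x.1) : ℂ) - (γ (Sum.inr x.2) : ℂ))))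
    (Z := max 1 Z0) (e := Z0 * (M : ℝ) ^ (-(3 / 16) : ℝ)) hZ1
    (by have := Z0_nonneg; positivity)
    (fun x _ => (zt (hre x.1 x.2)).1.trans (le_max_right _ _))
    (fun x _ => ((zt (hre x.1 x.2)).2.1 M).trans (le_max_right _ _))
    (fun x _ => (zt (hre x.1 x.2)).2.2 M hM)
  have e3 : GMq M a b h s = FH (as γ s) (bs γ s) *
      ∏ p ∈ OD n, zN M (1 + s + I * ((γ (Sum.inl p.1) : ℂ) - (γ (Sum.inr p.2) : ℂ))) := rfl
  rw [e3]
  set F := FH (as γ s) (bs γ s) with hF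
  set A := ∏ p ∈ OD n,
    riemannZeta (1 + s + I * ((γ (Sum.inl p.1) : ℂ) - (γ (Sum.inr p.2) : ℂ)))
  set B := ∏ p ∈ OD n, zN M (1 + s + I * ((γ (Sum.inl p.1) : ℂ) - (γ (Sum.inr p.2) : ℂ)))
  have h5 : ‖F‖ ≤ BF (n + 1) (1 / 8) := FH_le (by norm_num) hT
  have h6 : ‖F * (A - B)‖ ≤ BF (n + 1) (1 / 8) *
      (((OD n).card : ℝ) * (max 1 Z0) ^ (OD n).card * (Z0 * (M : ℝ) ^ (-(3 / 16) : ℝ))) := by
    rw [norm_mul]
    gcongr
  have e4 : EA M (Aq a b h) s - F * B = F * (A - B) - (F * A - EA M (Aq a b h) s) := by ring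
  rw [e4]
  refine (norm_sub_le _ _).trans ?_
  calc _ ≤ BF (n + 1) (1 / 8) *
      (((OD n).card : ℝ) * (max 1 Z0) ^ (OD n).card * (Z0 * (M : ℝ) ^ (-(3 / 16) : ℝ))) +
      D * Z0 * (M : ℝ) ^ (-(3 / 16) : ℝ) := add_le_add h6 h3
    _ = _ := by ring

/-! ### analytic properties -/

lemma GMq_diff (M : ℕ) (a b : Fin (n + 1) → ℝ) (h : Fin n → ℝ) :
    DifferentiableOn ℂ (GMq M a b h) {s : ℂ | |s.re| < 3 / 8} := by
  have hU : IsOpen {s : ℂ | |s.re| < 3 / 8} :=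
    isOpen_lt (continuous_abs.comp Complex.continuous_re) continuous_const
  have h1 := FH_diff (a := fun s => as (gk a b h) s) (b := fun s => bs (gk a b h) s)
    (c := 3 / 16) hU (by norm_num)
    (fun j => by unfold as; fun_prop) (fun j => by unfold bs; fun_prop)
    (fun s hs => Tb_as (gk a b h) (by
      have hs' : |s.re| < 3 / 8 := hs
      linarith))
  have h2 : DifferentiableOn ℂ (fun s : ℂ => ∏ p ∈ OD n,
      zN M (1 + s + I * ((gk a b h (Sum.inl p.1) : ℂ) - (gk a b h (Sum.inr p.2) : ℂ))))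
      {s : ℂ | |s.re| < 3 / 8} := by
    intro s hs
    refine DifferentiableWithinAt.fun_finsetProd fun p _ => ?_
    exact ((zN_diff M).comp (by fun_prop : Differentiable ℂ fun s : ℂ =>
      1 + s + I * ((gk a b h (Sum.inl p.1) : ℂ) - (gk a b h (Sum.inr p.2) : ℂ)))).differentiableAt.differentiableWithinAt
  exact h1.mul h2

lemma GMq_bd (M : ℕ) (a b : Fin (n + 1) → ℝ) (h : Fin n → ℝ) {s : ℂ} (hs : |s.re| ≤ 1 / 4) :
    ‖GMq M a b h s‖ ≤ BF (n + 1) (1 / 8) * (M : ℝ) ^ (OD n).card := by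
  have hT : Tb (1 / 8) (as (gk a b h) s) (bs (gk a b h) s) := Tb_as (gk a b h) (by linarith)
  have e3 : GMq M a b h s = FH (as (gk a b h) s) (bs (gk a b h) s) *
      ∏ p ∈ OD n,
        zN M (1 + s + I * ((gk a b h (Sum.inl p.1) : ℂ) - (gk a b h (Sum.inr p.2) : ℂ))) := rfl
  rw [e3, norm_mul]
  have h1 := FH_le (by norm_num) hT
  have h2 : ‖∏ p ∈ OD n,
      zN M (1 + s + I * ((gk a b h (Sum.inl p.1) : ℂ) - (gk a b h (Sum.inr p.2) : ℂ)))‖ ≤
      (M : ℝ) ^ (OD n).card := by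
    rw [norm_prod]
    refine (Finset.prod_le_prod (fun _ _ => norm_nonneg _) (g := fun _ => (M : ℝ))
      (fun x _ => zN_le M ?_)).trans ?_
    · have e : (1 + s + I * ((gk a b h (Sum.inl x.1) : ℂ) - (gk a b h (Sum.inr x.2) : ℂ))).re =
          1 + s.re := by simp
      rw [e]
      have := (abs_le.1 hs).1
      linarith
    · rw [Finset.prod_const]
  have hBF : 0 ≤ BF (n + 1) (1 / 8) := (Real.exp_pos _).le
  gcongr

end PkgCTRQ

open PkgCTRQ in
theorem t_CTRQ : S_CTRQ := by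
  intro n ψ hψ
  obtain ⟨K, hK0, hK⟩ := EA_GMq n
  obtain ⟨C, M₀, hC, hM₀, hh⟩ := cont_abs ψ hψ K hK0
  refine ⟨C, M₀, hC, hM₀, fun M a b h hM => ?_⟩
  exact hh M (Aq a b h) (GMq M a b h) _ hM (GMq_diff M a b h) (fun s hs => GMq_bd M a b h hs)
    (fun s hs => hK a b h M s (by omega) hs)

end

end Pool.Agent.T2H54.CL
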