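import Pool.Agent.T2H54.CL.Stm
import Pool.Agent.T2H54.TP.GLR
import Pool.Agent.T2H54.TP.ZMR

/-!
Package GLRQ of the project CL: mean square of `GMq` to the left (sister of
`Pool.Agent.T2H54.TP.GLR`), from the high moments `S_MVK`.
-/

set_option autoImplicit false

namespace Pool.Agent.T2H54.CL

open Complex MeasureTheory Set
open Pool.Agent.TH612.GS Pool.Agent.T2H54.SB
open Pool.Agent.T2H54.TP.PkgGLR (prod_le_sum_pow')
open Pool.Agent.T2H54.TP.ZMR (fubR)
open scoped ENNReal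

noncomputable section

namespace PkgGLRQ

variable {n : ℕ}

/-- the differences -/
def dv (a b : Fin (n + 1) → ℝ) (h : Fin n → ℝ) (p : Fin (n + 1) × Fin (n + 1)) : ℝ :=
  gk a b h (Sum.inl p.1) - gk a b h (Sum.inr p.2)

lemma dv_eq (a b : Fin (n + 1) → ℝ) (h : Fin n → ℝ) (p : Fin (n + 1) × Fin (n + 1)) :
    dv a b h p = (hc h p.1 + a p.1) - (hc h p.2 + b p.2) := rfl

lemma hc0 (h : Fin n → ℝ) : hc h 0 = 0 := rfl

lemma hcs (h : Fin n → ℝ) (i : Fin n) : hc h i.succ = h i := rfl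

lemma hc_meas (j : Fin (n + 1)) : Measurable fun h : Fin n → ℝ => hc h j := by
  rcases Fin.eq_zero_or_eq_succ j with rfl | ⟨i, rfl⟩
  · simp only [hc0]
    exact measurable_const
  · simp only [hcs]
    exact measurable_pi_apply _

lemma dv_meas (v : ℝ) (a b : Fin (n + 1) → ℝ) (p : Fin (n + 1) × Fin (n + 1)) :
    Measurable fun h : Fin n → ℝ => v + dv a b h p := by
  simp only [dv_eq]
  exact (((hc_meas p.1).add_const _).sub ((hc_meas p.2).add_const _)).const_add v

lemma dv_upd (v : ℝ) (a b : Fin (n + 1) → ℝ) (p : Fin (n + 1) × Fin (n + 1)) (hp : p ∈ OD n) :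
    ∃ q : Fin n, ∀ x : Fin n → ℝ,
      (∃ w : ℝ, ∀ c, v + dv a b (Function.update x q c) p = w + c) ∨
      ∃ w : ℝ, ∀ c, v + dv a b (Function.update x q c) p = w - c := by
  obtain ⟨i, j⟩ := p
  have hij : i ≠ j := (Finset.mem_filter.1 hp).2
  simp only [dv_eq]
  rcases Fin.eq_zero_or_eq_succ i with hi | ⟨i', hi⟩
  · rcases Fin.eq_zero_or_eq_succ j with hj | ⟨j', hj⟩
    · exact absurd (hi.trans hj.symm) hij
    · subst hi hj
      refine ⟨j', fun x => Or.inr ⟨v + a 0 - b j'.succ, fun c => ?_⟩⟩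
      rw [hc0, hcs, Function.update_self]
      ring
  · subst hi
    refine ⟨i', fun x => Or.inl ?_⟩
    rcases Fin.eq_zero_or_eq_succ j with hj | ⟨j', hj⟩
    · subst hj
      refine ⟨v + a i'.succ - b 0, fun c => ?_⟩
      rw [hc0, hcs, Function.update_self]
      ring
    · subst hj
      have hne : j' ≠ i' := fun h => hij (by rw [h])
      refine ⟨v + a i'.succ - (x j' + b j'.succ), fun c => ?_⟩
      rw [hcs, hcs, Function.update_self, Function.update_of_ne hne]
      ring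

lemma zN_cont (M : ℕ) : Continuous fun u : ℝ => zN M (3 / 4 + I * (u : ℂ)) := by
  unfold zN
  refine continuous_finsetSum _ fun m hm => ?_
  have hm0 : (m : ℂ) ≠ 0 := by
    have := (Finset.mem_Icc.1 hm).1
    exact_mod_cast (by omega : m ≠ 0)
  refine Continuous.const_cpow (by fun_prop) (Or.inl hm0)

/-- the function on the line -/
def GG' (M K : ℕ) (u : ℝ) : ℝ≥0∞ := ENNReal.ofReal (‖zN M (3 / 4 + I * (u : ℂ))‖ ^ (2 * K))

lemma GG'_meas (M K : ℕ) : Measurable (GG' M K) :=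
  (((zN_cont M).norm.pow (2 * K)).measurable).ennreal_ofReal

lemma window {M K : ℕ} {C T : ℝ} (hT : 0 ≤ T)
    (h : ∀ x : ℝ, ∫ u in x..(x + T), ‖zN M (3 / 4 + I * (u : ℂ))‖ ^ (2 * K) ≤ C * T) (w : ℝ) :
    ∫⁻ c in Icc (0 : ℝ) T, GG' M K (w + c) ≤ ENNReal.ofReal (C * T) := by
  have hc : Continuous fun c : ℝ => ‖zN M (3 / 4 + I * ((w + c : ℝ) : ℂ))‖ ^ (2 * K) :=
    ((zN_cont M).norm.pow (2 * K)).comp (continuous_const.add continuous_id)
  have h1 : ∫⁻ c in Icc (0 : ℝ) T, GG' M K (w + c) =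
      ENNReal.ofReal (∫ c in Icc (0 : ℝ) T, ‖zN M (3 / 4 + I * ((w + c : ℝ) : ℂ))‖ ^ (2 * K)) := by
    rw [ofReal_integral_eq_lintegral_ofReal]
    · rfl
    · exact hc.continuousOn.integrableOn_Icc
    · exact Filter.Eventually.of_forall fun c => by positivity
  rw [h1]
  apply ENNReal.ofReal_le_ofReal
  rw [integral_Icc_eq_integral_Ioc, ← intervalIntegral.integral_of_le hT]
  have h2 := intervalIntegral.integral_comp_add_left (a := 0) (b := T)
    (fun u : ℝ => ‖zN M (3 / 4 + I * (u : ℂ))‖ ^ (2 * K)) w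
  rw [h2, add_zero]
  exact h w

lemma card_OD_le (n : ℕ) : (OD n).card ≤ (n + 1) ^ 2 := by
  refine (Finset.card_le_univ _).trans ?_
  rw [Fintype.card_prod, Fintype.card_fin, sq]

end PkgGLRQ

open PkgGLRQ in
theorem t_GLRQ (hMVK : S_MVK) : S_GLRQ := by
  intro n
  have hFH : ∀ (γ : Fin (n + 1) ⊕ Fin (n + 1) → ℝ) (v : ℝ),
      ‖Pool.Agent.TH612.CF.FH (fun j => (γ (Sum.inl j) : ℂ) - I * (-(1 / 4) + I * v) / 2)
        (fun j => (γ (Sum.inr j) : ℂ) + I * (-(1 / 4) + I * v) / 2)‖ ≤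
        Pool.Agent.TH612.CF.BF (n + 1) (1 / 8) := by
    intro γ v
    refine Pool.Agent.TH612.CF.FH_le (by norm_num) (fun j => ?_)
    constructor
    · have : (((γ (Sum.inl j) : ℝ) : ℂ) - I * (-(1 / 4) + I * v) / 2).im = 1 / 8 := by
        simp
        norm_num
      rw [this]
      norm_num
    · have : (((γ (Sum.inr j) : ℝ) : ℂ) + I * (-(1 / 4) + I * v) / 2).im = -(1 / 8) := by
        simp
        norm_num
      rw [this]
      norm_num
  obtain ⟨B, hB⟩ : ∃ B : ℝ, B = Pool.Agent.TH612.CF.BF (n + 1) (1 / 8) := ⟨_, rfl⟩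
  rw [← hB] at hFH
  rcases Finset.eq_empty_or_nonempty (OD n) with hOD | hOD
  · -- no pairs: then `n = 0`
    have hn : n = 0 := by
      by_contra hn0
      have h1 : ((0 : Fin (n + 1)), Fin.last n) ∈ OD n := by
        unfold OD
        rw [Finset.mem_filter]
        refine ⟨Finset.mem_univ _, ?_⟩
        intro h
        have h2 := congrArg (fun x : Fin (n + 1) => (x : ℕ)) h
        simp at h2
        omega
      rw [hOD] at h1
      exact absurd h1 (Finset.notMem_empty _)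
    subst hn
    refine ⟨B ^ 2 + 1, by positivity, ?_⟩
    intro a b T M v _ _ hT
    have h1 : ∀ h : Fin 0 → ℝ,
        ENNReal.ofReal (‖GMq M a b h (-(1 / 4) + I * v)‖ ^ 2) ≤
        ENNReal.ofReal (B ^ 2 + 1) := by
      intro h
      apply ENNReal.ofReal_le_ofReal
      have h2 : ‖GMq M a b h (-(1 / 4) + I * v)‖ ≤ B := by
        unfold GMq
        rw [hOD, Finset.prod_empty, mul_one]
        exact hFH _ v
      have h3 := pow_le_pow_left₀ (norm_nonneg _) h2 2
      linarith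
    refine (lintegral_mono h1).trans ?_
    rw [lintegral_const]
    have h4 : (mP (Fin 0) T) univ = 1 := by
      unfold mP
      rw [Measure.pi_univ]
      simp
    rw [h4]
    simp
  -- at least one pair
  obtain ⟨K, hK⟩ : ∃ K : ℕ, K = (OD n).card := ⟨_, rfl⟩
  have hK2 : K ≤ (n + 1) ^ 2 := by
    rw [hK]
    exact card_OD_le n
  have hn1 : 1 ≤ n := by
    by_contra hn0
    have hn : n = 0 := by omega
    subst hn
    obtain ⟨p, hp⟩ := hOD
    unfold OD at hp
    rw [Finset.mem_filter] at hp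
    exact hp.2 (Fin.ext (by omega))
  obtain ⟨C, hC0, hC⟩ := hMVK K
  refine ⟨B ^ 2 * (K * C) + 1, by positivity, ?_⟩
  intro a b T M v hM hMT hT
  have hT0 : 0 ≤ T := by linarith
  have hM1 : (1 : ℝ) ≤ M := by exact_mod_cast hM
  have hMK : (M : ℝ) ^ (2 * K) ≤ T := by
    have h1 : (M : ℝ) ^ (2 * K) ≤ (M : ℝ) ^ (3 * (n + 1) ^ 2) :=
      pow_le_pow_right₀ hM1 (by omega)
    have h2 : (0 : ℝ) ≤ (M : ℝ) ^ (3 * (n + 1) ^ 2) := by positivity
    linarith
  have hwin : ∀ w : ℝ, ∫⁻ c in Icc (0 : ℝ) T, GG' M K (w + c) ≤ ENNReal.ofReal (C * T) :=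
    window hT0 (fun x => hC x T M hM hMK hT)
  have hpt : ∀ h : Fin n → ℝ,
      ENNReal.ofReal (‖GMq M a b h (-(1 / 4) + I * v)‖ ^ 2) ≤
      ENNReal.ofReal (B ^ 2) * ∑ p ∈ OD n, GG' M K (v + dv a b h p) := by
    intro h
    unfold GG'
    rw [← ENNReal.ofReal_sum_of_nonneg (fun p _ => by positivity),
      ← ENNReal.ofReal_mul (by positivity)]
    apply ENNReal.ofReal_le_ofReal
    unfold GMq
    rw [norm_mul, mul_pow]
    have h1 := hFH (gk a b h) v
    have he : ∀ p : Fin (n + 1) × Fin (n + 1), zN M (1 + (-(1 / 4) + I * v) +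
        I * ((gk a b h (Sum.inl p.1) : ℂ) - (gk a b h (Sum.inr p.2) : ℂ))) =
        zN M (3 / 4 + I * ((v + dv a b h p : ℝ) : ℂ)) := by
      intro p
      congr 1
      unfold dv
      push_cast
      ring
    have h2 : ‖∏ p ∈ OD n, zN M (1 + (-(1 / 4) + I * v) +
        I * ((gk a b h (Sum.inl p.1) : ℂ) - (gk a b h (Sum.inr p.2) : ℂ)))‖ ^ 2 ≤
        ∑ p ∈ OD n, ‖zN M (3 / 4 + I * ((v + dv a b h p : ℝ) : ℂ))‖ ^ (2 * K) := by
      have h3 := prod_le_sum_pow' (OD n) hOD (fun p =>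
        ‖zN M (3 / 4 + I * ((v + dv a b h p : ℝ) : ℂ))‖ ^ 2) (fun p => by positivity)
      rw [← hK] at h3
      rw [norm_prod, ← Finset.prod_pow]
      simp only [he]
      refine h3.trans (le_of_eq (Finset.sum_congr rfl fun p _ => ?_))
      rw [← pow_mul]
    exact mul_le_mul (pow_le_pow_left₀ (norm_nonneg _) h1 2) h2 (by positivity) (by positivity)
  have hmeas : ∀ p ∈ OD n, Measurable fun h : Fin n → ℝ => GG' M K (v + dv a b h p) :=
    fun p _ => (GG'_meas M K).comp (dv_meas v a b p)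
  refine (lintegral_mono hpt).trans ?_
  rw [lintegral_const_mul _ (Finset.measurable_sum _ hmeas), lintegral_finsetSum _ hmeas]
  have hb : ∀ p ∈ OD n, ∫⁻ h, GG' M K (v + dv a b h p) ∂(mP (Fin n) T) ≤
      ENNReal.ofReal (C * T ^ n) := by
    intro p hp
    obtain ⟨q, hq⟩ := dv_upd v a b p hp
    refine (fubR (fun h : Fin n → ℝ => v + dv a b h p) (dv_meas v a b p) q hq (GG'_meas M K)
      hwin).trans (le_of_eq ?_)
    rw [Fintype.card_fin, ← ENNReal.ofReal_pow hT0, ← ENNReal.ofReal_mul (by positivity)]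
    congr 1
    have : T ^ n = T * T ^ (n - 1) := by
      rw [← pow_succ']
      congr 1
      omega
    rw [this]
    ring
  refine (mul_le_mul_right (Finset.sum_le_sum hb) _).trans ?_
  rw [Finset.sum_const, ← hK, nsmul_eq_mul, ← ENNReal.ofReal_natCast,
    ← ENNReal.ofReal_mul (by positivity), ← ENNReal.ofReal_mul (by positivity)]
  apply ENNReal.ofReal_le_ofReal
  have : 0 ≤ T ^ n := by positivity
  nlinarith

end

end Pool.Agent.T2H54.CL
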