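import Pool.Agent.T2H54.CL.Stm
import Pool.Agent.T2H54.TP.TSM
import Pool.Agent.T2H54.TP.SPC
import Pool.Agent.T2H54.TP.TAB

set_option autoImplicit false

/-! Package K1 (helper16): the Fourier transform of the pair minus its short polynomial. -/

namespace Pool.Agent.T2H54.CL

open Complex Filter Topology MeasureTheory Set
open Pool.Agent.TH612.CF Pool.Agent.TH612.GS Pool.Agent.T2H54.SB Pool.Agent.T2H54.TP
open Pool.Agent.Y969.GP (ht lam PS FR)

noncomputable section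

namespace K1p

open Pool.Agent.T2H54.TP.TSMp Pool.Agent.T2H54.TP.SPCp

/-- the terms of the approximate functional equation, twisted -/
def Gx (d ξ : ℝ) (p : ℕ × ℕ) (u : ℝ) : ℂ :=
  (cW d p u : ℂ) * ((p.2 : ℂ) ^ (I * (d : ℂ)) + Xd d u * (p.1 : ℂ) ^ (-(I * (d : ℂ)))) *
    cexp (I * ((u * lam p : ℝ) : ℂ)) * cexp (I * ((u * ξ : ℝ) : ℂ))

/-- the coefficient of the short polynomial -/
def kq (d : ℝ) (l m : ℕ) (u : ℝ) : ℂ :=
  kap 0 d l m * riemannZeta (1 - I * d) + kap d 0 l m * riemannZeta (1 + I * d) * Xd d u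

/-- the short polynomial -/
def Dd (d : ℝ) (N : ℕ) (u : ℝ) : ℂ := ∑ q ∈ FR N, kq d q.1 q.2 u * cexp (-(I * ((u * lam q : ℝ) : ℂ)))

lemma nexp (x : ℝ) : ‖cexp (I * (x : ℂ))‖ = 1 := by
  rw [mul_comm I]
  exact Complex.norm_exp_ofReal_mul_I _

lemma Gx_contOn (hW : S_WD) (d : ℝ) (hd : d ≠ 0) (A B ξ : ℝ) (p : ℕ × ℕ) (hA : 0 < A)
    (hp1 : 1 ≤ p.1) (hp2 : 1 ≤ p.2) : ContinuousOn (Gx d ξ p) (Icc A B) := by
  have hh : 0 < 2 * Real.pi * ht p := by
    have := TSMp.ht_pos p hp1 hp2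
    have := Real.pi_pos
    positivity
  have h1 := Wd_contOn hW d hd A B (2 * Real.pi * ht p) hA hh
  have hX := (TSMp.Xd_cont d).continuousOn (s := Icc A B)
  have h2 : ContinuousOn (fun u : ℝ => ((cW d p u : ℝ) : ℂ)) (Icc A B) := by
    unfold cW
    exact Complex.continuous_ofReal.comp_continuousOn (continuousOn_const.mul h1)
  unfold Gx
  refine ((h2.mul (continuousOn_const.add (hX.mul continuousOn_const))).mul ?_).mul ?_
  · exact (by fun_prop : Continuous fun u : ℝ => cexp (I * ((u * lam p : ℝ) : ℂ))).continuousOn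
  · exact (by fun_prop : Continuous fun u : ℝ => cexp (I * ((u * ξ : ℝ) : ℂ))).continuousOn

lemma Gx_eq (d ξ : ℝ) (p : ℕ × ℕ) (u : ℝ) : Gx d ξ p u =
    ((√(ht p))⁻¹ : ℝ) * (p.2 : ℂ) ^ (I * (d : ℂ)) * ((Wd d (2 * Real.pi * ht p / u) : ℂ) *
      cexp (I * ((u * (lam p + ξ) : ℝ) : ℂ))) +
    ((√(ht p))⁻¹ : ℝ) * (p.1 : ℂ) ^ (-(I * (d : ℂ))) * ((Wd d (2 * Real.pi * ht p / u) : ℂ) *
      Xd d u * cexp (I * ((u * (lam p + ξ) : ℝ) : ℂ))) := by
  have h1 : cexp (I * ((u * (lam p + ξ) : ℝ) : ℂ)) = cexp (I * ((u * lam p : ℝ) : ℂ)) *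
      cexp (I * ((u * ξ : ℝ) : ℂ)) := by
    rw [← Complex.exp_add]
    congr 1
    push_cast
    ring
  rw [h1]
  unfold Gx cW
  push_cast
  ring

lemma mk_nonneg' (U x : ℝ) (hU : 0 ≤ U) : 0 ≤ Y969.GP.mk U x := by
  unfold Y969.GP.mk
  positivity

/-- the bound of one term -/
lemma big (hW : S_WD) (hBV : S_BV) (d : ℝ) (hd : d ≠ 0) : ∃ C : ℝ, 0 < C ∧
    ∀ (A B U ξ : ℝ) (p : ℕ × ℕ), 16 + |d| ≤ A → A ≤ B → B ≤ U → 1 ≤ p.1 → 1 ≤ p.2 →
    ‖∫ u in A..B, Gx d ξ p u‖ ≤ C * (1 + Real.log U) * ((√(ht p))⁻¹ * Y969.GP.mk U (lam p + ξ)) := by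
  obtain ⟨C, hC, h1⟩ := hBV d hd
  obtain ⟨⟨C1, hC1, hw1⟩, -, -, -⟩ := hW d hd
  refine ⟨4 * C + 4 * C1, by positivity, ?_⟩
  intro A B U ξ p hA hAB hBU hp1 hp2
  have hA16 : 16 ≤ A := by have := abs_nonneg d; linarith
  have hA0 : 0 < A := by linarith
  have hU0 : 0 < U := by linarith
  have hlU : 0 ≤ Real.log U := Real.log_nonneg (by linarith)
  have hlB : Real.log B ≤ Real.log U := Real.log_le_log (by linarith) hBU
  have hlB0 : 0 ≤ Real.log B := Real.log_nonneg (by linarith)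
  have hh : 0 < 2 * Real.pi * ht p := by
    have := TSMp.ht_pos p hp1 hp2
    have := Real.pi_pos
    positivity
  have hs : 0 ≤ (√(ht p))⁻¹ := by positivity
  have hmk0 := mk_nonneg' U (lam p + ξ) hU0.le
  have hsm : 0 ≤ (√(ht p))⁻¹ * Y969.GP.mk U (lam p + ξ) := mul_nonneg hs hmk0
  rcases le_or_gt (U * |lam p + ξ|) 1 with hsmall | hlarge
  · -- trivial bound
    have hmk : U ≤ 2 * Y969.GP.mk U (lam p + ξ) := by
      unfold Y969.GP.mk
      have hden : 0 < 1 + U * |lam p + ξ| := by positivity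
      rw [← mul_div_assoc, le_div_iff₀ hden]
      nlinarith
    have hb : ∀ u ∈ Set.uIoc A B, ‖Gx d ξ p u‖ ≤ 2 * C1 * (√(ht p))⁻¹ := by
      intro u hu
      rw [uIoc_of_le hAB] at hu
      have hu0 : 0 < u := hA0.trans hu.1
      have hw := (hw1 (2 * Real.pi * ht p / u) (by positivity)).1
      unfold Gx cW
      rw [norm_mul, norm_mul, norm_mul, nexp, nexp, mul_one, mul_one, Complex.norm_real,
        Real.norm_eq_abs, abs_mul, abs_of_nonneg hs]
      have h2 : ‖(p.2 : ℂ) ^ (I * (d : ℂ)) + Xd d u * (p.1 : ℂ) ^ (-(I * (d : ℂ)))‖ ≤ 2 := by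
        refine (norm_add_le _ _).trans ?_
        rw [norm_mul, ncpow hp2, ncpow' hp1, TSMp.Xd_norm]
        norm_num
      calc (√(ht p))⁻¹ * |Wd d (2 * Real.pi * ht p / u)| *
          ‖(p.2 : ℂ) ^ (I * (d : ℂ)) + Xd d u * (p.1 : ℂ) ^ (-(I * (d : ℂ)))‖
          ≤ (√(ht p))⁻¹ * C1 * 2 := by
            refine mul_le_mul (mul_le_mul_of_nonneg_left hw hs) h2 (norm_nonneg _) (by positivity)
        _ = _ := by ring
    have h3 := intervalIntegral.norm_integral_le_of_norm_le_const hb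
    refine h3.trans ?_
    have h4 : |B - A| ≤ U := by
      rw [abs_of_nonneg (by linarith)]
      linarith
    calc 2 * C1 * (√(ht p))⁻¹ * |B - A| ≤ 2 * C1 * (√(ht p))⁻¹ * (2 * Y969.GP.mk U (lam p + ξ)) :=
          mul_le_mul_of_nonneg_left (h4.trans hmk) (by positivity)
      _ = 4 * C1 * ((√(ht p))⁻¹ * Y969.GP.mk U (lam p + ξ)) := by ring
      _ ≤ (4 * C + 4 * C1) * (1 + Real.log U) * ((√(ht p))⁻¹ * Y969.GP.mk U (lam p + ξ)) := by
          refine mul_le_mul_of_nonneg_right ?_ hsm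
          nlinarith [mul_nonneg hC.le hlU, mul_nonneg hC1.le hlU]
  · have hΘ : lam p + ξ ≠ 0 := by
      intro h0
      rw [h0, abs_zero, mul_zero] at hlarge
      linarith
    have hΘ0 : 0 < |lam p + ξ| := abs_pos.2 hΘ
    have hmk : 1 / |lam p + ξ| ≤ 2 * Y969.GP.mk U (lam p + ξ) := by
      unfold Y969.GP.mk
      have hden : 0 < 1 + U * |lam p + ξ| := by positivity
      rw [← mul_div_assoc, div_le_div_iff₀ hΘ0 hden]
      nlinarith
    obtain ⟨h2, h3⟩ := h1 A B (2 * Real.pi * ht p) (lam p + ξ) hA hAB hh hΘ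
    have hWc := Wd_contOn hW d hd A B (2 * Real.pi * ht p) hA0 hh
    have hWc' : ContinuousOn (fun u : ℝ => ((Wd d (2 * Real.pi * ht p / u) : ℝ) : ℂ)) (Icc A B) :=
      Complex.continuous_ofReal.comp_continuousOn hWc
    have hE : ContinuousOn (fun u : ℝ => cexp (I * ((u * (lam p + ξ) : ℝ) : ℂ)))
        (Icc A B) := (by fun_prop : Continuous fun u : ℝ =>
          cexp (I * ((u * (lam p + ξ) : ℝ) : ℂ))).continuousOn
    have hX := (TSMp.Xd_cont d).continuousOn (s := Icc A B)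
    have i1 : IntervalIntegrable (fun u : ℝ => ((Wd d (2 * Real.pi * ht p / u) : ℂ) *
        cexp (I * ((u * (lam p + ξ) : ℝ) : ℂ)))) volume A B :=
      (hWc'.mul hE).intervalIntegrable_of_Icc (μ := volume) hAB
    have i2 : IntervalIntegrable (fun u : ℝ => ((Wd d (2 * Real.pi * ht p / u) : ℂ) *
        Xd d u * cexp (I * ((u * (lam p + ξ) : ℝ) : ℂ)))) volume A B :=
      ((hWc'.mul hX).mul hE).intervalIntegrable_of_Icc (μ := volume) hAB
    have e1 : (∫ u in A..B, Gx d ξ p u) =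
        ((√(ht p))⁻¹ : ℝ) * (p.2 : ℂ) ^ (I * (d : ℂ)) *
          (∫ u in A..B, ((Wd d (2 * Real.pi * ht p / u) : ℂ) *
        cexp (I * ((u * (lam p + ξ) : ℝ) : ℂ)))) +
        ((√(ht p))⁻¹ : ℝ) * (p.1 : ℂ) ^ (-(I * (d : ℂ))) *
          (∫ u in A..B, ((Wd d (2 * Real.pi * ht p / u) : ℂ) *
        Xd d u * cexp (I * ((u * (lam p + ξ) : ℝ) : ℂ)))) := by
      rw [← intervalIntegral.integral_const_mul, ← intervalIntegral.integral_const_mul,
        ← intervalIntegral.integral_add (i1.const_mul _) (i2.const_mul _)]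
      refine intervalIntegral.integral_congr fun u _ => ?_
      exact Gx_eq d ξ p u
    rw [e1]
    refine (norm_add_le _ _).trans ?_
    rw [norm_mul, norm_mul, norm_mul, norm_mul, ncpow hp2, ncpow' hp1, Complex.norm_real,
      Real.norm_eq_abs, abs_of_nonneg hs, mul_one]
    have h4 := mul_le_mul_of_nonneg_left h2 hs
    have h5 := mul_le_mul_of_nonneg_left h3 hs
    calc _ ≤ (√(ht p))⁻¹ * (C * (1 + Real.log B) / |lam p + ξ|) +
          (√(ht p))⁻¹ * (C * (1 + Real.log B) / |lam p + ξ|) := add_le_add h4 h5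
      _ = 2 * C * (1 + Real.log B) * (√(ht p))⁻¹ * (1 / |lam p + ξ|) := by ring
      _ ≤ 2 * C * (1 + Real.log B) * (√(ht p))⁻¹ * (2 * Y969.GP.mk U (lam p + ξ)) :=
          mul_le_mul_of_nonneg_left hmk (by positivity)
      _ = 4 * C * (1 + Real.log B) * ((√(ht p))⁻¹ * Y969.GP.mk U (lam p + ξ)) := by ring
      _ ≤ _ := by
          refine mul_le_mul_of_nonneg_right ?_ hsm
          nlinarith [mul_nonneg hC.le hlU, mul_nonneg hC1.le hlU]

/-- the reduction of a pair -/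
lemma red_iff (p r : ℕ × ℕ) (hp1 : 1 ≤ p.1) (hr : Nat.Coprime r.1 r.2) :
    (red p).2 = r ↔ p.1 * r.2 = p.2 * r.1 := by
  have hg : 0 < Nat.gcd p.1 p.2 := Nat.gcd_pos_of_pos_left _ hp1
  have e1 : Nat.gcd p.1 p.2 * (p.1 / Nat.gcd p.1 p.2) = p.1 :=
    Nat.mul_div_cancel' (Nat.gcd_dvd_left _ _)
  have e2 : Nat.gcd p.1 p.2 * (p.2 / Nat.gcd p.1 p.2) = p.2 :=
    Nat.mul_div_cancel' (Nat.gcd_dvd_right _ _)
  have hco : Nat.Coprime (p.1 / Nat.gcd p.1 p.2) (p.2 / Nat.gcd p.1 p.2) :=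
    Nat.coprime_div_gcd_div_gcd hg
  set g := Nat.gcd p.1 p.2 with hgdef
  set x := p.1 / g
  set y := p.2 / g
  have hred : (red p).2 = (x, y) := rfl
  rw [hred]
  constructor
  · intro h
    rw [← h, ← e1, ← e2]
    show g * x * y = g * y * x
    ring
  · intro h
    rw [← e1, ← e2] at h
    have h1 : x * r.2 = y * r.1 := by
      apply Nat.eq_of_mul_eq_mul_left hg
      rw [← mul_assoc, ← mul_assoc]
      exact h
    have a1 : x ∣ r.1 := hco.dvd_of_dvd_mul_left ⟨r.2, h1.symm⟩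
    have a2 : r.1 ∣ x := hr.dvd_of_dvd_mul_right ⟨y, by rw [h1, mul_comm]⟩
    have b1 : y ∣ r.2 := hco.symm.dvd_of_dvd_mul_left ⟨r.1, h1⟩
    have b2 : r.2 ∣ y := hr.symm.dvd_of_dvd_mul_right ⟨x, by rw [← h1, mul_comm]⟩
    exact Prod.ext (Nat.dvd_antisymm a1 a2) (Nat.dvd_antisymm b1 b2)

/-- grouping -/
lemma regroup (X : ℕ) (f : ℕ × ℕ → ℂ) : ∑ p ∈ PS X, f p =
    ∑ r ∈ FR X, ∑ g ∈ Finset.Icc 1 (Nat.sqrt (X / (r.2 * r.1))), f (g * r.1, g * r.2) := by
  classical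
  have hmap : ∀ p ∈ PS X, (red p).2 ∈ FR X := by
    intro p hp
    rw [SPCp.mem_PS] at hp
    obtain ⟨hp1, hp2, hp3⟩ := hp
    have hg : 0 < Nat.gcd p.1 p.2 := Nat.gcd_pos_of_pos_left _ hp1
    rw [SPCp.mem_FR]
    refine ⟨⟨Nat.div_pos (Nat.gcd_le_left _ hp1) hg, Nat.div_pos (Nat.gcd_le_right _ hp2) hg, ?_⟩,
      Nat.coprime_div_gcd_div_gcd hg⟩
    show p.1 / Nat.gcd p.1 p.2 * (p.2 / Nat.gcd p.1 p.2) ≤ X
    exact (Nat.mul_le_mul (Nat.div_le_self _ _) (Nat.div_le_self _ _)).trans hp3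
  rw [← Finset.sum_fiberwise_of_maps_to hmap]
  refine Finset.sum_congr rfl fun r hr => ?_
  rw [SPCp.mem_FR] at hr
  obtain ⟨⟨hr1, hr2, hr3⟩, hco⟩ := hr
  rw [← dset X r.2 r.1 hr2 hr1 hco.symm f]
  refine Finset.sum_congr ?_ fun _ _ => rfl
  ext p
  rw [Finset.mem_filter, Finset.mem_filter]
  constructor
  · rintro ⟨h1, h2⟩
    refine ⟨h1, ?_⟩
    rw [not_not]
    rw [SPCp.mem_PS] at h1
    exact (red_iff p r h1.1 hco).1 h2
  · rintro ⟨h1, h2⟩
    refine ⟨h1, ?_⟩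
    rw [not_not] at h2
    rw [SPCp.mem_PS] at h1
    exact (red_iff p r h1.1 hco).2 h2

/-- swapping -/
lemma swapFR (N : ℕ) (f : ℕ × ℕ → ℂ) : ∑ q ∈ FR N, f q = ∑ r ∈ FR N, f (r.2, r.1) := by
  refine Finset.sum_bij (fun q _ => (q.2, q.1)) ?_ ?_ ?_ ?_
  · intro q hq
    rw [SPCp.mem_FR] at hq ⊢
    exact ⟨⟨hq.1.2.1, hq.1.1, by rw [mul_comm]; exact hq.1.2.2⟩, hq.2.symm⟩
  · intro q _ q' _ h
    simp only [Prod.mk.injEq] at h
    exact Prod.ext h.2 h.1
  · intro r hr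
    refine ⟨(r.2, r.1), ?_, rfl⟩
    rw [SPCp.mem_FR] at hr ⊢
    exact ⟨⟨hr.1.2.1, hr.1.1, by rw [mul_comm]; exact hr.1.2.2⟩, hr.2.symm⟩
  · intro q _
    rfl

lemma numE (E : ℝ) (hE : 0 < E) : ∃ K : ℝ, 1 ≤ K ∧ ∀ (U : ℝ) (X : ℕ), 2 ≤ U →
    (X : ℝ) ≤ 2 * U ^ (21 / 20 : ℝ) → 1 + Real.log ((X : ℝ) + 1) ≤ K * U ^ E ∧
      1 + Real.log U ≤ K * U ^ E := by
  have hE2 : 0 < 2 / E := by positivity
  refine ⟨3 + 2 / E, by linarith, ?_⟩
  intro T X hT hX
  have hT0 : 0 < T := by linarith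
  have h1 : T ^ (21 / 20 : ℝ) ≤ T ^ (2 : ℝ) :=
    Real.rpow_le_rpow_of_exponent_le (by linarith) (by norm_num)
  have h2 : (1 : ℝ) ≤ T ^ (2 : ℝ) := Real.one_le_rpow (by linarith) (by norm_num)
  have hX0 : (0 : ℝ) ≤ X := Nat.cast_nonneg X
  have h3 : Real.log ((X : ℝ) + 1) ≤ Real.log (3 * T ^ (2 : ℝ)) :=
    Real.log_le_log (by linarith) (by linarith)
  rw [Real.log_mul (by norm_num) (by positivity), Real.log_rpow hT0] at h3
  have h4 : Real.log 3 ≤ 2 := by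
    have := Real.log_le_sub_one_of_pos (show (0 : ℝ) < 3 by norm_num)
    linarith
  have h5 := Real.log_le_rpow_div hT0.le hE
  have h6 : (1 : ℝ) ≤ T ^ E := Real.one_le_rpow (by linarith) hE.le
  have h7 : T ^ E / E = (1 / E) * T ^ E := by ring
  rw [h7] at h5
  have h8 : (3 + 2 / E) * T ^ E = 3 * T ^ E + 2 * ((1 / E) * T ^ E) := by ring
  have h9 : 0 ≤ (1 / E) * T ^ E := by positivity
  rw [h8]
  constructor <;> linarith

lemma numU (U ε e : ℝ) (N : ℕ) (hU : 1 ≤ U) (hε : 0 < ε) (he : e ≤ 15 / 16) (hN : 1 ≤ N)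
    (hNU : (N : ℝ) ≤ U ^ (1 / 8 : ℝ)) : U ^ e ≤ U ^ (1 + ε) * (N : ℝ) ^ (-(1 / 2) : ℝ) := by
  have hU0 : 0 < U := by linarith
  have hN0 : (0 : ℝ) < N := by exact_mod_cast hN
  have h1 : U ^ (-(1 / 16) : ℝ) ≤ (N : ℝ) ^ (-(1 / 2) : ℝ) := by
    have h2 : (U ^ (1 / 8 : ℝ)) ^ (-(1 / 2) : ℝ) ≤ (N : ℝ) ^ (-(1 / 2) : ℝ) :=
      Real.rpow_le_rpow_of_nonpos hN0 hNU (by norm_num)
    rw [← Real.rpow_mul hU0.le] at h2
    have : (1 / 8 * (-(1 / 2)) : ℝ) = -(1 / 16) := by norm_num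
    rwa [this] at h2
  calc U ^ e ≤ U ^ (1 + ε + -(1 / 16) : ℝ) :=
        Real.rpow_le_rpow_of_exponent_le hU (by linarith)
    _ = U ^ (1 + ε) * U ^ (-(1 / 16) : ℝ) := Real.rpow_add hU0 _ _
    _ ≤ _ := mul_le_mul_of_nonneg_left h1 (by positivity)

lemma kq_cont (d : ℝ) (l m : ℕ) : Continuous (kq d l m) := by
  unfold kq
  exact continuous_const.add (continuous_const.mul (TSMp.Xd_cont d))

lemma Dd_cont (d : ℝ) (N : ℕ) : Continuous (Dd d N) := by
  unfold Dd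
  refine continuous_finsetSum _ fun q _ => (kq_cont d q.1 q.2).mul ?_
  fun_prop

/-- the main part: `u ≥ 16 + |d|` -/
lemma mainU (hW : S_WD) (hAFD : S_AFD) (hDG : S_DG) (hBV : S_BV) (hSPD : S_SPD) (d ε : ℝ)
    (hd : d ≠ 0) (hε : 0 < ε) : ∃ C : ℝ, 0 < C ∧ ∀ (U A B ξ : ℝ) (N : ℕ), 2 ≤ U → 16 + |d| ≤ A →
    A ≤ B → B ≤ U → 1 ≤ N → (N : ℝ) ≤ U ^ (1 / 8 : ℝ) →
    ‖∫ u in A..B, (Pd d u - Dd d N u) * cexp (I * ((u * ξ : ℝ) : ℂ))‖ ≤
      C * (U ^ (1 + ε) * (N : ℝ) ^ (-(1 / 2) : ℝ)) := by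
  obtain ⟨C1, hC1, h1⟩ := hAFD d (1 / 20) hd (by norm_num)
  obtain ⟨C2, hC2, h2⟩ := big hW hBV d hd
  obtain ⟨C3, hC3, h3⟩ := hSPD
  obtain ⟨C4, hC4, h4⟩ := dpt hW hDG d hd
  obtain ⟨K, hK, hKn⟩ := numE (ε / 4) (by positivity)
  refine ⟨2 * C1 + 3 * (C2 * C3) * K ^ 4 + 166 * C4, by positivity, ?_⟩
  intro U A B ξ N hU hA hAB hBU hN hNU
  have hU0 : 0 < U := by linarith
  have hU1 : 1 ≤ U := by linarith
  have hA16 : 16 ≤ A := by have := abs_nonneg d; linarith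
  have hA0 : 0 < A := by linarith
  have hB0 : 0 < B := by linarith
  have hN0 : (0 : ℝ) < N := by exact_mod_cast hN
  -- the length of the polynomial
  obtain ⟨X, hXdef⟩ : ∃ X : ℕ, X = ⌈U ^ (21 / 20 : ℝ)⌉₊ := ⟨_, rfl⟩
  have hTX1 : (1 : ℝ) ≤ U ^ (21 / 20 : ℝ) := Real.one_le_rpow hU1 (by norm_num)
  have hXl : U ^ (21 / 20 : ℝ) ≤ X := by
    rw [hXdef]
    exact Nat.le_ceil _
  have hXu : (X : ℝ) ≤ 2 * U ^ (21 / 20 : ℝ) := by
    have := Nat.ceil_lt_add_one (show 0 ≤ U ^ (21 / 20 : ℝ) by positivity)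
    rw [hXdef]
    linarith
  have hX1 : 1 ≤ X := by
    have : (1 : ℝ) ≤ X := hTX1.trans hXl
    exact_mod_cast this
  have hX0 : (1 : ℝ) ≤ X := by exact_mod_cast hX1
  have hNX : N ≤ X := by
    have : (N : ℝ) ≤ X := hNU.trans ((Real.rpow_le_rpow_of_exponent_le hU1 (by norm_num)).trans hXl)
    exact_mod_cast this
  have hLX := numL U X hU hXu
  obtain ⟨hKX, hKU⟩ := hKn U X hU hXu
  have hlX : 0 ≤ Real.log X := Real.log_nonneg hX0
  have hlU : 0 ≤ Real.log U := Real.log_nonneg hU1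
  have hlXX : Real.log (X : ℝ) ≤ Real.log ((X : ℝ) + 1) :=
    Real.log_le_log (by linarith) (by linarith)
  set W : ℝ := U ^ (1 + ε) * (N : ℝ) ^ (-(1 / 2) : ℝ) with hWdef
  have hW0 : 0 ≤ W := by positivity
  -- continuity
  have hGc : ∀ p : ℕ × ℕ, 1 ≤ p.1 → 1 ≤ p.2 → ContinuousOn (Gx d ξ p) (Icc A B) :=
    fun p hp1 hp2 => Gx_contOn hW d hd A B ξ p hA0 hp1 hp2
  have hGi : ∀ p : ℕ × ℕ, 1 ≤ p.1 → 1 ≤ p.2 → IntervalIntegrable (Gx d ξ p) volume A B :=
    fun p hp1 hp2 => (hGc p hp1 hp2).intervalIntegrable_of_Icc hAB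
  have hEc : Continuous fun u : ℝ => cexp (I * ((u * ξ : ℝ) : ℂ)) := by fun_prop
  have hPi : IntervalIntegrable (fun u => Pd d u * cexp (I * ((u * ξ : ℝ) : ℂ))) volume A B :=
    ((TSMp.Pd_cont d).mul hEc).intervalIntegrable _ _
  have hSc : ContinuousOn (fun u => ∑ p ∈ PS X, Gx d ξ p u) (Icc A B) := by
    refine continuousOn_finsetSum _ fun p hp => ?_
    rw [SPCp.mem_PS] at hp
    exact hGc p hp.1 hp.2.1
  have hSi : IntervalIntegrable (fun u => ∑ p ∈ PS X, Gx d ξ p u) volume A B :=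
    hSc.intervalIntegrable_of_Icc hAB
  -- the grouped terms
  set Gr : ℕ × ℕ → ℝ → ℂ := fun r u =>
    ∑ g ∈ Finset.Icc 1 (Nat.sqrt (X / (r.2 * r.1))), Gx d ξ (g * r.1, g * r.2) u with hGr
  have hGrc : ∀ r ∈ FR X, ContinuousOn (Gr r) (Icc A B) := by
    intro r hr
    rw [SPCp.mem_FR] at hr
    refine continuousOn_finsetSum _ fun g hg => ?_
    have hg1 := (Finset.mem_Icc.1 hg).1
    exact hGc _ (Nat.mul_pos hg1 hr.1.1) (Nat.mul_pos hg1 hr.1.2.1)
  have hGri : ∀ r ∈ FR X, IntervalIntegrable (Gr r) volume A B := fun r hr =>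
    (hGrc r hr).intervalIntegrable_of_Icc hAB
  have hsplit : ∀ u : ℝ, ∑ p ∈ PS X, Gx d ξ p u =
      (∑ r ∈ (FR X).filter (fun r => N < r.1 * r.2), Gr r u) +
      ∑ r ∈ (FR X).filter (fun r => ¬ (N < r.1 * r.2)), Gr r u := by
    intro u
    rw [Finset.sum_filter_add_sum_filter_not, regroup X (fun p => Gx d ξ p u)]
  have hFRN : (FR X).filter (fun r => ¬ (N < r.1 * r.2)) = FR N := by
    ext r
    rw [Finset.mem_filter, SPCp.mem_FR, SPCp.mem_FR]
    constructor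
    · rintro ⟨⟨⟨a1, a2, a3⟩, a4⟩, a5⟩
      exact ⟨⟨a1, a2, not_lt.1 a5⟩, a4⟩
    · rintro ⟨⟨a1, a2, a3⟩, a4⟩
      exact ⟨⟨⟨a1, a2, a3.trans hNX⟩, a4⟩, not_lt.2 a3⟩
  have hsubN : ∀ r ∈ FR N, r ∈ FR X := by
    intro r hr
    rw [← hFRN] at hr
    exact (Finset.mem_filter.1 hr).1
  -- the short polynomial
  have hDd : ∀ u : ℝ, Dd d N u * cexp (I * ((u * ξ : ℝ) : ℂ)) =
      ∑ r ∈ FR N, kq d r.2 r.1 u * cexp (-(I * ((u * lam (r.2, r.1) : ℝ) : ℂ))) *
        cexp (I * ((u * ξ : ℝ) : ℂ)) := by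
    intro u
    unfold Dd
    rw [swapFR N (fun q => kq d q.1 q.2 u * cexp (-(I * ((u * lam q : ℝ) : ℂ)))), Finset.sum_mul]
  set Kr : ℕ × ℕ → ℝ → ℂ := fun r u =>
    kq d r.2 r.1 u * cexp (-(I * ((u * lam (r.2, r.1) : ℝ) : ℂ))) * cexp (I * ((u * ξ : ℝ) : ℂ))
    with hKr
  have hKrc : ∀ r, Continuous (Kr r) := by
    intro r
    exact ((kq_cont d r.2 r.1).mul (by fun_prop)).mul hEc
  -- pointwise identity
  have hpt : ∀ u : ℝ, (Pd d u - Dd d N u) * cexp (I * ((u * ξ : ℝ) : ℂ)) =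
      (Pd d u * cexp (I * ((u * ξ : ℝ) : ℂ)) - ∑ p ∈ PS X, Gx d ξ p u) +
      ((∑ r ∈ (FR X).filter (fun r => N < r.1 * r.2), Gr r u) +
        ∑ r ∈ FR N, (Gr r u - Kr r u)) := by
    intro u
    have e1 := hsplit u
    rw [hFRN] at e1
    rw [sub_mul, hDd u, Finset.sum_sub_distrib]
    linear_combination e1
  have j1 : IntervalIntegrable (fun u => Pd d u * cexp (I * ((u * ξ : ℝ) : ℂ)) -
      ∑ p ∈ PS X, Gx d ξ p u) volume A B := hPi.sub hSi
  have j2c : ContinuousOn (fun u => ∑ r ∈ (FR X).filter (fun r => N < r.1 * r.2), Gr r u)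
      (Icc A B) := continuousOn_finsetSum _ fun r hr => hGrc r (Finset.mem_filter.1 hr).1
  have j2 := j2c.intervalIntegrable_of_Icc (μ := volume) hAB
  have j3c : ContinuousOn (fun u => ∑ r ∈ FR N, (Gr r u - Kr r u)) (Icc A B) :=
    continuousOn_finsetSum _ fun r hr => (hGrc r (hsubN r hr)).sub (hKrc r).continuousOn
  have j3 := j3c.intervalIntegrable_of_Icc (μ := volume) hAB
  have s1 : (∫ u in A..B, (Pd d u - Dd d N u) * cexp (I * ((u * ξ : ℝ) : ℂ))) =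
      (∫ u in A..B, (Pd d u * cexp (I * ((u * ξ : ℝ) : ℂ)) - ∑ p ∈ PS X, Gx d ξ p u)) +
      ((∫ u in A..B, ∑ r ∈ (FR X).filter (fun r => N < r.1 * r.2), Gr r u) +
        ∫ u in A..B, ∑ r ∈ FR N, (Gr r u - Kr r u)) := by
    rw [← intervalIntegral.integral_add j2 j3, ← intervalIntegral.integral_add j1 (j2.add j3)]
    exact intervalIntegral.integral_congr fun u _ => hpt u
  -- the three bounds
  have b1 : ‖∫ u in A..B, (Pd d u * cexp (I * ((u * ξ : ℝ) : ℂ)) -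
        ∑ p ∈ PS X, Gx d ξ p u)‖ ≤ 2 * C1 * W := by
    have c1 : IntervalIntegrable (fun u : ℝ => C1 * u ^ (-(1 / 2) + 1 / 20 : ℝ)) volume A B :=
      (intervalIntegral.intervalIntegrable_rpow' (by norm_num)).const_mul _
    refine (intervalIntegral.norm_integral_le_of_norm_le hAB ?_ c1).trans ?_
    · refine Eventually.of_forall fun u hu => ?_
      have hu1 : 16 + |d| ≤ u := hA.trans hu.1.le
      have hu0 : 0 < u := hA0.trans hu.1
      have huT : u ≤ U := hu.2.trans hBU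
      have huX : u ^ (1 + 1 / 20 : ℝ) ≤ X := by
        rw [show (1 + 1 / 20 : ℝ) = 21 / 20 by norm_num]
        exact (Real.rpow_le_rpow hu0.le huT (by norm_num)).trans hXl
      have c2 := h1 u X hu1 huX
      have c3 : Pd d u * cexp (I * ((u * ξ : ℝ) : ℂ)) - ∑ p ∈ PS X, Gx d ξ p u =
          (Pd d u - ∑ p ∈ PS X, (cW d p u : ℂ) * ((p.2 : ℂ) ^ (I * (d : ℂ)) +
            Xd d u * (p.1 : ℂ) ^ (-(I * (d : ℂ)))) * cexp (I * ((u * lam p : ℝ) : ℂ))) *
          cexp (I * ((u * ξ : ℝ) : ℂ)) := by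
        rw [sub_mul, Finset.sum_mul]
        rfl
      rw [c3, norm_mul, nexp, mul_one]
      exact c2
    · rw [intervalIntegral.integral_const_mul, integral_rpow (Or.inl (by norm_num))]
      have c4 : (-(1 / 2) + 1 / 20 + 1 : ℝ) = 11 / 20 := by norm_num
      rw [c4]
      have c5 : 0 ≤ A ^ (11 / 20 : ℝ) := by positivity
      have c6 : B ^ (11 / 20 : ℝ) ≤ W :=
        (Real.rpow_le_rpow hB0.le hBU (by norm_num)).trans
          (numU U ε (11 / 20) N hU1 hε (by norm_num) hN hNU)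
      have c7 : (B ^ (11 / 20 : ℝ) - A ^ (11 / 20 : ℝ)) / (11 / 20) ≤ 2 * W := by
        rw [div_le_iff₀ (by norm_num)]
        linarith
      calc _ ≤ C1 * (2 * W) := mul_le_mul_of_nonneg_left c7 hC1.le
        _ = _ := by ring
  have b2 : ‖∫ u in A..B, ∑ r ∈ (FR X).filter (fun r => N < r.1 * r.2), Gr r u‖ ≤
      3 * (C2 * C3) * K ^ 4 * W := by
    rw [intervalIntegral.integral_finsetSum fun r hr => hGri r (Finset.mem_filter.1 hr).1]
    have c1 : ∀ r ∈ (FR X).filter (fun r => N < r.1 * r.2), ‖∫ u in A..B, Gr r u‖ ≤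
        C2 * (1 + Real.log U) * (1 + Real.log X) *
          ((√(ht r))⁻¹ * Y969.GP.mk U (lam r - (-ξ))) := by
      intro r hr
      have hr' := (Finset.mem_filter.1 hr).1
      rw [SPCp.mem_FR] at hr'
      obtain ⟨⟨hr1, hr2, hr3⟩, hco⟩ := hr'
      have hmk : 0 ≤ (√(ht r))⁻¹ * Y969.GP.mk U (lam r + ξ) :=
        mul_nonneg (by positivity) (mk_nonneg' U _ hU0.le)
      have e1 : (∫ u in A..B, Gr r u) = ∑ g ∈ Finset.Icc 1 (Nat.sqrt (X / (r.2 * r.1))),
          ∫ u in A..B, Gx d ξ (g * r.1, g * r.2) u := by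
        rw [hGr]
        rw [intervalIntegral.integral_finsetSum]
        intro g hg
        have hg1 := (Finset.mem_Icc.1 hg).1
        exact hGi _ (Nat.mul_pos hg1 hr1) (Nat.mul_pos hg1 hr2)
      rw [e1]
      have e2 : ∀ g ∈ Finset.Icc 1 (Nat.sqrt (X / (r.2 * r.1))),
          ‖∫ u in A..B, Gx d ξ (g * r.1, g * r.2) u‖ ≤
            (g : ℝ)⁻¹ * (C2 * (1 + Real.log U) * ((√(ht r))⁻¹ * Y969.GP.mk U (lam r + ξ))) := by
        intro g hg
        have hg1 := (Finset.mem_Icc.1 hg).1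
        have hb := h2 A B U ξ (g * r.1, g * r.2) hA hAB hBU (Nat.mul_pos hg1 hr1)
          (Nat.mul_pos hg1 hr2)
        rw [SPCp.ht_mul, SPCp.lam_mul g r hg1 hr1 hr2, Real.sqrt_mul (by positivity),
          Real.sqrt_sq (by positivity), mul_inv] at hb
        refine hb.trans (le_of_eq ?_)
        ring
      refine ((norm_sum_le _ _).trans (Finset.sum_le_sum e2)).trans ?_
      rw [← Finset.sum_mul]
      have e3 : ∑ g ∈ Finset.Icc 1 (Nat.sqrt (X / (r.2 * r.1))), (g : ℝ)⁻¹ ≤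
          1 + Real.log X := by
        refine le_trans ?_ (SPCp.harm X)
        refine Finset.sum_le_sum_of_subset_of_nonneg ?_ fun g _ _ => by positivity
        intro g hg
        rw [Finset.mem_Icc] at hg ⊢
        exact ⟨hg.1, hg.2.trans ((Nat.sqrt_le_self _).trans (Nat.div_le_self _ _))⟩
      rw [sub_neg_eq_add]
      calc (∑ g ∈ Finset.Icc 1 (Nat.sqrt (X / (r.2 * r.1))), (g : ℝ)⁻¹) *
            (C2 * (1 + Real.log U) * ((√(ht r))⁻¹ * Y969.GP.mk U (lam r + ξ)))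
          ≤ (1 + Real.log X) *
            (C2 * (1 + Real.log U) * ((√(ht r))⁻¹ * Y969.GP.mk U (lam r + ξ))) :=
            mul_le_mul_of_nonneg_right e3 (mul_nonneg (by positivity) hmk)
        _ = _ := by ring
    refine ((norm_sum_le _ _).trans (Finset.sum_le_sum c1)).trans ?_
    rw [← Finset.mul_sum]
    have c2 := h3 X N U (-ξ) hN hNX hU1
    have c4 : √(X : ℝ) ≤ 2 * W := by
      have d1 : √(X : ℝ) ≤ 2 * U ^ (21 / 40 : ℝ) := by
        rw [Real.sqrt_le_left (by positivity), mul_pow, ← Real.rpow_natCast (U ^ (21 / 40 : ℝ)) 2,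
          ← Real.rpow_mul hU0.le]
        have : (21 / 40 * ((2 : ℕ) : ℝ) : ℝ) = 21 / 20 := by norm_num
        rw [this]
        nlinarith
      have d2 := numU U (ε) (21 / 40) N hU1 hε (by norm_num) hN hNU
      linarith
    -- here we need the bound without the factor `U ^ ε`
    have c4' : √(X : ℝ) ≤ 2 * (U * (N : ℝ) ^ (-(1 / 2) : ℝ)) := by
      have d1 : √(X : ℝ) ≤ 2 * U ^ (21 / 40 : ℝ) := by
        rw [Real.sqrt_le_left (by positivity), mul_pow, ← Real.rpow_natCast (U ^ (21 / 40 : ℝ)) 2,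
          ← Real.rpow_mul hU0.le]
        have : (21 / 40 * ((2 : ℕ) : ℝ) : ℝ) = 21 / 20 := by norm_num
        rw [this]
        nlinarith
      have d2 := numU U (1 / 16) (21 / 40 + 1 / 16) N hU1 (by norm_num) (by norm_num) hN hNU
      have d3 : U ^ (21 / 40 + 1 / 16 : ℝ) = U ^ (21 / 40 : ℝ) * U ^ (1 / 16 : ℝ) :=
        Real.rpow_add hU0 _ _
      have d4 : U ^ (1 + 1 / 16 : ℝ) = U * U ^ (1 / 16 : ℝ) := by
        rw [Real.rpow_add hU0, Real.rpow_one]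
      rw [d3, d4] at d2
      have d5 : 0 < U ^ (1 / 16 : ℝ) := by positivity
      have d6 : U ^ (21 / 40 : ℝ) ≤ U * (N : ℝ) ^ (-(1 / 2) : ℝ) := by
        refine le_of_mul_le_mul_right ?_ d5
        calc U ^ (21 / 40 : ℝ) * U ^ (1 / 16 : ℝ) ≤ U * U ^ (1 / 16 : ℝ) *
              (N : ℝ) ^ (-(1 / 2) : ℝ) := d2
          _ = _ := by ring
      linarith
    have c5 : (∑ r ∈ (FR X).filter (fun r => N < r.1 * r.2),
        (√(ht r))⁻¹ * Y969.GP.mk U (lam r - (-ξ))) ≤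
        C3 * (3 * (U * (N : ℝ) ^ (-(1 / 2) : ℝ))) * (K * U ^ (ε / 4)) ^ 2 := by
      refine c2.trans ?_
      have c6 : (1 + Real.log (X : ℝ)) ^ 2 ≤ (K * U ^ (ε / 4)) ^ 2 :=
        pow_le_pow_left₀ (by linarith) (by linarith) 2
      refine mul_le_mul ?_ c6 (by positivity) (by positivity)
      exact mul_le_mul_of_nonneg_left (by linarith) hC3.le
    have c7 : C2 * (1 + Real.log U) * (1 + Real.log X) ≤ C2 * (K * U ^ (ε / 4)) ^ 2 := by
      rw [mul_assoc, sq]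
      refine mul_le_mul_of_nonneg_left ?_ hC2.le
      exact mul_le_mul hKU (by linarith) (by linarith) (by positivity)
    have c8 : 0 ≤ ∑ r ∈ (FR X).filter (fun r => N < r.1 * r.2),
        (√(ht r))⁻¹ * Y969.GP.mk U (lam r - (-ξ)) :=
      Finset.sum_nonneg fun r _ => mul_nonneg (by positivity) (mk_nonneg' U _ hU0.le)
    refine (mul_le_mul c7 c5 c8 (by positivity)).trans (le_of_eq ?_)
    have e5 : (U ^ (ε / 4)) ^ 4 = U ^ ε := by
      rw [← Real.rpow_natCast (U ^ (ε / 4)) 4, ← Real.rpow_mul hU0.le]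
      congr 1
      push_cast
      ring
    rw [hWdef, Real.rpow_add hU0, Real.rpow_one, ← e5]
    ring
  have b3 : ‖∫ u in A..B, ∑ r ∈ FR N, (Gr r u - Kr r u)‖ ≤ 166 * C4 * W := by
    have c1 : IntervalIntegrable (fun u : ℝ => ((N : ℝ) * N) * (C4 * (83 * U ^ (1 / 40 : ℝ))) *
        u ^ (-(1 / 2) : ℝ)) volume A B :=
      (intervalIntegral.intervalIntegrable_rpow' (by norm_num)).const_mul _
    refine (intervalIntegral.norm_integral_le_of_norm_le hAB ?_ c1).trans ?_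
    · refine Eventually.of_forall fun u hu => ?_
      have hu0 : 0 < u := hA0.trans hu.1
      have hterm : ∀ r ∈ FR N, ‖Gr r u - Kr r u‖ ≤
          C4 * (83 * U ^ (1 / 40 : ℝ)) * u ^ (-(1 / 2) : ℝ) := by
        intro r hr
        rw [SPCp.mem_FR] at hr
        obtain ⟨⟨hr1, hr2, hr3⟩, hco⟩ := hr
        have e1 : ∀ p : ℕ × ℕ, Gx d ξ p u = Fp d r.2 r.1 p u *
            (cexp (-(I * ((u * lam (r.2, r.1) : ℝ) : ℂ))) * cexp (I * ((u * ξ : ℝ) : ℂ))) := by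
          intro p
          unfold Gx Fp
          have e2 : cexp (I * ((u * (Real.log r.1 - Real.log r.2) : ℝ) : ℂ)) *
              cexp (-(I * ((u * lam (r.2, r.1) : ℝ) : ℂ))) = 1 := by
            rw [← Complex.exp_add]
            have : lam (r.2, r.1) = Real.log r.1 - Real.log r.2 := rfl
            rw [this, add_neg_cancel, Complex.exp_zero]
          linear_combination (-((cW d p u : ℂ) * ((p.2 : ℂ) ^ (I * (d : ℂ)) +
            Xd d u * (p.1 : ℂ) ^ (-(I * (d : ℂ)))) * cexp (I * ((u * lam p : ℝ) : ℂ)) *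
            cexp (I * ((u * ξ : ℝ) : ℂ)))) * e2
        have e3 : Gr r u - Kr r u =
            ((∑ g ∈ Finset.Icc 1 (Nat.sqrt (X / (r.2 * r.1))),
              Fp d r.2 r.1 (g * r.1, g * r.2) u) -
            (kap 0 d r.2 r.1 * riemannZeta (1 - I * d) +
              kap d 0 r.2 r.1 * riemannZeta (1 + I * d) * Xd d u)) *
            (cexp (-(I * ((u * lam (r.2, r.1) : ℝ) : ℂ))) * cexp (I * ((u * ξ : ℝ) : ℂ))) := by
          rw [sub_mul, Finset.sum_mul]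
          simp only [hGr, hKr, kq]
          congr 1
          · exact Finset.sum_congr rfl fun g _ => e1 _
          · ring
        have e4 : ‖cexp (-(I * ((u * lam (r.2, r.1) : ℝ) : ℂ)))‖ = 1 := by
          have : -(I * ((u * lam (r.2, r.1) : ℝ) : ℂ)) = I * ((-(u * lam (r.2, r.1)) : ℝ) : ℂ) := by
            push_cast
            ring
          rw [this, nexp]
        rw [e3, norm_mul, norm_mul, e4, nexp, mul_one, mul_one]
        refine (h4 U u X r.2 r.1 hU hu0 (hu.2.trans hBU) hr2 hr1 hXl).trans ?_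
        refine mul_le_mul_of_nonneg_right ?_ (Real.rpow_nonneg hu0.le _)
        exact mul_le_mul_of_nonneg_left hLX hC4.le
      refine ((norm_sum_le _ _).trans (Finset.sum_le_sum hterm)).trans ?_
      rw [Finset.sum_const, nsmul_eq_mul]
      have hcard : ((FR N).card : ℝ) ≤ (N : ℝ) * N := by
        have := Pool.Agent.Y379.GP.card_FR N
        exact_mod_cast this
      have hu1 : 0 ≤ u ^ (-(1 / 2) : ℝ) := Real.rpow_nonneg hu0.le _
      calc ((FR N).card : ℝ) * (C4 * (83 * U ^ (1 / 40 : ℝ)) * u ^ (-(1 / 2) : ℝ))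
          ≤ ((N : ℝ) * N) * (C4 * (83 * U ^ (1 / 40 : ℝ)) * u ^ (-(1 / 2) : ℝ)) :=
            mul_le_mul_of_nonneg_right hcard (by positivity)
        _ = _ := by ring
    · rw [intervalIntegral.integral_const_mul, integral_rpow (Or.inl (by norm_num))]
      have c4 : (-(1 / 2) + 1 : ℝ) = 1 / 2 := by norm_num
      rw [c4]
      have c5 : 0 ≤ A ^ (1 / 2 : ℝ) := by positivity
      have c6 : B ^ (1 / 2 : ℝ) ≤ U ^ (1 / 2 : ℝ) := Real.rpow_le_rpow hB0.le hBU (by norm_num)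
      have c7 : (B ^ (1 / 2 : ℝ) - A ^ (1 / 2 : ℝ)) / (1 / 2) ≤ 2 * U ^ (1 / 2 : ℝ) := by
        rw [div_le_iff₀ (by norm_num)]
        linarith
      have c8 : (N : ℝ) * N ≤ U ^ (1 / 4 : ℝ) := by
        have : U ^ (1 / 4 : ℝ) = U ^ (1 / 8 : ℝ) * U ^ (1 / 8 : ℝ) := by
          rw [← Real.rpow_add hU0]
          norm_num
        rw [this]
        exact mul_le_mul hNU hNU hN0.le (by positivity)
      have c9 : U ^ (1 / 4 : ℝ) * U ^ (1 / 40 : ℝ) * U ^ (1 / 2 : ℝ) ≤ W := by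
        rw [← Real.rpow_add hU0, ← Real.rpow_add hU0]
        exact numU U ε _ N hU1 hε (by norm_num) hN hNU
      calc (N : ℝ) * N * (C4 * (83 * U ^ (1 / 40 : ℝ))) *
            ((B ^ (1 / 2 : ℝ) - A ^ (1 / 2 : ℝ)) / (1 / 2))
          ≤ U ^ (1 / 4 : ℝ) * (C4 * (83 * U ^ (1 / 40 : ℝ))) * (2 * U ^ (1 / 2 : ℝ)) := by
            refine mul_le_mul (mul_le_mul_of_nonneg_right c8 (by positivity)) c7 ?_ (by positivity)
            have : A ^ (1 / 2 : ℝ) ≤ B ^ (1 / 2 : ℝ) := Real.rpow_le_rpow hA0.le hAB (by norm_num)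
            apply div_nonneg <;> linarith
        _ = 166 * C4 * (U ^ (1 / 4 : ℝ) * U ^ (1 / 40 : ℝ) * U ^ (1 / 2 : ℝ)) := by ring
        _ ≤ _ := mul_le_mul_of_nonneg_left c9 (by positivity)
  rw [s1]
  refine (norm_add_le _ _).trans ?_
  refine (add_le_add b1 ((norm_add_le _ _).trans (add_le_add b2 b3))).trans (le_of_eq ?_)
  ring

lemma kq_norm (d u : ℝ) {l m : ℕ} (hl : 1 ≤ l) (hm : 1 ≤ m) :
    ‖kq d l m u‖ ≤ ‖riemannZeta (1 - I * d)‖ + ‖riemannZeta (1 + I * d)‖ := by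
  unfold kq
  refine (norm_add_le _ _).trans (add_le_add ?_ ?_)
  · rw [norm_mul]
    exact mul_le_of_le_one_left (norm_nonneg _) (PkgTAB.kap_norm 0 d hl hm)
  · rw [norm_mul, norm_mul, TSMp.Xd_norm, mul_one]
    exact mul_le_of_le_one_left (norm_nonneg _) (PkgTAB.kap_norm d 0 hl hm)

lemma Dd_norm (d u : ℝ) (N : ℕ) :
    ‖Dd d N u‖ ≤ ((N : ℝ) * N) * (‖riemannZeta (1 - I * d)‖ + ‖riemannZeta (1 + I * d)‖) := by
  unfold Dd
  have h1 : ∀ q ∈ FR N, ‖kq d q.1 q.2 u * cexp (-(I * ((u * lam q : ℝ) : ℂ)))‖ ≤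
      ‖riemannZeta (1 - I * d)‖ + ‖riemannZeta (1 + I * d)‖ := by
    intro q hq
    rw [SPCp.mem_FR] at hq
    have e4 : ‖cexp (-(I * ((u * lam q : ℝ) : ℂ)))‖ = 1 := by
      have : -(I * ((u * lam q : ℝ) : ℂ)) = I * ((-(u * lam q) : ℝ) : ℂ) := by
        push_cast
        ring
      rw [this, nexp]
    rw [norm_mul, e4, mul_one]
    exact kq_norm d u hq.1.1 hq.1.2.1
  refine ((norm_sum_le _ _).trans (Finset.sum_le_sum h1)).trans ?_
  rw [Finset.sum_const, nsmul_eq_mul]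
  have hcard : ((FR N).card : ℝ) ≤ (N : ℝ) * N := by
    have := Pool.Agent.Y379.GP.card_FR N
    exact_mod_cast this
  exact mul_le_mul_of_nonneg_right hcard (by positivity)

/-- the short polynomial in the variable `u = t + a` -/
lemma Dp_eq (a b : ℝ) (N : ℕ) (t : ℝ) : Dp a b N t = Dd (b - a) N (t + a) := by
  unfold Dp Dd kq
  refine Finset.sum_congr rfl fun q hq => ?_
  rw [SPCp.mem_FR] at hq
  have k1 := PkgTAB.kap_shift a b (-a) hq.1.1 hq.1.2.1
  have k2 := PkgTAB.kap_shift b a (-a) hq.1.1 hq.1.2.1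
  rw [add_neg_cancel, ← sub_eq_add_neg] at k1 k2
  have e1 : lam q = Real.log q.2 - Real.log q.1 := rfl
  have e2 : cexp (-(I * (((t + a) * lam q : ℝ) : ℂ))) *
      cexp (-(I * ((-a * (Real.log q.2 - Real.log q.1) : ℝ) : ℂ))) =
      cexp (-(I * ((t * lam q : ℝ) : ℂ))) := by
    rw [← Complex.exp_add, e1]
    congr 1
    push_cast
    ring
  have e3 : (1 : ℂ) + I * ((a - b : ℝ) : ℂ) = 1 - I * ((b - a : ℝ) : ℂ) := by
    push_cast
    ring
  have e4 : (1 : ℂ) - I * ((a - b : ℝ) : ℂ) = 1 + I * ((b - a : ℝ) : ℂ) := by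
    push_cast
    ring
  rw [e3, e4, PkgTAB.Xab_eq, ← e2, ← k1, ← k2]
  ring

end K1p

open K1p in
theorem t_K1 (hWD : S_WD) (hAFD : S_AFD) (hDG : S_DG) (hBV : S_BV) (hSPD : S_SPD) : S_K1 := by
  intro a b ε hab hε
  have hd : b - a ≠ 0 := sub_ne_zero.mpr (Ne.symm hab)
  obtain ⟨C, hC, H⟩ := mainU hWD hAFD hDG hBV hSPD (b - a) ε hd hε
  set d : ℝ := b - a with hddef
  set A1 : ℝ := 16 + |d| with hA1
  have hA10 : 0 < A1 := by rw [hA1]; positivity
  set K : ℝ := A1 + |a| with hK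
  have hK0 : 0 < K := by positivity
  obtain ⟨M, hM⟩ := (isCompact_Icc (a := -|a|) (b := A1)).exists_bound_of_continuousOn
    (TSMp.Pd_cont d).continuousOn
  have hM0 : 0 ≤ M := by
    have ha0 := abs_nonneg a
    exact (norm_nonneg _).trans (hM 0 ⟨by linarith, hA10.le⟩)
  set Z : ℝ := ‖riemannZeta (1 - I * d)‖ + ‖riemannZeta (1 + I * d)‖ with hZ
  have hZ0 : 0 ≤ Z := by positivity
  refine ⟨(C + K * (M + Z)) * 3 ^ (1 + ε), |a| + 2, by positivity, by linarith [abs_nonneg a], ?_⟩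
  intro T A B ξ N hT hA hAB hBT hN hNT
  have ha0 := abs_nonneg a
  have hT2 : 2 ≤ T := by linarith
  have hT0 : 0 < T := by linarith
  set U : ℝ := 3 * T with hU
  have hU2 : 2 ≤ U := by rw [hU]; linarith
  have hU1 : 1 ≤ U := by linarith
  have hU0 : 0 < U := by linarith
  have hNU : (N : ℝ) ≤ U ^ (1 / 8 : ℝ) :=
    hNT.trans (Real.rpow_le_rpow hT0.le (by rw [hU]; linarith) (by norm_num))
  have hN0 : (0 : ℝ) < N := by exact_mod_cast hN
  set g : ℝ → ℂ := fun u => (Pd d u - Dd d N u) * cexp (I * ((u * ξ : ℝ) : ℂ)) with hg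
  have hgc : Continuous g :=
    ((TSMp.Pd_cont d).sub (Dd_cont d N)).mul (by fun_prop)
  -- change of variables
  have e1 : (∫ t in A..B, (Bab a b t - Dp a b N t) * cexp (I * ((t * ξ : ℝ) : ℂ))) =
      cexp (I * ((-(a * ξ) : ℝ) : ℂ)) * ∫ u in (A + a)..(B + a), g u := by
    rw [← intervalIntegral.integral_comp_add_right, ← intervalIntegral.integral_const_mul]
    refine intervalIntegral.integral_congr fun t _ => ?_
    simp only [hg]
    rw [PkgTAB.Bab_eq, Dp_eq]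
    have e2 : cexp (I * ((t * ξ : ℝ) : ℂ)) = cexp (I * ((-(a * ξ) : ℝ) : ℂ)) *
        cexp (I * (((t + a) * ξ : ℝ) : ℂ)) := by
      rw [← Complex.exp_add]
      congr 1
      push_cast
      ring
    rw [e2]
    ring
  rw [e1, norm_mul, nexp, one_mul]
  set A' : ℝ := A + a with hA'
  set B' : ℝ := B + a with hB'
  have hA'a : -|a| ≤ A' := by
    have := neg_abs_le a
    linarith
  have hAB' : A' ≤ B' := by linarith
  have hB'U : B' ≤ U := by
    have := le_abs_self a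
    rw [hU]
    linarith
  set c : ℝ := min B' (max A' A1) with hc
  have hc1 : A' ≤ c := le_min hAB' (le_max_left _ _)
  have hc2 : c ≤ B' := min_le_left _ _
  have hsplit : (∫ u in A'..B', g u) = (∫ u in A'..c, g u) + ∫ u in c..B', g u :=
    (intervalIntegral.integral_add_adjacent_intervals (hgc.intervalIntegrable _ _)
      (hgc.intervalIntegrable _ _)).symm
  set W : ℝ := U ^ (1 + ε) * (N : ℝ) ^ (-(1 / 2) : ℝ) with hW
  have hW0 : 0 ≤ W := by positivity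
  have hNN : (N : ℝ) * N ≤ U ^ (1 / 4 : ℝ) := by
    have : U ^ (1 / 4 : ℝ) = U ^ (1 / 8 : ℝ) * U ^ (1 / 8 : ℝ) := by
      rw [← Real.rpow_add hU0]
      norm_num
    rw [this]
    exact mul_le_mul hNU hNU hN0.le (by positivity)
  have hU4 : U ^ (1 / 4 : ℝ) ≤ W := numU U ε _ N hU1 hε (by norm_num) hN hNU
  have h1U4 : (1 : ℝ) ≤ U ^ (1 / 4 : ℝ) := Real.one_le_rpow hU1 (by norm_num)
  have hfirst : ‖∫ u in A'..c, g u‖ ≤ K * (M + Z) * W := by
    have hb : ∀ u ∈ Set.uIoc A' c, ‖g u‖ ≤ (M + Z) * U ^ (1 / 4 : ℝ) := by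
      intro u hu
      rw [uIoc_of_le hc1] at hu
      have hu1 : u ≤ A1 := by
        have h2 : u ≤ max A' A1 := hu.2.trans (min_le_right _ _)
        rcases le_max_iff.1 h2 with h3 | h3
        · exact absurd hu.1 (not_lt.2 h3)
        · exact h3
      simp only [hg]
      rw [norm_mul, nexp, mul_one]
      refine (norm_sub_le _ _).trans ?_
      have h3 := hM u ⟨by linarith [hu.1], hu1⟩
      have h4 := Dd_norm d u N
      rw [← hZ] at h4
      calc ‖Pd d u‖ + ‖Dd d N u‖ ≤ M * U ^ (1 / 4 : ℝ) + U ^ (1 / 4 : ℝ) * Z := by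
            refine add_le_add (h3.trans ?_) (h4.trans (mul_le_mul_of_nonneg_right hNN hZ0))
            nlinarith
        _ = _ := by ring
    have h5 := intervalIntegral.norm_integral_le_of_norm_le_const hb
    refine h5.trans ?_
    have h6 : |c - A'| ≤ K := by
      rw [abs_of_nonneg (by linarith)]
      have h7 : c ≤ max A' A1 := min_le_right _ _
      rcases le_total A' A1 with h8 | h8
      · rw [max_eq_right h8] at h7
        rw [hK]
        linarith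
      · rw [max_eq_left h8] at h7
        linarith
    calc (M + Z) * U ^ (1 / 4 : ℝ) * |c - A'| ≤ (M + Z) * W * K := by
          refine mul_le_mul (mul_le_mul_of_nonneg_left hU4 (by positivity)) h6 (abs_nonneg _)
            (by positivity)
      _ = _ := by ring
  have hsecond : ‖∫ u in c..B', g u‖ ≤ C * W := by
    rcases le_total B' (max A' A1) with h2 | h2
    · have : c = B' := min_eq_left h2
      rw [this, intervalIntegral.integral_same, norm_zero]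
      positivity
    · have h3 : c = max A' A1 := min_eq_right h2
      have h4 : A1 ≤ c := by
        rw [h3]
        exact le_max_right _ _
      exact H U c B' ξ N hU2 h4 hc2 hB'U hN hNU
  rw [hsplit]
  refine (norm_add_le _ _).trans ((add_le_add hfirst hsecond).trans (le_of_eq ?_))
  rw [hW, hU, Real.mul_rpow (by norm_num) hT0.le]
  ring

end

end Pool.Agent.T2H54.CL
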