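import Pool.Agent.T2H54.CL.Stm

set_option autoImplicit false

/-! Project CL, package LCMQ (helper21): the reduced coefficients as sums over tuples. -/

namespace Pool.Agent.T2H54.CL

open Complex Filter Topology MeasureTheory Set
open Pool.Agent.TH612.CF Pool.Agent.TH612.GS Pool.Agent.T2H54.SB Pool.Agent.T2H54.TP
open Pool.Agent.Y969.GP (ht lam PS FR)
open Pool.Agent.W182.KO hiding ee SS_summable

noncomputable section

namespace PkgLCMQ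

lemma mem_FR {X : ℕ} {p : ℕ × ℕ} :
    p ∈ FR X ↔ (1 ≤ p.1 ∧ 1 ≤ p.2 ∧ p.1 * p.2 ≤ X) ∧ Nat.Coprime p.1 p.2 := by
  unfold FR PS
  rw [Finset.mem_filter, Finset.mem_filter, Finset.mem_product, Finset.mem_Icc, Finset.mem_Icc]
  constructor
  · rintro ⟨⟨⟨⟨h1, _⟩, h2, _⟩, h3⟩, h4⟩
    exact ⟨⟨h1, h2, h3⟩, h4⟩
  · rintro ⟨⟨h1, h2, h3⟩, h4⟩
    refine ⟨⟨⟨⟨h1, ?_⟩, h2, ?_⟩, h3⟩, h4⟩
    · nlinarith
    · nlinarith

/-- the one variable function `g ↦ g ^ w` -/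
def wv {k : ℕ} (a b : Fin k → ℝ) (j : Fin k) : ℂ := -(1 + I * ((a j - b j : ℝ) : ℂ))

lemma moA_mul_pw (c : ℝ) : moA c * pw (-(1 + I * (c : ℂ))) = 1 := by
  set w : ℂ := -(1 + I * (c : ℂ)) with hw
  ext k
  rcases Nat.eq_zero_or_pos k with h | h
  · subst h; simp
  rw [ArithmeticFunction.mul_apply]
  have h2 : ∀ x ∈ k.divisorsAntidiagonal, moA c x.1 * pw w x.2 =
      (k : ℂ) ^ w * ((ArithmeticFunction.moebius x.1 : ℤ) : ℂ) := by
    intro x hx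
    obtain ⟨h3, h4⟩ := Nat.mem_divisorsAntidiagonal.1 hx
    have h5 : x.1 ≠ 0 := fun h0 => h4 (by rw [← h3, h0, zero_mul])
    have h6 : x.2 ≠ 0 := fun h0 => h4 (by rw [← h3, h0, mul_zero])
    rw [pw_apply w h6]
    simp only [moA, ArithmeticFunction.coe_mk]
    rw [← hw, ← h3, Nat.cast_mul, Complex.natCast_mul_natCast_cpow]
    ring
  rw [Finset.sum_congr rfl h2, ← Finset.mul_sum]
  have h7 : ∑ x ∈ k.divisorsAntidiagonal, ((ArithmeticFunction.moebius x.1 : ℤ) : ℂ) =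
      if k = 1 then 1 else 0 := by
    have h8 : (ArithmeticFunction.moebius * (ArithmeticFunction.zeta : ArithmeticFunction ℤ)) k =
        (1 : ArithmeticFunction ℤ) k := by rw [ArithmeticFunction.moebius_mul_coe_zeta]
    rw [ArithmeticFunction.mul_apply] at h8
    have h9 : ∑ x ∈ k.divisorsAntidiagonal, ArithmeticFunction.moebius x.1 = if k = 1 then 1 else 0 := by
      rw [ArithmeticFunction.one_apply] at h8
      rw [← h8]
      refine Finset.sum_congr rfl fun x hx => ?_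
      obtain ⟨h3, h4⟩ := Nat.mem_divisorsAntidiagonal.1 hx
      have h6 : x.2 ≠ 0 := fun h0 => h4 (by rw [← h3, h0, mul_zero])
      rw [ArithmeticFunction.natCoe_apply, ArithmeticFunction.zeta_apply, if_neg h6]
      simp
    have h10 := congrArg (fun t : ℤ => (t : ℂ)) h9
    simp only [Int.cast_sum] at h10
    rw [h10]
    split_ifs <;> simp
  rw [h7, ArithmeticFunction.one_apply]
  split_ifs with h8
  · subst h8; simp
  · simp

lemma tauA_eq_prod : ∀ {k : ℕ} (l : Fin k → ℂ), tauA l = ∏ j, pw (l j)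
  | 0, l => by
      ext n
      rw [tauA_apply, tau_nil, Fin.prod_univ_zero, ArithmeticFunction.one_apply]
  | k + 1, l => by
      rw [tauA_succ, Fin.prod_univ_succ, tauA_eq_prod]

lemma moA_prod {k : ℕ} (a b : Fin k → ℝ) : (∏ j, moA (a j - b j)) * tauA (wv a b) = 1 := by
  rw [tauA_eq_prod, ← Finset.prod_mul_distrib]
  refine Finset.prod_eq_one fun j _ => ?_
  exact moA_mul_pw (a j - b j)

variable {n : ℕ}

/-- the terms -/
def tm (γ : Fin (n + 1) ⊕ Fin (n + 1) → ℝ) (x y : Fin (n + 1) → ℕ) : ℂ :=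
  ∏ j, ((x j : ℂ) ^ (-(I * (γ (Sum.inl j) : ℂ))) * (y j : ℂ) ^ (I * (γ (Sum.inr j) : ℂ)))

/-- the coprime pairs of tuples -/
def CP (n m : ℕ) : Finset ((Fin (n + 1) → ℕ) × (Fin (n + 1) → ℕ)) :=
  ((Nat.finMulAntidiag (n + 1) m) ×ˢ (Nat.finMulAntidiag (n + 1) m)).filter
    fun q => ∀ j, Nat.Coprime (q.1 j) (q.2 j)

lemma mem_CP {m : ℕ} {q : (Fin (n + 1) → ℕ) × (Fin (n + 1) → ℕ)} :
    q ∈ CP n m ↔ ((∏ j, q.1 j = m ∧ m ≠ 0) ∧ ∏ j, q.2 j = m ∧ m ≠ 0) ∧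
      ∀ j, Nat.Coprime (q.1 j) (q.2 j) := by
  unfold CP
  rw [Finset.mem_filter, Finset.mem_product, Nat.mem_finMulAntidiag, Nat.mem_finMulAntidiag]

/-- the reduced coefficient -/
def F (γ : Fin (n + 1) ⊕ Fin (n + 1) → ℝ) (m : ℕ) : ℂ :=
  ∑ q ∈ CP n m, tm γ q.1 q.2 * (m : ℂ)⁻¹

lemma F_zero (γ : Fin (n + 1) ⊕ Fin (n + 1) → ℝ) : F γ 0 = 0 := by
  unfold F
  simp

/-- `F` as an arithmetic function -/
def FA (γ : Fin (n + 1) ⊕ Fin (n + 1) → ℝ) : ArithmeticFunction ℂ := ⟨F γ, F_zero γ⟩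

lemma dr_eq (γ : Fin (n + 1) ⊕ Fin (n + 1) → ℝ) (N : ℕ) :
    dr γ N = ∑ q ∈ (Nat.finMulAntidiag (n + 1) N) ×ˢ (Nat.finMulAntidiag (n + 1) N),
      tm γ q.1 q.2 * (N : ℂ)⁻¹ := by
  unfold dr dg tau
  rw [mul_comm (∑ f ∈ Nat.finMulAntidiag (n + 1) N, ∏ j, (f j : ℂ) ^ (I * (γ (Sum.inr j) : ℂ))),
    Finset.sum_mul_sum, ← Finset.sum_product', Finset.sum_mul]
  refine Finset.sum_congr rfl fun q _ => ?_
  unfold tm
  rw [Finset.prod_mul_distrib]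

lemma prod_gcd_dvd {x y : Fin (n + 1) → ℕ} {N : ℕ} (hx : ∏ j, x j = N) :
    ∏ j, Nat.gcd (x j) (y j) ∣ N := by
  rw [← hx]
  exact Finset.prod_dvd_prod_of_dvd _ _ fun j _ => Nat.gcd_dvd_left _ _

/-- the terms after extraction of the common factors -/
lemma tm_mul (a b : Fin (n + 1) → ℝ) (h : Fin n → ℝ) (g x y : Fin (n + 1) → ℕ) (hg : ∀ j, g j ≠ 0)
    (m : ℕ) :
    tm (gk a b h) (fun j => g j * x j) (fun j => g j * y j) * (((∏ j, g j) * m : ℕ) : ℂ)⁻¹ =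
      (∏ j, (g j : ℂ) ^ (wv a b j)) * (tm (gk a b h) x y * (m : ℂ)⁻¹) := by
  have h1 : ∀ j, ((g j * x j : ℕ) : ℂ) ^ (-(I * (gk a b h (Sum.inl j) : ℂ))) *
      ((g j * y j : ℕ) : ℂ) ^ (I * (gk a b h (Sum.inr j) : ℂ)) =
      ((g j : ℂ) * (g j : ℂ) ^ (wv a b j)) * ((x j : ℂ) ^ (-(I * (gk a b h (Sum.inl j) : ℂ))) *
        (y j : ℂ) ^ (I * (gk a b h (Sum.inr j) : ℂ))) := by
    intro j
    have hgj : (g j : ℂ) ≠ 0 := by exact_mod_cast hg j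
    rw [Nat.cast_mul, Nat.cast_mul, Complex.natCast_mul_natCast_cpow, Complex.natCast_mul_natCast_cpow]
    have h2 : (g j : ℂ) * (g j : ℂ) ^ (wv a b j) =
        (g j : ℂ) ^ (-(I * (gk a b h (Sum.inl j) : ℂ))) * (g j : ℂ) ^ (I * (gk a b h (Sum.inr j) : ℂ)) := by
      rw [← Complex.cpow_add _ _ hgj]
      have h3 : (g j : ℂ) * (g j : ℂ) ^ (wv a b j) = (g j : ℂ) ^ (1 + wv a b j) := by
        rw [Complex.cpow_add _ _ hgj, Complex.cpow_one]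
      rw [h3]
      congr 1
      unfold wv gk
      simp only [Sum.elim_inl, Sum.elim_inr]
      push_cast
      ring
    rw [h2]
    ring
  have h4 : tm (gk a b h) (fun j => g j * x j) (fun j => g j * y j) =
      (∏ j, ((g j : ℂ) * (g j : ℂ) ^ (wv a b j))) * tm (gk a b h) x y := by
    unfold tm
    rw [← Finset.prod_mul_distrib]
    exact Finset.prod_congr rfl fun j _ => h1 j
  rw [h4, Finset.prod_mul_distrib]
  have h5 : (∏ j, (g j : ℂ)) ≠ 0 := Finset.prod_ne_zero_iff.2 fun j _ => by exact_mod_cast hg j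
  push_cast
  rw [mul_inv]
  field_simp

/-- the convolution identity -/
lemma conv (a b : Fin (n + 1) → ℝ) (h : Fin n → ℝ) : drA (gk a b h) = tauA (wv a b) * FA (gk a b h) := by
  ext N
  rcases Nat.eq_zero_or_pos N with h0 | h0
  · subst h0; simp
  rw [ArithmeticFunction.mul_apply]
  have hL : drA (gk a b h) N = ∑ q ∈ (Nat.finMulAntidiag (n + 1) N) ×ˢ (Nat.finMulAntidiag (n + 1) N),
      tm (gk a b h) q.1 q.2 * (N : ℂ)⁻¹ := dr_eq _ N
  rw [hL]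
  have hmaps : ∀ q ∈ (Nat.finMulAntidiag (n + 1) N) ×ˢ (Nat.finMulAntidiag (n + 1) N),
      ((∏ j, Nat.gcd (q.1 j) (q.2 j), N / ∏ j, Nat.gcd (q.1 j) (q.2 j)) : ℕ × ℕ) ∈
        N.divisorsAntidiagonal := by
    intro q hq
    rw [Finset.mem_product, Nat.mem_finMulAntidiag, Nat.mem_finMulAntidiag] at hq
    rw [Nat.mem_divisorsAntidiagonal]
    exact ⟨Nat.mul_div_cancel' (prod_gcd_dvd hq.1.1), h0.ne'⟩
  rw [← Finset.sum_fiberwise_of_maps_to hmaps]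
  refine Finset.sum_congr rfl fun p hp => ?_
  obtain ⟨hp1, hp2⟩ := Nat.mem_divisorsAntidiagonal.1 hp
  have hG : p.1 ≠ 0 := fun h' => hp2 (by rw [← hp1, h', zero_mul])
  have hm : p.2 ≠ 0 := fun h' => hp2 (by rw [← hp1, h', mul_zero])
  have hR : tauA (wv a b) p.1 * FA (gk a b h) p.2 =
      ∑ z ∈ (Nat.finMulAntidiag (n + 1) p.1) ×ˢ (CP n p.2), (∏ j, (z.1 j : ℂ) ^ (wv a b j)) *
        (tm (gk a b h) z.2.1 z.2.2 * (p.2 : ℂ)⁻¹) := by
    have e1 : tauA (wv a b) p.1 = ∑ f ∈ Nat.finMulAntidiag (n + 1) p.1, ∏ j, (f j : ℂ) ^ (wv a b j) := rfl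
    have e2 : FA (gk a b h) p.2 = ∑ q ∈ CP n p.2, tm (gk a b h) q.1 q.2 * (p.2 : ℂ)⁻¹ := rfl
    rw [e1, e2, Finset.sum_mul_sum, ← Finset.sum_product']
  rw [hR]
  refine Finset.sum_bij' (fun q _ => ((fun j => Nat.gcd (q.1 j) (q.2 j)),
      ((fun j => q.1 j / Nat.gcd (q.1 j) (q.2 j)), fun j => q.2 j / Nat.gcd (q.1 j) (q.2 j))))
    (fun z _ => ((fun j => z.1 j * z.2.1 j), fun j => z.1 j * z.2.2 j)) ?_ ?_ ?_ ?_ ?_
  · intro q hq
    rw [Finset.mem_filter, Finset.mem_product, Nat.mem_finMulAntidiag, Nat.mem_finMulAntidiag] at hq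
    obtain ⟨⟨⟨h1, -⟩, h2, -⟩, h3⟩ := hq
    have h4 : ∏ j, Nat.gcd (q.1 j) (q.2 j) = p.1 := congrArg Prod.fst h3
    rw [Finset.mem_product, Nat.mem_finMulAntidiag, mem_CP]
    have h5 : ∀ z : Fin (n + 1) → ℕ, (∀ j, Nat.gcd (q.1 j) (q.2 j) ∣ z j) → ∏ j, z j = N →
        ∏ j, z j / Nat.gcd (q.1 j) (q.2 j) = p.2 := by
      intro z hz hzN
      have h6 : (∏ j, Nat.gcd (q.1 j) (q.2 j)) * ∏ j, z j / Nat.gcd (q.1 j) (q.2 j) = p.1 * p.2 := by
        rw [← Finset.prod_mul_distrib, hp1, ← hzN]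
        exact Finset.prod_congr rfl fun j _ => Nat.mul_div_cancel' (hz j)
      rw [h4] at h6
      exact Nat.eq_of_mul_eq_mul_left (Nat.pos_of_ne_zero hG) h6
    refine ⟨⟨h4, hG⟩, ⟨⟨h5 q.1 (fun j => Nat.gcd_dvd_left _ _) h1, hm⟩,
      h5 q.2 (fun j => Nat.gcd_dvd_right _ _) h2, hm⟩, fun j => ?_⟩
    have h7 : q.1 j ≠ 0 := by
      intro h8
      have : ∏ j, q.1 j = 0 := Finset.prod_eq_zero (Finset.mem_univ j) h8
      omega
    exact Nat.coprime_div_gcd_div_gcd (Nat.gcd_pos_of_pos_left _ (Nat.pos_of_ne_zero h7))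
  · intro z hz
    rw [Finset.mem_product, Nat.mem_finMulAntidiag, mem_CP] at hz
    obtain ⟨⟨h1, -⟩, ⟨⟨h2, -⟩, h3, -⟩, h4⟩ := hz
    rw [Finset.mem_filter, Finset.mem_product, Nat.mem_finMulAntidiag, Nat.mem_finMulAntidiag]
    have h5 : ∏ j, Nat.gcd (z.1 j * z.2.1 j) (z.1 j * z.2.2 j) = p.1 := by
      rw [← h1]
      refine Finset.prod_congr rfl fun j _ => ?_
      rw [Nat.gcd_mul_left, (h4 j).gcd_eq_one, mul_one]
    refine ⟨⟨⟨?_, h0.ne'⟩, ?_, h0.ne'⟩, ?_⟩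
    · simp only
      rw [Finset.prod_mul_distrib, h1, h2, hp1]
    · simp only
      rw [Finset.prod_mul_distrib, h1, h3, hp1]
    · simp only
      rw [h5]
      refine Prod.ext rfl ?_
      simp only
      rw [← hp1]
      exact Nat.mul_div_cancel_left _ (Nat.pos_of_ne_zero hG)
  · intro q _
    refine Prod.ext ?_ ?_
    · funext j
      exact Nat.mul_div_cancel' (Nat.gcd_dvd_left _ _)
    · funext j
      exact Nat.mul_div_cancel' (Nat.gcd_dvd_right _ _)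
  · intro z hz
    rw [Finset.mem_product, Nat.mem_finMulAntidiag, mem_CP] at hz
    obtain ⟨⟨h1, h1'⟩, ⟨⟨h2, -⟩, h3, -⟩, h4⟩ := hz
    have h5 : ∀ j, Nat.gcd (z.1 j * z.2.1 j) (z.1 j * z.2.2 j) = z.1 j := by
      intro j
      rw [Nat.gcd_mul_left, (h4 j).gcd_eq_one, mul_one]
    have h6 : ∀ j, 0 < z.1 j := by
      intro j
      refine Nat.pos_of_ne_zero fun h8 => ?_
      have : ∏ j, z.1 j = 0 := Finset.prod_eq_zero (Finset.mem_univ j) h8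
      omega
    refine Prod.ext ?_ (Prod.ext ?_ ?_)
    · funext j
      exact h5 j
    · funext j
      simp only
      rw [h5 j]
      exact Nat.mul_div_cancel_left _ (h6 j)
    · funext j
      simp only
      rw [h5 j]
      exact Nat.mul_div_cancel_left _ (h6 j)
  · intro q hq
    rw [Finset.mem_filter, Finset.mem_product, Nat.mem_finMulAntidiag, Nat.mem_finMulAntidiag] at hq
    obtain ⟨⟨⟨h1, -⟩, h2, -⟩, h3⟩ := hq
    have h4 : ∏ j, Nat.gcd (q.1 j) (q.2 j) = p.1 := congrArg Prod.fst h3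
    have h6 : ∀ j, Nat.gcd (q.1 j) (q.2 j) ≠ 0 := by
      intro j h8
      have : ∏ j, Nat.gcd (q.1 j) (q.2 j) = 0 := Finset.prod_eq_zero (Finset.mem_univ j) h8
      omega
    have h7 := tm_mul a b h (fun j => Nat.gcd (q.1 j) (q.2 j)) (fun j => q.1 j / Nat.gcd (q.1 j) (q.2 j))
      (fun j => q.2 j / Nat.gcd (q.1 j) (q.2 j)) h6 p.2
    have e1 : (fun j => Nat.gcd (q.1 j) (q.2 j) * (q.1 j / Nat.gcd (q.1 j) (q.2 j))) = q.1 := by
      funext j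
      exact Nat.mul_div_cancel' (Nat.gcd_dvd_left _ _)
    have e2 : (fun j => Nat.gcd (q.1 j) (q.2 j) * (q.2 j / Nat.gcd (q.1 j) (q.2 j))) = q.2 := by
      funext j
      exact Nat.mul_div_cancel' (Nat.gcd_dvd_right _ _)
    rw [e1, e2, h4, hp1] at h7
    exact h7

lemma Aq_eq (a b : Fin (n + 1) → ℝ) (h : Fin n → ℝ) (m : ℕ) : Aq a b h m = F (gk a b h) m := by
  unfold Aq
  rw [conv, ← mul_assoc, moA_prod, one_mul]
  rfl

lemma exp_char (h : ℝ) (q : ℕ × ℕ) (h1 : 1 ≤ q.1) (h2 : 1 ≤ q.2) :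
    cexp (-(I * ((h * lam q : ℝ) : ℂ))) = (q.2 : ℂ) ^ (-(I * (h : ℂ))) * (q.1 : ℂ) ^ (I * (h : ℂ)) := by
  have e1 : (q.1 : ℂ) ≠ 0 := by
    have : q.1 ≠ 0 := by omega
    exact_mod_cast this
  have e2 : (q.2 : ℂ) ≠ 0 := by
    have : q.2 ≠ 0 := by omega
    exact_mod_cast this
  rw [Complex.cpow_def_of_ne_zero e1, Complex.cpow_def_of_ne_zero e2, ← Complex.exp_add,
    ← Complex.natCast_log, ← Complex.natCast_log]
  congr 1
  unfold lam
  push_cast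
  ring

/-- the weight of a tuple -/
lemma weight (a b : Fin (n + 1) → ℝ) (h : Fin n → ℝ) (ν : Fin n → ℕ × ℕ) (m l0 m0 : ℕ)
    (hm : m ≠ 0) (hν : ∀ j, 1 ≤ (ν j).1 ∧ 1 ≤ (ν j).2)
    (hl : l0 * ql ν = m) (hr : m0 * qm ν = m) :
    tm (gk a b h) (Fin.cons m0 fun j => (ν j).2) (Fin.cons l0 fun j => (ν j).1) * (m : ℂ)⁻¹ =
      kap (a 0) (b 0) l0 m0 * (∏ j : Fin n, kap (a j.succ) (b j.succ) (ν j).1 (ν j).2) * chq ν h := by
  have hm' : (m : ℝ) ≠ 0 := by exact_mod_cast hm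
  have hreal : (((l0 : ℝ) * m0) ^ (-(1 / 2 : ℝ))) * ∏ j : Fin n, (((ν j).1 : ℝ) * (ν j).2) ^ (-(1 / 2 : ℝ)) =
      (m : ℝ)⁻¹ := by
    rw [Real.finsetProd_rpow _ _ (fun j _ => by positivity),
      ← Real.mul_rpow (by positivity) (Finset.prod_nonneg fun j _ => by positivity)]
    have e1 : ((l0 : ℝ) * m0) * ∏ j : Fin n, ((ν j).1 : ℝ) * (ν j).2 = (m : ℝ) ^ 2 := by
      rw [Finset.prod_mul_distrib]
      have f1 : (m : ℝ) = l0 * ∏ j : Fin n, ((ν j).1 : ℝ) := by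
        rw [← hl]; unfold ql; push_cast; rfl
      have f2 : (m : ℝ) = m0 * ∏ j : Fin n, ((ν j).2 : ℝ) := by
        rw [← hr]; unfold qm; push_cast; rfl
      calc (l0 : ℝ) * m0 * ((∏ j : Fin n, ((ν j).1 : ℝ)) * ∏ j : Fin n, ((ν j).2 : ℝ)) =
          (l0 * ∏ j : Fin n, ((ν j).1 : ℝ)) * (m0 * ∏ j : Fin n, ((ν j).2 : ℝ)) := by ring
        _ = (m : ℝ) ^ 2 := by rw [← f1, ← f2]; ring
    rw [e1, ← Real.rpow_natCast, ← Real.rpow_mul (Nat.cast_nonneg _)]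
    norm_num
    rw [Real.rpow_neg_one]
  have hcc : ((m : ℂ))⁻¹ = (((((l0 : ℝ) * m0) ^ (-(1 / 2 : ℝ)) : ℝ)) : ℂ) *
      ∏ j : Fin n, (((((ν j).1 : ℝ) * (ν j).2) ^ (-(1 / 2 : ℝ)) : ℝ) : ℂ) := by
    have h5 : ((m : ℂ))⁻¹ = (((m : ℝ)⁻¹ : ℝ) : ℂ) := by
      push_cast
      rfl
    rw [h5, ← hreal]
    push_cast
    rfl
  unfold tm
  rw [Fin.prod_univ_succ, hcc]
  have h0 : ((Fin.cons m0 (fun j => (ν j).2) : Fin (n + 1) → ℕ) 0 : ℂ) ^
      (-(I * (gk a b h (Sum.inl 0) : ℂ))) *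
      ((Fin.cons l0 (fun j => (ν j).1) : Fin (n + 1) → ℕ) 0 : ℂ) ^ (I * (gk a b h (Sum.inr 0) : ℂ)) =
      (m0 : ℂ) ^ (-(I * (a 0 : ℂ))) * (l0 : ℂ) ^ (I * (b 0 : ℂ)) := by
    simp [gk, hc]
  have h1 : ∀ j : Fin n, ((Fin.cons m0 (fun j => (ν j).2) : Fin (n + 1) → ℕ) j.succ : ℂ) ^
      (-(I * (gk a b h (Sum.inl j.succ) : ℂ))) *
      ((Fin.cons l0 (fun j => (ν j).1) : Fin (n + 1) → ℕ) j.succ : ℂ) ^
        (I * (gk a b h (Sum.inr j.succ) : ℂ)) =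
      (((ν j).2 : ℂ) ^ (-(I * (a j.succ : ℂ))) * ((ν j).1 : ℂ) ^ (I * (b j.succ : ℂ))) *
        cexp (-(I * ((h j * lam (ν j) : ℝ) : ℂ))) := by
    intro j
    have e1 : ((ν j).1 : ℂ) ≠ 0 := by
      have : (ν j).1 ≠ 0 := by have := (hν j).1; omega
      exact_mod_cast this
    have e2 : ((ν j).2 : ℂ) ≠ 0 := by
      have : (ν j).2 ≠ 0 := by have := (hν j).2; omega
      exact_mod_cast this
    rw [exp_char _ _ (hν j).1 (hν j).2]
    simp only [gk, hc, Fin.cons_succ, Sum.elim_inl, Sum.elim_inr]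
    have f1 : -(I * ((h j + a j.succ : ℝ) : ℂ)) = -(I * (a j.succ : ℂ)) + -(I * (h j : ℂ)) := by
      push_cast; ring
    have f2 : I * ((h j + b j.succ : ℝ) : ℂ) = I * (b j.succ : ℂ) + I * (h j : ℂ) := by
      push_cast; ring
    rw [f1, f2, Complex.cpow_add _ _ e1, Complex.cpow_add _ _ e2]
    ring
  rw [h0, Finset.prod_congr rfl fun j _ => h1 j]
  unfold kap chq
  simp only [Finset.prod_mul_distrib]
  ring

/-- the divisions -/
lemma lcm_div (A B : ℕ) (hA : 0 < A) : A / Nat.gcd A B * B = Nat.lcm A B := by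
  have hg : 0 < Nat.gcd A B := Nat.gcd_pos_of_pos_left _ hA
  obtain ⟨l', hl'⟩ := Nat.gcd_dvd_left A B
  have e1 : A / Nat.gcd A B = l' := Nat.div_eq_of_eq_mul_right hg hl'
  have h1 := Nat.gcd_mul_lcm A B
  rw [e1]
  have h2 : A * B = Nat.gcd A B * (l' * B) := by
    calc A * B = (Nat.gcd A B * l') * B := by rw [← hl']
      _ = _ := by ring
  rw [h2] at h1
  exact (Nat.eq_of_mul_eq_mul_left hg h1).symm

lemma lcm_div' (A B : ℕ) (hB : 0 < B) : B / Nat.gcd A B * A = Nat.lcm A B := by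
  rw [Nat.gcd_comm, Nat.lcm_comm]
  exact lcm_div B A hB

/-- the determined pair -/
lemma lcm_eq (x y X Y m : ℕ) (hm : m ≠ 0) (hX : x * X = m) (hY : y * Y = m) (hxy : Nat.Coprime x y) :
    Nat.lcm Y X = m := by
  have hX0 : 0 < X := Nat.pos_of_ne_zero fun h => hm (by rw [← hX, h, mul_zero])
  have hY0 : 0 < Y := Nat.pos_of_ne_zero fun h => hm (by rw [← hY, h, mul_zero])
  have h1 : Nat.lcm Y X ∣ m := Nat.lcm_dvd ⟨y, by rw [← hY]; ring⟩ ⟨x, by rw [← hX]; ring⟩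
  obtain ⟨c, hc'⟩ := h1
  have h2 : c ∣ x := by
    have e1 := lcm_div Y X hY0
    have e2 : x * X = (Y / Nat.gcd Y X * c) * X := by
      rw [hX, hc', ← e1]; ring
    have e3 := Nat.eq_of_mul_eq_mul_right hX0 e2
    exact ⟨Y / Nat.gcd Y X, by rw [e3]; ring⟩
  have h3 : c ∣ y := by
    have e1 := lcm_div' Y X hX0
    have e2 : y * Y = (X / Nat.gcd Y X * c) * Y := by
      rw [hY, hc', ← e1]; ring
    have e3 := Nat.eq_of_mul_eq_mul_right hY0 e2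
    exact ⟨X / Nat.gcd Y X, by rw [e3]; ring⟩
  have h4 : c = 1 := Nat.eq_one_of_dvd_coprimes hxy h2 h3
  rw [hc', h4, mul_one]

/-- the sum over tuples -/
lemma tuples (a b : Fin (n + 1) → ℝ) (h : Fin n → ℝ) (M m : ℕ) (hm : 1 ≤ m) (hM : m ≤ M) :
    F (gk a b h) m = ∑ ν ∈ (tq n M).filter (fun ν => Nat.lcm (ql ν) (qm ν) = m), cq a b ν * chq ν h := by
  unfold F
  have hA : ∀ q ∈ CP n m, q.1 0 * qm (fun j : Fin n => ((q.2 j.succ, q.1 j.succ) : ℕ × ℕ)) = m ∧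
      q.2 0 * ql (fun j : Fin n => ((q.2 j.succ, q.1 j.succ) : ℕ × ℕ)) = m := by
    intro q hq
    rw [mem_CP] at hq
    obtain ⟨⟨⟨h1, -⟩, h2, -⟩, -⟩ := hq
    rw [Fin.prod_univ_succ] at h1 h2
    exact ⟨h1, h2⟩
  have hB : ∀ q ∈ CP n m, Nat.lcm (ql (fun j : Fin n => ((q.2 j.succ, q.1 j.succ) : ℕ × ℕ)))
      (qm (fun j : Fin n => ((q.2 j.succ, q.1 j.succ) : ℕ × ℕ))) = m := by
    intro q hq
    obtain ⟨h1, h2⟩ := hA q hq
    rw [mem_CP] at hq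
    exact lcm_eq _ _ _ _ m (by omega) h1 h2 (hq.2 0)
  have hpos : ∀ ν : Fin n → ℕ × ℕ, Nat.lcm (ql ν) (qm ν) = m → 0 < ql ν ∧ 0 < qm ν := by
    intro ν hν
    constructor
    · refine Nat.pos_of_ne_zero fun h0 => ?_
      rw [h0, Nat.lcm_zero_left] at hν
      omega
    · refine Nat.pos_of_ne_zero fun h0 => ?_
      rw [h0, Nat.lcm_zero_right] at hν
      omega
  have hle : ∀ q ∈ CP n m, (Fin.cons (ql (fun j : Fin n => ((q.2 j.succ, q.1 j.succ) : ℕ × ℕ)) /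
      Nat.gcd (ql (fun j : Fin n => ((q.2 j.succ, q.1 j.succ) : ℕ × ℕ)))
        (qm (fun j : Fin n => ((q.2 j.succ, q.1 j.succ) : ℕ × ℕ)))) (fun j => q.1 j.succ) :
          Fin (n + 1) → ℕ) = q.1 ∧
      (Fin.cons (qm (fun j : Fin n => ((q.2 j.succ, q.1 j.succ) : ℕ × ℕ)) /
      Nat.gcd (ql (fun j : Fin n => ((q.2 j.succ, q.1 j.succ) : ℕ × ℕ)))
        (qm (fun j : Fin n => ((q.2 j.succ, q.1 j.succ) : ℕ × ℕ)))) (fun j => q.2 j.succ) :
          Fin (n + 1) → ℕ) = q.2 := by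
    intro q hq
    obtain ⟨h1, h2⟩ := hA q hq
    have h3 := hB q hq
    set ν : Fin n → ℕ × ℕ := fun j : Fin n => ((q.2 j.succ, q.1 j.succ) : ℕ × ℕ) with hν
    obtain ⟨p1, p2⟩ := hpos ν h3
    have e1 : ql ν / Nat.gcd (ql ν) (qm ν) = q.1 0 := by
      refine Nat.eq_of_mul_eq_mul_right p2 ?_
      rw [lcm_div _ _ p1, h3, h1]
    have e2 : qm ν / Nat.gcd (ql ν) (qm ν) = q.2 0 := by
      refine Nat.eq_of_mul_eq_mul_right p1 ?_
      rw [lcm_div' _ _ p2, h3, h2]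
    rw [e1, e2]
    constructor
    · funext j
      refine Fin.cases ?_ (fun j => ?_) j
      · rfl
      · rfl
    · funext j
      refine Fin.cases ?_ (fun j => ?_) j
      · rfl
      · rfl
  refine Finset.sum_bij' (fun q _ => fun j : Fin n => ((q.2 j.succ, q.1 j.succ) : ℕ × ℕ))
    (fun ν _ => ((Fin.cons (ql ν / Nat.gcd (ql ν) (qm ν)) fun j => (ν j).2 : Fin (n + 1) → ℕ),
      (Fin.cons (qm ν / Nat.gcd (ql ν) (qm ν)) fun j => (ν j).1 : Fin (n + 1) → ℕ))) ?_ ?_ ?_ ?_ ?_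
  · intro q hq
    rw [Finset.mem_filter]
    refine ⟨?_, hB q hq⟩
    unfold tq
    rw [Fintype.mem_piFinset]
    intro j
    rw [mem_CP] at hq
    obtain ⟨⟨⟨h1, -⟩, h2, -⟩, h3⟩ := hq
    rw [mem_FR]
    have d1 : q.1 j.succ ∣ m := h1 ▸ Finset.dvd_prod_of_mem q.1 (Finset.mem_univ j.succ)
    have d2 : q.2 j.succ ∣ m := h2 ▸ Finset.dvd_prod_of_mem q.2 (Finset.mem_univ j.succ)
    refine ⟨⟨Nat.pos_of_dvd_of_pos d2 (by omega), Nat.pos_of_dvd_of_pos d1 (by omega), ?_⟩,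
      (h3 j.succ).symm⟩
    exact (Nat.le_of_dvd (by omega) ((h3 j.succ).symm.mul_dvd_of_dvd_of_dvd d2 d1)).trans hM
  · intro ν hν
    rw [Finset.mem_filter] at hν
    obtain ⟨h1, h2⟩ := hν
    obtain ⟨p1, p2⟩ := hpos ν h2
    unfold tq at h1
    rw [Fintype.mem_piFinset] at h1
    rw [mem_CP]
    refine ⟨⟨⟨?_, by omega⟩, ?_, by omega⟩, ?_⟩
    · rw [Fin.prod_univ_succ]
      simp only [Fin.cons_zero, Fin.cons_succ]
      have e1 := lcm_div (ql ν) (qm ν) p1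
      rw [h2] at e1
      exact e1
    · rw [Fin.prod_univ_succ]
      simp only [Fin.cons_zero, Fin.cons_succ]
      have e1 := lcm_div' (ql ν) (qm ν) p2
      rw [h2] at e1
      exact e1
    · intro j
      refine Fin.cases ?_ (fun j => ?_) j
      · exact Nat.coprime_div_gcd_div_gcd (Nat.gcd_pos_of_pos_left _ p1)
      · exact (mem_FR.1 (h1 j)).2.symm
  · intro q hq
    exact Prod.ext (hle q hq).1 (hle q hq).2
  · intro ν _
    rfl
  · intro q hq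
    have h3 := hB q hq
    have h4 := hle q hq
    have hq' := mem_CP.1 hq
    set ν : Fin n → ℕ × ℕ := fun j : Fin n => ((q.2 j.succ, q.1 j.succ) : ℕ × ℕ) with hν
    obtain ⟨p1, p2⟩ := hpos ν h3
    have e1 := lcm_div (ql ν) (qm ν) p1
    have e2 := lcm_div' (ql ν) (qm ν) p2
    rw [h3] at e1 e2
    have hpz : ∀ j : Fin n, 1 ≤ (ν j).1 ∧ 1 ≤ (ν j).2 := by
      intro j
      have d1 : q.1 j.succ ∣ m := hq'.1.1.1 ▸ Finset.dvd_prod_of_mem q.1 (Finset.mem_univ j.succ)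
      have d2 : q.2 j.succ ∣ m := hq'.1.2.1 ▸ Finset.dvd_prod_of_mem q.2 (Finset.mem_univ j.succ)
      exact ⟨Nat.pos_of_dvd_of_pos d2 (by omega), Nat.pos_of_dvd_of_pos d1 (by omega)⟩
    have h5 := weight a b h ν m _ _ (by omega) hpz e2 e1
    have h6 : tm (gk a b h) q.1 q.2 = tm (gk a b h)
        (Fin.cons (ql ν / Nat.gcd (ql ν) (qm ν)) fun j => (ν j).2)
        (Fin.cons (qm ν / Nat.gcd (ql ν) (qm ν)) fun j => (ν j).1) := by
      have f1 := h4.1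
      have f2 := h4.2
      conv_lhs => rw [← f1, ← f2]
    rw [h6, h5]
    rfl

end PkgLCMQ

open PkgLCMQ

theorem t_LCMQ : S_LCMQ := by
  intro n a b h M m h1 h2
  rw [Aq_eq, tuples a b h M m h1 h2]

end

end Pool.Agent.T2H54.CL
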