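import Pool.Agent.T2H54.CL.Stm
import Pool.Agent.H353R2.Z2

/-!
# Project CL, package MVK: high moments of a short Dirichlet polynomial on the line 3/4
-/

set_option autoImplicit false

namespace Pool.Agent.T2H54.CL

open Complex Filter Topology MeasureTheory Set
open Pool.Agent.TH612.GS (zN)

namespace MVKx

lemma exp_int (x T δ L : ℝ) (hT : 0 ≤ T) (hL : 0 < L) (hδ : δ ≠ 0 → 1 / L ≤ |δ|) :
    ‖∫ u in x..(x + T), cexp (-(I * ((u * δ : ℝ) : ℂ)))‖ ≤ if δ = 0 then T else 2 * L := by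
  split_ifs with h
  · subst h
    simp [abs_of_nonneg hT]
  · have hc : (-(I * (δ : ℂ))) ≠ 0 := neg_ne_zero.2 (mul_ne_zero I_ne_zero (by exact_mod_cast h))
    have e1 : (∫ u in x..(x + T), cexp (-(I * ((u * δ : ℝ) : ℂ)))) =
        ∫ u in x..(x + T), cexp ((-(I * (δ : ℂ))) * u) := by
      refine intervalIntegral.integral_congr (fun u _ => ?_)
      congr 1
      push_cast; ring
    rw [e1, integral_exp_mul_complex hc, norm_div, norm_neg, norm_mul, Complex.norm_I, one_mul,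
      Complex.norm_real, Real.norm_eq_abs]
    have hδ' := hδ h
    have hδ0 : 0 < |δ| := abs_pos.2 h
    rw [div_le_iff₀ hδ0]
    have n1 : ∀ w : ℝ, ‖cexp ((-(I * (δ : ℂ))) * w)‖ = 1 := by
      intro w
      rw [Complex.norm_exp]
      simp
    have h2 : ‖cexp ((-(I * (δ : ℂ))) * ((x + T : ℝ) : ℂ)) - cexp ((-(I * (δ : ℂ))) * (x : ℂ))‖ ≤ 2 := by
      calc _ ≤ _ := norm_sub_le _ _
        _ = 2 := by rw [n1, n1]; norm_num
    have h3 : 1 ≤ L * |δ| := by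
      rw [div_le_iff₀ hL] at hδ'
      linarith
    linarith

lemma log_sep (m m' : ℕ) (L : ℝ) (hm : 1 ≤ m) (hm' : 1 ≤ m') (h1 : (m : ℝ) ≤ L) (h2 : (m' : ℝ) ≤ L)
    (h : Real.log m - Real.log m' ≠ 0) : 1 / L ≤ |Real.log m - Real.log m'| := by
  have key : ∀ a b : ℕ, 1 ≤ a → 1 ≤ b → (a : ℝ) ≤ L → b < a → 1 / L ≤ Real.log a - Real.log b := by
    intro a b ha hb hal hab
    have ha0 : (0 : ℝ) < a := by exact_mod_cast ha
    have hb0 : (0 : ℝ) < b := by exact_mod_cast hb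
    rw [← Real.log_div ha0.ne' hb0.ne']
    have h3 := Real.one_sub_inv_le_log_of_pos (div_pos ha0 hb0)
    rw [inv_div] at h3
    have h4 : (b : ℝ) + 1 ≤ a := by exact_mod_cast hab
    have h5 : 1 / L ≤ 1 - (b : ℝ) / a := by
      rw [div_le_iff₀ (lt_of_lt_of_le ha0 hal)]
      have h6 : 1 - (b : ℝ) / a = (a - b) / a := by field_simp
      rw [h6, div_mul_eq_mul_div, le_div_iff₀ ha0]
      nlinarith
    linarith
  rcases lt_trichotomy m m' with h3 | h3 | h3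
  · have := key m' m hm' hm h2 h3
    rw [abs_sub_comm]
    exact this.trans (le_abs_self _)
  · subst h3; simp at h
  · exact (key m m' hm hm' h1 h3).trans (le_abs_self _)

lemma mean {ι : Type*} (V : Finset ι) (a : ι → ℝ) (P : ι → ℕ) (x T L : ℝ) (hT : 0 ≤ T) (hL : 0 < L)
    (ha : ∀ v ∈ V, 0 ≤ a v) (hP : ∀ v ∈ V, 1 ≤ P v ∧ (P v : ℝ) ≤ L) :
    ∫ u in x..(x + T), ‖∑ v ∈ V, (a v : ℂ) * cexp (-(I * ((u * Real.log (P v) : ℝ) : ℂ)))‖ ^ 2 ≤
      T * ∑ v ∈ V, ∑ w ∈ V, (if P v = P w then a v * a w else 0) + 2 * L * (∑ v ∈ V, a v) ^ 2 := by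
  set F : ℝ → ℂ := fun u => ∑ v ∈ V, (a v : ℂ) * cexp (-(I * ((u * Real.log (P v) : ℝ) : ℂ))) with hF
  have e1 : ∀ u : ℝ, ((‖F u‖ ^ 2 : ℝ) : ℂ) = ∑ v ∈ V, ∑ w ∈ V, ((a v * a w : ℝ) : ℂ) *
      cexp (-(I * ((u * (Real.log (P v) - Real.log (P w)) : ℝ) : ℂ))) := by
    intro u
    have h1 : ((‖F u‖ ^ 2 : ℝ) : ℂ) = F u * (starRingEnd ℂ) (F u) := by
      rw [Complex.mul_conj, Complex.normSq_eq_norm_sq]
    rw [h1, hF]
    simp only
    rw [map_sum, Finset.sum_mul_sum]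
    refine Finset.sum_congr rfl (fun v _ => Finset.sum_congr rfl (fun w _ => ?_))
    rw [map_mul, Complex.conj_ofReal, ← Complex.exp_conj, map_neg, map_mul, Complex.conj_I, Complex.conj_ofReal]
    rw [show (a v : ℂ) * cexp (-(I * ((u * Real.log (P v) : ℝ) : ℂ))) *
      ((a w : ℂ) * cexp (-(-I * ((u * Real.log (P w) : ℝ) : ℂ)))) =
      ((a v : ℂ) * (a w : ℂ)) * (cexp (-(I * ((u * Real.log (P v) : ℝ) : ℂ))) *
        cexp (-(-I * ((u * Real.log (P w) : ℝ) : ℂ)))) by ring, ← Complex.exp_add]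
    push_cast
    congr 2
    ring
  have e2 : (((∫ u in x..(x + T), ‖F u‖ ^ 2 : ℝ)) : ℂ) = ∑ v ∈ V, ∑ w ∈ V, ((a v * a w : ℝ) : ℂ) *
      ∫ u in x..(x + T), cexp (-(I * ((u * (Real.log (P v) - Real.log (P w)) : ℝ) : ℂ))) := by
    rw [← intervalIntegral.integral_ofReal]
    rw [intervalIntegral.integral_congr (fun u _ => e1 u)]
    rw [intervalIntegral.integral_finsetSum (fun v _ => by
      refine Continuous.intervalIntegrable ?_ _ _; fun_prop)]
    refine Finset.sum_congr rfl (fun v _ => ?_)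
    rw [intervalIntegral.integral_finsetSum (fun v _ => by
      refine Continuous.intervalIntegrable ?_ _ _; fun_prop)]
    refine Finset.sum_congr rfl (fun w _ => ?_)
    rw [intervalIntegral.integral_const_mul]
  have e3 : (∫ u in x..(x + T), ‖F u‖ ^ 2) ≤ ‖(((∫ u in x..(x + T), ‖F u‖ ^ 2 : ℝ)) : ℂ)‖ := by
    rw [Complex.norm_real]; exact Real.le_norm_self _
  refine e3.trans ?_
  rw [e2]
  calc _ ≤ ∑ v ∈ V, ∑ w ∈ V, ‖((a v * a w : ℝ) : ℂ) *
      ∫ u in x..(x + T), cexp (-(I * ((u * (Real.log (P v) - Real.log (P w)) : ℝ) : ℂ)))‖ :=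
        (norm_sum_le _ _).trans (Finset.sum_le_sum (fun v _ => norm_sum_le _ _))
    _ ≤ ∑ v ∈ V, ∑ w ∈ V, (T * (if P v = P w then a v * a w else 0) + 2 * L * (a v * a w)) := by
        refine Finset.sum_le_sum (fun v hv => Finset.sum_le_sum (fun w hw => ?_))
        have haa : 0 ≤ a v * a w := mul_nonneg (ha v hv) (ha w hw)
        rw [norm_mul, Complex.norm_real, Real.norm_eq_abs, abs_of_nonneg haa]
        have h1 := exp_int x T (Real.log (P v) - Real.log (P w)) L hT hL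
          (fun h => log_sep _ _ L (hP v hv).1 (hP w hw).1 (hP v hv).2 (hP w hw).2 h)
        by_cases hvw : P v = P w
        · rw [if_pos hvw]
          rw [hvw, sub_self, if_pos rfl] at h1
          rw [hvw, sub_self]
          calc _ ≤ a v * a w * T := mul_le_mul_of_nonneg_left h1 haa
            _ ≤ _ := by nlinarith [mul_nonneg (mul_nonneg (by norm_num : (0:ℝ) ≤ 2) hL.le) haa]
        · rw [if_neg hvw, mul_zero, zero_add]
          have h2 : Real.log (P v) - Real.log (P w) ≠ 0 := by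
            intro h3
            apply hvw
            have h4 : Real.log (P v) = Real.log (P w) := sub_eq_zero.1 h3
            have h5 := Real.log_injOn_pos (Set.mem_Ioi.2 (by exact_mod_cast (hP v hv).1))
              (Set.mem_Ioi.2 (by exact_mod_cast (hP w hw).1)) h4
            exact_mod_cast h5
          rw [if_neg h2] at h1
          calc _ ≤ a v * a w * (2 * L) := mul_le_mul_of_nonneg_left h1 haa
            _ = _ := by ring
    _ = _ := by
        simp only [Finset.sum_add_distrib, ← Finset.mul_sum]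
        rw [sq, Finset.sum_mul_sum]
        simp only [Finset.mul_sum]

lemma sum_inv_sqrt (M : ℕ) : ∑ n ∈ Finset.Icc 1 M, (n : ℝ) ^ (-(3 / 4) : ℝ) ≤ 2 * √(M : ℝ) := by
  have h1 : ∑ n ∈ Finset.Icc 1 M, (n : ℝ) ^ (-(3 / 4) : ℝ) ≤ ∑ n ∈ Finset.Icc 1 M, (√(n : ℝ))⁻¹ := by
    refine Finset.sum_le_sum (fun n hn => ?_)
    have hn1 : (1 : ℝ) ≤ n := by exact_mod_cast (Finset.mem_Icc.1 hn).1
    rw [Real.sqrt_eq_rpow, ← Real.rpow_neg (by linarith)]
    exact Real.rpow_le_rpow_of_exponent_le hn1 (by norm_num)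
  refine h1.trans ?_
  clear h1
  induction M with
  | zero => simp
  | succ M ih =>
    rw [Finset.sum_Icc_succ_top (by omega)]
    have h0 : (0 : ℝ) ≤ M := Nat.cast_nonneg M
    have hs : 0 < √((M + 1 : ℕ) : ℝ) := Real.sqrt_pos.2 (by positivity)
    have hs0 : 0 ≤ √(M : ℝ) := Real.sqrt_nonneg _
    have e1 : √((M + 1 : ℕ) : ℝ) ^ 2 = M + 1 := by rw [Real.sq_sqrt (by positivity)]; push_cast; ring
    have e2 : √(M : ℝ) ^ 2 = M := Real.sq_sqrt h0
    have h2 : (√((M + 1 : ℕ) : ℝ))⁻¹ ≤ 2 * √((M + 1 : ℕ) : ℝ) - 2 * √(M : ℝ) := by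
      rw [inv_eq_one_div, div_le_iff₀ hs]
      nlinarith [sq_nonneg (√((M + 1 : ℕ) : ℝ) - √(M : ℝ))]
    linarith

lemma term_eq (n : ℕ) (hn : 1 ≤ n) (u : ℝ) : (n : ℂ) ^ (-(3 / 4 + I * (u : ℂ))) =
    (((n : ℝ) ^ (-(3 / 4) : ℝ) : ℝ) : ℂ) * cexp (-(I * ((u * Real.log n : ℝ) : ℂ))) := by
  have hn0 : (n : ℂ) ≠ 0 := by exact_mod_cast (by omega : n ≠ 0)
  have hn1 : (0 : ℝ) < n := by exact_mod_cast hn
  rw [Complex.ofReal_cpow hn1.le, Complex.ofReal_natCast,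
    Complex.cpow_def_of_ne_zero hn0, Complex.cpow_def_of_ne_zero hn0, ← Complex.exp_add]
  congr 1
  rw [← Complex.natCast_log]
  push_cast
  ring

lemma card_fib (K M m : ℕ) (hm : m ≠ 0) :
    ((Fintype.piFinset (fun _ : Fin K => Finset.Icc 1 M)).filter (fun w => ∏ i, w i = m)).card ≤
      m.divisors.card ^ K := by
  have h1 : (Fintype.piFinset (fun _ : Fin K => m.divisors)).card = m.divisors.card ^ K := by
    rw [Fintype.card_piFinset]; simp
  rw [← h1]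
  refine Finset.card_le_card (fun w hw => ?_)
  rw [Finset.mem_filter] at hw
  rw [Fintype.mem_piFinset]
  intro i
  rw [Nat.mem_divisors]
  exact ⟨hw.2 ▸ Finset.dvd_prod_of_mem w (Finset.mem_univ i), hm⟩

end MVKx

open MVKx in
theorem t_MVK : S_MVK := by
  intro K
  obtain ⟨D, hD⟩ := H353.divisor_bound (4 * K)
  set Z : ℝ := ∑' n : ℕ, 1 / (n : ℝ) ^ (5 / 4 : ℝ) with hZ
  have hZs : Summable (fun n : ℕ => 1 / (n : ℝ) ^ (5 / 4 : ℝ)) :=
    Real.summable_one_div_nat_rpow.2 (by norm_num)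
  have hZ0 : 0 ≤ Z := tsum_nonneg (fun n => by positivity)
  refine ⟨(D : ℝ) ^ (1 / 4 : ℝ) * Z ^ K + 2 * 4 ^ K, by positivity, ?_⟩
  intro x T M hM hMT hT
  set V : Finset (Fin K → ℕ) := Fintype.piFinset (fun _ : Fin K => Finset.Icc 1 M) with hV
  have hVm : ∀ v ∈ V, ∀ i, 1 ≤ v i ∧ v i ≤ M := by
    intro v hv i
    exact Finset.mem_Icc.1 (Fintype.mem_piFinset.1 hv i)
  let P : (Fin K → ℕ) → ℕ := fun v => ∏ i, v i
  let a : (Fin K → ℕ) → ℝ := fun v => ((P v : ℕ) : ℝ) ^ (-(3 / 4) : ℝ)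
  have hP1 : ∀ v ∈ V, 1 ≤ P v := fun v hv =>
    Nat.one_le_iff_ne_zero.2 (Finset.prod_ne_zero_iff.2 (fun i _ => by have := (hVm v hv i).1; omega))
  have hPL : ∀ v ∈ V, ((P v : ℕ) : ℝ) ≤ (M : ℝ) ^ K := by
    intro v hv
    have h1 : P v ≤ M ^ K := by
      calc P v ≤ ∏ _i : Fin K, M := Finset.prod_le_prod' (fun i _ => (hVm v hv i).2)
        _ = M ^ K := by simp
    exact_mod_cast h1
  have ha : ∀ v ∈ V, 0 ≤ a v := fun v _ => Real.rpow_nonneg (Nat.cast_nonneg _) _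
  have hM0 : (0 : ℝ) < M := by exact_mod_cast hM
  -- the power
  have e1 : ∀ u : ℝ, ‖zN M (3 / 4 + I * (u : ℂ))‖ ^ (2 * K) =
      ‖∑ v ∈ V, (a v : ℂ) * cexp (-(I * ((u * Real.log (P v) : ℝ) : ℂ)))‖ ^ 2 := by
    intro u
    rw [mul_comm 2 K, pow_mul, ← norm_pow]
    congr 2
    unfold zN
    have h1 : (∑ n ∈ Finset.Icc 1 M, (n : ℂ) ^ (-(3 / 4 + I * (u : ℂ)))) ^ K =
        ∏ _i : Fin K, ∑ n ∈ Finset.Icc 1 M, (n : ℂ) ^ (-(3 / 4 + I * (u : ℂ))) := by simp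
    rw [h1, Finset.prod_univ_sum]
    refine Finset.sum_congr rfl (fun v hv => ?_)
    have h2 : ∏ i, (v i : ℂ) ^ (-(3 / 4 + I * (u : ℂ))) =
        ∏ i, ((((v i : ℝ) ^ (-(3 / 4) : ℝ) : ℝ) : ℂ) * cexp (-(I * ((u * Real.log (v i) : ℝ) : ℂ)))) :=
      Finset.prod_congr rfl (fun i _ => term_eq (v i) (hVm v hv i).1 u)
    rw [h2, Finset.prod_mul_distrib, ← Complex.exp_sum, ← Complex.ofReal_prod]
    have h3 : ∏ i, ((v i : ℝ) ^ (-(3 / 4) : ℝ)) = a v := by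
      simp only [a, P]
      rw [Nat.cast_prod, Real.finsetProd_rpow _ _ (fun i _ => Nat.cast_nonneg _)]
    have h4 : ∑ i, -(I * ((u * Real.log (v i) : ℝ) : ℂ)) = -(I * ((u * Real.log (P v) : ℝ) : ℂ)) := by
      have h5 : Real.log ((P v : ℕ) : ℝ) = ∑ i, Real.log (v i) := by
        simp only [P]
        rw [Nat.cast_prod, Real.log_prod (fun i _ => by
          have := (hVm v hv i).1
          exact_mod_cast (by omega : v i ≠ 0))]
      rw [h5, Finset.sum_neg_distrib]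
      push_cast
      rw [Finset.mul_sum, Finset.mul_sum]
    rw [h3, h4]
  rw [intervalIntegral.integral_congr (fun u _ => e1 u)]
  have hmean := mean V a P x T ((M : ℝ) ^ K) (by linarith) (by positivity) ha
    (fun v hv => ⟨hP1 v hv, hPL v hv⟩)
  refine hmean.trans ?_
  -- sums over the box
  have hbox : ∀ s : ℝ, ∑ v ∈ V, ((P v : ℕ) : ℝ) ^ s = (∑ n ∈ Finset.Icc 1 M, (n : ℝ) ^ s) ^ K := by
    intro s
    have h1 : (∑ n ∈ Finset.Icc 1 M, (n : ℝ) ^ s) ^ K = ∏ _i : Fin K, ∑ n ∈ Finset.Icc 1 M, (n : ℝ) ^ s := by simp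
    rw [h1, Finset.prod_univ_sum]
    refine Finset.sum_congr rfl (fun v _ => ?_)
    simp only [P]
    rw [Nat.cast_prod, Real.finsetProd_rpow _ _ (fun i _ => Nat.cast_nonneg _)]
  have hoff : 2 * (M : ℝ) ^ K * (∑ v ∈ V, a v) ^ 2 ≤ 2 * 4 ^ K * T := by
    have h1 : ∑ v ∈ V, a v = (∑ n ∈ Finset.Icc 1 M, (n : ℝ) ^ (-(3 / 4) : ℝ)) ^ K := hbox _
    have h2 := sum_inv_sqrt M
    have h3 : 0 ≤ ∑ n ∈ Finset.Icc 1 M, (n : ℝ) ^ (-(3 / 4) : ℝ) :=
      Finset.sum_nonneg (fun n _ => Real.rpow_nonneg (Nat.cast_nonneg _) _)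
    have h4 : (∑ v ∈ V, a v) ^ 2 ≤ (4 * (M : ℝ)) ^ K := by
      rw [h1, ← pow_mul, mul_comm K 2, pow_mul]
      refine pow_le_pow_left₀ (sq_nonneg _) ?_ K
      calc _ ≤ (2 * √(M : ℝ)) ^ 2 := pow_le_pow_left₀ h3 h2 2
        _ = 4 * M := by rw [mul_pow, Real.sq_sqrt hM0.le]; norm_num
    calc 2 * (M : ℝ) ^ K * (∑ v ∈ V, a v) ^ 2 ≤ 2 * (M : ℝ) ^ K * (4 * (M : ℝ)) ^ K :=
          mul_le_mul_of_nonneg_left h4 (by positivity)
      _ = 2 * 4 ^ K * (M : ℝ) ^ (2 * K) := by rw [mul_pow, two_mul K, pow_add]; ring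
      _ ≤ 2 * 4 ^ K * T := mul_le_mul_of_nonneg_left hMT (by positivity)
  have hdiag : ∑ v ∈ V, ∑ w ∈ V, (if P v = P w then a v * a w else 0) ≤ (D : ℝ) ^ (1 / 4 : ℝ) * Z ^ K := by
    have h1 : ∀ v ∈ V, ∑ w ∈ V, (if P v = P w then a v * a w else 0) ≤
        (D : ℝ) ^ (1 / 4 : ℝ) * ((P v : ℕ) : ℝ) ^ (-(5 / 4) : ℝ) := by
      intro v hv
      have hp1 := hP1 v hv
      have hp : (0 : ℝ) < ((P v : ℕ) : ℝ) := by exact_mod_cast hp1
      have h2 : ∑ w ∈ V, (if P v = P w then a v * a w else 0) =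
          ((V.filter (fun w => ∏ i, w i = P v)).card : ℝ) * ((P v : ℕ) : ℝ) ^ (-(3 / 2) : ℝ) := by
        have h3 : ∀ w ∈ V, (if P v = P w then a v * a w else 0) =
            if ∏ i, w i = P v then ((P v : ℕ) : ℝ) ^ (-(3 / 2) : ℝ) else 0 := by
          intro w _
          by_cases h : P v = P w
          · rw [if_pos h, if_pos h.symm]
            simp only [a]
            rw [← h, ← Real.rpow_add hp]
            norm_num
          · rw [if_neg h, if_neg (fun h' => h h'.symm)]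
        rw [Finset.sum_congr rfl h3, ← Finset.sum_filter, Finset.sum_const, nsmul_eq_mul]
      rw [h2]
      have h4 := card_fib K M (P v) (by omega)
      have h5 := hD (P v) (by omega)
      have h6 : (((P v).divisors.card : ℝ)) ^ K ≤ (D : ℝ) ^ (1 / 4 : ℝ) * ((P v : ℕ) : ℝ) ^ (1 / 4 : ℝ) := by
        have h7 : ((((P v).divisors.card : ℝ)) ^ K) ^ 4 ≤ (D : ℝ) * ((P v : ℕ) : ℝ) := by
          rw [← pow_mul, mul_comm K 4]
          exact_mod_cast h5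
        have h9 : 0 ≤ (((P v).divisors.card : ℝ)) ^ K := pow_nonneg (Nat.cast_nonneg _) _
        have h8 : (((P v).divisors.card : ℝ)) ^ K = (((((P v).divisors.card : ℝ)) ^ K) ^ 4) ^ (1 / 4 : ℝ) := by
          generalize (((P v).divisors.card : ℝ)) ^ K = y at h9
          rw [← Real.rpow_natCast y 4, ← Real.rpow_mul h9]
          norm_num
        rw [h8, ← Real.mul_rpow (Nat.cast_nonneg _) hp.le]
        exact Real.rpow_le_rpow (pow_nonneg h9 4) h7 (by norm_num)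
      calc _ ≤ (((P v).divisors.card : ℝ)) ^ K * ((P v : ℕ) : ℝ) ^ (-(3 / 2) : ℝ) :=
            mul_le_mul_of_nonneg_right (by exact_mod_cast h4) (Real.rpow_nonneg hp.le _)
        _ ≤ (D : ℝ) ^ (1 / 4 : ℝ) * ((P v : ℕ) : ℝ) ^ (1 / 4 : ℝ) * ((P v : ℕ) : ℝ) ^ (-(3 / 2) : ℝ) :=
            mul_le_mul_of_nonneg_right h6 (Real.rpow_nonneg hp.le _)
        _ = _ := by
            rw [mul_assoc, ← Real.rpow_add hp]
            norm_num
    calc _ ≤ ∑ v ∈ V, (D : ℝ) ^ (1 / 4 : ℝ) * ((P v : ℕ) : ℝ) ^ (-(5 / 4) : ℝ) := Finset.sum_le_sum h1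
      _ = (D : ℝ) ^ (1 / 4 : ℝ) * (∑ n ∈ Finset.Icc 1 M, (n : ℝ) ^ (-(5 / 4) : ℝ)) ^ K := by
          rw [← Finset.mul_sum, hbox]
      _ ≤ (D : ℝ) ^ (1 / 4 : ℝ) * Z ^ K := by
          refine mul_le_mul_of_nonneg_left ?_ (Real.rpow_nonneg (Nat.cast_nonneg _) _)
          refine pow_le_pow_left₀ (Finset.sum_nonneg (fun n _ => Real.rpow_nonneg (Nat.cast_nonneg _) _)) ?_ K
          calc _ = ∑ n ∈ Finset.Icc 1 M, 1 / (n : ℝ) ^ (5 / 4 : ℝ) :=
                Finset.sum_congr rfl (fun n _ => by rw [Real.rpow_neg (Nat.cast_nonneg _), one_div])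
            _ ≤ Z := hZs.sum_le_tsum _ (fun n _ => by positivity)
  have hTd := mul_le_mul_of_nonneg_left hdiag (show (0 : ℝ) ≤ T by linarith)
  calc _ ≤ T * ((D : ℝ) ^ (1 / 4 : ℝ) * Z ^ K) + 2 * 4 ^ K * T := add_le_add hTd hoff
    _ = _ := by ring

end Pool.Agent.T2H54.CL
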