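import Pool.Agent.T2H54.CL.Stm
import Pool.Agent.T2H54.TP.NSF

/-! Package NSQ of helper54 (MP_fa2474_nt, project CL), written by helper46: almost all centres are
separated. -/

set_option autoImplicit false

namespace Pool.Agent.T2H54.CL

open Complex Filter Topology MeasureTheory Set
open Pool.Agent.TH612.GS Pool.Agent.T2H54.SB Pool.Agent.T2H54.TP

namespace NSQh

noncomputable section

lemma fin_bd (n : ℕ) (T : ℝ) (hT : 1 ≤ T) (hn : 1 ≤ n) :
    ENNReal.ofReal (2 * T ^ (1 / 2 : ℝ)) * ENNReal.ofReal T ^ (Fintype.card (Fin n) - 1) ≤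
      ENNReal.ofReal (2 * T ^ (n - 1 / 2 : ℝ)) := by
  have hT0 : 0 < T := by linarith
  rw [Fintype.card_fin, ← ENNReal.ofReal_pow hT0.le, ← ENNReal.ofReal_mul (by positivity)]
  apply ENNReal.ofReal_le_ofReal
  have h5 : T ^ (n - 1 / 2 : ℝ) = T ^ (1 / 2 : ℝ) * T ^ (n - 1 : ℕ) := by
    rw [← Real.rpow_natCast, ← Real.rpow_add hT0]
    congr 1
    rw [Nat.cast_sub hn]
    push_cast
    ring
  rw [h5]
  apply le_of_eq
  ring

lemma one_single (n : ℕ) (T : ℝ) (hT : 1 ≤ T) (j : Fin n) :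
    mP (Fin n) T {h : Fin n → ℝ | |h j| < T ^ (1 / 2 : ℝ)} ≤ ENNReal.ofReal (2 * T ^ (n - 1 / 2 : ℝ)) := by
  have h1 := NSFh.single_le T (T ^ (1 / 2 : ℝ)) (fun _ : Fin n => (0 : ℝ)) 0 j
  simp only [zero_add, sub_zero] at h1
  exact h1.trans (fin_bd n T hT (by have := j.2; omega))

lemma one_pair (n : ℕ) (T : ℝ) (hT : 1 ≤ T) (i j : Fin n) (hij : i ≠ j) :
    mP (Fin n) T {h : Fin n → ℝ | |h i - h j| < T ^ (1 / 2 : ℝ)} ≤
      ENNReal.ofReal (2 * T ^ (n - 1 / 2 : ℝ)) := by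
  have h1 := NSU.pair_le T (T ^ (1 / 2 : ℝ)) (fun _ : Fin n => (0 : ℝ)) i j hij
  simp only [zero_add] at h1
  exact h1.trans (fin_bd n T hT (by have := j.2; omega))

lemma one (n : ℕ) (T : ℝ) (hT : 1 ≤ T) (p q : Fin (n + 1)) :
    mP (Fin n) T {h : Fin n → ℝ | p ≠ q ∧ |hc h p - hc h q| < T ^ (1 / 2 : ℝ)} ≤
      ENNReal.ofReal (2 * T ^ (n - 1 / 2 : ℝ)) := by
  by_cases hpq : p = q
  · have : {h : Fin n → ℝ | p ≠ q ∧ |hc h p - hc h q| < T ^ (1 / 2 : ℝ)} = ∅ := by
      ext h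
      simp [hpq]
    rw [this, measure_empty]
    exact zero_le
  · induction p using Fin.cases with
    | zero =>
      induction q using Fin.cases with
      | zero => exact absurd rfl hpq
      | succ j =>
        refine (measure_mono ?_).trans (one_single n T hT j)
        rintro h ⟨-, h2⟩
        show |h j| < T ^ (1 / 2 : ℝ)
        have e1 : hc h 0 = 0 := rfl
        have e2 : hc h j.succ = h j := rfl
        rw [e1, e2, zero_sub, abs_neg] at h2
        exact h2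
    | succ i =>
      induction q using Fin.cases with
      | zero =>
        refine (measure_mono ?_).trans (one_single n T hT i)
        rintro h ⟨-, h2⟩
        show |h i| < T ^ (1 / 2 : ℝ)
        have e1 : hc h 0 = 0 := rfl
        have e2 : hc h i.succ = h i := rfl
        rw [e1, e2, sub_zero] at h2
        exact h2
      | succ j =>
        have hij : i ≠ j := fun h => hpq (by rw [h])
        refine (measure_mono ?_).trans (one_pair n T hT i j hij)
        rintro h ⟨-, h2⟩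
        exact h2

end

end NSQh

open NSQh in
theorem t_NSQ : S_NSQ := by
  intro n T hT
  have hT0 : (0 : ℝ) < T := by linarith
  have hsub : (SepH n T)ᶜ ⊆ (⋃ i : Fin n, Function.eval i ⁻¹' (Icc 0 T)ᶜ) ∪
      ⋃ i : Fin (n + 1) × Fin (n + 1), {h : Fin n → ℝ | i.1 ≠ i.2 ∧
        |hc h i.1 - hc h i.2| < T ^ (1 / 2 : ℝ)} := by
    intro γ hγ
    by_cases h : ∀ i, 0 ≤ γ i ∧ γ i ≤ T
    · right
      have h2 : ¬ ∀ p q : Fin (n + 1), p ≠ q → T ^ (1 / 2 : ℝ) ≤ |hc γ p - hc γ q| :=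
        fun h2 => hγ ⟨h, h2⟩
      push Not at h2
      obtain ⟨p, q, hpq, h3⟩ := h2
      exact Set.mem_iUnion.2 ⟨(p, q), hpq, h3⟩
    · left
      rw [not_forall] at h
      obtain ⟨i, hi⟩ := h
      exact Set.mem_iUnion.2 ⟨i, hi⟩
  have hnull : mP (Fin n) T (⋃ i : Fin n, Function.eval i ⁻¹' (Icc 0 T)ᶜ) = 0 := by
    rw [measure_iUnion_null_iff]
    intro i
    apply Measure.pi_eval_preimage_null
    rw [Measure.restrict_apply measurableSet_Icc.compl]
    simp
  calc mP (Fin n) T (SepH n T)ᶜ ≤ _ := measure_mono hsub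
    _ ≤ mP (Fin n) T (⋃ i : Fin n, Function.eval i ⁻¹' (Icc 0 T)ᶜ) +
      mP (Fin n) T (⋃ i : Fin (n + 1) × Fin (n + 1), {h : Fin n → ℝ | i.1 ≠ i.2 ∧
        |hc h i.1 - hc h i.2| < T ^ (1 / 2 : ℝ)}) := measure_union_le _ _
    _ ≤ 0 + ∑ i : Fin (n + 1) × Fin (n + 1), mP (Fin n) T {h : Fin n → ℝ | i.1 ≠ i.2 ∧
        |hc h i.1 - hc h i.2| < T ^ (1 / 2 : ℝ)} := by
        rw [hnull]
        gcongr
        exact measure_iUnion_fintype_le _ _
    _ ≤ ∑ _i : Fin (n + 1) × Fin (n + 1), ENNReal.ofReal (2 * T ^ (n - 1 / 2 : ℝ)) := by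
        rw [zero_add]
        exact Finset.sum_le_sum fun i _ => one n T hT i.1 i.2
    _ ≤ ENNReal.ofReal (4 * (n + 1) ^ 2 * T ^ (n - 1 / 2 : ℝ)) := by
        rw [Finset.sum_const, Finset.card_univ, Fintype.card_prod, Fintype.card_fin, nsmul_eq_mul,
          ← ENNReal.ofReal_natCast, ← ENNReal.ofReal_mul (by positivity)]
        apply ENNReal.ofReal_le_ofReal
        have h1 : 0 ≤ T ^ (n - 1 / 2 : ℝ) := by positivity
        push_cast
        nlinarith [mul_nonneg (sq_nonneg ((n : ℝ) + 1)) h1]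

end Pool.Agent.T2H54.CL
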