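import Pool.Agent.T2H54.CL.Stm
import Pool.Agent.H153R4.Pl

set_option autoImplicit false

namespace Pool.Agent.T2H54.CL

open Complex Filter Topology MeasureTheory Set

namespace OPBx

open FourierTransform Convolution ContinuousLinearMap
open scoped ENNReal

/-- the truncation of `f` to `[0, A]` -/
noncomputable def tr (f : ℝ → ℂ) (A : ℝ) : ℝ → ℂ := (Icc (0 : ℝ) A).indicator f

lemma tr_integrable (f : ℝ → ℂ) (A : ℝ) (hf : Continuous f) : Integrable (tr f A) := by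
  unfold tr
  rw [integrable_indicator_iff measurableSet_Icc]
  exact hf.continuousOn.integrableOn_Icc

lemma tr_bdd (f : ℝ → ℂ) (A : ℝ) (hf : Continuous f) : ∃ B : ℝ, ∀ x, ‖tr f A x‖ ≤ B := by
  obtain ⟨B, hB⟩ := (isCompact_Icc (a := (0 : ℝ)) (b := A)).exists_bound_of_continuousOn hf.continuousOn
  refine ⟨max B 0, fun x => ?_⟩
  unfold tr
  by_cases hx : x ∈ Icc (0 : ℝ) A
  · rw [indicator_of_mem hx]
    exact (hB x hx).trans (le_max_left _ _)
  · rw [indicator_of_notMem hx, norm_zero]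
    exact le_max_right _ _

/-- the convolution -/
noncomputable def cv (f R : ℝ → ℂ) (T S : ℝ) : ℝ → ℂ :=
  (fun t => tr R S (-t)) ⋆[mul ℂ ℂ, volume] (tr f (2 * T))

lemma cv_apply (f R : ℝ → ℂ) (T S y : ℝ) : cv f R T S y = ∫ t, tr R S t * tr f (2 * T) (y + t) := by
  unfold cv
  rw [convolution_def]
  rw [← integral_neg_eq_self]
  simp only [mul_apply', neg_neg, sub_neg_eq_add]

lemma cv_eq (f R : ℝ → ℂ) (T S y : ℝ) (hS : 0 ≤ S) (hST : S ≤ T) (hy : y ∈ Ioc (0 : ℝ) T) :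
    cv f R T S y = ∫ t in (0:ℝ)..S, f (t + y) * R t := by
  rw [cv_apply, intervalIntegral.integral_of_le hS, ← integral_Icc_eq_integral_Ioc,
    ← integral_indicator measurableSet_Icc]
  congr 1
  funext t
  unfold tr
  by_cases ht : t ∈ Icc (0 : ℝ) S
  · rw [indicator_of_mem ht, indicator_of_mem ht, indicator_of_mem]
    · rw [add_comm y t, mul_comm]
    · exact ⟨by linarith [ht.1, hy.1], by linarith [ht.2, hy.2]⟩
  · rw [indicator_of_notMem ht, indicator_of_notMem ht, zero_mul]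

lemma G_integrable (R : ℝ → ℂ) (S : ℝ) (hR : Continuous R) : Integrable (fun t => tr R S (-t)) :=
  (tr_integrable R S hR).comp_neg

lemma cv_integrable (f R : ℝ → ℂ) (T S : ℝ) (hf : Continuous f) (hR : Continuous R) :
    Integrable (cv f R T S) :=
  (G_integrable R S hR).integrable_convolution _ (tr_integrable f (2 * T) hf)

lemma cv_bdd (f R : ℝ → ℂ) (T S : ℝ) (hf : Continuous f) (hR : Continuous R) : ∃ B : ℝ, ∀ x, ‖cv f R T S x‖ ≤ B := by
  obtain ⟨B, hB⟩ := tr_bdd f (2 * T) hf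
  refine ⟨∫ t, ‖tr R S t‖ * B, fun y => ?_⟩
  rw [cv_apply]
  refine (norm_integral_le_integral_norm _).trans ?_
  refine integral_mono_of_nonneg (Eventually.of_forall fun t => norm_nonneg _)
    ((tr_integrable R S hR).norm.mul_const B) (Eventually.of_forall fun t => ?_)
  simp only [norm_mul]
  exact mul_le_mul_of_nonneg_left (hB _) (norm_nonneg _)

lemma cv_memLp (f R : ℝ → ℂ) (T S : ℝ) (hf : Continuous f) (hR : Continuous R) : MemLp (cv f R T S) 2 := by
  have h1 := cv_integrable f R T S hf hR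
  obtain ⟨B, hB⟩ := cv_bdd f R T S hf hR
  rw [memLp_two_iff_integrable_sq_norm h1.aestronglyMeasurable]
  refine (h1.norm.const_mul B).mono' (h1.aestronglyMeasurable.norm.pow 2) (Eventually.of_forall fun x => ?_)
  rw [Real.norm_eq_abs, abs_of_nonneg (sq_nonneg _), sq]
  exact mul_le_mul_of_nonneg_right (hB x) (norm_nonneg _)

lemma tr_memLp (R : ℝ → ℂ) (S : ℝ) (hR : Continuous R) : MemLp (fun t => tr R S (-t)) 2 := by
  have h1 := G_integrable R S hR
  obtain ⟨B, hB⟩ := tr_bdd R S hR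
  rw [memLp_two_iff_integrable_sq_norm h1.aestronglyMeasurable]
  refine (h1.norm.const_mul B).mono' (h1.aestronglyMeasurable.norm.pow 2) (Eventually.of_forall fun x => ?_)
  rw [Real.norm_eq_abs, abs_of_nonneg (sq_nonneg _), sq]
  exact mul_le_mul_of_nonneg_right (hB _) (norm_nonneg _)

lemma four_tr (f : ℝ → ℂ) (A : ℝ) (hA : 0 ≤ A) (ξ : ℝ) :
    𝓕 (tr f A) ξ = ∫ t in (0:ℝ)..A, f t * cexp (I * ((t * (-(2 * Real.pi * ξ)) : ℝ) : ℂ)) := by
  rw [Real.fourier_eq', intervalIntegral.integral_of_le hA, ← integral_Icc_eq_integral_Ioc,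
    ← integral_indicator measurableSet_Icc]
  congr 1
  funext t
  unfold tr
  by_cases ht : t ∈ Icc (0 : ℝ) A
  · rw [indicator_of_mem ht, indicator_of_mem ht, smul_eq_mul, mul_comm]
    congr 2
    have h0 : (inner ℝ t ξ : ℝ) = ξ * t := by simp
    rw [h0]
    push_cast
    ring
  · rw [indicator_of_notMem ht, indicator_of_notMem ht, smul_zero]

lemma four_cv (f R : ℝ → ℂ) (T S : ℝ) (hf : Continuous f) (hR : Continuous R) (ξ : ℝ) :
    𝓕 (cv f R T S) ξ = 𝓕 (fun t => tr R S (-t)) ξ * 𝓕 (tr f (2 * T)) ξ :=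
  Real.fourier_mul_convolution_eq (G_integrable R S hR) (tr_integrable f (2 * T) hf) ξ

lemma main_enn (f R : ℝ → ℂ) (T S K : ℝ) (hf : Continuous f) (hR : Continuous R) (hT : 0 < T) (hK : 0 ≤ K)
    (h : ∀ ξ : ℝ, ‖∫ t in (0:ℝ)..(2 * T), f t * cexp (I * ((t * ξ : ℝ) : ℂ))‖ ≤ K) :
    ∫⁻ y, ‖cv f R T S y‖ₑ ^ 2 ≤ ENNReal.ofReal (K ^ 2) * ∫⁻ t, ‖tr R S t‖ₑ ^ 2 := by
  rw [← Pool.Agent.H153R4.plancherel _ (cv_integrable f R T S hf hR) (cv_memLp f R T S hf hR)]
  calc ∫⁻ ξ, ‖𝓕 (cv f R T S) ξ‖ₑ ^ 2 ≤ ∫⁻ ξ, ENNReal.ofReal (K ^ 2) * ‖𝓕 (fun t => tr R S (-t)) ξ‖ₑ ^ 2 := by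
        refine lintegral_mono fun ξ => ?_
        simp only
        rw [four_cv f R T S hf hR, enorm_mul, mul_pow, mul_comm]
        gcongr
        rw [ENNReal.ofReal_pow hK]
        gcongr
        rw [← ofReal_norm]
        apply ENNReal.ofReal_le_ofReal
        rw [four_tr f (2 * T) (by linarith)]
        exact h _
    _ = ENNReal.ofReal (K ^ 2) * ∫⁻ ξ, ‖𝓕 (fun t => tr R S (-t)) ξ‖ₑ ^ 2 := by
        rw [lintegral_const_mul' _ _ ENNReal.ofReal_ne_top]
    _ = ENNReal.ofReal (K ^ 2) * ∫⁻ t, ‖tr R S (-t)‖ₑ ^ 2 := by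
        rw [Pool.Agent.H153R4.plancherel _ (G_integrable R S hR) (tr_memLp R S hR)]
    _ = ENNReal.ofReal (K ^ 2) * ∫⁻ t, ‖tr R S t‖ₑ ^ 2 := by
        congr 1
        exact lintegral_neg_eq_self (μ := (volume : Measure ℝ)) (fun t => ‖tr R S t‖ₑ ^ 2)

lemma enorm_sq (z : ℂ) : ‖z‖ₑ ^ 2 = ENNReal.ofReal (‖z‖ ^ 2) := by
  rw [← ofReal_norm, ← ENNReal.ofReal_pow (norm_nonneg _)]

end OPBx

theorem t_OPB : S_OPB := by
  intro f R T S K hf hR hT hS hST hK h
  have h1 := OPBx.main_enn f R T S K hf hR hT hK h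
  have hc : Continuous (fun y : ℝ => ∫ t in (0:ℝ)..S, f (t + y) * R t) := by
    apply intervalIntegral.continuous_parametric_intervalIntegral_of_continuous'
    exact (hf.comp (continuous_snd.add continuous_fst)).mul (hR.comp continuous_snd)
  have h2 : ENNReal.ofReal (∫ y in (0:ℝ)..T, ‖∫ t in (0:ℝ)..S, f (t + y) * R t‖ ^ 2) ≤
      ∫⁻ y, ‖OPBx.cv f R T S y‖ₑ ^ 2 := by
    rw [intervalIntegral.integral_of_le hT.le, ofReal_integral_eq_lintegral_ofReal]
    · calc ∫⁻ y in Ioc (0 : ℝ) T, ENNReal.ofReal (‖∫ t in (0:ℝ)..S, f (t + y) * R t‖ ^ 2)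
          = ∫⁻ y in Ioc (0 : ℝ) T, ‖OPBx.cv f R T S y‖ₑ ^ 2 := by
            refine setLIntegral_congr_fun measurableSet_Ioc fun y hy => ?_
            rw [OPBx.cv_eq f R T S y hS hST hy, OPBx.enorm_sq]
        _ ≤ _ := setLIntegral_le_lintegral _ _
    · exact ((hc.norm.pow 2).integrableOn_Icc (a := 0) (b := T)).mono_set Ioc_subset_Icc_self
    · exact Eventually.of_forall fun y => sq_nonneg _
  have h3 : ∫⁻ t, ‖OPBx.tr R S t‖ₑ ^ 2 = ENNReal.ofReal (∫ t in (0:ℝ)..S, ‖R t‖ ^ 2) := by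
    rw [intervalIntegral.integral_of_le hS, ← integral_Icc_eq_integral_Ioc, ofReal_integral_eq_lintegral_ofReal,
      ← lintegral_indicator measurableSet_Icc]
    · congr 1
      funext t
      unfold OPBx.tr
      by_cases ht : t ∈ Icc (0 : ℝ) S
      · rw [indicator_of_mem ht, indicator_of_mem ht, OPBx.enorm_sq]
      · rw [indicator_of_notMem ht, indicator_of_notMem ht, enorm_zero]
        norm_num
    · exact (hR.norm.pow 2).integrableOn_Icc
    · exact Eventually.of_forall fun y => sq_nonneg _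
  have h4 := h2.trans h1
  rw [h3, ← ENNReal.ofReal_mul (sq_nonneg K)] at h4
  have h5 : 0 ≤ ∫ t in (0:ℝ)..S, ‖R t‖ ^ 2 := intervalIntegral.integral_nonneg hS fun t _ => sq_nonneg _
  exact (ENNReal.ofReal_le_ofReal_iff (by positivity)).1 h4

end Pool.Agent.T2H54.CL
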