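import Pool.Agent.T2H54.CL.Stm
import Pool.Agent.T2H54.TP.QD

set_option autoImplicit false

namespace Pool.Agent.T2H54.CL

open Complex Filter Topology MeasureTheory Set
open Pool.Agent.TH612.CF Pool.Agent.TH612.GS Pool.Agent.T2H54.SB Pool.Agent.T2H54.TP
open Pool.Agent.Y969.GP (ht lam PS FR)

noncomputable section

namespace QDQx

variable {n : ℕ}

/-- the swap of the clusters in `J` -/
def sf (J : Finset (Fin (n + 1))) : Fin (n + 1) ⊕ Fin (n + 1) → Fin (n + 1) ⊕ Fin (n + 1)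
  | Sum.inl j => if j ∈ J then Sum.inr j else Sum.inl j
  | Sum.inr j => if j ∈ J then Sum.inl j else Sum.inr j

lemma sf_inv (J : Finset (Fin (n + 1))) : Function.Involutive (sf J) := by
  intro x
  rcases x with j | j <;> by_cases hj : j ∈ J <;> simp [sf, hj]

def swp (J : Finset (Fin (n + 1))) : Equiv.Perm (Fin (n + 1) ⊕ Fin (n + 1)) := (sf_inv J).toPerm

lemma swp_l (J : Finset (Fin (n + 1))) (j : Fin (n + 1)) :
    swp J (Sum.inl j) = if j ∈ J then Sum.inr j else Sum.inl j := rfl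

lemma swp_r (J : Finset (Fin (n + 1))) (j : Fin (n + 1)) :
    swp J (Sum.inr j) = if j ∈ J then Sum.inl j else Sum.inr j := rfl

lemma swp_mul (J : Finset (Fin (n + 1))) : swp J * swp J = 1 := by
  ext x
  rw [Equiv.Perm.mul_apply]
  exact sf_inv J x

lemma swp_mul_cancel (J : Finset (Fin (n + 1))) (π : Equiv.Perm (Fin (n + 1) ⊕ Fin (n + 1))) :
    swp J * (swp J * π) = π := by
  rw [← mul_assoc, swp_mul, one_mul]

lemma swp_inv (J : Finset (Fin (n + 1))) : (swp J)⁻¹ = swp J := inv_eq_of_mul_eq_one_left (swp_mul J)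

lemma gk_swp (a b : Fin (n + 1) → ℝ) (h : Fin n → ℝ) (J : Finset (Fin (n + 1))) (i : Fin (n + 1) ⊕ Fin (n + 1)) :
    gk a b h (swp J i) = gk (sw J a b) (sw J b a) h i := by
  rcases i with j | j
  · rw [swp_l]
    by_cases hj : j ∈ J <;> simp [gk, sw, hj]
  · rw [swp_r]
    by_cases hj : j ∈ J <;> simp [gk, sw, hj]

/-- the clusters which are swapped by `π` -/
def Jof (π : Equiv.Perm (Fin (n + 1) ⊕ Fin (n + 1))) : Finset (Fin (n + 1)) :=
  Finset.univ.filter fun j => (π.symm (Sum.inl j)).isLeft = false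

lemma not_Oq (π : Equiv.Perm (Fin (n + 1) ⊕ Fin (n + 1))) :
    π ∉ Oq n ↔ ∀ j, (π.symm (Sum.inl j)).isLeft ≠ (π.symm (Sum.inr j)).isLeft := by
  unfold Oq
  rw [Finset.mem_filter]
  constructor
  · intro h j hj
    exact h ⟨Finset.mem_univ _, j, hj⟩
  · rintro h ⟨-, j, hj⟩
    exact h j hj

lemma symm_mul (J : Finset (Fin (n + 1))) (π : Equiv.Perm (Fin (n + 1) ⊕ Fin (n + 1)))
    (x : Fin (n + 1) ⊕ Fin (n + 1)) : (swp J * π).symm x = π.symm (swp J x) := by
  apply (swp J * π).injective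
  rw [Equiv.apply_symm_apply, Equiv.Perm.mul_apply, Equiv.apply_symm_apply]
  exact (sf_inv J x).symm

lemma pk_of_symm {ρ : Equiv.Perm (Fin (n + 1) ⊕ Fin (n + 1))} (h : ∀ j, (ρ.symm (Sum.inl j)).isLeft = true) :
    ρ ∈ Pk (n + 1) := by
  rw [PkgQD.pk_iff]
  intro j
  cases hx : ρ (Sum.inr j) with
  | inl a =>
    exfalso
    have h1 := h a
    rw [← hx, Equiv.symm_apply_apply] at h1
    simp at h1
  | inr a => rfl

lemma symm_pk {ρ : Equiv.Perm (Fin (n + 1) ⊕ Fin (n + 1))} (h : ρ ∈ Pk (n + 1)) (x : Fin (n + 1) ⊕ Fin (n + 1)) :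
    (ρ.symm x).isLeft = x.isLeft := by
  have := PkgQD.pk_left h (ρ.symm x)
  rw [Equiv.apply_symm_apply] at this
  exact this.symm

lemma mem_pk (π : Equiv.Perm (Fin (n + 1) ⊕ Fin (n + 1))) (h : π ∉ Oq n) : swp (Jof π) * π ∈ Pk (n + 1) := by
  rw [not_Oq] at h
  apply pk_of_symm
  intro j
  rw [symm_mul, swp_l]
  by_cases hj : j ∈ Jof π
  · rw [if_pos hj]
    have h1 := (Finset.mem_filter.1 hj).2
    have h2 := h j
    rw [h1] at h2
    cases h3 : (π.symm (Sum.inr j)).isLeft with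
    | true => rfl
    | false => exact absurd h3.symm h2
  · rw [if_neg hj]
    by_contra h1
    exact hj (Finset.mem_filter.2 ⟨Finset.mem_univ _, by simpa using h1⟩)

lemma not_mem_Oq (J : Finset (Fin (n + 1))) {ρ : Equiv.Perm (Fin (n + 1) ⊕ Fin (n + 1))} (h : ρ ∈ Pk (n + 1)) :
    swp J * ρ ∉ Oq n := by
  rw [not_Oq]
  intro j
  rw [symm_mul, symm_mul, symm_pk h, symm_pk h, swp_l, swp_r]
  by_cases hj : j ∈ J <;> simp [hj]

lemma Jof_swp (J : Finset (Fin (n + 1))) {ρ : Equiv.Perm (Fin (n + 1) ⊕ Fin (n + 1))} (h : ρ ∈ Pk (n + 1)) :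
    Jof (swp J * ρ) = J := by
  ext j
  unfold Jof
  rw [Finset.mem_filter, symm_mul, symm_pk h, swp_l]
  by_cases hj : j ∈ J <;> simp [hj]

lemma prod_l {ρ : Equiv.Perm (Fin (n + 1) ⊕ Fin (n + 1))} (h : ρ ∈ Pk (n + 1))
    (G : Fin (n + 1) ⊕ Fin (n + 1) → ℂ) : ∏ j, G (ρ (Sum.inl j)) = ∏ j, G (Sum.inl j) := by
  have h1 : ∀ j, ∃ l, ρ (Sum.inl j) = Sum.inl l := by
    intro j
    have := PkgQD.pk_left h (Sum.inl j)
    cases hx : ρ (Sum.inl j) with
    | inl l => exact ⟨l, rfl⟩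
    | inr l => rw [hx] at this; simp at this
  choose e he using h1
  have h2 : Function.Injective e := by
    intro x y hxy
    have h3 : ρ (Sum.inl x) = ρ (Sum.inl y) := by rw [he, he, hxy]
    exact Sum.inl_injective (ρ.injective h3)
  have h3 : Function.Bijective e := Finite.injective_iff_bijective.1 h2
  rw [← h3.prod_comp (fun l => G (Sum.inl l))]
  exact Finset.prod_congr rfl fun j _ => by rw [he]

lemma prod_r {ρ : Equiv.Perm (Fin (n + 1) ⊕ Fin (n + 1))} (h : ρ ∈ Pk (n + 1))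
    (G : Fin (n + 1) ⊕ Fin (n + 1) → ℂ) : ∏ j, G (ρ (Sum.inr j)) = ∏ j, G (Sum.inr j) := by
  have h1 : ∀ j, ∃ l, ρ (Sum.inr j) = Sum.inr l := by
    intro j
    have := PkgQD.pk_left h (Sum.inr j)
    cases hx : ρ (Sum.inr j) with
    | inl l => rw [hx] at this; simp at this
    | inr l => exact ⟨l, rfl⟩
  choose e he using h1
  have h2 : Function.Injective e := by
    intro x y hxy
    have h3 : ρ (Sum.inr x) = ρ (Sum.inr y) := by rw [he, he, hxy]
    exact Sum.inr_injective (ρ.injective h3)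
  have h3 : Function.Bijective e := Finite.injective_iff_bijective.1 h2
  rw [← h3.prod_comp (fun l => G (Sum.inr l))]
  exact Finset.prod_congr rfl fun j _ => by rw [he]

lemma GG_swp (a b : Fin (n + 1) → ℝ) (h : Fin n → ℝ) (t : ℝ) (J : Finset (Fin (n + 1)))
    {ρ : Equiv.Perm (Fin (n + 1) ⊕ Fin (n + 1))} (hρ : ρ ∈ Pk (n + 1)) :
    GG t (fun i => (gk a b h i : ℂ)) (swp J * ρ) = XJ J a b h t := by
  unfold GG
  simp only [Equiv.Perm.mul_apply]
  rw [prod_l hρ (fun x => if (swp J x).isRight then chi (1 / 2 - I * t - I * (gk a b h (swp J x) : ℂ)) else 1),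
    prod_r hρ (fun x => if (swp J x).isLeft then chi (1 / 2 + I * t + I * (gk a b h (swp J x) : ℂ)) else 1)]
  have p1 : ∀ j : Fin (n + 1), (if (swp J (Sum.inl j)).isRight then
      chi (1 / 2 - I * t - I * (gk a b h (swp J (Sum.inl j)) : ℂ)) else 1) =
      if j ∈ J then chi (1 / 2 - I * t - I * ((hc h j + b j : ℝ) : ℂ)) else 1 := by
    intro j
    rw [swp_l]
    by_cases hj : j ∈ J <;> simp [hj, gk]
  have p2 : ∀ j : Fin (n + 1), (if (swp J (Sum.inr j)).isLeft then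
      chi (1 / 2 + I * t + I * (gk a b h (swp J (Sum.inr j)) : ℂ)) else 1) =
      if j ∈ J then chi (1 / 2 + I * t + I * ((hc h j + a j : ℝ) : ℂ)) else 1 := by
    intro j
    rw [swp_r]
    by_cases hj : j ∈ J <;> simp [hj, gk]
  simp_rw [p1, p2]
  rw [← Finset.prod_mul_distrib]
  unfold XJ
  rw [← Finset.prod_subset (Finset.subset_univ J)]
  · refine Finset.prod_congr rfl fun j hj => ?_
    rw [if_pos hj, if_pos hj, mul_comm]
    unfold Xab
    congr 2
    · push_cast; ring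
    · push_cast; ring
  · intro j _ hj
    rw [if_neg hj, if_neg hj, one_mul]

end QDQx

open QDQx in
theorem t_QDQ : S_QDQ := by
  classical
  intro n a b h t
  unfold Qs
  rw [← Finset.sum_add_sum_compl (Oq n), add_comm]
  have e0 : ∀ π : Equiv.Perm (Fin (n + 1) ⊕ Fin (n + 1)), Rt t (fun i => (gk a b h i : ℂ)) π =
      GG t (fun i => (gk a b h i : ℂ)) π * zp (gk a b h) π := fun π => rfl
  congr 1
  have e1 : ∑ π ∈ (Oq n)ᶜ, Rt t (fun i => (gk a b h i : ℂ)) π =
      ∑ x ∈ (Finset.univ : Finset (Finset (Fin (n + 1)))) ×ˢ Pk (n + 1),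
        Rt t (fun i => (gk a b h i : ℂ)) (swp x.1 * x.2) := by
    symm
    refine Finset.sum_bij' (fun x _ => swp x.1 * x.2) (fun π _ => (Jof π, swp (Jof π) * π)) ?_ ?_ ?_ ?_ ?_
    · intro x hx
      rw [Finset.mem_compl]
      exact not_mem_Oq x.1 (Finset.mem_product.1 hx).2
    · intro π hπ
      rw [Finset.mem_compl] at hπ
      exact Finset.mem_product.2 ⟨Finset.mem_univ _, mem_pk π hπ⟩
    · intro x hx
      have h1 := Jof_swp x.1 (Finset.mem_product.1 hx).2
      simp only [h1, swp_mul_cancel]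
    · intro π _
      exact swp_mul_cancel _ _
    · intro x _
      rfl
  rw [e1, Finset.sum_product, Finset.mul_sum]
  refine Finset.sum_congr rfl fun J _ => ?_
  have h1 : ∀ ρ ∈ Pk (n + 1), Rt t (fun i => (gk a b h i : ℂ)) (swp J * ρ) =
      XJ J a b h t * zr (gk (sw J a b) (sw J b a) h) := by
    intro ρ hρ
    obtain ⟨h2, -⟩ := t_INV (n + 1) (gk (sw J a b) (sw J b a) h) ρ ((PkgQD.pk_iff ρ).1 hρ)
    rw [e0, GG_swp a b h t J hρ]
    congr 1
    unfold zp
    simp only [Equiv.Perm.mul_apply, gk_swp]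
    exact h2
  simp only
  rw [Finset.sum_congr rfl h1, Finset.sum_const, card_Pk, nsmul_eq_mul]
  push_cast
  ring

end

end Pool.Agent.T2H54.CL
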