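import Pool.Agent.T2H54.CL.Stm
import Pool.Agent.Y379.GP.Sp

set_option autoImplicit false

namespace Pool.Agent.T2H54.CL

open Complex Filter Topology MeasureTheory Set
open Pool.Agent.Y969.GP (ht lam PS FR)

namespace SPDx

open Finset in
lemma dyad (g : ℕ × ℕ → ℝ) (F : Finset (ℕ × ℕ)) (N : ℕ) : ∀ J : ℕ,
    ∑ p ∈ F.filter (fun p => N < p.1 * p.2 ∧ p.1 * p.2 ≤ 2 ^ J * N), g p =
    ∑ i ∈ range J, ∑ p ∈ F.filter (fun p => 2 ^ i * N < p.1 * p.2 ∧ p.1 * p.2 ≤ 2 * (2 ^ i * N)), g p := by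
  intro J
  induction J with
  | zero =>
    rw [sum_range_zero]
    apply sum_eq_zero
    intro p hp
    have h := (mem_filter.1 hp).2
    omega
  | succ J ih =>
    rw [sum_range_succ, ← ih]
    rw [← sum_filter_add_sum_filter_not (F.filter (fun p => N < p.1 * p.2 ∧ p.1 * p.2 ≤ 2 ^ (J + 1) * N))
      (fun p => p.1 * p.2 ≤ 2 ^ J * N)]
    have h1 : ((F.filter (fun p => N < p.1 * p.2 ∧ p.1 * p.2 ≤ 2 ^ (J + 1) * N)).filter
        (fun p => p.1 * p.2 ≤ 2 ^ J * N)) =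
        F.filter (fun p => N < p.1 * p.2 ∧ p.1 * p.2 ≤ 2 ^ J * N) := by
      ext p
      simp only [mem_filter]
      have h2 : 2 ^ J * N ≤ 2 ^ (J + 1) * N := Nat.mul_le_mul_right _ (Nat.pow_le_pow_right (by norm_num) (Nat.le_succ J))
      constructor
      · rintro ⟨⟨a, b, c⟩, d⟩
        exact ⟨a, b, d⟩
      · rintro ⟨a, b, c⟩
        exact ⟨⟨a, b, c.trans h2⟩, c⟩
    have h3 : ((F.filter (fun p => N < p.1 * p.2 ∧ p.1 * p.2 ≤ 2 ^ (J + 1) * N)).filter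
        (fun p => ¬ p.1 * p.2 ≤ 2 ^ J * N)) =
        F.filter (fun p => 2 ^ J * N < p.1 * p.2 ∧ p.1 * p.2 ≤ 2 * (2 ^ J * N)) := by
      ext p
      simp only [mem_filter, not_le]
      have h4 : 2 * (2 ^ J * N) = 2 ^ (J + 1) * N := by ring
      have h5 : N ≤ 2 ^ J * N := Nat.le_mul_of_pos_left _ (by positivity)
      rw [h4]
      constructor
      · rintro ⟨⟨a, b, c⟩, d⟩
        exact ⟨a, d, c⟩
      · rintro ⟨a, b, c⟩
        exact ⟨⟨a, h5.trans_lt b, c⟩, b⟩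
    rw [h1, h3]

lemma mem_FR {X : ℕ} {p : ℕ × ℕ} : p ∈ FR X ↔ (1 ≤ p.1 ∧ 1 ≤ p.2 ∧ p.1 * p.2 ≤ X) ∧ Nat.Coprime p.1 p.2 := by
  unfold FR PS
  simp only [Finset.mem_filter, Finset.mem_product, Finset.mem_Icc]
  constructor
  · rintro ⟨⟨⟨⟨a, b⟩, c, d⟩, e⟩, f⟩
    exact ⟨⟨a, c, e⟩, f⟩
  · rintro ⟨⟨a, b, c⟩, d⟩
    refine ⟨⟨⟨⟨a, ?_⟩, b, ?_⟩, c⟩, d⟩
    · exact (Nat.le_mul_of_pos_right _ b).trans c
    · exact (Nat.le_mul_of_pos_left _ a).trans c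

lemma mk_nonneg {T : ℝ} (hT : 1 ≤ T) (x : ℝ) : 0 ≤ Pool.Agent.Y969.GP.mk T x := by
  unfold Pool.Agent.Y969.GP.mk
  positivity

lemma block (C : ℝ) (hC : 0 < C) (hsp : ∀ (X : ℕ) (T θ : ℝ), 1 ≤ X → 1 ≤ T →
    ∑ p ∈ FR X, Pool.Agent.Y969.GP.mk T (lam p - θ) ≤ C * ((T + X) * (1 + Real.log X)))
    (X N i : ℕ) (T θ : ℝ) (hN : 1 ≤ N) (hNX : N ≤ X) (hT : 1 ≤ T) :
    ∑ p ∈ (FR X).filter (fun p => 2 ^ i * N < p.1 * p.2 ∧ p.1 * p.2 ≤ 2 * (2 ^ i * N)),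
      (√(ht p))⁻¹ * Pool.Agent.Y969.GP.mk T (lam p - θ) ≤
      2 * C * (T * (N : ℝ) ^ (-(1 / 2) : ℝ) + 2 * √(X : ℝ)) * (1 + Real.log X) := by
  set M := 2 ^ i * N with hM
  have hX1 : (1 : ℝ) ≤ X := by exact_mod_cast hN.trans hNX
  have hlX : 0 ≤ Real.log X := Real.log_nonneg hX1
  have hN0 : (1 : ℝ) ≤ N := by exact_mod_cast hN
  have hrhs : 0 ≤ 2 * C * (T * (N : ℝ) ^ (-(1 / 2) : ℝ) + 2 * √(X : ℝ)) * (1 + Real.log X) := by positivity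
  have hNM : N ≤ M := Nat.le_mul_of_pos_left _ (by positivity)
  by_cases hMX : X ≤ M
  · rw [Finset.sum_eq_zero]
    · exact hrhs
    · intro p hp
      have h1 := Finset.mem_filter.1 hp
      have h2 := (mem_FR.1 h1.1).1.2.2
      omega
  · push Not at hMX
    have hM1 : 1 ≤ M := hN.trans hNM
    have hMr : (1 : ℝ) ≤ M := by exact_mod_cast hM1
    have hM0 : (0 : ℝ) < M := by linarith
    have hMXr : (M : ℝ) ≤ X := by exact_mod_cast hMX.le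
    have hs0 : 0 < √(M : ℝ) := Real.sqrt_pos.2 hM0
    have h1 : ∑ p ∈ (FR X).filter (fun p => M < p.1 * p.2 ∧ p.1 * p.2 ≤ 2 * M),
        (√(ht p))⁻¹ * Pool.Agent.Y969.GP.mk T (lam p - θ) ≤ (√(M : ℝ))⁻¹ * ∑ p ∈ FR (2 * M), Pool.Agent.Y969.GP.mk T (lam p - θ) := by
      rw [Finset.mul_sum]
      refine (Finset.sum_le_sum fun p hp => ?_).trans
        (Finset.sum_le_sum_of_subset_of_nonneg (f := fun p => (√(M : ℝ))⁻¹ * Pool.Agent.Y969.GP.mk T (lam p - θ)) ?_ fun p _ _ => ?_)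
      · have h2 := Finset.mem_filter.1 hp
        have h3 : (M : ℝ) ≤ ht p := by
          unfold ht
          exact_mod_cast h2.2.1.le
        have h4 := mk_nonneg hT (lam p - θ)
        have h5 : √(M : ℝ) ≤ √(ht p) := Real.sqrt_le_sqrt h3
        gcongr
      · intro p hp
        have h2 := Finset.mem_filter.1 hp
        have h3 := mem_FR.1 h2.1
        exact mem_FR.2 ⟨⟨h3.1.1, h3.1.2.1, h2.2.2⟩, h3.2⟩
      · exact mul_nonneg (inv_nonneg.2 (Real.sqrt_nonneg _)) (mk_nonneg hT _)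
    have h2 := hsp (2 * M) T θ (by omega) hT
    have h3 : Real.log ((2 * M : ℕ) : ℝ) ≤ 1 + Real.log X := by
      push_cast
      rw [Real.log_mul (by norm_num) hM0.ne']
      have := Real.log_two_lt_d9
      have h4 : Real.log M ≤ Real.log X := Real.log_le_log hM0 hMXr
      linarith
    have h4 : 0 ≤ Real.log ((2 * M : ℕ) : ℝ) := Real.log_natCast_nonneg _
    have h5 : (√(M : ℝ))⁻¹ ≤ (N : ℝ) ^ (-(1 / 2) : ℝ) := by
      rw [Real.rpow_neg (by positivity), ← Real.sqrt_eq_rpow]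
      have h6 : √(N : ℝ) ≤ √(M : ℝ) := Real.sqrt_le_sqrt (by exact_mod_cast hNM)
      have h7 : 0 < √(N : ℝ) := Real.sqrt_pos.2 (by linarith)
      gcongr
    have h6 : (√(M : ℝ))⁻¹ * M ≤ √(X : ℝ) := by
      have h7 : (√(M : ℝ))⁻¹ * M = √(M : ℝ) := by
        have h8 : √(M : ℝ) * √(M : ℝ) = M := Real.mul_self_sqrt hM0.le
        field_simp
        nlinarith
      rw [h7]
      exact Real.sqrt_le_sqrt hMXr
    calc ∑ p ∈ (FR X).filter (fun p => M < p.1 * p.2 ∧ p.1 * p.2 ≤ 2 * M), (√(ht p))⁻¹ * Pool.Agent.Y969.GP.mk T (lam p - θ)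
        ≤ (√(M : ℝ))⁻¹ * ∑ p ∈ FR (2 * M), Pool.Agent.Y969.GP.mk T (lam p - θ) := h1
      _ ≤ (√(M : ℝ))⁻¹ * (C * ((T + ((2 * M : ℕ) : ℝ)) * (1 + Real.log ((2 * M : ℕ) : ℝ)))) := by gcongr
      _ ≤ (√(M : ℝ))⁻¹ * (C * ((T + ((2 * M : ℕ) : ℝ)) * (2 * (1 + Real.log X)))) := by
          gcongr
          linarith
      _ = 2 * C * (T * (√(M : ℝ))⁻¹ + 2 * ((√(M : ℝ))⁻¹ * M)) * (1 + Real.log X) := by
          push_cast
          ring
      _ ≤ 2 * C * (T * (N : ℝ) ^ (-(1 / 2) : ℝ) + 2 * √(X : ℝ)) * (1 + Real.log X) := by gcongr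

end SPDx

theorem t_SPD : S_SPD := by
  obtain ⟨_, C, hC, hsp⟩ := Pool.Agent.Y379.GP.t_SP
  refine ⟨16 * C, by positivity, fun X N T θ hN hNX hT => ?_⟩
  have hX : 1 ≤ X := hN.trans hNX
  have hX1 : (1 : ℝ) ≤ X := by exact_mod_cast hX
  have hlX : 0 ≤ Real.log X := Real.log_nonneg hX1
  set J := Nat.log 2 X + 1 with hJ
  have h1 : (FR X).filter (fun p => N < p.1 * p.2) =
      (FR X).filter (fun p => N < p.1 * p.2 ∧ p.1 * p.2 ≤ 2 ^ J * N) := by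
    apply Finset.filter_congr
    intro p hp
    have h2 := (SPDx.mem_FR.1 hp).1.2.2
    have h3 : X < 2 ^ J := Nat.lt_pow_succ_log_self (by norm_num) X
    have h4 : 2 ^ J ≤ 2 ^ J * N := Nat.le_mul_of_pos_right _ hN
    constructor
    · intro h
      exact ⟨h, by omega⟩
    · intro h
      exact h.1
  rw [h1, SPDx.dyad]
  have h2 : (J : ℝ) ≤ 4 * (1 + Real.log X) := by
    have h3 : ((Nat.log 2 X : ℕ) : ℝ) * Real.log 2 ≤ Real.log X := by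
      have h4 : 2 ^ Nat.log 2 X ≤ X := Nat.pow_log_le_self 2 (by omega)
      have h5 : ((2 : ℝ)) ^ Nat.log 2 X ≤ X := by exact_mod_cast h4
      have h6 := Real.log_le_log (by positivity) h5
      rwa [Real.log_pow] at h6
    have h7 : (1 / 2 : ℝ) ≤ Real.log 2 := by linarith [Real.log_two_gt_d9]
    have h8 : (0 : ℝ) ≤ ((Nat.log 2 X : ℕ) : ℝ) := Nat.cast_nonneg _
    rw [hJ]
    push_cast
    nlinarith
  calc ∑ i ∈ Finset.range J, ∑ p ∈ (FR X).filter (fun p => 2 ^ i * N < p.1 * p.2 ∧ p.1 * p.2 ≤ 2 * (2 ^ i * N)),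
        (√(ht p))⁻¹ * Pool.Agent.Y969.GP.mk T (lam p - θ)
      ≤ ∑ i ∈ Finset.range J, 2 * C * (T * (N : ℝ) ^ (-(1 / 2) : ℝ) + 2 * √(X : ℝ)) * (1 + Real.log X) :=
        Finset.sum_le_sum fun i _ => SPDx.block C hC hsp X N i T θ hN hNX hT
    _ = J * (2 * C * (T * (N : ℝ) ^ (-(1 / 2) : ℝ) + 2 * √(X : ℝ)) * (1 + Real.log X)) := by
        rw [Finset.sum_const, Finset.card_range, nsmul_eq_mul]
    _ ≤ (4 * (1 + Real.log X)) * (2 * C * (2 * (T * (N : ℝ) ^ (-(1 / 2) : ℝ) + √(X : ℝ))) * (1 + Real.log X)) := by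
        gcongr
        have h3 : 0 ≤ T * (N : ℝ) ^ (-(1 / 2) : ℝ) := by positivity
        linarith
    _ = 16 * C * (T * (N : ℝ) ^ (-(1 / 2) : ℝ) + √(X : ℝ)) * (1 + Real.log X) ^ 2 := by ring

end Pool.Agent.T2H54.CL
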