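import Pool.Agent.T2H54.CL.Stm
import Pool.Agent.T2H54.TP.SSR
import Pool.Agent.Y125.GP.LSW
import Pool.Agent.Y379.GP.Sp

set_option autoImplicit false

/-! Package SSRQ of project CL: from the sharp to the smooth sum of the reduced coefficients
(adapted from `Pool.Agent.T2H54.TP.SSR`). -/

namespace Pool.Agent.T2H54.CL.PkgSSRQ

open Complex Filter Topology MeasureTheory Set
open Pool.Agent.TH612.CF Pool.Agent.TH612.GS Pool.Agent.T2H54.SB Pool.Agent.T2H54.TP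
open Pool.Agent.Y969.GP (ht lam PS FR)
open Pool.Agent.TH367.GS (qq norm_one_sub)
open Pool.Agent.T2H54.TP.PkgSSR (kap_norm)

noncomputable section

variable {n : ℕ}

/-- the least common multiple of the two products -/
def lq (ν : Fin n → ℕ × ℕ) : ℕ := Nat.lcm (ql ν) (qm ν)

lemma mem_FR {N : ℕ} {p : ℕ × ℕ} (h : p ∈ FR N) : 1 ≤ p.1 ∧ 1 ≤ p.2 := by
  unfold FR PS at h
  rw [Finset.mem_filter, Finset.mem_filter, Finset.mem_product, Finset.mem_Icc,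
    Finset.mem_Icc] at h
  exact ⟨h.1.1.1.1, h.1.1.2.1⟩

lemma mem_tq {N : ℕ} {ν : Fin n → ℕ × ℕ} (h : ν ∈ tq n N) (j : Fin n) : ν j ∈ FR N :=
  Fintype.mem_piFinset.1 h j

lemma ql_pos {N : ℕ} {ν : Fin n → ℕ × ℕ} (h : ν ∈ tq n N) : 0 < ql ν :=
  Finset.prod_pos fun j _ => (mem_FR (mem_tq h j)).1

lemma qm_pos {N : ℕ} {ν : Fin n → ℕ × ℕ} (h : ν ∈ tq n N) : 0 < qm ν :=
  Finset.prod_pos fun j _ => (mem_FR (mem_tq h j)).2

lemma lq_pos {N : ℕ} {ν : Fin n → ℕ × ℕ} (h : ν ∈ tq n N) : 0 < lq ν :=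
  Nat.lcm_pos (ql_pos h) (qm_pos h)

lemma cq_norm (a b : Fin (n + 1) → ℝ) {N : ℕ} {ν : Fin n → ℕ × ℕ} (h : ν ∈ tq n N) :
    ‖cq a b ν‖ = ((lq ν : ℕ) : ℝ)⁻¹ := by
  have hl := ql_pos h
  have hr := qm_pos h
  obtain ⟨g, hg⟩ : ∃ g, g = Nat.gcd (ql ν) (qm ν) := ⟨_, rfl⟩
  have hg0 : 0 < g := hg ▸ Nat.gcd_pos_of_pos_left _ hl
  have hgl : g ∣ ql ν := hg ▸ Nat.gcd_dvd_left _ _
  have hgr : g ∣ qm ν := hg ▸ Nat.gcd_dvd_right _ _
  have hl1 : g * (ql ν / g) = ql ν := Nat.mul_div_cancel' hgl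
  have hr1 : g * (qm ν / g) = qm ν := Nat.mul_div_cancel' hgr
  have hl2 : 0 < ql ν / g := Nat.div_pos (Nat.le_of_dvd hl hgl) hg0
  have hr2 : 0 < qm ν / g := Nat.div_pos (Nat.le_of_dvd hr hgr) hg0
  have hlc : lq ν = g * (ql ν / g) * (qm ν / g) := by
    unfold lq
    rw [hl1]
    have h1 := Nat.gcd_mul_lcm (ql ν) (qm ν)
    rw [← hg] at h1
    have h2 : g * (Nat.lcm (ql ν) (qm ν)) = g * (ql ν * (qm ν / g)) := by
      rw [h1]
      calc ql ν * qm ν = ql ν * (g * (qm ν / g)) := by rw [hr1]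
        _ = _ := by ring
    exact Nat.eq_of_mul_eq_mul_left hg0 h2
  have hw : ∏ j, ‖kap (a (Fin.succ j)) (b (Fin.succ j)) (ν j).1 (ν j).2‖ =
      (((ql ν : ℕ) : ℝ) * ((qm ν : ℕ) : ℝ)) ^ (-(1 / 2 : ℝ)) := by
    have h1 : ∀ j, ‖kap (a (Fin.succ j)) (b (Fin.succ j)) (ν j).1 (ν j).2‖ =
        (((ν j).1 : ℝ) * ((ν j).2 : ℝ)) ^ (-(1 / 2 : ℝ)) := fun j =>
      kap_norm _ _ _ _ (mem_FR (mem_tq h j)).1 (mem_FR (mem_tq h j)).2
    rw [Finset.prod_congr rfl fun j _ => h1 j, Real.finsetProd_rpow _ _ fun j _ => by positivity,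
      Finset.prod_mul_distrib]
    unfold ql qm
    push_cast
    rfl
  have hlcR : ((lq ν : ℕ) : ℝ) = g * ((ql ν / g : ℕ) : ℝ) * ((qm ν / g : ℕ) : ℝ) := by
    rw [hlc]
    push_cast
    rfl
  have hlc0 : (0:ℝ) < ((lq ν : ℕ) : ℝ) := by exact_mod_cast lq_pos h
  have hplR : ((ql ν : ℕ) : ℝ) = g * ((ql ν / g : ℕ) : ℝ) := by exact_mod_cast hl1.symm
  have hprR : ((qm ν : ℕ) : ℝ) = g * ((qm ν / g : ℕ) : ℝ) := by exact_mod_cast hr1.symm
  unfold cq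
  rw [← hg, norm_mul, norm_prod, kap_norm _ _ _ _ hr2 hl2, hw,
    ← Real.mul_rpow (by positivity) (by positivity)]
  have he : ((qm ν / g : ℕ) : ℝ) * ((ql ν / g : ℕ) : ℝ) * (((ql ν : ℕ) : ℝ) * ((qm ν : ℕ) : ℝ)) =
      ((lq ν : ℕ) : ℝ) ^ (2 : ℝ) := by
    rw [show (2:ℝ) = ((2:ℕ) : ℝ) by norm_num, Real.rpow_natCast, hlcR, hplR, hprR]
    ring
  rw [he, ← Real.rpow_mul hlc0.le, ← Real.rpow_neg_one]
  norm_num

/-- number of tuples with given least common multiple -/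
lemma fiber_card (N m : ℕ) (hm : 1 ≤ m) :
    ((tq n N).filter (fun ν => lq ν = m)).card ≤ m.divisors.card ^ (2 * n) := by
  have h1 : (tq n N).filter (fun ν => lq ν = m) ⊆
      Fintype.piFinset (fun _ : Fin n => m.divisors ×ˢ m.divisors) := by
    intro ν hν
    rw [Finset.mem_filter] at hν
    obtain ⟨_, hm'⟩ := hν
    rw [Fintype.mem_piFinset]
    intro j
    rw [Finset.mem_product, Nat.mem_divisors, Nat.mem_divisors]
    refine ⟨⟨?_, by omega⟩, ⟨?_, by omega⟩⟩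
    · rw [← hm']
      exact (Finset.dvd_prod_of_mem (fun j => (ν j).1) (Finset.mem_univ j)).trans
        (Nat.dvd_lcm_left _ _)
    · rw [← hm']
      exact (Finset.dvd_prod_of_mem (fun j => (ν j).2) (Finset.mem_univ j)).trans
        (Nat.dvd_lcm_right _ _)
  refine (Finset.card_le_card h1).trans ?_
  rw [Fintype.card_piFinset]
  simp only [Finset.card_product, Finset.prod_const, Finset.card_univ, Fintype.card_fin]
  rw [pow_mul, sq]

/-- the sum of `lcm^(-5/4)` over the tuples is bounded -/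
lemma lcm_bound (n : ℕ) : ∃ K : ℝ, 0 ≤ K ∧ ∀ N : ℕ,
    ∑ ν ∈ tq n N, ((lq ν : ℕ) : ℝ) ^ (-(5 / 4) : ℝ) ≤ K := by
  obtain ⟨C, hC0, hC⟩ := Pool.Agent.H510R2.divisor_bound (1 / (16 * (n + 1))) (by positivity)
  have hs : Summable (fun m : ℕ => (m : ℝ) ^ (-(9 / 8) : ℝ)) :=
    Real.summable_nat_rpow.2 (by norm_num)
  refine ⟨C ^ (2 * n) * ∑' m : ℕ, (m : ℝ) ^ (-(9 / 8) : ℝ),
    mul_nonneg (by positivity) (tsum_nonneg fun m => by positivity), fun N => ?_⟩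
  classical
  rw [← Finset.sum_fiberwise_of_maps_to (s := tq n N) (t := (tq n N).image lq) (g := lq)
    (fun ν hν => Finset.mem_image_of_mem _ hν)]
  rw [← tsum_mul_left]
  refine le_trans ?_ ((hs.mul_left _).sum_le_tsum ((tq n N).image lq)
    (fun m _ => by positivity))
  refine Finset.sum_le_sum fun m hm => ?_
  have hm1 : 1 ≤ m := by
    obtain ⟨ν, hν, rfl⟩ := Finset.mem_image.1 hm
    exact lq_pos hν
  have hm0 : (0:ℝ) < m := by exact_mod_cast hm1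
  have h1 : ∑ ν ∈ (tq n N).filter (fun ν => lq ν = m), ((lq ν : ℕ) : ℝ) ^ (-(5 / 4) : ℝ) =
      ((tq n N).filter (fun ν => lq ν = m)).card * (m : ℝ) ^ (-(5 / 4) : ℝ) := by
    rw [Finset.sum_congr rfl (g := fun _ => (m : ℝ) ^ (-(5 / 4) : ℝ))]
    · rw [Finset.sum_const, nsmul_eq_mul]
    · intro ν hν
      rw [(Finset.mem_filter.1 hν).2]
  rw [h1]
  have h2 : (((tq n N).filter (fun ν => lq ν = m)).card : ℝ) ≤
      C ^ (2 * n) * (m : ℝ) ^ (1 / 8 : ℝ) := by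
    have h3 : (((tq n N).filter (fun ν => lq ν = m)).card : ℝ) ≤
        (m.divisors.card : ℝ) ^ (2 * n) := by
      exact_mod_cast fiber_card (n := n) N m hm1
    refine h3.trans ?_
    refine (pow_le_pow_left₀ (by positivity) (hC m hm1) _).trans ?_
    rw [mul_pow, ← Real.rpow_natCast ((m:ℝ) ^ _), ← Real.rpow_mul hm0.le]
    refine mul_le_mul_of_nonneg_left ?_ (by positivity)
    refine Real.rpow_le_rpow_of_exponent_le (by exact_mod_cast hm1) ?_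
    push_cast
    rw [div_mul_eq_mul_div, div_le_div_iff₀ (by positivity) (by norm_num)]
    nlinarith
  calc _ ≤ (C ^ (2 * n) * (m : ℝ) ^ (1 / 8 : ℝ)) * (m : ℝ) ^ (-(5 / 4) : ℝ) := by gcongr
    _ = C ^ (2 * n) * (m : ℝ) ^ (-(9 / 8) : ℝ) := by
      rw [mul_assoc, ← Real.rpow_add hm0]
      norm_num

lemma SPq_eq (hL : S_LCMQ) {ψ : ℝ → ℝ} (hψ : Cut ψ) {N : ℕ} (hN : 2 ≤ N)
    (a b : Fin (n + 1) → ℝ) (h : Fin n → ℝ) :
    SPq ψ N a b h = ∑ ν ∈ tq n N, cq a b ν * (qq ψ N (lq ν) : ℂ) * chq ν h := by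
  have hlog : 0 < Real.log N := Real.log_pos (by exact_mod_cast (by omega : 1 < N))
  have h1 : SPq ψ N a b h = ∑ m ∈ Finset.Icc 1 N, ∑ ν ∈ tq n N,
      if lq ν = m then cq a b ν * (qq ψ N m : ℂ) * chq ν h else 0 := by
    unfold SPq
    refine Finset.sum_congr rfl fun m hm => ?_
    rw [Finset.mem_Icc] at hm
    rw [← Finset.sum_filter, hL n a b h N m hm.1 hm.2, Finset.sum_mul]
    refine Finset.sum_congr ?_ fun ν _ => ?_
    · ext ν
      simp [lq]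
    · unfold qq
      ring
  rw [h1, Finset.sum_comm]
  refine Finset.sum_congr rfl fun ν hν => ?_
  rw [Finset.sum_ite_eq]
  split_ifs with h2
  · rfl
  · have h3 : N < lq ν := by
      rw [Finset.mem_Icc] at h2
      have := lq_pos hν
      omega
    have h4 : qq ψ N (lq ν) = 0 := by
      unfold qq
      apply hψ.2.2.2
      rw [le_div_iff₀ (by positivity)]
      have h5 : Real.log N ≤ Real.log (lq ν : ℕ) :=
        Real.log_le_log (by positivity) (by exact_mod_cast h3.le)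
      linarith
    rw [h4]
    simp

/-- the coefficients of the difference -/
def dd (a b : Fin (n + 1) → ℝ) (ψ : ℝ → ℝ) (N : ℕ) (ν : Fin n → ℕ × ℕ) : ℂ :=
  cq a b ν * (1 - (qq ψ N (lq ν) : ℂ))

lemma diff_eq (hL : S_LCMQ) {ψ : ℝ → ℝ} (hψ : Cut ψ) {N : ℕ} (hN : 2 ≤ N)
    (a b : Fin (n + 1) → ℝ) (h : Fin n → ℝ) :
    RQ a b N h - SPq ψ N a b h = ∑ ν ∈ tq n N, dd a b ψ N ν * chq ν h := by
  rw [SPq_eq hL hψ hN]
  unfold RQ
  rw [← Finset.sum_sub_distrib]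
  refine Finset.sum_congr rfl fun ν _ => ?_
  unfold dd
  ring

lemma dd_sq (a b : Fin (n + 1) → ℝ) {ψ : ℝ → ℝ} (hψ : Cut ψ) {N : ℕ} (hN : 2 ≤ N)
    {ν : Fin n → ℕ × ℕ} (hν : ν ∈ tq n N) :
    ‖dd a b ψ N ν‖ ^ 2 ≤ (N : ℝ) ^ (-(3 / 16) : ℝ) * ((lq ν : ℕ) : ℝ) ^ (-(5 / 4) : ℝ) := by
  have hlog : 0 < Real.log N := Real.log_pos (by exact_mod_cast (by omega : 1 < N))
  have hN0 : (0:ℝ) < N := by positivity
  have hp0 : (0:ℝ) < (lq ν : ℕ) := by exact_mod_cast lq_pos hν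
  unfold dd
  by_cases h1 : Real.log (lq ν : ℕ) ≤ Real.log N / 4
  · have h2 : qq ψ N (lq ν) = 1 := by
      unfold qq
      apply hψ.2.2.1
      rw [div_le_iff₀ (by positivity)]
      linarith
    rw [h2, Complex.ofReal_one, sub_self, mul_zero, norm_zero, zero_pow two_ne_zero]
    positivity
  · push Not at h1
    rw [norm_mul, cq_norm a b hν]
    have h2 := norm_one_sub hψ N (lq ν)
    have h3 : (((lq ν : ℕ) : ℝ)⁻¹ * ‖(1 - (qq ψ N (lq ν) : ℂ))‖) ^ 2 ≤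
        (((lq ν : ℕ) : ℝ)⁻¹) ^ 2 := by
      apply pow_le_pow_left₀ (by positivity)
      calc _ ≤ ((lq ν : ℕ) : ℝ)⁻¹ * 1 := by gcongr
        _ = _ := mul_one _
    refine h3.trans ?_
    have h4 : (((lq ν : ℕ) : ℝ)⁻¹) ^ 2 = ((lq ν : ℕ) : ℝ) ^ (-(3 / 4) : ℝ) *
        ((lq ν : ℕ) : ℝ) ^ (-(5 / 4) : ℝ) := by
      rw [← Real.rpow_add hp0, ← Real.rpow_neg_one, ← Real.rpow_natCast, ← Real.rpow_mul hp0.le]
      norm_num
    rw [h4]
    refine mul_le_mul_of_nonneg_right ?_ (by positivity)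
    rw [Real.rpow_def_of_pos hp0, Real.rpow_def_of_pos hN0, Real.exp_le_exp]
    linarith

lemma chq_cont (ν : Fin n → ℕ × ℕ) : Continuous fun h : Fin n → ℝ => chq ν h := by
  unfold chq
  refine continuous_finsetProd _ fun j _ => ?_
  refine Complex.continuous_exp.comp (Continuous.neg (continuous_const.mul
    (Complex.continuous_ofReal.comp ((continuous_apply j).mul continuous_const))))

lemma chq_norm (ν : Fin n → ℕ × ℕ) (h : Fin n → ℝ) : ‖chq ν h‖ = 1 := by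
  unfold chq
  rw [norm_prod]
  refine Finset.prod_eq_one fun j _ => ?_
  have h1 := Complex.norm_exp_ofReal_mul_I (-(h j * lam (ν j)))
  rw [← h1]
  congr 2
  push_cast
  ring

/-- the large sieve for the characters `chq` -/
lemma sieve (n : ℕ) : ∃ C : ℝ, 0 < C ∧ ∀ (N : ℕ) (T : ℝ) (B : (Fin n → ℕ × ℕ) → ℂ), 1 ≤ N →
    1 ≤ T → ∫⁻ h, ENNReal.ofReal (‖∑ ν ∈ tq n N, B ν * chq ν h‖ ^ 2) ∂(mP (Fin n) T) ≤
      ENNReal.ofReal ((C * ((T + N) * (1 + Real.log N))) ^ n * ∑ ν ∈ tq n N, ‖B ν‖ ^ 2) := by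
  obtain ⟨C, hC, hLS⟩ := Pool.Agent.Y125.GP.t_LSW Pool.Agent.Y379.GP.t_SP n
  refine ⟨C, hC, fun N T B hN hT => ?_⟩
  have h1 := hLS N 0 T hN hT le_rfl (by linarith) (fun _ _ _ => 1) (fun _ _ _ => 0)
    (fun ν => (starRingEnd ℂ) (B ν)) (fun _ _ => 1)
    (fun j p _ x _ => hasDerivAt_const x (1 : ℂ)) (fun j p _ => continuousOn_const)
    (fun j p _ x _ => by simp) (fun j p _ => by simp)
  have hcont : Continuous fun h : Fin n → ℝ => ‖∑ ν ∈ tq n N, B ν * chq ν h‖ ^ 2 :=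
    (Continuous.norm (continuous_finsetSum _ fun ν _ =>
      continuous_const.mul (chq_cont ν))).pow 2
  have hbd : ∀ h : Fin n → ℝ, ‖∑ ν ∈ tq n N, B ν * chq ν h‖ ^ 2 ≤
      (∑ ν ∈ tq n N, ‖B ν‖) ^ 2 := by
    intro h
    refine pow_le_pow_left₀ (norm_nonneg _) ((norm_sum_le _ _).trans (le_of_eq ?_)) 2
    refine Finset.sum_congr rfl fun ν _ => ?_
    rw [norm_mul, chq_norm, mul_one]
  haveI : IsFiniteMeasure (mP (Fin n) T) := by
    unfold mP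
    infer_instance
  have hint : Integrable (fun h : Fin n → ℝ => ‖∑ ν ∈ tq n N, B ν * chq ν h‖ ^ 2)
      (mP (Fin n) T) := by
    refine Integrable.of_bound hcont.aestronglyMeasurable ((∑ ν ∈ tq n N, ‖B ν‖) ^ 2)
      (Eventually.of_forall fun h => ?_)
    rw [Real.norm_of_nonneg (by positivity)]
    exact hbd h
  rw [← ofReal_integral_eq_lintegral_ofReal hint (Eventually.of_forall fun h => by positivity)]
  refine ENNReal.ofReal_le_ofReal ?_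
  have e2 : ∀ h : Fin n → ℝ, ‖∑ ν ∈ tq n N, B ν * chq ν h‖ ^ 2 =
      ‖∑ q ∈ Fintype.piFinset (fun _ : Fin n => FR N),
        (starRingEnd ℂ) (B q) * ∏ j, ((1 : ℂ) * cexp (I * ((h j * lam (q j) : ℝ) : ℂ)))‖ ^ 2 := by
    intro h
    rw [← RCLike.norm_conj, map_sum]
    congr 2
    refine Finset.sum_congr rfl fun ν _ => ?_
    rw [map_mul]
    congr 1
    unfold chq
    rw [map_prod]
    refine Finset.prod_congr rfl fun j _ => ?_
    rw [one_mul, ← Complex.exp_conj]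
    congr 1
    rw [map_neg, map_mul, Complex.conj_I, Complex.conj_ofReal]
    ring
  have e3 : ∫ h, ‖∑ ν ∈ tq n N, B ν * chq ν h‖ ^ 2 ∂(mP (Fin n) T) =
      ∫ c, ‖∑ q ∈ Fintype.piFinset (fun _ : Fin n => FR N),
        (starRingEnd ℂ) (B q) * ∏ j, ((1 : ℂ) * cexp (I * ((c j * lam (q j) : ℝ) : ℂ)))‖ ^ 2
          ∂(Pool.Agent.Y969.GP.mB n 0 T) := by
    refine integral_congr_ae (Eventually.of_forall fun h => e2 h)
  rw [e3]
  refine h1.trans (le_of_eq ?_)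
  congr 1
  refine Finset.sum_congr rfl fun q _ => ?_
  rw [RCLike.norm_conj]
  simp

lemma log_pow (n : ℕ) : ∃ C : ℝ, 0 < C ∧ ∀ N : ℕ, 2 ≤ N →
    (1 + Real.log N) ^ n ≤ C * (N : ℝ) ^ (1 / 16 : ℝ) := by
  obtain ⟨δ, hδ⟩ : ∃ δ : ℝ, δ = 1 / (16 * ((n : ℝ) + 1)) := ⟨_, rfl⟩
  have hδ0 : 0 < δ := by rw [hδ]; positivity
  refine ⟨(1 + 1 / δ) ^ n, by positivity, fun N hN => ?_⟩
  have hN1 : (1 : ℝ) ≤ N := by exact_mod_cast (by omega : 1 ≤ N)
  have h1 : Real.log N ≤ (N : ℝ) ^ δ / δ := Real.log_le_rpow_div (by linarith) hδ0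
  have h2 : (1 : ℝ) ≤ (N : ℝ) ^ δ := Real.one_le_rpow hN1 hδ0.le
  have h3 : 1 + Real.log N ≤ (1 + 1 / δ) * (N : ℝ) ^ δ := by
    have e : (1 + 1 / δ) * (N : ℝ) ^ δ = (N : ℝ) ^ δ + (N : ℝ) ^ δ / δ := by ring
    rw [e]
    linarith
  have h0 : 0 ≤ 1 + Real.log N := by
    have := Real.log_nonneg hN1
    linarith
  refine (pow_le_pow_left₀ h0 h3 n).trans ?_
  rw [mul_pow]
  refine mul_le_mul_of_nonneg_left ?_ (by positivity)
  rw [← Real.rpow_natCast ((N : ℝ) ^ δ) n, ← Real.rpow_mul (by linarith)]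
  refine Real.rpow_le_rpow_of_exponent_le hN1 ?_
  rw [hδ, div_mul_eq_mul_div, div_le_div_iff₀ (by positivity) (by norm_num)]
  nlinarith

end

end Pool.Agent.T2H54.CL.PkgSSRQ

namespace Pool.Agent.T2H54.CL

open Complex Filter Topology MeasureTheory Set
open Pool.Agent.TH612.CF Pool.Agent.TH612.GS Pool.Agent.T2H54.SB Pool.Agent.T2H54.TP
open Pool.Agent.T2H54.CL.PkgSSRQ

/-- the package SSRQ -/
theorem t_SSRQ (hL : S_LCMQ) : S_SSRQ := by
  intro n ψ hψ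
  obtain ⟨K, hK0, hK⟩ := PkgSSRQ.lcm_bound n
  obtain ⟨C, hC, hCs⟩ := sieve n
  obtain ⟨D, hD, hDl⟩ := log_pow n
  refine ⟨(2 * C) ^ n * D * (K + 1), by positivity, fun a b T N hN hT => ?_⟩
  have hN0 : (0:ℝ) < N := by positivity
  have hN1 : (1:ℝ) ≤ N := by exact_mod_cast (by omega : 1 ≤ N)
  have hT0 : 0 < T := lt_of_lt_of_le (by positivity) hT
  have h1 := hCs N T (dd a b ψ N) (by omega) (by linarith)
  simp_rw [PkgSSRQ.diff_eq hL hψ hN]
  refine h1.trans (ENNReal.ofReal_le_ofReal ?_)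
  have hS2 : ∑ ν ∈ tq n N, ‖dd a b ψ N ν‖ ^ 2 ≤ (N : ℝ) ^ (-(3 / 16) : ℝ) * (K + 1) := by
    have h2 : ∑ ν ∈ tq n N, ‖dd a b ψ N ν‖ ^ 2 ≤ (N : ℝ) ^ (-(3 / 16) : ℝ) * K := by
      refine le_trans ?_ (mul_le_mul_of_nonneg_left (hK N) (by positivity))
      rw [Finset.mul_sum]
      exact Finset.sum_le_sum fun ν hν => dd_sq a b hψ hN hν
    refine h2.trans (mul_le_mul_of_nonneg_left (by linarith) (by positivity))
  have hlog0 : 0 ≤ 1 + Real.log N := by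
    have := Real.log_nonneg hN1
    linarith
  have h3 : (C * ((T + N) * (1 + Real.log N))) ^ n ≤
      (2 * C) ^ n * T ^ n * (D * (N : ℝ) ^ (1 / 16 : ℝ)) := by
    calc (C * ((T + N) * (1 + Real.log N))) ^ n ≤ (C * ((2 * T) * (1 + Real.log N))) ^ n := by
          refine pow_le_pow_left₀ (by positivity) ?_ n
          refine mul_le_mul_of_nonneg_left (mul_le_mul_of_nonneg_right (by linarith) hlog0) hC.le
      _ = (2 * C) ^ n * T ^ n * (1 + Real.log N) ^ n := by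
          rw [← mul_pow, ← mul_pow]
          congr 1
          ring
      _ ≤ _ := mul_le_mul_of_nonneg_left (hDl N hN) (by positivity)
  have e1 : (N : ℝ) ^ (1 / 16 : ℝ) * (N : ℝ) ^ (-(3 / 16) : ℝ) = (N : ℝ) ^ (-(1 / 8) : ℝ) := by
    rw [← Real.rpow_add hN0]
    norm_num
  calc (C * ((T + N) * (1 + Real.log N))) ^ n * ∑ ν ∈ tq n N, ‖dd a b ψ N ν‖ ^ 2
      ≤ ((2 * C) ^ n * T ^ n * (D * (N : ℝ) ^ (1 / 16 : ℝ))) *
        ((N : ℝ) ^ (-(3 / 16) : ℝ) * (K + 1)) := by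
        refine mul_le_mul h3 hS2 (Finset.sum_nonneg fun _ _ => by positivity) (by positivity)
    _ = (2 * C) ^ n * D * (K + 1) * T ^ n *
        ((N : ℝ) ^ (1 / 16 : ℝ) * (N : ℝ) ^ (-(3 / 16) : ℝ)) := by ring
    _ = _ := by rw [e1]

end Pool.Agent.T2H54.CL
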