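import Pool.Agent.T2H54.CL.Stm
import Pool.Agent.T2H54.TP.SWF

set_option autoImplicit false

/-! Package SWQ of project CL: the permutations which move exactly one member of a cluster
(adapted from `Pool.Agent.T2H54.TP.SWF`). -/

namespace Pool.Agent.T2H54.CL.PkgSWQ

open Complex Filter Topology MeasureTheory Set
open Pool.Agent.TH612.CF Pool.Agent.TH612.GS Pool.Agent.T2H54.SB Pool.Agent.T2H54.TP
open Pool.Agent.TH805.GS (RR RR_update GG_split norm_RR cont_RR cont_chi norm_chi norm_chi'
  norm_chi'')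
open Pool.Agent.T2H54.TP.PkgSWF

noncomputable section

variable {k : ℕ}

lemma RR_update_nm (j₀ : Fin k) (t y : ℝ) (γ : Fin k ⊕ Fin k → ℝ)
    (π : Equiv.Perm (Fin k ⊕ Fin k)) (p' : Fin k ⊕ Fin k)
    (hp' : (π.symm p').isLeft = p'.isLeft) :
    RR j₀ t (Function.update γ p' y) π = RR j₀ t γ π := by
  unfold RR
  congr 1
  · refine Finset.prod_congr rfl fun j _ => ?_
    by_cases hj : (π (Sum.inl j)).isRight
    · have h : π (Sum.inl j) ≠ p' := by
        rintro rfl
        rw [Equiv.symm_apply_apply] at hp'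
        rw [← Sum.not_isLeft, ← hp'] at hj
        simp at hj
      rw [Function.update_of_ne h]
    · rw [if_neg hj, if_neg hj]
  · refine Finset.prod_congr rfl fun j _ => ?_
    by_cases hj : (π (Sum.inr j)).isLeft
    · have h : π (Sum.inr j) ≠ p' := by
        rintro rfl
        rw [Equiv.symm_apply_apply] at hp'
        rw [← hp'] at hj
        simp at hj
      rw [Function.update_of_ne h]
    · rw [if_neg hj, if_neg hj]

/-- separation of the factor of a moved shift -/
lemma split2 (π : Equiv.Perm (Fin k ⊕ Fin k)) (p : Fin k ⊕ Fin k)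
    (hp : (π.symm p).isLeft ≠ p.isLeft) :
    ∃ R : ℝ → (Fin k ⊕ Fin k → ℝ) → ℂ, (∀ γ, Continuous fun t => R t γ) ∧
      (∀ t γ, ‖R t γ‖ ≤ 1) ∧ (∀ t γ y, R t (Function.update γ p y) = R t γ) ∧
      (∀ p', (π.symm p').isLeft = p'.isLeft → ∀ t γ y, R t (Function.update γ p' y) = R t γ) ∧
      ∀ S γ, ‖IG S γ π‖ = ‖∫ t in (0:ℝ)..S, chi (1 / 2 + I * (t + (γ p : ℂ))) * R t γ‖ := by
  rcases hq : π.symm p with j₀ | j₀
  · -- `p = π (inl j₀)` is right
    have hpp : π (Sum.inl j₀) = p := by rw [← hq, Equiv.apply_symm_apply]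
    have hr : p.isLeft = false := by
      rw [hq] at hp
      simpa using hp
    have e0 : pc π (Sum.inr j₀) = p.swap := by
      rw [pc_apply, Sum.swap_inr, hpp]
    have hl : (pc π (Sum.inr j₀)).isLeft = true := by
      rw [e0, Sum.isLeft_swap]
      rcases p with i | i
      · simp at hr
      · rfl
    refine ⟨fun t γ => RR j₀ t (fun i => γ i.swap) (pc π), fun γ => cont_RR _ _ _,
      fun t γ => norm_RR _ _ _ _, fun t γ y => ?_, fun p' hp' t γ y => ?_, fun S γ => ?_⟩
    · have e1 : (fun i : Fin k ⊕ Fin k => Function.update γ p y i.swap) =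
          Function.update (fun i => γ i.swap) (pc π (Sum.inr j₀)) y := by
        funext i
        by_cases h : i = p.swap
        · subst h
          rw [e0, Function.update_self, Sum.swap_swap, Function.update_self]
        · have h' : i.swap ≠ p := fun h'' => h (by rw [← h'', Sum.swap_swap])
          rw [e0, Function.update_of_ne h, Function.update_of_ne h']
      beta_reduce
      rw [e1, RR_update]
    · have e1 : (fun i : Fin k ⊕ Fin k => Function.update γ p' y i.swap) =
          Function.update (fun i => γ i.swap) p'.swap y := by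
        funext i
        by_cases h : i = p'.swap
        · subst h
          rw [Function.update_self, Sum.swap_swap, Function.update_self]
        · have h' : i.swap ≠ p' := fun h'' => h (by rw [← h'', Sum.swap_swap])
          rw [Function.update_of_ne h, Function.update_of_ne h']
      beta_reduce
      rw [e1, RR_update_nm]
      have e2 : (pc π).symm p'.swap = (π.symm p').swap := by
        rw [Equiv.symm_apply_eq, pc_apply, Sum.swap_swap, Equiv.apply_symm_apply]
      have e3 : ∀ x : Fin k ⊕ Fin k, x.isRight = !x.isLeft := fun x => by cases x <;> rfl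
      rw [e2, Sum.isLeft_swap, Sum.isLeft_swap, e3, e3, hp']
    · rw [IG_norm]
      congr 1
      refine intervalIntegral.integral_congr fun t _ => ?_
      have h2 := GG_split j₀ t (fun i => γ i.swap) (pc π) hl
      beta_reduce at h2 ⊢
      rw [h2, e0, Sum.swap_swap]
  · have hpp : π (Sum.inr j₀) = p := by rw [← hq, Equiv.apply_symm_apply]
    have hl : (π (Sum.inr j₀)).isLeft = true := by
      rw [hq] at hp
      rw [hpp]
      rcases p with i | i
      · rfl
      · simp at hp
    refine ⟨fun t γ => RR j₀ t γ π, fun γ => cont_RR _ _ _,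
      fun t γ => norm_RR _ _ _ _, fun t γ y => ?_,
      fun p' hp' t γ y => RR_update_nm _ _ _ _ _ _ hp', fun S γ => ?_⟩
    · beta_reduce
      rw [← hpp, RR_update]
    · congr 1
      unfold IG
      refine intervalIntegral.integral_congr fun t _ => ?_
      have h2 := GG_split j₀ t γ π hl
      beta_reduce at h2 ⊢
      rw [h2, hpp]

variable {n : ℕ}

/-- some cluster `i + 1` has exactly one moved member -/
lemma exists_succ (π : Equiv.Perm (Fin (n + 1) ⊕ Fin (n + 1))) (h : π ∈ Oq n) :
    ∃ i : Fin n, (π.symm (Sum.inl i.succ)).isLeft = (π.symm (Sum.inr i.succ)).isLeft := by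
  obtain ⟨j, hj⟩ := (Finset.mem_filter.1 h).2
  by_contra hcon
  push Not at hcon
  obtain ⟨L, hL⟩ : ∃ L : Fin (n + 1) ⊕ Fin (n + 1) → ℕ,
    L = fun x => if (π.symm x).isLeft then 1 else 0 := ⟨_, rfl⟩
  have h1 : ∑ x, L x = n + 1 := by
    rw [hL, Equiv.sum_comp π.symm (fun x : Fin (n + 1) ⊕ Fin (n + 1) =>
      if x.isLeft then 1 else 0), Fintype.sum_sum_type]
    simp
  rw [Fintype.sum_sum_type, ← Finset.sum_add_distrib, Fin.sum_univ_succ] at h1
  have h2 : ∑ i : Fin n, (L (Sum.inl i.succ) + L (Sum.inr i.succ)) = n := by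
    have h3 : ∀ i : Fin n, L (Sum.inl i.succ) + L (Sum.inr i.succ) = 1 := by
      intro i
      have h4 := hcon i
      rw [hL]
      beta_reduce
      rcases h5 : (π.symm (Sum.inl i.succ)).isLeft <;>
        rcases h6 : (π.symm (Sum.inr i.succ)).isLeft <;> simp_all
    rw [Finset.sum_congr rfl fun i _ => h3 i]
    simp
  rw [h2] at h1
  have h7 : L (Sum.inl 0) + L (Sum.inr 0) = 1 := by omega
  rcases Fin.eq_zero_or_eq_succ j with h8 | ⟨i, h8⟩
  · subst h8
    rw [hL] at h7
    beta_reduce at h7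
    rw [hj] at h7
    split_ifs at h7 <;> omega
  · subst h8
    exact hcon i hj

lemma gk_cont (a b : Fin (n + 1) → ℝ) : Continuous fun h : Fin n → ℝ => gk a b h := by
  have h0 : ∀ j : Fin (n + 1), Continuous fun h : Fin n → ℝ => hc h j := by
    intro j
    refine Fin.cases ?_ (fun j => ?_) j
    · show Continuous fun h : Fin n → ℝ => (0 : ℝ)
      exact continuous_const
    · show Continuous fun h : Fin n → ℝ => h j
      exact continuous_apply j
  refine continuous_pi fun i => ?_
  rcases i with j | j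
  · show Continuous fun h : Fin n → ℝ => hc h j + a j
    exact (h0 j).add continuous_const
  · show Continuous fun h : Fin n → ℝ => hc h j + b j
    exact (h0 j).add continuous_const

lemma gk_update (a b : Fin (n + 1) → ℝ) (y : ℝ) (h : Fin n → ℝ) (i : Fin n) :
    gk a b (Function.update h i y) = Function.update (Function.update (gk a b h)
      (Sum.inl i.succ) (y + a i.succ)) (Sum.inr i.succ) (y + b i.succ) := by
  funext q
  rcases q with j | j
  · rw [Function.update_of_ne (by simp)]
    refine Fin.cases ?_ (fun j => ?_) j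
    · rw [Function.update_of_ne (by simpa using (Fin.succ_ne_zero i).symm)]
      rfl
    · by_cases hij : j = i
      · subst hij
        rw [Function.update_self]
        show Function.update h j y j + a j.succ = _
        rw [Function.update_self]
      · rw [Function.update_of_ne (by simpa using hij)]
        show Function.update h i y j + a j.succ = h j + a j.succ
        rw [Function.update_of_ne hij]
  · refine Fin.cases ?_ (fun j => ?_) j
    · rw [Function.update_of_ne (by simpa using (Fin.succ_ne_zero i).symm),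
        Function.update_of_ne (by simp)]
      rfl
    · by_cases hij : j = i
      · subst hij
        rw [Function.update_self]
        show Function.update h j y j + b j.succ = _
        rw [Function.update_self]
      · rw [Function.update_of_ne (by simpa using hij), Function.update_of_ne (by simp)]
        show Function.update h i y j + b j.succ = h j + b j.succ
        rw [Function.update_of_ne hij]

/-- the dependence on `h i` -/
lemma dep (π : Equiv.Perm (Fin (n + 1) ⊕ Fin (n + 1))) (hπ : π ∈ Oq n)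
    (a b : Fin (n + 1) → ℝ) : ∃ (i : Fin n) (c : ℝ), (c = a i.succ ∨ c = b i.succ) ∧
    ∃ R : ℝ → (Fin n → ℝ) → ℂ, (∀ h, Continuous fun t => R t h) ∧ (∀ t h, ‖R t h‖ ≤ 1) ∧
      ∀ (S : ℝ) (h : Fin n → ℝ) (y : ℝ), ‖IG S (gk a b (Function.update h i y)) π‖ =
        ‖∫ t in (0:ℝ)..S, chi (1 / 2 + I * (t + ((y + c : ℝ) : ℂ))) * R t h‖ := by
  obtain ⟨i, hi⟩ := exists_succ π hπ
  refine ⟨i, ?_⟩
  rcases hL : (π.symm (Sum.inl i.succ)).isLeft with _ | _
  · -- `inl i.succ` is moved, `inr i.succ` is not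
    have hp : (π.symm (Sum.inl i.succ)).isLeft ≠ (Sum.inl i.succ : Fin (n + 1) ⊕ Fin (n + 1)).isLeft := by
      rw [hL]; simp
    have hp' : (π.symm (Sum.inr i.succ)).isLeft =
        (Sum.inr i.succ : Fin (n + 1) ⊕ Fin (n + 1)).isLeft := by
      rw [← hi, hL]; simp
    obtain ⟨R, h1, h2, h3, h4, h5⟩ := split2 π _ hp
    refine ⟨a i.succ, Or.inl rfl, fun t h => R t (gk a b h), fun h => h1 _, fun t h => h2 _ _, ?_⟩
    intro S h y
    rw [h5]
    have e1 : gk a b (Function.update h i y) (Sum.inl i.succ) = y + a i.succ := by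
      rw [gk_update, Function.update_of_ne (by simp), Function.update_self]
    have e2 : ∀ t, R t (gk a b (Function.update h i y)) = R t (gk a b h) := by
      intro t
      rw [gk_update, h4 _ hp', h3]
    rw [e1]
    congr 1
    refine intervalIntegral.integral_congr fun t _ => ?_
    beta_reduce
    rw [e2]
  · have hp : (π.symm (Sum.inr i.succ)).isLeft ≠ (Sum.inr i.succ : Fin (n + 1) ⊕ Fin (n + 1)).isLeft := by
      rw [← hi, hL]; simp
    have hp' : (π.symm (Sum.inl i.succ)).isLeft =
        (Sum.inl i.succ : Fin (n + 1) ⊕ Fin (n + 1)).isLeft := by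
      rw [hL]; simp
    obtain ⟨R, h1, h2, h3, h4, h5⟩ := split2 π _ hp
    refine ⟨b i.succ, Or.inr rfl, fun t h => R t (gk a b h), fun h => h1 _, fun t h => h2 _ _, ?_⟩
    intro S h y
    rw [h5]
    have e1 : gk a b (Function.update h i y) (Sum.inr i.succ) = y + b i.succ := by
      rw [gk_update, Function.update_self]
    have e2 : ∀ t, R t (gk a b (Function.update h i y)) = R t (gk a b h) := by
      intro t
      rw [gk_update, h3, h4 _ hp']
    rw [e1]
    congr 1
    refine intervalIntegral.integral_congr fun t _ => ?_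
    beta_reduce
    rw [e2]

lemma cont_in {G : ℝ → ℂ} (hGc : Continuous G) (S : ℝ) : Continuous fun y : ℝ =>
    ‖∫ t in (0:ℝ)..S, chi (1 / 2 + I * (t + y)) * G t‖ ^ 2 := by
  refine Continuous.pow (Continuous.norm ?_) 2
  refine intervalIntegral.continuous_parametric_intervalIntegral_of_continuous'
    (f := fun (y t : ℝ) => chi (1 / 2 + I * ((t : ℂ) + (y : ℂ))) * G t) ?_ 0 S
  have h2 : Continuous fun q : ℝ × ℝ => chi (1 / 2 + I * ((q.2 : ℂ) + (q.1 : ℂ))) := by
    have h := cont_chi.comp (g := fun u : ℝ => chi (1 / 2 + I * (u : ℂ)))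
      (f := fun q : ℝ × ℝ => q.2 + q.1) (by fun_prop)
    refine h.congr fun t => ?_
    simp only [Function.comp]
    congr 1
    push_cast
    ring
  exact h2.mul (hGc.comp continuous_snd)

lemma norm_in {G : ℝ → ℂ} (hG1 : ∀ t, ‖G t‖ ≤ 1) {S : ℝ} (hS : 0 ≤ S) (y : ℝ) :
    ‖∫ t in (0:ℝ)..S, chi (1 / 2 + I * (t + y)) * G t‖ ^ 2 ≤ S ^ 2 := by
  refine pow_le_pow_left₀ (norm_nonneg _) ?_ 2
  have h := intervalIntegral.norm_integral_le_of_norm_le_const (a := 0) (b := S) (C := 1)
    (f := fun t : ℝ => chi (1 / 2 + I * (t + y)) * G t) (fun t _ => by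
      rw [norm_mul]
      have h1 : ‖chi (1 / 2 + I * ((t : ℂ) + (y : ℂ)))‖ = 1 := by
        have := Pool.Agent.TH805.GS.norm_chi (t + y)
        push_cast at this
        exact this
      rw [h1, one_mul]
      exact hG1 t)
  rwa [sub_zero, one_mul, abs_of_nonneg hS] at h

/-- the integral over one centre -/
lemma one_dim {G : ℝ → ℂ} (hGc : Continuous G) (hG1 : ∀ t, ‖G t‖ ≤ 1) {T S c A : ℝ}
    (hT : 16 ≤ T) (hS : 0 ≤ S) (hST : S ≤ T) (hc : |c| ≤ A) :
    ∫ y in (0:ℝ)..T, ‖∫ t in (0:ℝ)..S, chi (1 / 2 + I * (t + ((y + c : ℝ) : ℂ))) * G t‖ ^ 2 ≤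
      (688 * (1 + A) ^ 3 + A) * T ^ 2 * Real.log T ^ 2 := by
  have hA0 : 0 ≤ A := (abs_nonneg c).trans hc
  have hT0 : 0 < T := by linarith
  have hcont := cont_in hGc S
  have h0 : ∀ y : ℝ, 0 ≤ ‖∫ t in (0:ℝ)..S, chi (1 / 2 + I * (t + (y : ℂ))) * G t‖ ^ 2 :=
    fun y => by positivity
  rw [intervalIntegral.integral_comp_add_right (fun y : ℝ => ‖∫ t in (0:ℝ)..S,
    chi (1 / 2 + I * (t + (y : ℂ))) * G t‖ ^ 2) c, zero_add]
  obtain ⟨hc1, hc2⟩ := abs_le.mp hc
  have h1 : ∫ y in c..(T + c), ‖∫ t in (0:ℝ)..S, chi (1 / 2 + I * (t + (y : ℂ))) * G t‖ ^ 2 ≤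
      ∫ y in (-A)..(T + A), ‖∫ t in (0:ℝ)..S, chi (1 / 2 + I * (t + (y : ℂ))) * G t‖ ^ 2 :=
    intervalIntegral.integral_mono_interval hc1 (by linarith) (by linarith)
      (Eventually.of_forall h0) (hcont.intervalIntegrable _ _)
  rw [← intervalIntegral.integral_add_adjacent_intervals
    (hcont.intervalIntegrable (-A) 0) (hcont.intervalIntegrable 0 (T + A))] at h1
  have h2 : ∫ y in (-A)..0, ‖∫ t in (0:ℝ)..S, chi (1 / 2 + I * (t + (y : ℂ))) * G t‖ ^ 2 ≤
      A * S ^ 2 := by
    have h3 : ∫ y in (-A)..0, ‖∫ t in (0:ℝ)..S, chi (1 / 2 + I * (t + (y : ℂ))) * G t‖ ^ 2 ≤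
        ∫ _y in (-A)..0, S ^ 2 := by
      refine intervalIntegral.integral_mono_on (by linarith)
        (hcont.intervalIntegrable _ _) intervalIntegrable_const (fun y _ => norm_in hG1 hS y)
    rw [intervalIntegral.integral_const, zero_sub, neg_neg, smul_eq_mul] at h3
    exact h3
  have h3 := CHIL.pCHIL (R := G) (T := T + A) (S := S) (by linarith) hS (by linarith) hGc hG1
  have hlog1 : 1 ≤ Real.log T := by
    rw [Real.le_log_iff_exp_le hT0]
    have := Real.exp_one_lt_d9
    linarith
  have hlog : Real.log (T + A) ≤ (1 + A) * Real.log T := by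
    have h4 : Real.log (T + A) ≤ Real.log (T * (1 + A)) :=
      Real.log_le_log (by linarith) (by nlinarith)
    rw [Real.log_mul hT0.ne' (by linarith)] at h4
    have h5 : Real.log (1 + A) ≤ A := by
      have := Real.log_le_sub_one_of_pos (show (0:ℝ) < 1 + A by linarith)
      linarith
    nlinarith
  have hlog0 : 0 ≤ Real.log (T + A) := Real.log_nonneg (by linarith)
  have h4 : 688 * (S * (T + A)) * Real.log (T + A) ^ 2 ≤
      688 * (1 + A) ^ 3 * T ^ 2 * Real.log T ^ 2 := by
    have h5 : S * (T + A) ≤ T * (T * (1 + A)) :=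
      mul_le_mul hST (by nlinarith) (by linarith) hT0.le
    have h6 : Real.log (T + A) ^ 2 ≤ ((1 + A) * Real.log T) ^ 2 := pow_le_pow_left₀ hlog0 hlog 2
    calc 688 * (S * (T + A)) * Real.log (T + A) ^ 2
        ≤ 688 * (T * (T * (1 + A))) * ((1 + A) * Real.log T) ^ 2 := by
          refine mul_le_mul (by linarith) h6 (by positivity) (by positivity)
      _ = _ := by ring
  have h5 : A * S ^ 2 ≤ A * T ^ 2 * Real.log T ^ 2 := by
    have h6 : S ^ 2 ≤ T ^ 2 := pow_le_pow_left₀ hS hST 2
    have h7 : (1:ℝ) ≤ Real.log T ^ 2 := one_le_pow₀ hlog1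
    calc A * S ^ 2 ≤ A * T ^ 2 := mul_le_mul_of_nonneg_left h6 hA0
      _ = A * T ^ 2 * 1 := (mul_one _).symm
      _ ≤ _ := mul_le_mul_of_nonneg_left h7 (by positivity)
  calc _ ≤ _ := h1
    _ ≤ A * S ^ 2 + 688 * (S * (T + A)) * Real.log (T + A) ^ 2 := add_le_add h2 h3
    _ ≤ _ := by linarith

end

end Pool.Agent.T2H54.CL.PkgSWQ

namespace Pool.Agent.T2H54.CL

open Complex Filter Topology MeasureTheory Set
open Pool.Agent.TH612.CF Pool.Agent.TH612.GS Pool.Agent.T2H54.SB Pool.Agent.T2H54.TP
open Pool.Agent.T2H54.CL.PkgSWQ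

/-- the package SWQ -/
theorem t_SWQ : S_SWQ := by
  intro n a b
  obtain ⟨A, hA⟩ : ∃ A : ℝ, A = ∑ j, (|a j| + |b j|) := ⟨_, rfl⟩
  have hA0 : 0 ≤ A := by
    rw [hA]; exact Finset.sum_nonneg fun j _ => by positivity
  refine ⟨688 * (1 + A) ^ 3 + A, 16, by positivity, le_rfl, fun T S π hT hS hST hπ => ?_⟩
  obtain ⟨i, c, hc, R, hRc, hR1, hRI⟩ := dep π hπ a b
  have hcA : |c| ≤ A := by
    have h1 : |a i.succ| + |b i.succ| ≤ A := by
      rw [hA]
      exact Finset.single_le_sum (f := fun j => |a j| + |b j|) (fun j _ => by positivity)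
        (Finset.mem_univ i.succ)
    rcases hc with rfl | rfl
    · have := abs_nonneg (b i.succ); linarith
    · have := abs_nonneg (a i.succ); linarith
  have hT0 : 0 < T := by linarith
  set F : (Fin n → ℝ) → ENNReal :=
    fun h => ENNReal.ofReal (‖IG S (gk a b h) π‖ ^ 2) with hF
  have hFm : Measurable F := by
    have h0 : Continuous fun h : Fin n → ℝ => IG S (gk a b h) π :=
      (IG_cont S π).comp (gk_cont a b)
    have : Continuous F := ENNReal.continuous_ofReal.comp ((h0.norm).pow 2)
    exact this.measurable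
  have hin : ∀ h : Fin n → ℝ,
      ∫⁻ y, F (Function.update h i y) ∂(volume.restrict (Icc 0 T)) ≤
        ENNReal.ofReal ((688 * (1 + A) ^ 3 + A) * T ^ 2 * Real.log T ^ 2) := by
    intro h
    have h1 := one_dim (G := fun t => R t h) (hRc h) (fun t => hR1 t h) hT hS hST hcA
    have h3 : ∀ y : ℝ, F (Function.update h i y) =
        ENNReal.ofReal (‖∫ t in (0:ℝ)..S, chi (1 / 2 + I * (t + ((y + c : ℝ) : ℂ))) *
          R t h‖ ^ 2) := by
      intro y
      change ENNReal.ofReal (‖IG S (gk a b (Function.update h i y)) π‖ ^ 2) = _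
      rw [hRI]
    simp only [h3]
    have hc' : Continuous fun y : ℝ => ‖∫ t in (0:ℝ)..S, chi (1 / 2 + I * (t + ((y + c : ℝ) : ℂ))) *
          R t h‖ ^ 2 := (cont_in (hRc h) S).comp (by fun_prop : Continuous fun y : ℝ => y + c)
    rw [← ofReal_integral_eq_lintegral_ofReal]
    · refine ENNReal.ofReal_le_ofReal ?_
      rw [integral_Icc_eq_integral_Ioc, ← intervalIntegral.integral_of_le hT0.le]
      exact h1
    · exact hc'.continuousOn.integrableOn_compact isCompact_Icc
    · exact Eventually.of_forall fun y => by positivity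
  change ∫⁻ h, F h ∂(Measure.pi fun _ => volume.restrict (Icc 0 T)) ≤ _
  rw [lintegral_eq_lmarginal_univ (fun _ => (0 : ℝ)), lmarginal_erase' F hFm (Finset.mem_univ i)]
  refine (lmarginal_mono
    (g := fun _ => ENNReal.ofReal ((688 * (1 + A) ^ 3 + A) * T ^ 2 * Real.log T ^ 2))
    (fun h => hin h) _).trans ?_
  unfold lmarginal
  rw [lintegral_const, Measure.pi_univ]
  have hm : (∏ j : {x // x ∈ Finset.univ.erase i}, (volume.restrict (Icc 0 T) : Measure ℝ) univ)
      = ENNReal.ofReal T ^ (n - 1) := by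
    rw [Measure.restrict_apply_univ, Real.volume_Icc, sub_zero, Finset.prod_const]
    congr 1
    rw [Finset.card_univ, Fintype.card_coe, Finset.card_erase_of_mem (Finset.mem_univ _),
      Finset.card_univ, Fintype.card_fin]
  rw [hm, ← ENNReal.ofReal_pow hT0.le, ← ENNReal.ofReal_mul (by positivity)]
  have hn : 1 ≤ n := by
    have := i.pos
    omega
  have e1 : T ^ (n - 1 : ℝ) = T ^ (n - 1 : ℕ) := by
    rw [← Real.rpow_natCast]
    congr 1
    push_cast [Nat.cast_sub hn]
    ring
  rw [e1]

end Pool.Agent.T2H54.CL
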