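import Pool.Agent.T2H54.CL.Stm
import Pool.Agent.T2H54.TP.TAB

/-!
Package TNQ of project CL (helper54), MP_fa2474_nt, written by helper55: the integral with the short
polynomials of all clusters.
-/

set_option autoImplicit false

namespace Pool.Agent.T2H54.CL

open Complex Filter Topology MeasureTheory Set
open Pool.Agent.TH612.CF Pool.Agent.TH612.GS Pool.Agent.T2H54.SB Pool.Agent.T2H54.TP
open Pool.Agent.Y969.GP (ht lam PS FR)

namespace PkgTNQ

noncomputable section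

/-- integration by parts -/
lemma ibp (f P : ℝ → ℂ) (S E K K' : ℝ) (hf : Continuous f) (hP : ∀ t, DifferentiableAt ℝ P t)
    (hP' : Continuous (deriv P)) (hS : 0 ≤ S) (hE : 0 ≤ E) (hK' : 0 ≤ K')
    (hF : ∀ t ∈ Icc 0 S, ‖∫ u in (0:ℝ)..t, f u‖ ≤ E) (hPK : ∀ t ∈ Icc 0 S, ‖P t‖ ≤ K)
    (hPK' : ∀ t ∈ Icc 0 S, ‖deriv P t‖ ≤ K' / (1 + t)) :
    ‖∫ t in (0:ℝ)..S, f t * P t‖ ≤ E * K + K' * E * Real.log (1 + S) := by
  have hPc : Continuous P := continuous_iff_continuousAt.mpr fun t => (hP t).continuousAt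
  have hFd : ∀ t : ℝ, HasDerivAt (fun t : ℝ => ∫ u in (0:ℝ)..t, f u) (f t) t := fun t =>
    (hf.integral_hasStrictDerivAt 0 t).hasDerivAt
  have h1 := intervalIntegral.integral_mul_deriv_eq_deriv_mul (a := 0) (b := S) (u := P)
    (v := fun t : ℝ => ∫ u in (0:ℝ)..t, f u) (u' := deriv P) (v' := f)
    (fun t _ => (hP t).hasDerivAt) (fun t _ => hFd t) (hP'.intervalIntegrable _ _)
    (hf.intervalIntegrable _ _)
  have h2 : ∫ t in (0:ℝ)..S, f t * P t = ∫ t in (0:ℝ)..S, P t * f t :=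
    intervalIntegral.integral_congr fun t _ => mul_comm _ _
  rw [h2, h1]
  simp only [intervalIntegral.integral_same, mul_zero, sub_zero]
  have hFc : Continuous fun t : ℝ => ∫ u in (0:ℝ)..t, f u :=
    continuous_iff_continuousAt.mpr fun t => (hFd t).continuousAt
  have h3 : ‖∫ t in (0:ℝ)..S, deriv P t * ∫ u in (0:ℝ)..t, f u‖ ≤
      ∫ t in (0:ℝ)..S, K' * E * (1 + t)⁻¹ := by
    refine intervalIntegral.norm_integral_le_of_norm_le hS ?_ ?_
    · refine ae_of_all _ fun t ht => ?_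
      have ht' : t ∈ Icc 0 S := ⟨ht.1.le, ht.2⟩
      have h4 := hPK' t ht'
      have h5 := hF t ht'
      have h6 : 0 ≤ K' / (1 + t) := by
        have := ht.1
        positivity
      rw [norm_mul]
      calc ‖deriv P t‖ * ‖∫ u in (0:ℝ)..t, f u‖ ≤ K' / (1 + t) * E :=
            mul_le_mul h4 h5 (norm_nonneg _) h6
        _ = K' * E * (1 + t)⁻¹ := by rw [div_eq_mul_inv]; ring
    · apply ContinuousOn.intervalIntegrable
      refine continuousOn_const.mul (ContinuousOn.inv₀ (by fun_prop) ?_)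
      intro t ht
      rw [uIcc_of_le hS] at ht
      have := ht.1
      positivity
  have h4 : ∫ t in (0:ℝ)..S, K' * E * (1 + t)⁻¹ = K' * E * Real.log (1 + S) := by
    rw [intervalIntegral.integral_const_mul]
    congr 1
    have h5 : ∀ t ∈ uIcc 0 S, HasDerivAt (fun t : ℝ => Real.log (1 + t)) (1 + t)⁻¹ t := by
      intro t ht
      rw [uIcc_of_le hS] at ht
      have h6 : (1 + t) ≠ 0 := by
        have := ht.1
        positivity
      have h7 := ((hasDerivAt_id t).const_add 1).log (by simpa using h6)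
      simpa using h7
    rw [intervalIntegral.integral_eq_sub_of_hasDerivAt h5]
    · simp
    · apply ContinuousOn.intervalIntegrable
      refine ContinuousOn.inv₀ (by fun_prop) ?_
      intro t ht
      rw [uIcc_of_le hS] at ht
      have := ht.1
      positivity
  have hSS : S ∈ Icc 0 S := ⟨hS, le_refl _⟩
  calc ‖P S * (∫ u in (0:ℝ)..S, f u) - ∫ t in (0:ℝ)..S, deriv P t * ∫ u in (0:ℝ)..t, f u‖
      ≤ ‖P S * (∫ u in (0:ℝ)..S, f u)‖ + ‖∫ t in (0:ℝ)..S, deriv P t * ∫ u in (0:ℝ)..t, f u‖ :=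
        norm_sub_le _ _
    _ ≤ E * K + K' * E * Real.log (1 + S) := by
        refine add_le_add ?_ (h4 ▸ h3)
        rw [norm_mul, mul_comm]
        exact mul_le_mul (hF S hSS) (hPK S hSS) (norm_nonneg _) hE

/-- the constants -/
def Z1 (a b : ℝ) : ℂ := riemannZeta (1 + I * ((a - b : ℝ) : ℂ))

lemma Z1_swap (a b : ℝ) : riemannZeta (1 - I * ((a - b : ℝ) : ℂ)) = Z1 b a := by
  unfold Z1
  congr 1
  push_cast
  ring

/-- one factor -/
def fac (a b : ℝ) (q : ℕ × ℕ) (X : ℂ) : ℂ :=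
  kap a b q.1 q.2 * Z1 a b + kap b a q.1 q.2 * Z1 b a * X

lemma Dp_eq (a b : ℝ) (N : ℕ) (t : ℝ) : Dp a b N t =
    ∑ q ∈ FR N, fac a b q (Xab a b t) * cexp (-(I * ((t * lam q : ℝ) : ℂ))) := by
  unfold Dp fac
  simp_rw [Z1_swap]
  rfl

variable {n : ℕ}

/-- the pairs, with the pair of the cluster `0` -/
def pq (ν : Fin n → ℕ × ℕ) : Fin (n + 1) → ℕ × ℕ :=
  Fin.cons (qm ν / Nat.gcd (ql ν) (qm ν), ql ν / Nat.gcd (ql ν) (qm ν)) ν

/-- the product over the clusters `≥ 1` -/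
def Pn (a b : Fin (n + 1) → ℝ) (h : Fin n → ℝ) (ν : Fin n → ℕ × ℕ) (t : ℝ) : ℂ :=
  ∏ j : Fin n, fac (a j.succ) (b j.succ) (ν j) (Xab (a j.succ) (b j.succ) (t + h j))

lemma FR_mem {N : ℕ} {p : ℕ × ℕ} (hp : p ∈ FR N) : 1 ≤ p.1 ∧ 1 ≤ p.2 ∧ p.1 * p.2 ≤ N := by
  unfold Pool.Agent.Y969.GP.FR Pool.Agent.Y969.GP.PS at hp
  rw [Finset.mem_filter, Finset.mem_filter, Finset.mem_product, Finset.mem_Icc, Finset.mem_Icc] at hp
  exact ⟨hp.1.1.1.1, hp.1.1.2.1, hp.1.2⟩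

lemma FR_card (N : ℕ) : (FR N).card ≤ N ^ 2 := by
  unfold Pool.Agent.Y969.GP.FR Pool.Agent.Y969.GP.PS
  refine (Finset.card_filter_le _ _).trans ((Finset.card_filter_le _ _).trans ?_)
  rw [Finset.card_product]
  simp [sq]

lemma tq_mem {N : ℕ} {ν : Fin n → ℕ × ℕ} (hν : ν ∈ tq n N) (j : Fin n) : ν j ∈ FR N :=
  Fintype.mem_piFinset.mp hν j

lemma ql_pos {N : ℕ} {ν : Fin n → ℕ × ℕ} (hν : ν ∈ tq n N) : 0 < ql ν :=
  Finset.prod_pos fun j _ => (FR_mem (tq_mem hν j)).1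

lemma qm_pos {N : ℕ} {ν : Fin n → ℕ × ℕ} (hν : ν ∈ tq n N) : 0 < qm ν :=
  Finset.prod_pos fun j _ => (FR_mem (tq_mem hν j)).2.1

lemma ql_mul_qm {N : ℕ} {ν : Fin n → ℕ × ℕ} (hν : ν ∈ tq n N) : qm ν * ql ν ≤ N ^ n := by
  unfold ql qm
  rw [← Finset.prod_mul_distrib]
  have := Finset.prod_le_pow_card Finset.univ (fun j : Fin n => (ν j).2 * (ν j).1) N
    fun j _ => by rw [mul_comm]; exact (FR_mem (tq_mem hν j)).2.2
  simpa using this

lemma sum_lam {N : ℕ} {ν : Fin n → ℕ × ℕ} (hν : ν ∈ tq n N) :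
    ∑ j, lam (ν j) = Real.log ((qm ν / Nat.gcd (ql ν) (qm ν) : ℕ) : ℝ) -
      Real.log ((ql ν / Nat.gcd (ql ν) (qm ν) : ℕ) : ℝ) := by
  have h1 := ql_pos hν
  have h2 := qm_pos hν
  have hg : 0 < Nat.gcd (ql ν) (qm ν) := Nat.gcd_pos_of_pos_left _ h1
  have hgr : (0 : ℝ) < Nat.gcd (ql ν) (qm ν) := by exact_mod_cast hg
  have e1 : ((ql ν / Nat.gcd (ql ν) (qm ν) : ℕ) : ℝ) = (ql ν : ℝ) / Nat.gcd (ql ν) (qm ν) :=
    Nat.cast_div (Nat.gcd_dvd_left _ _) hgr.ne'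
  have e2 : ((qm ν / Nat.gcd (ql ν) (qm ν) : ℕ) : ℝ) = (qm ν : ℝ) / Nat.gcd (ql ν) (qm ν) :=
    Nat.cast_div (Nat.gcd_dvd_right _ _) hgr.ne'
  have h1r : (0 : ℝ) < ql ν := by exact_mod_cast h1
  have h2r : (0 : ℝ) < qm ν := by exact_mod_cast h2
  rw [e1, e2, Real.log_div h2r.ne' hgr.ne', Real.log_div h1r.ne' hgr.ne']
  have e3 : Real.log (ql ν : ℝ) = ∑ j, Real.log ((ν j).1 : ℝ) := by
    unfold ql
    push_cast
    exact Real.log_prod fun j _ => by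
      have := (FR_mem (tq_mem hν j)).1
      exact_mod_cast (by omega : (ν j).1 ≠ 0)
  have e4 : Real.log (qm ν : ℝ) = ∑ j, Real.log ((ν j).2 : ℝ) := by
    unfold qm
    push_cast
    exact Real.log_prod fun j _ => by
      have := (FR_mem (tq_mem hν j)).2.1
      exact_mod_cast (by omega : (ν j).2 ≠ 0)
  rw [e3, e4]
  unfold Pool.Agent.Y969.GP.lam
  rw [Finset.sum_sub_distrib]
  ring

/-- the frequency -/
def fr (ν : Fin n → ℕ × ℕ) (t : ℝ) : ℂ :=
  cexp (I * ((t * (Real.log ((ql ν / Nat.gcd (ql ν) (qm ν) : ℕ) : ℝ) -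
      Real.log ((qm ν / Nat.gcd (ql ν) (qm ν) : ℕ) : ℝ)) : ℝ) : ℂ))

lemma expand (a b : Fin (n + 1) → ℝ) (h : Fin n → ℝ) (N : ℕ) (t : ℝ) :
    ∏ j : Fin n, Dp (a j.succ) (b j.succ) N (t + h j) =
      ∑ ν ∈ tq n N, chq ν h * (fr ν t * Pn a b h ν t) := by
  simp_rw [Dp_eq]
  rw [Finset.prod_univ_sum]
  refine Finset.sum_congr rfl fun ν hν => ?_
  rw [Finset.prod_mul_distrib]
  have h1 : ∏ j : Fin n, cexp (-(I * (((t + h j) * lam (ν j) : ℝ) : ℂ))) = chq ν h * fr ν t := by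
    unfold chq fr
    rw [← Complex.exp_sum, ← Complex.exp_sum, ← Complex.exp_add]
    congr 1
    have h2 := sum_lam hν
    have h3 : (Real.log ((ql ν / Nat.gcd (ql ν) (qm ν) : ℕ) : ℝ) -
      Real.log ((qm ν / Nat.gcd (ql ν) (qm ν) : ℕ) : ℝ)) = -∑ j, lam (ν j) := by
      rw [h2]; ring
    rw [h3]
    push_cast
    rw [Finset.sum_neg_distrib, Finset.sum_neg_distrib, ← Finset.mul_sum, ← Finset.mul_sum]
    simp_rw [add_mul]
    rw [Finset.sum_add_distrib, ← Finset.mul_sum]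
    ring
  rw [h1]
  unfold Pn
  ring

lemma hc_zero (h : Fin n → ℝ) : hc h 0 = 0 := rfl
lemma hc_succ (h : Fin n → ℝ) (j : Fin n) : hc h j.succ = h j := rfl

lemma prod_all (a b : Fin (n + 1) → ℝ) (h : Fin n → ℝ) (ν : Fin n → ℕ × ℕ) (t : ℝ) :
    ∏ j : Fin (n + 1), fac (a j) (b j) (pq ν j) (Xab (a j) (b j) (t + hc h j)) =
      fac (a 0) (b 0) (qm ν / Nat.gcd (ql ν) (qm ν), ql ν / Nat.gcd (ql ν) (qm ν))
        (Xab (a 0) (b 0) t) * Pn a b h ν t := by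
  rw [Fin.prod_univ_succ]
  unfold Pn
  rw [hc_zero, add_zero]
  rfl

lemma cq_eq (a b : Fin (n + 1) → ℝ) (ν : Fin n → ℕ × ℕ) :
    cq a b ν = ∏ j : Fin (n + 1), kap (a j) (b j) (pq ν j).1 (pq ν j).2 := by
  rw [Fin.prod_univ_succ]
  rfl

lemma main_terms (a b : Fin (n + 1) → ℝ) (h : Fin n → ℝ) (ν : Fin n → ℕ × ℕ) (t : ℝ) :
    ∑ J : Finset (Fin (n + 1)), zc (sw J a b) (sw J b a) * cq (sw J a b) (sw J b a) ν * XJ J a b h t =
      fac (a 0) (b 0) (qm ν / Nat.gcd (ql ν) (qm ν), ql ν / Nat.gcd (ql ν) (qm ν))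
        (Xab (a 0) (b 0) t) * Pn a b h ν t := by
  rw [← prod_all]
  unfold fac
  have h1 := Fintype.prod_add
    (fun j : Fin (n + 1) => kap (b j) (a j) (pq ν j).1 (pq ν j).2 * Z1 (b j) (a j) *
      Xab (a j) (b j) (t + hc h j))
    (fun j : Fin (n + 1) => kap (a j) (b j) (pq ν j).1 (pq ν j).2 * Z1 (a j) (b j))
  have h2 : ∏ j : Fin (n + 1), (kap (a j) (b j) (pq ν j).1 (pq ν j).2 * Z1 (a j) (b j) +
      kap (b j) (a j) (pq ν j).1 (pq ν j).2 * Z1 (b j) (a j) * Xab (a j) (b j) (t + hc h j)) =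
      ∏ j : Fin (n + 1), (kap (b j) (a j) (pq ν j).1 (pq ν j).2 * Z1 (b j) (a j) *
        Xab (a j) (b j) (t + hc h j) + kap (a j) (b j) (pq ν j).1 (pq ν j).2 * Z1 (a j) (b j)) :=
    Finset.prod_congr rfl fun j _ => add_comm _ _
  rw [h2, h1]
  refine Finset.sum_congr rfl fun J _ => ?_
  have h3 : zc (sw J a b) (sw J b a) * cq (sw J a b) (sw J b a) ν =
      ∏ j : Fin (n + 1), (kap (sw J a b j) (sw J b a j) (pq ν j).1 (pq ν j).2 *
        Z1 (sw J a b j) (sw J b a j)) := by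
    rw [cq_eq, Finset.prod_mul_distrib, mul_comm]
    rfl
  rw [h3, ← Finset.prod_mul_prod_compl J]
  have h4 : ∏ j ∈ J, (kap (sw J a b j) (sw J b a j) (pq ν j).1 (pq ν j).2 *
        Z1 (sw J a b j) (sw J b a j)) = ∏ j ∈ J, (kap (b j) (a j) (pq ν j).1 (pq ν j).2 * Z1 (b j) (a j)) :=
    Finset.prod_congr rfl fun j hj => by
      unfold sw
      rw [if_pos hj, if_pos hj]
  have h5 : ∏ j ∈ Jᶜ, (kap (sw J a b j) (sw J b a j) (pq ν j).1 (pq ν j).2 *
        Z1 (sw J a b j) (sw J b a j)) = ∏ j ∈ Jᶜ, (kap (a j) (b j) (pq ν j).1 (pq ν j).2 * Z1 (a j) (b j)) :=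
    Finset.prod_congr rfl fun j hj => by
      unfold sw
      rw [if_neg (Finset.mem_compl.mp hj), if_neg (Finset.mem_compl.mp hj)]
  rw [h4, h5]
  unfold XJ
  rw [Finset.prod_mul_distrib (s := J) (f := fun j => kap (b j) (a j) (pq ν j).1 (pq ν j).2 * Z1 (b j) (a j))]
  ring

/-- the bound of a factor -/
def Gj (a b : ℝ) : ℝ := 1 + ‖Z1 a b‖ + ‖Z1 b a‖

lemma Gj_ge (a b : ℝ) : 1 ≤ Gj a b := by
  unfold Gj
  have h1 := norm_nonneg (Z1 a b)
  have h2 := norm_nonneg (Z1 b a)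
  linarith

lemma fac_norm (a b t : ℝ) {q : ℕ × ℕ} (h1 : 1 ≤ q.1) (h2 : 1 ≤ q.2) : ‖fac a b q (Xab a b t)‖ ≤ Gj a b := by
  unfold fac Gj
  have k1 := PkgTAB.kap_norm a b h1 h2
  have k2 := PkgTAB.kap_norm b a h1 h2
  have k3 := PkgTAB.Xab_norm a b t
  calc ‖kap a b q.1 q.2 * Z1 a b + kap b a q.1 q.2 * Z1 b a * Xab a b t‖
      ≤ ‖kap a b q.1 q.2 * Z1 a b‖ + ‖kap b a q.1 q.2 * Z1 b a * Xab a b t‖ := norm_add_le _ _
    _ ≤ ‖Z1 a b‖ + ‖Z1 b a‖ := by
        rw [norm_mul, norm_mul, norm_mul, k3, mul_one]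
        exact add_le_add (mul_le_of_le_one_left (norm_nonneg _) k1)
          (mul_le_of_le_one_left (norm_nonneg _) k2)
    _ ≤ _ := by linarith

/-- the derivative of a factor -/
lemma fac_deriv (hXD : S_XD) (a b c : ℝ) (q : ℕ × ℕ) (t : ℝ) :
    HasDerivAt (fun t : ℝ => fac a b q (Xab a b (t + c)))
      (kap b a q.1 q.2 * Z1 b a * deriv (Xab a b) (t + c)) t := by
  have h1 : HasDerivAt (fun t : ℝ => Xab a b (t + c)) (deriv (Xab a b) (t + c)) t :=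
    ((hXD a b).1 (t + c)).hasDerivAt.comp_add_const t c
  unfold fac
  exact (h1.const_mul _).const_add _

/-- the derivative of the product -/
def dPn (a b : Fin (n + 1) → ℝ) (h : Fin n → ℝ) (ν : Fin n → ℕ × ℕ) (t : ℝ) : ℂ :=
  ∑ i : Fin n, (∏ j ∈ Finset.univ.erase i,
    fac (a j.succ) (b j.succ) (ν j) (Xab (a j.succ) (b j.succ) (t + h j))) •
      (kap (b i.succ) (a i.succ) (ν i).1 (ν i).2 * Z1 (b i.succ) (a i.succ) *
        deriv (Xab (a i.succ) (b i.succ)) (t + h i))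

lemma Pn_deriv (hXD : S_XD) (a b : Fin (n + 1) → ℝ) (h : Fin n → ℝ) (ν : Fin n → ℕ × ℕ) (t : ℝ) :
    HasDerivAt (Pn a b h ν) (dPn a b h ν t) t := by
  unfold Pn dPn
  exact HasDerivAt.fun_finsetProd (u := Finset.univ)
    (f := fun (j : Fin n) (t : ℝ) => fac (a j.succ) (b j.succ) (ν j) (Xab (a j.succ) (b j.succ) (t + h j)))
    (f' := fun i : Fin n => (kap (b i.succ) (a i.succ) (ν i).1 (ν i).2 * Z1 (b i.succ) (a i.succ) *
        deriv (Xab (a i.succ) (b i.succ)) (t + h i)))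
    fun i _ => fac_deriv hXD _ _ _ _ t

lemma fac_cont (hXD : S_XD) (a b c : ℝ) (q : ℕ × ℕ) : Continuous fun t : ℝ => fac a b q (Xab a b (t + c)) :=
  continuous_iff_continuousAt.mpr fun t => (fac_deriv hXD a b c q t).continuousAt

lemma dPn_cont (hXD : S_XD) (a b : Fin (n + 1) → ℝ) (h : Fin n → ℝ) (ν : Fin n → ℕ × ℕ) :
    Continuous (dPn a b h ν) := by
  unfold dPn
  refine continuous_finsetSum _ fun i _ => ?_
  refine Continuous.smul (continuous_finsetProd _ fun j _ => fac_cont hXD _ _ _ _) ?_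
  refine continuous_const.mul ?_
  exact (hXD (a i.succ) (b i.succ)).2.1.comp (by fun_prop)

/-- the bounds of the product and of its derivative -/
def GG' (a b : Fin (n + 1) → ℝ) : ℝ := ∏ j : Fin n, Gj (a j.succ) (b j.succ)

lemma Pn_norm (a b : Fin (n + 1) → ℝ) (h : Fin n → ℝ) {N : ℕ} {ν : Fin n → ℕ × ℕ} (hν : ν ∈ tq n N)
    (t : ℝ) : ‖Pn a b h ν t‖ ≤ GG' a b := by
  unfold Pn GG'
  rw [norm_prod]
  exact Finset.prod_le_prod (fun j _ => norm_nonneg _) fun j _ =>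
    fac_norm _ _ _ (FR_mem (tq_mem hν j)).1 (FR_mem (tq_mem hν j)).2.1

lemma dPn_norm (a b : Fin (n + 1) → ℝ) (h : Fin n → ℝ) (hh : ∀ i, 0 ≤ h i) {N : ℕ}
    {ν : Fin n → ℕ × ℕ} (hν : ν ∈ tq n N) (c : Fin n → ℝ) (hc0 : ∀ i, 0 ≤ c i)
    (hc : ∀ (i : Fin n) (t : ℝ), 0 ≤ t → ‖deriv (Xab (a i.succ) (b i.succ)) t‖ ≤ c i / (1 + t))
    (t : ℝ) (ht : 0 ≤ t) :
    ‖dPn a b h ν t‖ ≤ (GG' a b * ∑ i : Fin n, ‖Z1 (b i.succ) (a i.succ)‖ * c i) / (1 + t) := by
  unfold dPn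
  rw [Finset.mul_sum, Finset.sum_div]
  refine norm_sum_le_of_le _ fun i _ => ?_
  rw [smul_eq_mul, norm_mul, norm_prod]
  have h1 : ∏ j ∈ Finset.univ.erase i,
      ‖fac (a j.succ) (b j.succ) (ν j) (Xab (a j.succ) (b j.succ) (t + h j))‖ ≤ GG' a b := by
    calc ∏ j ∈ Finset.univ.erase i,
        ‖fac (a j.succ) (b j.succ) (ν j) (Xab (a j.succ) (b j.succ) (t + h j))‖
        ≤ ∏ j ∈ Finset.univ.erase i, Gj (a j.succ) (b j.succ) :=
          Finset.prod_le_prod (fun j _ => norm_nonneg _) fun j _ =>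
            fac_norm _ _ _ (FR_mem (tq_mem hν j)).1 (FR_mem (tq_mem hν j)).2.1
      _ ≤ GG' a b := by
          unfold GG'
          refine Finset.prod_le_prod_of_subset_of_one_le (Finset.erase_subset _ _)
            (fun j _ => le_trans zero_le_one (Gj_ge _ _)) fun j _ _ => Gj_ge _ _
  have h2 : ‖kap (b i.succ) (a i.succ) (ν i).1 (ν i).2 * Z1 (b i.succ) (a i.succ) *
        deriv (Xab (a i.succ) (b i.succ)) (t + h i)‖ ≤ ‖Z1 (b i.succ) (a i.succ)‖ * (c i / (1 + t)) := by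
    rw [norm_mul, norm_mul]
    have h3 := hc i (t + h i) (add_nonneg ht (hh i))
    have h4 : c i / (1 + (t + h i)) ≤ c i / (1 + t) :=
      div_le_div_of_nonneg_left (hc0 i) (by linarith) (by linarith [hh i])
    exact mul_le_mul (mul_le_of_le_one_left (norm_nonneg _)
      (PkgTAB.kap_norm _ _ (FR_mem (tq_mem hν i)).1 (FR_mem (tq_mem hν i)).2.1)) (h3.trans h4)
      (norm_nonneg _) (norm_nonneg _)
  have h5 : 0 ≤ GG' a b := Finset.prod_nonneg fun j _ => le_trans zero_le_one (Gj_ge _ _)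
  calc _ ≤ GG' a b * (‖Z1 (b i.succ) (a i.succ)‖ * (c i / (1 + t))) :=
        mul_le_mul h1 h2 (norm_nonneg _) h5
    _ = _ := by ring

lemma chq_norm (ν : Fin n → ℕ × ℕ) (h : Fin n → ℝ) : ‖chq ν h‖ = 1 := by
  unfold chq
  rw [norm_prod]
  refine Finset.prod_eq_one fun j _ => ?_
  rw [show -(I * ((h j * lam (ν j) : ℝ) : ℂ)) = ((-(h j * lam (ν j)) : ℝ) : ℂ) * I by push_cast; ring,
    Complex.norm_exp_ofReal_mul_I]

lemma num {T S : ℝ} (hT : 2 ≤ T) (hS0 : 0 ≤ S) (hST : S ≤ T) :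
    Real.log (1 + S) ≤ 60 * T ^ (1 / 30 : ℝ) := by
  have h1 : Real.log (1 + S) ≤ Real.log (2 * T) :=
    Real.log_le_log (by linarith) (by linarith)
  have h2 : Real.log (2 * T) ≤ (2 * T) ^ (1 / 30 : ℝ) / (1 / 30 : ℝ) :=
    Real.log_le_rpow_div (by linarith) (by norm_num)
  have h3 : (2 * T) ^ (1 / 30 : ℝ) = (2 : ℝ) ^ (1 / 30 : ℝ) * T ^ (1 / 30 : ℝ) :=
    Real.mul_rpow (by norm_num) (by linarith)
  have h4 : (2 : ℝ) ^ (1 / 30 : ℝ) ≤ 2 := by
    calc (2 : ℝ) ^ (1 / 30 : ℝ) ≤ (2 : ℝ) ^ (1 : ℝ) :=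
          Real.rpow_le_rpow_of_exponent_le (by norm_num) (by norm_num)
      _ = 2 := Real.rpow_one 2
  have h5 : 0 ≤ T ^ (1 / 30 : ℝ) := Real.rpow_nonneg (by linarith) _
  have h6 : (2 : ℝ) ^ (1 / 30 : ℝ) * T ^ (1 / 30 : ℝ) ≤ 2 * T ^ (1 / 30 : ℝ) :=
    mul_le_mul_of_nonneg_right h4 h5
  calc Real.log (1 + S) ≤ (2 * T) ^ (1 / 30 : ℝ) / (1 / 30 : ℝ) := h1.trans h2
    _ = 30 * ((2 : ℝ) ^ (1 / 30 : ℝ) * T ^ (1 / 30 : ℝ)) := by rw [h3]; ring
    _ ≤ 30 * (2 * T ^ (1 / 30 : ℝ)) := by linarith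
    _ = _ := by ring

end

end PkgTNQ

open PkgTNQ in
theorem t_TNQ (hTAB : S_TAB) (hXD : S_XD) : S_TNQ := by
  classical
  intro n a b hab
  obtain ⟨C, T₀, hC, hT₀, hT⟩ := hTAB (a 0) (b 0) (hab 0)
  choose c hc0 hc using fun j : Fin n => (hXD (a j.succ) (b j.succ)).2.2
  set G : ℝ := GG' a b with hG
  set K' : ℝ := G * ∑ i : Fin n, ‖Z1 (b i.succ) (a i.succ)‖ * c i with hK'
  have hG1 : 0 ≤ G := Finset.prod_nonneg fun j _ => le_trans zero_le_one (Gj_ge _ _)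
  have hK0 : 0 ≤ K' := mul_nonneg hG1 (Finset.sum_nonneg fun i _ => mul_nonneg (norm_nonneg _) (hc0 i).le)
  refine ⟨C * (G + 60 * K') + 1, T₀, by positivity, hT₀, ?_⟩
  intro T S N h hT1 hS0 hST hN hNT hh
  have hT0 : (0 : ℝ) < T := by linarith
  have hT2 : (2 : ℝ) ≤ T := by linarith
  -- the integrands
  obtain ⟨f, hf⟩ : ∃ f : (Fin n → ℕ × ℕ) → ℝ → ℂ, f = fun ν t => Bab (a 0) (b 0) t * fr ν t -
      fac (a 0) (b 0) (qm ν / Nat.gcd (ql ν) (qm ν), ql ν / Nat.gcd (ql ν) (qm ν))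
        (Xab (a 0) (b 0) t) := ⟨_, rfl⟩
  have hfr : ∀ ν : Fin n → ℕ × ℕ, Continuous (fr ν) := fun ν => by
    unfold fr
    fun_prop
  have hBc := PkgTAB.Bab_cont (a 0) (b 0)
  have hXc := PkgTAB.Xab_cont (a 0) (b 0)
  have hfac : ∀ q : ℕ × ℕ, Continuous fun t : ℝ => fac (a 0) (b 0) q (Xab (a 0) (b 0) t) := fun q => by
    unfold fac
    fun_prop
  have hPc : ∀ ν : Fin n → ℕ × ℕ, Continuous (Pn a b h ν) := fun ν =>
    continuous_iff_continuousAt.mpr fun t => (Pn_deriv hXD a b h ν t).continuousAt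
  have hXJc : ∀ J : Finset (Fin (n + 1)), Continuous (XJ J a b h) := fun J => by
    unfold XJ
    refine continuous_finsetProd _ fun j _ => ?_
    exact (PkgTAB.Xab_cont (a j) (b j)).comp (by fun_prop)
  have e1 : (∫ t in (0:ℝ)..S, Bab (a 0) (b 0) t * ∏ j : Fin n, Dp (a j.succ) (b j.succ) N (t + h j)) =
      ∑ ν ∈ tq n N, chq ν h * ∫ t in (0:ℝ)..S, (Bab (a 0) (b 0) t * fr ν t) * Pn a b h ν t := by
    have e0 : ∀ t : ℝ, Bab (a 0) (b 0) t * (∏ j : Fin n, Dp (a j.succ) (b j.succ) N (t + h j)) =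
        ∑ ν ∈ tq n N, chq ν h * ((Bab (a 0) (b 0) t * fr ν t) * Pn a b h ν t) := by
      intro t
      rw [expand, Finset.mul_sum]
      refine Finset.sum_congr rfl fun ν _ => ?_
      ring
    simp_rw [e0]
    rw [intervalIntegral.integral_finsetSum]
    · refine Finset.sum_congr rfl fun ν _ => ?_
      exact intervalIntegral.integral_const_mul _ _
    · intro ν _
      apply Continuous.intervalIntegrable
      exact continuous_const.mul ((hBc.mul (hfr ν)).mul (hPc ν))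
  have e2 : ∑ J : Finset (Fin (n + 1)), zc (sw J a b) (sw J b a) * RQ (sw J a b) (sw J b a) N h *
      (∫ t in (0:ℝ)..S, XJ J a b h t) =
      ∑ ν ∈ tq n N, chq ν h * ∫ t in (0:ℝ)..S,
        fac (a 0) (b 0) (qm ν / Nat.gcd (ql ν) (qm ν), ql ν / Nat.gcd (ql ν) (qm ν))
        (Xab (a 0) (b 0) t) * Pn a b h ν t := by
    have e3 : ∀ ν : Fin n → ℕ × ℕ, (∫ t in (0:ℝ)..S,
        fac (a 0) (b 0) (qm ν / Nat.gcd (ql ν) (qm ν), ql ν / Nat.gcd (ql ν) (qm ν))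
        (Xab (a 0) (b 0) t) * Pn a b h ν t) =
        ∑ J : Finset (Fin (n + 1)), zc (sw J a b) (sw J b a) * cq (sw J a b) (sw J b a) ν *
          ∫ t in (0:ℝ)..S, XJ J a b h t := by
      intro ν
      simp_rw [← main_terms]
      rw [intervalIntegral.integral_finsetSum]
      · refine Finset.sum_congr rfl fun J _ => ?_
        exact intervalIntegral.integral_const_mul _ _
      · intro J _
        exact (continuous_const.mul (hXJc J)).intervalIntegrable _ _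
    simp_rw [e3]
    simp_rw [Finset.mul_sum]
    rw [Finset.sum_comm]
    refine Finset.sum_congr rfl fun J _ => ?_
    unfold RQ
    rw [Finset.mul_sum, Finset.sum_mul]
    refine Finset.sum_congr rfl fun ν _ => ?_
    ring
  rw [e1, e2, ← Finset.sum_sub_distrib]
  have hterm : ∀ ν ∈ tq n N, ‖chq ν h * (∫ t in (0:ℝ)..S, (Bab (a 0) (b 0) t * fr ν t) * Pn a b h ν t) -
      chq ν h * ∫ t in (0:ℝ)..S,
        fac (a 0) (b 0) (qm ν / Nat.gcd (ql ν) (qm ν), ql ν / Nat.gcd (ql ν) (qm ν))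
        (Xab (a 0) (b 0) t) * Pn a b h ν t‖ ≤ (C * (G + 60 * K')) * T ^ (5 / 6 : ℝ) := by
    intro ν hν
    have h1 := ql_pos hν
    have h2 := qm_pos hν
    have hg : 0 < Nat.gcd (ql ν) (qm ν) := Nat.gcd_pos_of_pos_left _ h1
    have hl1 : 1 ≤ qm ν / Nat.gcd (ql ν) (qm ν) := Nat.div_pos (Nat.le_of_dvd h2 (Nat.gcd_dvd_right _ _)) hg
    have hm1 : 1 ≤ ql ν / Nat.gcd (ql ν) (qm ν) := Nat.div_pos (Nat.le_of_dvd h1 (Nat.gcd_dvd_left _ _)) hg
    have hcop : Nat.Coprime (qm ν / Nat.gcd (ql ν) (qm ν)) (ql ν / Nat.gcd (ql ν) (qm ν)) :=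
      (Nat.coprime_div_gcd_div_gcd hg).symm
    have hle : ((qm ν / Nat.gcd (ql ν) (qm ν) : ℕ) : ℝ) * (ql ν / Nat.gcd (ql ν) (qm ν) : ℕ) ≤
        T ^ (1 / 8 : ℝ) := by
      refine le_trans ?_ hNT
      have h3 : (qm ν / Nat.gcd (ql ν) (qm ν)) * (ql ν / Nat.gcd (ql ν) (qm ν)) ≤ N ^ (2 * n) := by
        calc (qm ν / Nat.gcd (ql ν) (qm ν)) * (ql ν / Nat.gcd (ql ν) (qm ν)) ≤ qm ν * ql ν :=
              Nat.mul_le_mul (Nat.div_le_self _ _) (Nat.div_le_self _ _)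
          _ ≤ N ^ n := ql_mul_qm hν
          _ ≤ N ^ (2 * n) := Nat.pow_le_pow_right hN (by omega)
      exact_mod_cast h3
    rw [← mul_sub, norm_mul, chq_norm, one_mul, ← intervalIntegral.integral_sub]
    · have e4 : (∫ t in (0:ℝ)..S, ((Bab (a 0) (b 0) t * fr ν t) * Pn a b h ν t -
          fac (a 0) (b 0) (qm ν / Nat.gcd (ql ν) (qm ν), ql ν / Nat.gcd (ql ν) (qm ν))
            (Xab (a 0) (b 0) t) * Pn a b h ν t)) = ∫ t in (0:ℝ)..S, f ν t * Pn a b h ν t := by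
        refine intervalIntegral.integral_congr fun t _ => ?_
        simp only [hf]
        ring
      rw [e4]
      have hfc : Continuous (f ν) := by
        rw [hf]
        exact (hBc.mul (hfr ν)).sub (hfac _)
      have hd : deriv (Pn a b h ν) = dPn a b h ν := funext fun t => (Pn_deriv hXD a b h ν t).deriv
      have hmain := ibp (f ν) (Pn a b h ν) S (C * T ^ (4 / 5 : ℝ)) G K' hfc
        (fun t => (Pn_deriv hXD a b h ν t).differentiableAt) (by rw [hd]; exact dPn_cont hXD a b h ν)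
        hS0 (by positivity) hK0 ?_ (fun t _ => Pn_norm a b h hν t) ?_
      · refine hmain.trans ?_
        have h6 := num hT2 hS0 hST
        have h7 : T ^ (4 / 5 : ℝ) * T ^ (1 / 30 : ℝ) = T ^ (5 / 6 : ℝ) := by
          rw [← Real.rpow_add hT0]; norm_num
        have h8 : T ^ (4 / 5 : ℝ) ≤ T ^ (5 / 6 : ℝ) :=
          Real.rpow_le_rpow_of_exponent_le (by linarith) (by norm_num)
        have h9 : 0 ≤ T ^ (4 / 5 : ℝ) := Real.rpow_nonneg hT0.le _
        calc C * T ^ (4 / 5 : ℝ) * G + K' * (C * T ^ (4 / 5 : ℝ)) * Real.log (1 + S)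
            ≤ C * T ^ (4 / 5 : ℝ) * G + K' * (C * T ^ (4 / 5 : ℝ)) * (60 * T ^ (1 / 30 : ℝ)) := by
              gcongr
          _ = C * G * T ^ (4 / 5 : ℝ) + 60 * (C * K') * (T ^ (4 / 5 : ℝ) * T ^ (1 / 30 : ℝ)) := by ring
          _ ≤ C * G * T ^ (5 / 6 : ℝ) + 60 * (C * K') * T ^ (5 / 6 : ℝ) := by
              rw [h7]
              gcongr
          _ = _ := by ring
      · intro t ht
        have h10 := hT T t _ _ hT1 ht.1 (ht.2.trans hST) hl1 hm1 hcop hle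
        have e5 : (∫ u in (0:ℝ)..t, f ν u) = (∫ u in (0:ℝ)..t, Bab (a 0) (b 0) u * fr ν u) -
            (kap (a 0) (b 0) (qm ν / Nat.gcd (ql ν) (qm ν)) (ql ν / Nat.gcd (ql ν) (qm ν)) *
              riemannZeta (1 + I * ((a 0 - b 0 : ℝ) : ℂ)) * (t : ℂ) +
            kap (b 0) (a 0) (qm ν / Nat.gcd (ql ν) (qm ν)) (ql ν / Nat.gcd (ql ν) (qm ν)) *
              riemannZeta (1 - I * ((a 0 - b 0 : ℝ) : ℂ)) * ∫ u in (0:ℝ)..t, Xab (a 0) (b 0) u) := by
          simp only [hf]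
          have i1 : IntervalIntegrable (fun u : ℝ => Bab (a 0) (b 0) u * fr ν u) volume 0 t :=
            (hBc.mul (hfr ν)).intervalIntegrable _ _
          have i2 : IntervalIntegrable (fun u : ℝ => fac (a 0) (b 0)
              (qm ν / Nat.gcd (ql ν) (qm ν), ql ν / Nat.gcd (ql ν) (qm ν)) (Xab (a 0) (b 0) u))
              volume 0 t := (hfac _).intervalIntegrable _ _
          have i3 : ∀ c : ℂ, IntervalIntegrable (fun _ : ℝ => c) volume 0 t := fun c =>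
            continuous_const.intervalIntegrable _ _
          have i4 : ∀ c : ℂ, IntervalIntegrable (fun u : ℝ => c * Xab (a 0) (b 0) u) volume 0 t := fun c =>
            (continuous_const.mul hXc).intervalIntegrable _ _
          rw [intervalIntegral.integral_sub i1 i2]
          congr 1
          unfold fac
          rw [intervalIntegral.integral_add (i3 _) (i4 _), intervalIntegral.integral_const,
            intervalIntegral.integral_const_mul, Z1_swap]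
          unfold Z1
          simp only [sub_zero, Complex.real_smul]
          ring
        rw [e5]
        exact h10
      · intro t ht
        rw [hd]
        exact dPn_norm a b h hh hν c (fun i => (hc0 i).le) hc t ht.1
    · exact (((hBc.mul (hfr ν)).mul (hPc ν))).intervalIntegrable _ _
    · exact ((hfac _).mul (hPc ν)).intervalIntegrable _ _
  refine (norm_sum_le_of_le _ hterm).trans ?_
  rw [Finset.sum_const, nsmul_eq_mul]
  have hcard : (tq n N).card ≤ N ^ (2 * n) := by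
    unfold tq
    rw [Fintype.card_piFinset]
    simp only [Finset.prod_const, Finset.card_univ, Fintype.card_fin]
    rw [pow_mul]
    exact Nat.pow_le_pow_left (FR_card N) n
  have hcard' : ((tq n N).card : ℝ) ≤ (N : ℝ) ^ (2 * n) := by exact_mod_cast hcard
  have h12 : 0 ≤ T ^ (5 / 6 : ℝ) := Real.rpow_nonneg hT0.le _
  have h13 : 0 ≤ C * (G + 60 * K') := by positivity
  calc ((tq n N).card : ℝ) * (C * (G + 60 * K') * T ^ (5 / 6 : ℝ))
      ≤ (N : ℝ) ^ (2 * n) * (C * (G + 60 * K') * T ^ (5 / 6 : ℝ)) :=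
        mul_le_mul_of_nonneg_right hcard' (mul_nonneg h13 h12)
    _ ≤ (N : ℝ) ^ (2 * n) * ((C * (G + 60 * K') + 1) * T ^ (5 / 6 : ℝ)) := by
        refine mul_le_mul_of_nonneg_left ?_ (by positivity)
        exact mul_le_mul_of_nonneg_right (by linarith) h12
    _ = _ := by ring

end Pool.Agent.T2H54.CL
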