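import Pool.Agent.T2H54.CL.Stm
import Pool.Agent.T2H54.TP.AsmD
import Pool.Agent.Y379.GP.Sp

/-! Package VBQ of helper54 (MP_fa2474_nt, project CL), written by helper46: mean squares. -/

set_option autoImplicit false

namespace Pool.Agent.T2H54.CL

open Complex Filter Topology MeasureTheory Set
open Pool.Agent.TH612.CF Pool.Agent.TH612.GS Pool.Agent.T2H54.SB Pool.Agent.T2H54.TP
open Pool.Agent.Y969.GP (ht lam PS FR)

namespace VBQh

noncomputable section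

lemma expint (v T Θ : ℝ) (hΘ : Θ ≠ 0) :
    ‖∫ y in (0:ℝ)..T, cexp (-(I * (((v + y) * Θ : ℝ) : ℂ)))‖ ≤ 2 / |Θ| := by
  have hc : (-(I * (Θ : ℂ))) ≠ 0 := neg_ne_zero.2 (mul_ne_zero I_ne_zero (by exact_mod_cast hΘ))
  have e1 : (fun y : ℝ => cexp (-(I * (((v + y) * Θ : ℝ) : ℂ)))) =
      fun y : ℝ => cexp (-(I * ((v * Θ : ℝ) : ℂ))) * cexp (-(I * (Θ : ℂ)) * (y : ℂ)) := by
    funext y
    rw [← Complex.exp_add]
    congr 1
    push_cast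
    ring
  rw [e1, intervalIntegral.integral_const_mul, integral_exp_mul_complex hc]
  have n1 : ∀ r : ℝ, ‖cexp (-(I * (r : ℂ)))‖ = 1 := by
    intro r
    rw [Complex.norm_exp]
    simp
  have n2 : ∀ y : ℝ, ‖cexp (-(I * (Θ : ℂ)) * (y : ℂ))‖ = 1 := by
    intro y
    rw [Complex.norm_exp]
    simp
  rw [norm_mul, n1, one_mul, norm_div, norm_neg, norm_mul, norm_I, one_mul, Complex.norm_real,
    Real.norm_eq_abs]
  refine div_le_div_of_nonneg_right ?_ (abs_nonneg _)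
  refine (norm_sub_le _ _).trans ?_
  rw [n2, n2]
  norm_num

lemma mv {ι : Type} (s : Finset ι) (c : ι → ℂ) (lm : ι → ℝ) (δ v T : ℝ) (hδ : 0 < δ)
    (hT : 0 ≤ T) (hs : ∀ p ∈ s, ∀ q ∈ s, p ≠ q → δ ≤ |lm p - lm q|) :
    ∫ y in (0:ℝ)..T, ‖∑ q ∈ s, c q * cexp (-(I * (((v + y) * lm q : ℝ) : ℂ)))‖ ^ 2 ≤
      T * ∑ q ∈ s, ‖c q‖ ^ 2 + 2 / δ * (∑ q ∈ s, ‖c q‖) ^ 2 := by
  classical
  have key : ((∫ y in (0:ℝ)..T, ‖∑ q ∈ s, c q * cexp (-(I * (((v + y) * lm q : ℝ) : ℂ)))‖ ^ 2 : ℝ) : ℂ) =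
      ∑ p ∈ s, ∑ q ∈ s, c p * (starRingEnd ℂ) (c q) *
        ∫ y in (0:ℝ)..T, cexp (-(I * (((v + y) * (lm p - lm q) : ℝ) : ℂ))) := by
    rw [← intervalIntegral.integral_ofReal]
    have e1 : ∀ y : ℝ, ((‖∑ q ∈ s, c q * cexp (-(I * (((v + y) * lm q : ℝ) : ℂ)))‖ ^ 2 : ℝ) : ℂ) =
        ∑ p ∈ s, ∑ q ∈ s, c p * (starRingEnd ℂ) (c q) *
          cexp (-(I * (((v + y) * (lm p - lm q) : ℝ) : ℂ))) := by
      intro y
      rw [Complex.ofReal_pow, ← Complex.mul_conj', map_sum, Finset.sum_mul_sum]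
      refine Finset.sum_congr rfl fun p _ => Finset.sum_congr rfl fun q _ => ?_
      rw [map_mul, ← Complex.exp_conj, map_neg, map_mul, Complex.conj_I, Complex.conj_ofReal]
      have e2 : cexp (-(I * (((v + y) * (lm p - lm q) : ℝ) : ℂ))) =
          cexp (-(I * (((v + y) * lm p : ℝ) : ℂ))) * cexp (-(-I * (((v + y) * lm q : ℝ) : ℂ))) := by
        rw [← Complex.exp_add]
        congr 1
        push_cast
        ring
      rw [e2]
      ring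
    rw [intervalIntegral.integral_congr (g := fun y : ℝ => ∑ p ∈ s, ∑ q ∈ s, c p * (starRingEnd ℂ) (c q) *
          cexp (-(I * (((v + y) * (lm p - lm q) : ℝ) : ℂ)))) (fun y _ => e1 y)]
    have hc : ∀ p q : ι, Continuous fun y : ℝ => c p * (starRingEnd ℂ) (c q) *
          cexp (-(I * (((v + y) * (lm p - lm q) : ℝ) : ℂ))) := by
      intro p q
      fun_prop
    rw [intervalIntegral.integral_finsetSum fun p _ =>
      (continuous_finsetSum s fun q _ => hc p q).intervalIntegrable _ _]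
    refine Finset.sum_congr rfl fun p _ => ?_
    rw [intervalIntegral.integral_finsetSum fun q _ => (hc p q).intervalIntegrable _ _]
    refine Finset.sum_congr rfl fun q _ => ?_
    rw [intervalIntegral.integral_const_mul]
  have h0 : 0 ≤ ∫ y in (0:ℝ)..T, ‖∑ q ∈ s, c q * cexp (-(I * (((v + y) * lm q : ℝ) : ℂ)))‖ ^ 2 :=
    intervalIntegral.integral_nonneg hT fun y _ => by positivity
  have h1 : (∫ y in (0:ℝ)..T, ‖∑ q ∈ s, c q * cexp (-(I * (((v + y) * lm q : ℝ) : ℂ)))‖ ^ 2) =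
      ‖((∫ y in (0:ℝ)..T, ‖∑ q ∈ s, c q * cexp (-(I * (((v + y) * lm q : ℝ) : ℂ)))‖ ^ 2 : ℝ) : ℂ)‖ := by
    rw [Complex.norm_real, Real.norm_eq_abs, abs_of_nonneg h0]
  rw [h1, key]
  have hterm : ∀ p ∈ s, ∀ q ∈ s, ‖c p * (starRingEnd ℂ) (c q) *
        ∫ y in (0:ℝ)..T, cexp (-(I * (((v + y) * (lm p - lm q) : ℝ) : ℂ)))‖ ≤
      (if p = q then T * ‖c p‖ ^ 2 else 0) + 2 / δ * (‖c p‖ * ‖c q‖) := by
    intro p hp q hq
    rw [norm_mul, norm_mul, Complex.norm_conj]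
    by_cases hpq : p = q
    · subst hpq
      rw [if_pos rfl]
      have e3 : ∫ y in (0:ℝ)..T, cexp (-(I * (((v + y) * (lm p - lm p) : ℝ) : ℂ))) = (T : ℂ) := by
        simp
      rw [e3, Complex.norm_real, Real.norm_eq_abs, abs_of_nonneg hT]
      have : 0 ≤ 2 / δ * (‖c p‖ * ‖c p‖) := by positivity
      nlinarith
    · rw [if_neg hpq, zero_add]
      have hd := hs p hp q hq hpq
      have hne : lm p - lm q ≠ 0 := by
        intro h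
        rw [h, abs_zero] at hd
        linarith
      have h2 := expint v T (lm p - lm q) hne
      have h3 : 2 / |lm p - lm q| ≤ 2 / δ := div_le_div_of_nonneg_left (by norm_num) hδ hd
      calc ‖c p‖ * ‖c q‖ * _ ≤ ‖c p‖ * ‖c q‖ * (2 / δ) :=
            mul_le_mul_of_nonneg_left (h2.trans h3) (by positivity)
        _ = _ := by ring
  refine (norm_sum_le _ _).trans ((Finset.sum_le_sum fun p hp => (norm_sum_le _ _).trans
    (Finset.sum_le_sum fun q hq => hterm p hp q hq)).trans (le_of_eq ?_))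
  simp only [Finset.sum_add_distrib]
  congr 1
  · rw [Finset.mul_sum]
    refine Finset.sum_congr rfl fun p hp => ?_
    rw [Finset.sum_ite_eq, if_pos hp]
  · rw [pow_two, Finset.sum_mul_sum, Finset.mul_sum]
    refine Finset.sum_congr rfl fun p hp => ?_
    rw [Finset.mul_sum]

lemma kap_norm (a b : ℝ) {l m : ℕ} (hl : 1 ≤ l) (hm : 1 ≤ m) :
    ‖kap a b l m‖ = ((l : ℝ) * m) ^ (-(1 / 2 : ℝ)) := by
  unfold kap
  rw [norm_mul, norm_mul, Complex.norm_natCast_cpow_of_pos (by omega),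
    Complex.norm_natCast_cpow_of_pos (by omega), Complex.norm_real, Real.norm_eq_abs,
    abs_of_nonneg (by positivity)]
  simp

lemma mem_FR' {X : ℕ} {p : ℕ × ℕ} (h : p ∈ FR X) : 1 ≤ p.1 ∧ 1 ≤ p.2 ∧ p ∈ Finset.Icc 1 X ×ˢ Finset.Icc 1 X := by
  unfold FR PS at h
  have h1 := (Finset.mem_filter.1 (Finset.mem_filter.1 h).1).1
  have h2 := Finset.mem_product.1 h1
  exact ⟨(Finset.mem_Icc.1 h2.1).1, (Finset.mem_Icc.1 h2.2).1, h1⟩

lemma FR_sub (X : ℕ) : FR X ⊆ Finset.Icc 1 X ×ˢ Finset.Icc 1 X := fun _ h => (mem_FR' h).2.2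

lemma sq_le (a b : ℝ) {q : ℕ × ℕ} (h1 : 1 ≤ q.1) (h2 : 1 ≤ q.2) :
    ‖kap a b q.1 q.2‖ ^ 2 = (q.1 : ℝ)⁻¹ * (q.2 : ℝ)⁻¹ := by
  rw [kap_norm a b h1 h2, ← Real.rpow_natCast, ← Real.rpow_mul (by positivity)]
  have : (-(1 / 2 : ℝ)) * ((2 : ℕ) : ℝ) = -1 := by norm_num
  rw [this, Real.rpow_neg_one, mul_inv]

lemma le_one (a b : ℝ) {q : ℕ × ℕ} (h1 : 1 ≤ q.1) (h2 : 1 ≤ q.2) : ‖kap a b q.1 q.2‖ ≤ 1 := by
  rw [kap_norm a b h1 h2]
  apply Real.rpow_le_one_of_one_le_of_nonpos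
  · have e1 : (1 : ℝ) ≤ q.1 := by exact_mod_cast h1
    have e2 : (1 : ℝ) ≤ q.2 := by exact_mod_cast h2
    nlinarith
  · norm_num

lemma sum_sq (a b : ℝ) (N : ℕ) (hN : 1 ≤ N) :
    ∑ q ∈ FR N, ‖kap a b q.1 q.2‖ ^ 2 ≤ (1 + Real.log N) ^ 2 := by
  have h1 : ∑ q ∈ FR N, ‖kap a b q.1 q.2‖ ^ 2 = ∑ q ∈ FR N, (q.1 : ℝ)⁻¹ * (q.2 : ℝ)⁻¹ :=
    Finset.sum_congr rfl fun q hq => sq_le a b (mem_FR' hq).1 (mem_FR' hq).2.1
  rw [h1]
  have h2 : ∑ q ∈ FR N, (q.1 : ℝ)⁻¹ * (q.2 : ℝ)⁻¹ ≤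
      ∑ q ∈ Finset.Icc 1 N ×ˢ Finset.Icc 1 N, (q.1 : ℝ)⁻¹ * (q.2 : ℝ)⁻¹ :=
    Finset.sum_le_sum_of_subset_of_nonneg (FR_sub N) fun _ _ _ => by positivity
  refine h2.trans ?_
  rw [Finset.sum_product]
  have h3 : ∑ x ∈ Finset.Icc 1 N, ∑ y ∈ Finset.Icc 1 N, ((x : ℝ)⁻¹ * (y : ℝ)⁻¹) =
      (∑ x ∈ Finset.Icc 1 N, (x : ℝ)⁻¹) ^ 2 := by
    rw [pow_two, Finset.sum_mul_sum]
  simp only
  rw [h3]
  have h := harmonic_le_one_add_log N
  rw [harmonic_eq_sum_Icc] at h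
  push_cast at h
  exact pow_le_pow_left₀ (Finset.sum_nonneg fun _ _ => by positivity) h 2

lemma sum_one (a b : ℝ) (N : ℕ) : ∑ q ∈ FR N, ‖kap a b q.1 q.2‖ ≤ (N : ℝ) ^ 2 := by
  have h1 : ∑ q ∈ FR N, ‖kap a b q.1 q.2‖ ≤ ∑ q ∈ FR N, (1 : ℝ) :=
    Finset.sum_le_sum fun q hq => le_one a b (mem_FR' hq).1 (mem_FR' hq).2.1
  refine h1.trans ?_
  rw [Finset.sum_const, nsmul_eq_mul, mul_one]
  have h2 := Finset.card_le_card (FR_sub N)
  rw [Finset.card_product, Nat.card_Icc, Nat.add_sub_cancel] at h2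
  have h3 : (((FR N).card : ℕ) : ℝ) ≤ ((N * N : ℕ) : ℝ) := by exact_mod_cast h2
  push_cast at h3
  rw [pow_two]
  exact h3

/-- the mean square of one of the two parts -/
lemma part (a b : ℝ) (N : ℕ) (hN : 1 ≤ N) (v T : ℝ) (hT : 0 ≤ T) :
    ∫ y in (0:ℝ)..T, ‖∑ q ∈ FR N, kap a b q.1 q.2 * cexp (-(I * (((v + y) * lam q : ℝ) : ℂ)))‖ ^ 2 ≤
      T * (1 + Real.log N) ^ 2 + 4 * (N : ℝ) ^ 5 := by
  have hN0 : (0 : ℝ) < N := by exact_mod_cast hN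
  have h := mv (FR N) (fun q => kap a b q.1 q.2) lam (1 / (2 * (N : ℝ))) v T (by positivity) hT
    (fun p hp q hq hpq => Pool.Agent.Y379.GP.t_SP.1 N p q hp hq hpq)
  refine h.trans ?_
  have h1 := mul_le_mul_of_nonneg_left (sum_sq a b N hN) hT
  have h2 : (∑ q ∈ FR N, ‖kap a b q.1 q.2‖) ^ 2 ≤ ((N : ℝ) ^ 2) ^ 2 :=
    pow_le_pow_left₀ (Finset.sum_nonneg fun _ _ => norm_nonneg _) (sum_one a b N) 2
  have h3 : 2 / (1 / (2 * (N : ℝ))) * (∑ q ∈ FR N, ‖kap a b q.1 q.2‖) ^ 2 ≤ 4 * (N : ℝ) ^ 5 := by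
    have e : 2 / (1 / (2 * (N : ℝ))) = 4 * N := by field_simp; ring
    rw [e]
    calc 4 * (N : ℝ) * (∑ q ∈ FR N, ‖kap a b q.1 q.2‖) ^ 2 ≤ 4 * (N : ℝ) * ((N : ℝ) ^ 2) ^ 2 :=
          mul_le_mul_of_nonneg_left h2 (by positivity)
      _ = _ := by ring
  linarith

end

end VBQh

open VBQh in
theorem t_VBQ (hQ4 : S_Q4) : S_VBQ := by
  intro a b ε _hab hε
  obtain ⟨e, he⟩ : ∃ e : ℝ, e = min ε 1 := ⟨_, rfl⟩
  have he0 : 0 < e := by rw [he]; exact lt_min hε one_pos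
  have he1 : e ≤ 1 := by rw [he]; exact min_le_right _ _
  have heε : e ≤ ε := by rw [he]; exact min_le_left _ _
  obtain ⟨C1, T1, hC1, hT1, h1⟩ := Q_bound hQ4 a b he0 he1
  obtain ⟨z1, hz1⟩ : ∃ z1 : ℂ, z1 = riemannZeta (1 + I * ((a - b : ℝ) : ℂ)) := ⟨_, rfl⟩
  obtain ⟨z2, hz2⟩ : ∃ z2 : ℂ, z2 = riemannZeta (1 - I * ((a - b : ℝ) : ℂ)) := ⟨_, rfl⟩
  obtain ⟨K, hK⟩ : ∃ K : ℝ, K = 2 * ‖z1‖ ^ 2 + 2 * ‖z2‖ ^ 2 := ⟨_, rfl⟩
  have hK0 : 0 ≤ K := by rw [hK]; positivity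
  refine ⟨4 * C1 + K * ((1 + 2 / ε) ^ 2 + 4), T1, by positivity, hT1, fun T v N hT hv hvT hN hNT => ?_⟩
  have hT2 : 2 ≤ T := hT1.trans hT
  have hT0 : 0 < T := by linarith
  have hT1' : 1 ≤ T := by linarith
  have hTε : 0 < T ^ (1 + ε) := by positivity
  constructor
  · have h2 := h1 (2 * T) (2 * T) (by linarith) (by linarith) le_rfl
    have h3 : ∫ y in (0:ℝ)..T, ‖Bab a b (v + y)‖ ^ 2 = ∫ t in v..(v + T), ‖Bab a b t‖ ^ 2 := by
      rw [intervalIntegral.integral_comp_add_left (fun t => ‖Bab a b t‖ ^ 2) v, add_zero]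
    rw [h3]
    have h4 : ∫ t in v..(v + T), ‖Bab a b t‖ ^ 2 ≤ ∫ t in (0:ℝ)..(2 * T), ‖Bab a b t‖ ^ 2 := by
      refine intervalIntegral.integral_mono_interval hv (by linarith) (by linarith)
        (Eventually.of_forall fun u => by positivity)
        (((Bab_cont a b).norm.pow 2).intervalIntegrable _ _)
    refine (h4.trans h2).trans ?_
    have h5 : (2 * T) ^ e ≤ 2 * T ^ e := by
      rw [Real.mul_rpow (by norm_num) hT0.le]
      refine mul_le_mul_of_nonneg_right ?_ (by positivity)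
      calc (2 : ℝ) ^ e ≤ 2 ^ (1 : ℝ) := Real.rpow_le_rpow_of_exponent_le (by norm_num) he1
        _ = 2 := by norm_num
    have h6 : T ^ e * T ≤ T ^ (1 + ε) := by
      calc T ^ e * T = T ^ (e + 1) := by rw [Real.rpow_add hT0, Real.rpow_one]
        _ ≤ T ^ (1 + ε) := Real.rpow_le_rpow_of_exponent_le hT1' (by linarith)
    calc C1 * (2 * T) ^ e * (2 * T) ≤ C1 * (2 * T ^ e) * (2 * T) := by gcongr
      _ = 4 * C1 * (T ^ e * T) := by ring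
      _ ≤ 4 * C1 * T ^ (1 + ε) := mul_le_mul_of_nonneg_left h6 (by positivity)
      _ ≤ _ := by
        refine mul_le_mul_of_nonneg_right ?_ hTε.le
        have : 0 ≤ K * ((1 + 2 / ε) ^ 2 + 4) := by positivity
        linarith
  · obtain ⟨S1, hS1⟩ : ∃ S1 : ℝ → ℂ, S1 = fun y : ℝ => ∑ q ∈ FR N, kap a b q.1 q.2 *
        cexp (-(I * (((v + y) * lam q : ℝ) : ℂ))) := ⟨_, rfl⟩
    obtain ⟨S2, hS2⟩ : ∃ S2 : ℝ → ℂ, S2 = fun y : ℝ => ∑ q ∈ FR N, kap b a q.1 q.2 *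
        cexp (-(I * (((v + y) * lam q : ℝ) : ℂ))) := ⟨_, rfl⟩
    have hD : ∀ y : ℝ, Dp a b N (v + y) = z1 * S1 y + z2 * Xab a b (v + y) * S2 y := by
      intro y
      unfold Dp
      rw [hS1, hS2, ← hz1, ← hz2]
      simp only
      rw [Finset.mul_sum, Finset.mul_sum, ← Finset.sum_add_distrib]
      refine Finset.sum_congr rfl fun q _ => ?_
      ring
    have hb : ∀ y : ℝ, ‖Dp a b N (v + y)‖ ^ 2 ≤ 2 * ‖z1‖ ^ 2 * ‖S1 y‖ ^ 2 + 2 * ‖z2‖ ^ 2 * ‖S2 y‖ ^ 2 := by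
      intro y
      rw [hD]
      have g1 := norm_add_le (z1 * S1 y) (z2 * Xab a b (v + y) * S2 y)
      rw [norm_mul, norm_mul, norm_mul, Xab_norm, mul_one] at g1
      have g2 := pow_le_pow_left₀ (norm_nonneg _) g1 2
      nlinarith [sq_nonneg (‖z1‖ * ‖S1 y‖ - ‖z2‖ * ‖S2 y‖)]
    have cS1 : Continuous S1 := by
      rw [hS1]
      exact continuous_finsetSum _ fun q _ => by fun_prop
    have cS2 : Continuous S2 := by
      rw [hS2]
      exact continuous_finsetSum _ fun q _ => by fun_prop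
    have cX : Continuous fun y : ℝ => Xab a b (v + y) := (Xab_cont a b).comp (by fun_prop)
    have cD : Continuous fun y : ℝ => ‖Dp a b N (v + y)‖ ^ 2 := by
      have : (fun y : ℝ => ‖Dp a b N (v + y)‖ ^ 2) =
          fun y => ‖z1 * S1 y + z2 * Xab a b (v + y) * S2 y‖ ^ 2 := by
        funext y
        rw [hD]
      rw [this]
      exact ((continuous_const.mul cS1).add ((continuous_const.mul cX).mul cS2)).norm.pow 2
    have c1 : Continuous fun y : ℝ => 2 * ‖z1‖ ^ 2 * ‖S1 y‖ ^ 2 := (cS1.norm.pow 2).const_mul _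
    have c2 : Continuous fun y : ℝ => 2 * ‖z2‖ ^ 2 * ‖S2 y‖ ^ 2 := (cS2.norm.pow 2).const_mul _
    have p1 := part a b N hN v T hT0.le
    have p2 := part b a N hN v T hT0.le
    have hN1 : (1 : ℝ) ≤ N := by exact_mod_cast hN
    have hNT' : (N : ℝ) ≤ T := hNT.trans (by
      calc T ^ (1 / 8 : ℝ) ≤ T ^ (1 : ℝ) := Real.rpow_le_rpow_of_exponent_le hT1' (by norm_num)
        _ = T := Real.rpow_one T)
    have hN5 : (N : ℝ) ^ 5 ≤ T := by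
      calc (N : ℝ) ^ 5 ≤ (T ^ (1 / 8 : ℝ)) ^ 5 := pow_le_pow_left₀ (by linarith) hNT 5
        _ = T ^ (5 / 8 : ℝ) := by
          rw [← Real.rpow_natCast, ← Real.rpow_mul hT0.le]
          norm_num
        _ ≤ T ^ (1 : ℝ) := Real.rpow_le_rpow_of_exponent_le hT1' (by norm_num)
        _ = T := Real.rpow_one T
    have hlog : 1 + Real.log N ≤ (1 + 2 / ε) * T ^ (ε / 2) := by
      have g1 : Real.log N ≤ Real.log T := Real.log_le_log (by linarith) hNT'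
      have g2 := Real.log_le_rpow_div hT0.le (show (0 : ℝ) < ε / 2 by positivity)
      have g3 : (1 : ℝ) ≤ T ^ (ε / 2) := Real.one_le_rpow hT1' (by positivity)
      have g4 : T ^ (ε / 2) / (ε / 2) = 2 / ε * T ^ (ε / 2) := by field_simp
      rw [g4] at g2
      linarith
    have hlog0 : 0 ≤ Real.log N := Real.log_nonneg hN1
    have hsq : (1 + Real.log N) ^ 2 ≤ (1 + 2 / ε) ^ 2 * T ^ ε := by
      calc (1 + Real.log N) ^ 2 ≤ ((1 + 2 / ε) * T ^ (ε / 2)) ^ 2 := pow_le_pow_left₀ (by linarith) hlog 2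
        _ = (1 + 2 / ε) ^ 2 * (T ^ (ε / 2)) ^ 2 := by ring
        _ = (1 + 2 / ε) ^ 2 * T ^ ε := by
          rw [← Real.rpow_natCast (T ^ (ε / 2)) 2, ← Real.rpow_mul hT0.le]
          congr 2
          push_cast
          ring
    have hTT : T * T ^ ε = T ^ (1 + ε) := by rw [Real.rpow_add hT0, Real.rpow_one]
    have hTle : T ≤ T ^ (1 + ε) := by
      calc T = T ^ (1 : ℝ) := (Real.rpow_one T).symm
        _ ≤ _ := Real.rpow_le_rpow_of_exponent_le hT1' (by linarith)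
    have hP : T * (1 + Real.log N) ^ 2 + 4 * (N : ℝ) ^ 5 ≤ ((1 + 2 / ε) ^ 2 + 4) * T ^ (1 + ε) := by
      have g1 := mul_le_mul_of_nonneg_left hsq hT0.le
      have g2 : T * ((1 + 2 / ε) ^ 2 * T ^ ε) = (1 + 2 / ε) ^ 2 * T ^ (1 + ε) := by
        rw [← hTT]; ring
      rw [g2] at g1
      linarith
    have q1 : ∫ y in (0:ℝ)..T, ‖S1 y‖ ^ 2 ≤ ((1 + 2 / ε) ^ 2 + 4) * T ^ (1 + ε) := by
      rw [hS1]; exact p1.trans hP
    have q2 : ∫ y in (0:ℝ)..T, ‖S2 y‖ ^ 2 ≤ ((1 + 2 / ε) ^ 2 + 4) * T ^ (1 + ε) := by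
      rw [hS2]; exact p2.trans hP
    calc ∫ y in (0:ℝ)..T, ‖Dp a b N (v + y)‖ ^ 2
        ≤ ∫ y in (0:ℝ)..T, (2 * ‖z1‖ ^ 2 * ‖S1 y‖ ^ 2 + 2 * ‖z2‖ ^ 2 * ‖S2 y‖ ^ 2) :=
          intervalIntegral.integral_mono_on hT0.le (cD.intervalIntegrable _ _)
            ((c1.add c2).intervalIntegrable _ _) fun y _ => hb y
      _ = 2 * ‖z1‖ ^ 2 * (∫ y in (0:ℝ)..T, ‖S1 y‖ ^ 2) + 2 * ‖z2‖ ^ 2 * ∫ y in (0:ℝ)..T, ‖S2 y‖ ^ 2 := by
          rw [intervalIntegral.integral_add (c1.intervalIntegrable _ _) (c2.intervalIntegrable _ _),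
            intervalIntegral.integral_const_mul, intervalIntegral.integral_const_mul]
      _ ≤ 2 * ‖z1‖ ^ 2 * (((1 + 2 / ε) ^ 2 + 4) * T ^ (1 + ε)) +
          2 * ‖z2‖ ^ 2 * (((1 + 2 / ε) ^ 2 + 4) * T ^ (1 + ε)) :=
          add_le_add (mul_le_mul_of_nonneg_left q1 (by positivity))
            (mul_le_mul_of_nonneg_left q2 (by positivity))
      _ = K * ((1 + 2 / ε) ^ 2 + 4) * T ^ (1 + ε) := by rw [hK]; ring
      _ ≤ _ := by
        refine mul_le_mul_of_nonneg_right ?_ hTε.le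
        linarith

end Pool.Agent.T2H54.CL
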