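import Pool.Agent.T2H54.CL.Stm
import Pool.Agent.T2H54.TP.BV

/-! Package XD of helper54 (MP_fa2474_nt, project CL), written by helper46: the derivative of `Xab`. -/

set_option autoImplicit false

namespace Pool.Agent.T2H54.CL

open Complex Filter Topology MeasureTheory Set
open Pool.Agent.TH612.CF Pool.Agent.TH612.GS Pool.Agent.T2H54.SB Pool.Agent.T2H54.TP

namespace XDh

noncomputable section

/-- the complex function -/
def G (a b : ℝ) (w : ℂ) : ℂ := chi (1 / 2 + I * (w + a)) * chi (1 / 2 - I * (w + b))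

/-- the strip -/
def U : Set ℂ := {w | |w.im| < 1 / 2}

lemma U_open : IsOpen U := isOpen_lt (continuous_abs.comp Complex.continuous_im) continuous_const

lemma G_diff (a b : ℝ) : DifferentiableOn ℂ (G a b) U := by
  intro w hw
  have hw' : |w.im| < 1 / 2 := hw
  have h1 : DifferentiableAt ℂ chi (1 / 2 + I * (w + a)) := by
    apply chi_diff
    have : (I * (w + (a : ℂ))).re = -w.im := by simp
    rw [this, abs_neg]
    exact hw'
  have h2 : DifferentiableAt ℂ chi (1 / 2 + (-(I * (w + b)))) := by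
    apply chi_diff
    have : (-(I * (w + (b : ℂ)))).re = w.im := by simp
    rw [this]
    exact hw'
  have h3 : DifferentiableAt ℂ (fun w : ℂ => chi (1 / 2 + I * (w + a))) w :=
    DifferentiableAt.comp (f := fun w : ℂ => (1 / 2 + I * (w + a) : ℂ)) w h1 (by fun_prop)
  have h4 : DifferentiableAt ℂ (fun w : ℂ => chi (1 / 2 + (-(I * (w + b))))) w :=
    DifferentiableAt.comp (f := fun w : ℂ => (1 / 2 + (-(I * (w + b))) : ℂ)) w h2 (by fun_prop)
  have h5 := (h3.mul h4).differentiableWithinAt (s := U)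
  refine h5.congr (fun y _ => ?_) ?_
  · unfold G
    simp only [Pi.mul_apply, sub_eq_add_neg]
  · unfold G
    simp only [Pi.mul_apply, sub_eq_add_neg]

lemma mem_U (t : ℝ) : (t : ℂ) ∈ U := by
  show |((t : ℂ)).im| < 1 / 2
  simp

lemma Xab_eq (a b t : ℝ) : Xab a b t = G a b t := by
  unfold Xab G
  push_cast
  rfl

lemma hder (a b t : ℝ) : HasDerivAt (Xab a b) (deriv (G a b) t) t := by
  have h1 : HasDerivAt (G a b) (deriv (G a b) t) (t : ℂ) :=
    ((G_diff a b).differentiableAt (U_open.mem_nhds (mem_U t))).hasDerivAt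
  have h2 := h1.comp_ofReal
  refine h2.congr_of_eventuallyEq (Eventually.of_forall fun s => ?_)
  exact Xab_eq a b s

lemma hcont (a b : ℝ) : Continuous (deriv (Xab a b)) := by
  have h1 : deriv (Xab a b) = fun t : ℝ => deriv (G a b) (t : ℂ) := by
    funext t
    exact (hder a b t).deriv
  rw [h1]
  have h2 : ContinuousOn (deriv (G a b)) U := ((G_diff a b).deriv U_open).continuousOn
  exact h2.comp_continuous Complex.continuous_ofReal mem_U

lemma Xab_Xd (a b t : ℝ) : Xab a b t = Xd (b - a) (t + a) := by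
  unfold Xab Xd
  congr 3
  push_cast
  ring

end

end XDh

open XDh in
theorem t_XD : S_XD := by
  intro a b
  refine ⟨fun t => (hder a b t).differentiableAt, hcont a b, ?_⟩
  obtain ⟨T1, hT1⟩ : ∃ T1 : ℝ, T1 = 16 + |b - a| + |a| := ⟨_, rfl⟩
  have ha0 := abs_nonneg a
  have hba0 := abs_nonneg (b - a)
  have ha1 := neg_abs_le a
  have ha2 := le_abs_self a
  have hT10 : 0 ≤ T1 := by rw [hT1]; positivity
  obtain ⟨M, hM⟩ := (isCompact_Icc (a := (0 : ℝ)) (b := T1)).exists_bound_of_continuousOn
    (hcont a b).continuousOn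
  have hM0 : 0 ≤ M := (norm_nonneg _).trans (hM 0 ⟨le_rfl, hT10⟩)
  obtain ⟨K, hK⟩ : ∃ K : ℝ, K = (16 + |b - a| + 17) * (16 + |b - a|) := ⟨_, rfl⟩
  have hK0 : 0 ≤ K := by rw [hK]; positivity
  refine ⟨M * (1 + T1) + K * (2 + |a|) + 1, by positivity, fun t ht => ?_⟩
  have h1t : 0 < 1 + t := by linarith
  rw [le_div_iff₀ h1t]
  rcases le_or_gt t T1 with h | h
  · have h1 := hM t ⟨ht, h⟩
    have h2 : ‖deriv (Xab a b) t‖ * (1 + t) ≤ M * (1 + T1) :=
      mul_le_mul h1 (by linarith) h1t.le hM0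
    have h3 : 0 ≤ K * (2 + |a|) := by positivity
    linarith
  · obtain ⟨X', hX', hn⟩ := BV.Xd_der (b - a) (t + a) (by linarith)
    have e : HasDerivAt (Xab a b) X' t := by
      have g := hX'.comp_add_const t a
      refine g.congr_of_eventuallyEq (Eventually.of_forall fun s => ?_)
      exact Xab_Xd a b s
    rw [e.deriv]
    rw [← hK] at hn
    have hta : 0 < t + a := by linarith
    have hta1 : 1 ≤ t + a := by linarith
    have h3 : ‖X'‖ * (1 + t) ≤ K * (2 + |a|) := by
      calc ‖X'‖ * (1 + t) ≤ K / (t + a) * (1 + t) := mul_le_mul_of_nonneg_right hn h1t.le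
        _ = K * ((1 + t) / (t + a)) := by ring
        _ ≤ K * (2 + |a|) := by
            refine mul_le_mul_of_nonneg_left ?_ hK0
            rw [div_le_iff₀ hta]
            nlinarith
    have h4 : 0 ≤ M * (1 + T1) := by positivity
    linarith

end Pool.Agent.T2H54.CL
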