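import Pool.Agent.T2H54.CL.Stm
import Pool.Agent.T2H54.TP.ZMR

set_option autoImplicit false

/-!
CL-ZMRQ (helper8): from `GMq M a b h 0` to `zrq a b h` (port of `TP/ZMR.lean`).
-/

namespace Pool.Agent.T2H54.CL.ZMRQ

open Complex Filter Topology MeasureTheory Set
open Pool.Agent.TH612.CF Pool.Agent.TH612.GS Pool.Agent.T2H54.SB Pool.Agent.T2H54.TP
open Pool.Agent.TH811.GS (approx co zN_sub sum_co cont_P norm_zN_le)
open Pool.Agent.TH228.GS (prod_sub_le zN_le hh hh_nonneg)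
open Pool.Agent.T2H54.SB.ZMU (g g_cont g_nonneg hh_le g_int)
open Pool.Agent.T2H54.TP.ZMR (fubR)
open scoped ENNReal

noncomputable section

variable {n : ℕ}

/-- the differences -/
def vq (a b : Fin (n + 1) → ℝ) (h : Fin n → ℝ) (p : Fin (n + 1) × Fin (n + 1)) : ℝ :=
  gk a b h (Sum.inl p.1) - gk a b h (Sum.inr p.2)

lemma vq_eq (a b : Fin (n + 1) → ℝ) (h : Fin n → ℝ) (p : Fin (n + 1) × Fin (n + 1)) :
    vq a b h p = (hc h p.1 - hc h p.2) + (a p.1 - b p.2) := by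
  simp only [vq, gk, Sum.elim_inl, Sum.elim_inr]
  ring

lemma hc_zero (h : Fin n → ℝ) : hc h 0 = 0 := by simp [hc]
lemma hc_succ (h : Fin n → ℝ) (j : Fin n) : hc h j.succ = h j := by simp [hc]

lemma hc_meas (i : Fin (n + 1)) : Measurable fun h : Fin n → ℝ => hc h i := by
  refine Fin.cases ?_ (fun j => ?_) i
  · simp only [hc_zero]; exact measurable_const
  · simp only [hc_succ]; exact measurable_pi_apply _

lemma vq_meas (a b : Fin (n + 1) → ℝ) (p : Fin (n + 1) × Fin (n + 1)) :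
    Measurable fun h : Fin n → ℝ => vq a b h p := by
  simp only [vq_eq]
  exact ((hc_meas _).sub (hc_meas _)).add_const _

lemma vq_upd (a b : Fin (n + 1) → ℝ) (p : Fin (n + 1) × Fin (n + 1)) (hp : p ∈ OD n) :
    ∃ q : Fin n, ∀ x : Fin n → ℝ,
      (∃ w : ℝ, ∀ c, vq a b (Function.update x q c) p = w + c) ∨
      ∃ w : ℝ, ∀ c, vq a b (Function.update x q c) p = w - c := by
  obtain ⟨i, j⟩ := p
  have hij : i ≠ j := by
    simpa [OD] using hp
  rcases Fin.eq_zero_or_eq_succ i with hi | ⟨i', hi⟩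
  · rcases Fin.eq_zero_or_eq_succ j with hj | ⟨j', hj⟩
    · exact absurd (hi.trans hj.symm) hij
    · subst hi hj
      refine ⟨j', fun x => Or.inr ⟨a 0 - b j'.succ, fun c => ?_⟩⟩
      simp only [vq_eq, hc_zero, hc_succ, Function.update_self]
      ring
  · subst hi
    refine ⟨i', fun x => Or.inl ?_⟩
    rcases Fin.eq_zero_or_eq_succ j with hj | ⟨j', hj⟩
    · subst hj
      refine ⟨a i'.succ - b 0, fun c => ?_⟩
      simp only [vq_eq, hc_zero, hc_succ, Function.update_self]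
      ring
    · subst hj
      have hne : j' ≠ i' := fun h => hij (by rw [h])
      refine ⟨a i'.succ - b j'.succ - x j', fun c => ?_⟩
      have h1 : Function.update x i' c j' = x j' := Function.update_of_ne hne _ _
      simp only [vq_eq, hc_succ, Function.update_self, h1]
      ring

/-- the sum of the offsets -/
def So (a b : Fin (n + 1) → ℝ) : ℝ := ∑ j, (|a j| + |b j|)

lemma So_nonneg (a b : Fin (n + 1) → ℝ) : 0 ≤ So a b := by unfold So; positivity

lemma So_le (a b : Fin (n + 1) → ℝ) (p q : Fin (n + 1)) (hpq : p ≠ q) : |a p - b q| ≤ So a b := by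
  have h1 : |a p| + |b p| + (|a q| + |b q|) ≤ So a b := by
    unfold So
    have h2 : ∑ j ∈ ({p, q} : Finset (Fin (n + 1))), (|a j| + |b j|) ≤ ∑ j, (|a j| + |b j|) :=
      Finset.sum_le_sum_of_subset_of_nonneg (Finset.subset_univ _) fun j _ _ => by positivity
    rwa [Finset.sum_pair hpq] at h2
  have h3 : |a p - b q| ≤ |a p| + |b q| := abs_sub _ _
  have := abs_nonneg (b p)
  have := abs_nonneg (a q)
  linarith

/-- lower and upper bounds of the differences -/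
lemma vq_bd {a b : Fin (n + 1) → ℝ} {T : ℝ} (hT1 : 2 * So a b ≤ T ^ (1 / 2 : ℝ)) (hT2 : So a b ≤ T)
    {h : Fin n → ℝ} (hh : h ∈ SepH n T) (p : Fin (n + 1) × Fin (n + 1)) (hp : p ∈ OD n) :
    T ^ (1 / 2 : ℝ) / 2 ≤ |vq a b h p| ∧ |vq a b h p| ≤ 2 * T := by
  obtain ⟨h1, h2⟩ := hh
  obtain ⟨i, j⟩ := p
  have hij : i ≠ j := by
    simpa [OD] using hp
  have h3 := h2 i j hij
  have h4 := So_le a b i j hij
  have hT0 : 0 ≤ T := (So_nonneg a b).trans hT2
  have hb : ∀ q, 0 ≤ hc h q ∧ hc h q ≤ T := by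
    intro q
    refine Fin.cases ?_ (fun k => ?_) q
    · rw [hc_zero]; exact ⟨le_rfl, hT0⟩
    · rw [hc_succ]; exact h1 k
  have h5 : |hc h i - hc h j| ≤ T := by
    rw [abs_le]
    constructor <;> linarith [(hb i).1, (hb i).2, (hb j).1, (hb j).2]
  rw [vq_eq]
  have e1 : |hc h i - hc h j| ≤ |(hc h i - hc h j) + (a i - b j)| + |a i - b j| := by
    have := abs_sub ((hc h i - hc h j) + (a i - b j)) (a i - b j)
    rwa [add_sub_cancel_right] at this
  have e2 := abs_add_le (hc h i - hc h j) (a i - b j)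
  constructor
  · show T ^ (1 / 2 : ℝ) / 2 ≤ |(hc h i - hc h j) + (a i - b j)|
    linarith
  · show |(hc h i - hc h j) + (a i - b j)| ≤ 2 * T
    linarith

theorem t_ZMRQ : S_ZMRQ := by
  obtain ⟨C, hC, hMV⟩ := pMVW
  intro n a b
  have hBF : 0 ≤ BF (n + 1) (1 / 8) := by unfold BF; positivity
  set c : ℕ := (OD n).card with hc
  set D : ℝ := 4 * (BF (n + 1) (1 / 8) ^ 2 * (5 : ℝ) ^ (2 * c) * c) *
    (c * (32 + 72 * C)) with hD
  have hD0 : 0 ≤ D := by rw [hD]; positivity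
  set B : ℕ := 2 * c + 3 with hB
  have hS0 := So_nonneg a b
  refine ⟨(D + 1) * 2 ^ B, 4 + So a b + 4 * So a b ^ 2, B, by positivity, by nlinarith, ?_⟩
  intro T₁ M hT₁ hM hMH
  have hS2 : 0 ≤ 4 * So a b ^ 2 := by positivity
  have hT14 : 4 ≤ T₁ := by linarith
  have hST : So a b ≤ T₁ := by linarith
  have hT10 : 0 < T₁ := by linarith
  have hST2 : 2 * So a b ≤ T₁ ^ (1 / 2 : ℝ) := by
    rw [← Real.sqrt_eq_rpow]
    refine Real.le_sqrt_of_sq_le ?_
    nlinarith
  set T : ℝ := 2 * T₁ with hTd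
  have hT : 3 ≤ T := by linarith
  have hT0 : 0 < T := by linarith
  have hH1 : 1 ≤ T₁ := by linarith
  have hL : 1 ≤ Real.log T := by
    rw [Real.le_log_iff_exp_le hT0]
    have := Real.exp_one_lt_d9
    linarith
  have hLT : Real.log T ≤ 2 * Real.log T₁ := by
    have h1 : T ≤ T₁ ^ 2 := by nlinarith
    have h2 := Real.log_le_log hT0 h1
    rw [Real.log_pow] at h2
    push_cast at h2
    exact h2
  have hM1 : (1 : ℝ) ≤ M := by exact_mod_cast hM
  have hM0 : (0 : ℝ) < M := by linarith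
  have hMH' : (M : ℝ) ≤ T₁ := by
    refine hMH.trans ?_
    calc T₁ ^ (1 / 4 : ℝ) ≤ T₁ ^ (1 : ℝ) := Real.rpow_le_rpow_of_exponent_le hH1 (by norm_num)
      _ = T₁ := Real.rpow_one _
  set X : ℕ := ⌊T ^ 2⌋₊ with hX
  have hXle : (X : ℝ) ≤ T ^ 2 := Nat.floor_le (by positivity)
  have hXlt : T ^ 2 < (X : ℝ) + 1 := Nat.lt_floor_add_one _
  have hX1 : T ^ 2 / 2 ≤ (X : ℝ) - 1 := by nlinarith
  have hX0 : (0 : ℝ) < X := by nlinarith
  have hXn : 1 ≤ X := by
    have : 0 < X := by exact_mod_cast hX0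
    omega
  have hlogX : Real.log X ≤ 2 * Real.log T := by
    have h := Real.log_le_log hX0 hXle
    rw [Real.log_pow] at h
    push_cast at h
    exact h
  rcases Nat.eq_zero_or_pos n with hk | hk
  · subst hk
    refine le_trans (le_of_eq ?_) zero_le
    refine (lintegral_congr fun γ => ?_).trans lintegral_zero
    have hPQ : OD 0 = ∅ := by
      unfold OD
      rw [Finset.filter_eq_empty_iff]
      intro p _
      simp only [ne_eq, not_not]
      refine Fin.ext ?_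
      have h1 := p.1.2
      have h2 := p.2.2
      omega
    have : GMq M a b γ 0 = zrq a b γ := by
      unfold GMq zrq
      rw [hPQ]
      simp
    rw [this]
    simp
  have hMT : (M : ℝ) ≤ T := by linarith
  have hMX : M ≤ X := by
    have : (M : ℝ) ≤ X := by nlinarith
    exact_mod_cast this
  set K : ℝ := 5 * Real.log T with hK
  have hK1 : 1 ≤ K := by rw [hK]; linarith
  have hlogM : Real.log M ≤ Real.log T := Real.log_le_log hM0 hMT
  have hzN : ∀ v : ℝ, ‖zN M (1 + I * v)‖ ≤ K := fun v => (zN_le M v).trans (by rw [hK]; linarith)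
  have hz : ∀ v : ℝ, 1 ≤ |v| → |v| ≤ T → ‖riemannZeta (1 + I * v)‖ ≤ K := by
    intro v hv1 hv2
    have h1 := approx hT hX1 hv1 hv2
    have h2 := norm_zN_le X v
    have h3 : 1 / |v| ≤ 1 := by rw [div_le_one (by linarith)]; exact hv1
    have h4 : 3 / T ≤ 1 := by rw [div_le_one hT0]; exact hT
    have h5 : ‖riemannZeta (1 + I * v)‖ ≤
        ‖riemannZeta (1 + I * v) - zN X (1 + I * v)‖ + ‖zN X (1 + I * v)‖ := by
      have := norm_add_le (riemannZeta (1 + I * v) - zN X (1 + I * v)) (zN X (1 + I * v))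
      rwa [sub_add_cancel] at this
    rw [hK]
    linarith
  set A : ℝ := 4 * (BF (n + 1) (1 / 8) ^ 2 * K ^ (2 * c) * c) with hA
  have hA0 : 0 ≤ A := by rw [hA]; positivity
  set G : ℝ → ℝ≥0∞ := fun v => ENNReal.ofReal (g M X T₁ v) with hG
  have hGm : Measurable G := (g_cont M X T₁).measurable.ennreal_ofReal
  have hhalf : T₁ ^ (1 / 2 : ℝ) / 2 = (T₁ / 4) ^ (1 / 2 : ℝ) := by
    rw [← Real.sqrt_eq_rpow, ← Real.sqrt_eq_rpow, Real.sqrt_div' _ (by norm_num)]
    congr 1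
    rw [show (4 : ℝ) = 2 ^ 2 by norm_num, Real.sqrt_sq (by norm_num)]
  have hone : 1 ≤ (T₁ / 4) ^ (1 / 2 : ℝ) := Real.one_le_rpow (by linarith) (by norm_num)
  -- the majorant
  have hgg : ∀ v : ℝ, (T₁ / 4) ^ (1 / 2 : ℝ) ≤ |v| → |v| ≤ T → hh M v ≤ 4 * g M X T₁ v := by
    intro v hv1 hv2
    refine (hh_le hT hX1 hMX (H := T₁ / 4) (by linarith) (by linarith) hv1 hv2).trans ?_
    unfold g
    have e : 32 / (T₁ / 4) = 4 * (32 / T₁) := by field_simp
    rw [e]
    have := sq_nonneg ‖ZMU.P M X v‖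
    linarith
  -- the pointwise bound
  have hpt : ∀ θ ∈ SepH n T₁, ENNReal.ofReal (‖GMq M a b θ 0 - zrq a b θ‖ ^ 2) ≤
      ENNReal.ofReal A * ∑ p ∈ OD n, G (vq a b θ p) := by
    intro θ hθ
    have hvb := fun p hp => vq_bd hST2 hST hθ p hp
    set v : Fin (n + 1) × Fin (n + 1) → ℝ := fun p => vq a b θ p with hv
    have hv1 : ∀ p ∈ OD n, (T₁ / 4) ^ (1 / 2 : ℝ) ≤ |v p| := fun p hp => by
      rw [← hhalf]; exact (hvb p hp).1
    have hv2 : ∀ p ∈ OD n, |v p| ≤ T := fun p hp => (hvb p hp).2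
    have e1 : GMq M a b θ 0 = FH (fun j => (gk a b θ (Sum.inl j) : ℂ))
        (fun j => (gk a b θ (Sum.inr j) : ℂ)) * ∏ p ∈ OD n, zN M (1 + I * (v p : ℂ)) := by
      unfold GMq
      simp [hv, vq]
    have e2 : zrq a b θ = FH (fun j => (gk a b θ (Sum.inl j) : ℂ))
        (fun j => (gk a b θ (Sum.inr j) : ℂ)) * ∏ p ∈ OD n, riemannZeta (1 + I * (v p : ℂ)) := by
      unfold zrq
      simp [hv, vq]
    have hFH : ‖FH (fun j => (gk a b θ (Sum.inl j) : ℂ)) (fun j => (gk a b θ (Sum.inr j) : ℂ))‖ ≤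
        BF (n + 1) (1 / 8) := by
      refine FH_le (by norm_num) fun j => ?_
      simp
    have hz' : ∀ p ∈ OD n, ‖riemannZeta (1 + I * (v p : ℂ))‖ ≤ K := fun p hp =>
      hz (v p) (hone.trans (hv1 p hp)) (hv2 p hp)
    have h2 := prod_sub_le (OD n) (fun p => zN M (1 + I * (v p : ℂ)))
      (fun p => riemannZeta (1 + I * (v p : ℂ))) hK1 (fun p _ => hzN (v p)) (fun p hp => hz' p hp)
    rw [← hc] at h2
    have h3 : ‖GMq M a b θ 0 - zrq a b θ‖ ≤ BF (n + 1) (1 / 8) * (K ^ c *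
        ∑ p ∈ OD n, ‖zN M (1 + I * (v p : ℂ)) - riemannZeta (1 + I * (v p : ℂ))‖) := by
      rw [e1, e2, ← mul_sub, norm_mul]
      exact mul_le_mul hFH h2 (norm_nonneg _) hBF
    have h4 : (∑ p ∈ OD n,
        ‖zN M (1 + I * (v p : ℂ)) - riemannZeta (1 + I * (v p : ℂ))‖) ^ 2 ≤
        c * ∑ p ∈ OD n, hh M (v p) := by
      have := sq_sum_le_card_mul_sum_sq (s := OD n)
        (f := fun p => ‖zN M (1 + I * (v p : ℂ)) - riemannZeta (1 + I * (v p : ℂ))‖)
      rw [← hc] at this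
      refine this.trans (le_of_eq ?_)
      congr 1
      refine Finset.sum_congr rfl fun p _ => ?_
      unfold hh
      rw [norm_sub_rev]
    have h4' : ∑ p ∈ OD n, hh M (v p) ≤ 4 * ∑ p ∈ OD n, g M X T₁ (v p) := by
      rw [Finset.mul_sum]
      exact Finset.sum_le_sum fun p hp => hgg (v p) (hv1 p hp) (hv2 p hp)
    have h5 : ‖GMq M a b θ 0 - zrq a b θ‖ ^ 2 ≤ A * ∑ p ∈ OD n, g M X T₁ (v p) := by
      calc ‖GMq M a b θ 0 - zrq a b θ‖ ^ 2 ≤ (BF (n + 1) (1 / 8) * (K ^ c *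
            ∑ p ∈ OD n, ‖zN M (1 + I * (v p : ℂ)) - riemannZeta (1 + I * (v p : ℂ))‖)) ^ 2 :=
            pow_le_pow_left₀ (norm_nonneg _) h3 2
        _ = BF (n + 1) (1 / 8) ^ 2 * K ^ (2 * c) * (∑ p ∈ OD n,
              ‖zN M (1 + I * (v p : ℂ)) - riemannZeta (1 + I * (v p : ℂ))‖) ^ 2 := by
            rw [mul_comm 2 c, pow_mul]; ring
        _ ≤ BF (n + 1) (1 / 8) ^ 2 * K ^ (2 * c) * (c *
              (4 * ∑ p ∈ OD n, g M X T₁ (v p))) :=
            mul_le_mul_of_nonneg_left (h4.trans (mul_le_mul_of_nonneg_left h4' (Nat.cast_nonneg c)))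
              (by positivity)
        _ = _ := by rw [hA]; ring
    calc ENNReal.ofReal (‖GMq M a b θ 0 - zrq a b θ‖ ^ 2)
        ≤ ENNReal.ofReal (A * ∑ p ∈ OD n, g M X T₁ (v p)) := ENNReal.ofReal_le_ofReal h5
      _ = ENNReal.ofReal A * ∑ p ∈ OD n, ENNReal.ofReal (g M X T₁ (v p)) := by
          rw [ENNReal.ofReal_mul hA0, ENNReal.ofReal_sum_of_nonneg fun p _ => g_nonneg M X hT10.le _]
      _ = _ := rfl
  have hmeas : ∀ p, Measurable fun θ : Fin n → ℝ => G (vq a b θ p) := fun p =>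
    hGm.comp (vq_meas a b p)
  have hmeasS : Measurable fun θ : Fin n → ℝ => ENNReal.ofReal A *
      ∑ p ∈ OD n, G (vq a b θ p) :=
    (Finset.measurable_fun_sum _ fun p _ => hmeas p).const_mul _
  have hW := g_int hC hMV hL hXn hlogX hM hMX hH1 hMH'
  calc ∫⁻ θ in SepH n T₁, ENNReal.ofReal (‖GMq M a b θ 0 - zrq a b θ‖ ^ 2)
        ∂(mP (Fin n) T₁)
      ≤ ∫⁻ θ in SepH n T₁, ENNReal.ofReal A * ∑ p ∈ OD n, G (vq a b θ p)
            ∂(mP (Fin n) T₁) := setLIntegral_mono hmeasS hpt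
    _ ≤ ∫⁻ θ, ENNReal.ofReal A * ∑ p ∈ OD n, G (vq a b θ p)
            ∂(mP (Fin n) T₁) := setLIntegral_le_lintegral _ _
    _ = ENNReal.ofReal A * ∑ p ∈ OD n, ∫⁻ θ, G (vq a b θ p) ∂(mP (Fin n) T₁) := by
        rw [lintegral_const_mul _ (Finset.measurable_fun_sum _ fun p _ => hmeas p),
          lintegral_finsetSum _ fun p _ => hmeas p]
    _ ≤ ENNReal.ofReal A * ∑ p ∈ OD n,
          ENNReal.ofReal ((32 + 72 * C) * Real.log T ^ 3 * (T₁ / M) * T₁ ^ (n - 1)) := by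
        gcongr with p hp
        obtain ⟨q, hq⟩ := vq_upd a b p hp
        refine (fubR (fun θ => vq a b θ p) (vq_meas a b p) q hq hGm hW).trans ?_
        have e1 : Fintype.card (Fin n) - 1 = n - 1 := by simp
        rw [e1, ENNReal.ofReal_mul (q := T₁ ^ (n - 1)) (by positivity),
          ENNReal.ofReal_pow hT10.le]
    _ ≤ ENNReal.ofReal ((D + 1) * 2 ^ B * Real.log T₁ ^ B * T₁ ^ n / M) := by
        rw [Finset.sum_const, ← hc,
          nsmul_eq_mul, ← ENNReal.ofReal_natCast, ← ENNReal.ofReal_mul (by positivity),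
          ← ENNReal.ofReal_mul hA0]
        refine ENNReal.ofReal_le_ofReal ?_
        have e2 : T₁ * T₁ ^ (n - 1) = T₁ ^ n := by
          rw [← pow_succ']
          congr 1
          omega
        have e3 : A * ((c : ℝ) *
            ((32 + 72 * C) * Real.log T ^ 3 * (T₁ / M) * T₁ ^ (n - 1))) =
            D * Real.log T ^ B * T₁ ^ n / M := by
          rw [← e2, hA, hD, hK, hB, mul_pow, pow_add]
          ring
        rw [e3]
        have e4 : Real.log T ^ B ≤ 2 ^ B * Real.log T₁ ^ B := by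
          rw [← mul_pow]
          exact pow_le_pow_left₀ (by linarith) hLT B
        have e5 : 0 ≤ Real.log T ^ B := pow_nonneg (by linarith) B
        have e6 : D * Real.log T ^ B ≤ (D + 1) * 2 ^ B * Real.log T₁ ^ B := by
          calc D * Real.log T ^ B ≤ (D + 1) * (2 ^ B * Real.log T₁ ^ B) :=
                mul_le_mul (by linarith) e4 e5 (by linarith)
            _ = (D + 1) * 2 ^ B * Real.log T₁ ^ B := by ring
        gcongr

end

end Pool.Agent.T2H54.CL.ZMRQ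

theorem Pool.Agent.T2H54.CL.t_ZMRQ : Pool.Agent.T2H54.CL.S_ZMRQ := Pool.Agent.T2H54.CL.ZMRQ.t_ZMRQ
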