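import Pool.Agent.T2H54.TP.All
import Pool.Agent.T2H54.CL.Asm5
import Pool.Agent.T2H54.CL.K1
import Pool.Agent.T2H54.CL.OPB
import Pool.Agent.T2H54.CL.SPD
import Pool.Agent.T2H54.CL.VBQ
import Pool.Agent.T2H54.CL.XD
import Pool.Agent.T2H54.CL.TNQ
import Pool.Agent.T2H54.CL.LCMQ
import Pool.Agent.T2H54.CL.SSRQ
import Pool.Agent.T2H54.CL.CTRQ
import Pool.Agent.T2H54.CL.MVK
import Pool.Agent.T2H54.CL.GLRQ
import Pool.Agent.T2H54.CL.A4RQ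
import Pool.Agent.T2H54.CL.ZMRQ
import Pool.Agent.T2H54.CL.NSQ
import Pool.Agent.T2H54.CL.QDQ
import Pool.Agent.T2H54.CL.SWQ

set_option autoImplicit false

/-! Project CL: all parts together. -/

namespace Pool.Agent.T2H54.CL

open Complex Filter Topology MeasureTheory Set
open Pool.Agent.TH612.CF Pool.Agent.TH612.GS Pool.Agent.T2H54.SB Pool.Agent.T2H54.TP

noncomputable section

variable {n : ℕ}

theorem allQ (n : ℕ) (hn : 1 ≤ n) :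
    ∃ δ : ℝ, 0 < δ ∧ ∀ a b : Fin (n + 1) → ℝ, (∀ j, a j ≠ b j) → ∃ T₀ : ℝ, ∀ T : ℝ,
      T₀ ≤ T → mP (Fin n) T (BadQ a b T (T * T ^ (-δ))) ≤ ENNReal.ofReal (T ^ n * T ^ (-δ)) := by
  have hWD := t_WD
  have hAFD := t_AFD (t_AFA t_CHD) (t_AFB hWD)
  have hDG := t_DG hWD
  have hBV := t_BV hWD
  have hTSM := t_TSM hWD hAFD t_SPC hDG hBV
  have hTAB := t_TAB hTSM
  have hONE := Pool.Agent.TH811.GS.t_ONE Pool.Agent.TH928.GS.t_MV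
  exact mainQ (t_K1 hWD hAFD hDG hBV t_SPD) t_OPB (t_VBQ t_Q4) t_QDQ (t_TNQ hTAB t_XD)
    (t_SSRQ t_LCMQ) (t_A4RQ t_CTRQ (t_GLRQ t_MVK)) t_ZMRQ t_NSQ t_SWQ t_Q4 hONE n hn

lemma vol_Q {a b : Fin (n + 1) → ℝ} {T lam : ℝ} :
    volume (BadQ a b T lam) = mP (Fin n) T (BadQ a b T lam) := by
  rw [← vol_cube (T := T) (E := BadQ a b T lam) fun γ hγ => hγ.1]

end

end Pool.Agent.T2H54.CL
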