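import Pool.Agent.T2H54.CL.Stm
import Pool.Agent.T2H54.TP.AsmD

set_option autoImplicit false

/-! Assembly of project CL, first part: the decomposition. -/

namespace Pool.Agent.T2H54.CL

open Complex Filter Topology MeasureTheory Set
open Pool.Agent.TH612.CF Pool.Agent.TH612.GS Pool.Agent.T2H54.SB Pool.Agent.T2H54.TP
open Pool.Agent.W182.KO hiding ee SS_summable DD

noncomputable section

variable {n : ℕ}

lemma zr_gk (a b : Fin (n + 1) → ℝ) (h : Fin n → ℝ) : zr (gk a b h) = zc a b * zrq a b h := by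
  unfold zr zab zrq zc
  have e1 : ∏ j : Fin (n + 1), ∏ l : Fin (n + 1), riemannZeta (1 + I * (gk a b h (Sum.inl j) : ℂ) -
      I * (gk a b h (Sum.inr l) : ℂ)) = ∏ p ∈ (Finset.univ : Finset (Fin (n + 1) × Fin (n + 1))),
      riemannZeta (1 + I * (gk a b h (Sum.inl p.1) - gk a b h (Sum.inr p.2))) := by
    rw [← Finset.univ_product_univ, Finset.prod_product]
    refine Finset.prod_congr rfl fun j _ => Finset.prod_congr rfl fun l _ => ?_
    congr 1
    ring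
  have e2 : ∏ p ∈ (Finset.univ : Finset (Fin (n + 1) × Fin (n + 1))).filter (fun p => ¬ p.1 ≠ p.2),
      riemannZeta (1 + I * (gk a b h (Sum.inl p.1) - gk a b h (Sum.inr p.2))) =
      ∏ j : Fin (n + 1), riemannZeta (1 + I * ((a j - b j : ℝ) : ℂ)) := by
    refine Finset.prod_nbij' (fun p => p.1) (fun j => (j, j)) (by simp) (by simp) ?_ (by simp) ?_
    · intro p hp
      have hp' : p.1 = p.2 := by simpa using hp
      exact Prod.ext rfl hp'
    · intro p hp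
      have hp' : p.1 = p.2 := by simpa using hp
      congr 1
      rw [← hp']
      simp only [gk, Sum.elim_inl, Sum.elim_inr]
      push_cast
      ring
  rw [e1, ← Finset.prod_filter_mul_prod_filter_not Finset.univ
    (fun p : Fin (n + 1) × Fin (n + 1) => p.1 ≠ p.2), e2]
  unfold OD
  ring

/-- the integrand -/
def ZQ (a b : Fin (n + 1) → ℝ) (h : Fin n → ℝ) (t : ℝ) : ℂ :=
  Bab (a 0) (b 0) t * ∏ j : Fin n, Bab (a j.succ) (b j.succ) (t + h j)

lemma Zg_gk (a b : Fin (n + 1) → ℝ) (h : Fin n → ℝ) (t : ℝ) : Zg (gk a b h) t = ZQ a b h t := by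
  rw [Zg_fz, Fin.prod_univ_succ]
  unfold ZQ Bab
  simp only [gk, Sum.elim_inl, Sum.elim_inr, hc, Fin.cons_zero, Fin.cons_succ, zero_add, add_assoc]

lemma XJ_norm (J : Finset (Fin (n + 1))) (a b : Fin (n + 1) → ℝ) (h : Fin n → ℝ) (t : ℝ) :
    ‖XJ J a b h t‖ = 1 := by
  unfold XJ
  rw [norm_prod]
  exact Finset.prod_eq_one fun j _ => Xab_norm _ _ _

lemma XJ_cont (J : Finset (Fin (n + 1))) (a b : Fin (n + 1) → ℝ) (h : Fin n → ℝ) :
    Continuous (XJ J a b h) := by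
  unfold XJ
  exact continuous_finsetProd _ fun j _ => (Xab_cont (a j) (b j)).comp (by fun_prop)

lemma int_XJ_le (J : Finset (Fin (n + 1))) (a b : Fin (n + 1) → ℝ) (h : Fin n → ℝ) {S : ℝ}
    (hS : 0 ≤ S) : ‖∫ t in (0:ℝ)..S, XJ J a b h t‖ ≤ S := by
  have h := intervalIntegral.norm_integral_le_of_norm_le_const (a := 0) (b := S) (C := 1)
    (f := XJ J a b h) fun t _ => (XJ_norm J a b h t).le
  simpa [abs_of_nonneg hS] using h

/-- the decomposition -/
lemma DD_eqQ (hQD : S_QDQ) (a b : Fin (n + 1) → ℝ) (S : ℝ) (h : Fin n → ℝ) : DD S (gk a b h) =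
    (∫ t in (0:ℝ)..S, Zg (gk a b h) t) -
      (∑ J : Finset (Fin (n + 1)), (∫ t in (0:ℝ)..S, XJ J a b h t) * zr (gk (sw J a b) (sw J b a) h)) -
      ((Nat.factorial (n + 1) : ℂ) ^ 2)⁻¹ * ∑ π ∈ Oq n, IG S (gk a b h) π * zp (gk a b h) π := by
  unfold DD
  have hf : ((Nat.factorial (n + 1) : ℂ) ^ 2) ≠ 0 :=
    pow_ne_zero _ (by exact_mod_cast (Nat.factorial_pos _).ne')
  have hs : ∀ π ∈ Oq n, IntervalIntegrable (fun t : ℝ =>
      GG t (fun i => (gk a b h i : ℂ)) π * zp (gk a b h) π) volume 0 S := fun π _ =>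
    ((GG_cont_t _ π).mul continuous_const).intervalIntegrable _ _
  have hs2 : ∀ J ∈ (Finset.univ : Finset (Finset (Fin (n + 1)))), IntervalIntegrable (fun t : ℝ =>
      XJ J a b h t * zr (gk (sw J a b) (sw J b a) h)) volume 0 S := fun J _ =>
    ((XJ_cont J a b h).mul continuous_const).intervalIntegrable _ _
  have hcn : Continuous fun t : ℝ => ∑ π ∈ Oq n,
      GG t (fun i => (gk a b h i : ℂ)) π * zp (gk a b h) π :=
    continuous_finsetSum _ fun π _ => (GG_cont_t _ π).mul continuous_const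
  have hcn2 : Continuous fun t : ℝ => ∑ J : Finset (Fin (n + 1)),
      XJ J a b h t * zr (gk (sw J a b) (sw J b a) h) :=
    continuous_finsetSum _ fun J _ => (XJ_cont J a b h).mul continuous_const
  have e1 : ∀ t : ℝ, Zg (gk a b h) t - ((Nat.factorial (n + 1) : ℂ) ^ 2)⁻¹ *
      Qs t (fun i => (gk a b h i : ℂ)) = Zg (gk a b h) t -
      (∑ J : Finset (Fin (n + 1)), XJ J a b h t * zr (gk (sw J a b) (sw J b a) h)) -
      ((Nat.factorial (n + 1) : ℂ) ^ 2)⁻¹ *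
        ∑ π ∈ Oq n, GG t (fun i => (gk a b h i : ℂ)) π * zp (gk a b h) π := by
    intro t
    rw [hQD n a b h t]
    have hff := inv_mul_cancel₀ hf
    linear_combination (-(∑ J : Finset (Fin (n + 1)), XJ J a b h t *
      zr (gk (sw J a b) (sw J b a) h))) * hff
  simp only [e1]
  have i1 : IntervalIntegrable (fun t : ℝ => Zg (gk a b h) t) volume 0 S :=
    (Zg_cont _).intervalIntegrable _ _
  have i3 : IntervalIntegrable (fun t : ℝ => ∑ J : Finset (Fin (n + 1)),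
      XJ J a b h t * zr (gk (sw J a b) (sw J b a) h)) volume 0 S :=
    hcn2.intervalIntegrable _ _
  have i4 : IntervalIntegrable (fun t : ℝ => ((Nat.factorial (n + 1) : ℂ) ^ 2)⁻¹ *
        ∑ π ∈ Oq n, GG t (fun i => (gk a b h i : ℂ)) π * zp (gk a b h) π) volume 0 S :=
    (continuous_const.mul hcn).intervalIntegrable _ _
  rw [intervalIntegral.integral_sub (i1.sub i3) i4,
    intervalIntegral.integral_sub i1 i3,
    intervalIntegral.integral_const_mul, intervalIntegral.integral_finsetSum hs,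
    intervalIntegral.integral_finsetSum hs2]
  simp only [intervalIntegral.integral_mul_const]
  rfl

/-- the difference of the integrals -/
def A1q (a b : Fin (n + 1) → ℝ) (N : ℕ) (S : ℝ) (h : Fin n → ℝ) : ℂ :=
  (∫ t in (0:ℝ)..S, ZQ a b h t) -
    ∫ t in (0:ℝ)..S, Bab (a 0) (b 0) t * ∏ j : Fin n, Dp (a j.succ) (b j.succ) N (t + h j)

/-- the difference of the integral with the short polynomials and its main terms -/
def TNdq (a b : Fin (n + 1) → ℝ) (N : ℕ) (S : ℝ) (h : Fin n → ℝ) : ℂ :=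
  (∫ t in (0:ℝ)..S, Bab (a 0) (b 0) t * ∏ j : Fin n, Dp (a j.succ) (b j.succ) N (t + h j)) -
    ∑ J : Finset (Fin (n + 1)), zc (sw J a b) (sw J b a) * RQ (sw J a b) (sw J b a) N h *
      ∫ t in (0:ℝ)..S, XJ J a b h t

/-- the three differences -/
def E3q (ψ : ℝ → ℝ) (a b : Fin (n + 1) → ℝ) (N : ℕ) (h : Fin n → ℝ) : ℝ :=
  ‖RQ a b N h - SPq ψ N a b h‖ + ‖SPq ψ N a b h - GMq N a b h 0‖ + ‖GMq N a b h 0 - zrq a b h‖

lemma RQ_zrq_le (ψ : ℝ → ℝ) (a b : Fin (n + 1) → ℝ) (N : ℕ) (h : Fin n → ℝ) :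
    ‖RQ a b N h - zrq a b h‖ ≤ E3q ψ a b N h := by
  have e : RQ a b N h - zrq a b h = (RQ a b N h - SPq ψ N a b h) + (SPq ψ N a b h - GMq N a b h 0) +
      (GMq N a b h 0 - zrq a b h) := by ring
  rw [e]
  refine (norm_add_le _ _).trans (add_le_add (norm_add_le _ _) le_rfl)

lemma DD_leQ (hQD : S_QDQ) (ψ : ℝ → ℝ) {a b : Fin (n + 1) → ℝ} {S T K0 Z : ℝ} (hS : 0 ≤ S)
    (hST : S ≤ T) (hZ : 0 ≤ Z) (hK0 : 0 ≤ K0)
    (hK1 : ∀ J : Finset (Fin (n + 1)), ‖zc (sw J a b) (sw J b a)‖ ≤ K0) (N : ℕ) (h : Fin n → ℝ)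
    (hz : ∀ π : Equiv.Perm (Fin (n + 1) ⊕ Fin (n + 1)), ‖zp (gk a b h) π‖ ≤ Z) :
    ‖DD S (gk a b h)‖ ≤ ‖A1q a b N S h‖ + ‖TNdq a b N S h‖ +
      (∑ J : Finset (Fin (n + 1)), T * (K0 * E3q ψ (sw J a b) (sw J b a) N h)) +
      Z * ∑ π ∈ Oq n, ‖IG S (gk a b h) π‖ := by
  have e2 : DD S (gk a b h) = A1q a b N S h + TNdq a b N S h +
      (∑ J : Finset (Fin (n + 1)), (∫ t in (0:ℝ)..S, XJ J a b h t) *
        (zc (sw J a b) (sw J b a) * (RQ (sw J a b) (sw J b a) N h - zrq (sw J a b) (sw J b a) h))) -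
      ((Nat.factorial (n + 1) : ℂ) ^ 2)⁻¹ * ∑ π ∈ Oq n, IG S (gk a b h) π * zp (gk a b h) π := by
    rw [DD_eqQ hQD]
    unfold A1q TNdq
    simp only [Zg_gk, zr_gk]
    have e3 : ∑ J : Finset (Fin (n + 1)), (∫ t in (0:ℝ)..S, XJ J a b h t) *
        (zc (sw J a b) (sw J b a) * (RQ (sw J a b) (sw J b a) N h - zrq (sw J a b) (sw J b a) h)) =
        (∑ J : Finset (Fin (n + 1)), zc (sw J a b) (sw J b a) * RQ (sw J a b) (sw J b a) N h *
          ∫ t in (0:ℝ)..S, XJ J a b h t) -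
        ∑ J : Finset (Fin (n + 1)), (∫ t in (0:ℝ)..S, XJ J a b h t) *
          (zc (sw J a b) (sw J b a) * zrq (sw J a b) (sw J b a) h) := by
      rw [← Finset.sum_sub_distrib]
      refine Finset.sum_congr rfl fun J _ => ?_
      ring
    rw [e3]
    ring
  rw [e2]
  have hT : 0 ≤ T := hS.trans hST
  have n2 : ‖∑ J : Finset (Fin (n + 1)), (∫ t in (0:ℝ)..S, XJ J a b h t) *
        (zc (sw J a b) (sw J b a) * (RQ (sw J a b) (sw J b a) N h - zrq (sw J a b) (sw J b a) h))‖ ≤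
      ∑ J : Finset (Fin (n + 1)), T * (K0 * E3q ψ (sw J a b) (sw J b a) N h) := by
    refine (norm_sum_le _ _).trans (Finset.sum_le_sum fun J _ => ?_)
    rw [norm_mul, norm_mul]
    have h1 := RQ_zrq_le ψ (sw J a b) (sw J b a) N h
    have h3 := (int_XJ_le J a b h hS).trans hST
    have h4 := hK1 J
    gcongr
  have n3 : ‖((Nat.factorial (n + 1) : ℂ) ^ 2)⁻¹ * ∑ π ∈ Oq n, IG S (gk a b h) π *
      zp (gk a b h) π‖ ≤ Z * ∑ π ∈ Oq n, ‖IG S (gk a b h) π‖ := by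
    rw [norm_mul]
    calc _ ≤ 1 * ‖∑ π ∈ Oq n, IG S (gk a b h) π * zp (gk a b h) π‖ := by
          gcongr
          exact inv_fac_le _
      _ ≤ 1 * ∑ π ∈ Oq n, ‖IG S (gk a b h) π * zp (gk a b h) π‖ := by
          gcongr
          exact norm_sum_le _ _
      _ ≤ 1 * ∑ π ∈ Oq n, ‖IG S (gk a b h) π‖ * Z := by
          gcongr with π hπ
          rw [norm_mul]
          gcongr
          exact hz π
      _ = _ := by rw [one_mul, ← Finset.sum_mul, mul_comm]
  refine (norm_sub_le _ _).trans (add_le_add ?_ n3)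
  refine (norm_add_le _ _).trans (add_le_add ?_ n2)
  exact norm_add_le _ _

end

end Pool.Agent.T2H54.CL
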