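import Pool.Agent.T2H54.CL.Asm1

set_option autoImplicit false

/-! Assembly of project CL, second part: the replacement of the pairs. -/

namespace Pool.Agent.T2H54.CL

open Complex Filter Topology MeasureTheory Set
open Pool.Agent.TH612.CF Pool.Agent.TH612.GS Pool.Agent.T2H54.SB Pool.Agent.T2H54.TP
open Pool.Agent.Y969.GP (ht lam PS FR)

noncomputable section

variable {n : ℕ}

lemma Dp_cont (a b : ℝ) (N : ℕ) : Continuous (Dp a b N) := by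
  unfold Dp
  refine continuous_finsetSum _ fun q _ => ?_
  have h1 := Xab_cont a b
  refine Continuous.mul (by fun_prop) ?_
  fun_prop

lemma sum_consts (C T : Fin n → ℝ) (hC : ∀ i, 0 < C i) (hT : ∀ i, 2 ≤ T i) :
    ∃ C' T' : ℝ, 0 < C' ∧ 2 ≤ T' ∧ ∀ i, C i ≤ C' ∧ T i ≤ T' := by
  refine ⟨1 + ∑ i, C i, 2 + ∑ i, T i, ?_, ?_, fun i => ⟨?_, ?_⟩⟩
  · have : 0 ≤ ∑ i, C i := Finset.sum_nonneg fun i _ => (hC i).le
    linarith
  · have : 0 ≤ ∑ i, T i := Finset.sum_nonneg fun i _ => by linarith [hT i]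
    linarith
  · have := Finset.single_le_sum (f := C) (fun i _ => (hC i).le) (Finset.mem_univ i)
    linarith
  · have := Finset.single_le_sum (f := T) (fun i _ => by linarith [hT i]) (Finset.mem_univ i)
    linarith

lemma opAll (hK1 : S_K1) (hOPB : S_OPB) (a b : Fin (n + 1) → ℝ) (hab : ∀ j, a j ≠ b j) {ε : ℝ}
    (hε : 0 < ε) : ∃ C T₀ : ℝ, 0 < C ∧ 2 ≤ T₀ ∧ ∀ (i : Fin n) (T S : ℝ) (N : ℕ) (R : ℝ → ℂ), T₀ ≤ T →
    0 ≤ S → S ≤ T → 1 ≤ N → (N : ℝ) ≤ T ^ (1 / 8 : ℝ) → Continuous R →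
    ∫ y in (0:ℝ)..T, ‖∫ t in (0:ℝ)..S, (Bab (a i.succ) (b i.succ) (t + y) -
      Dp (a i.succ) (b i.succ) N (t + y)) * R t‖ ^ 2 ≤
      (C * T ^ (1 + ε) * (N : ℝ) ^ (-(1 / 2) : ℝ)) ^ 2 * ∫ t in (0:ℝ)..S, ‖R t‖ ^ 2 := by
  have h0 : ∀ i : Fin n, _ := fun i => hK1 (a i.succ) (b i.succ) ε (hab _) hε
  choose C T₀ hC hT₀ h using h0
  obtain ⟨C', T', hC', hT', hi⟩ := sum_consts C T₀ hC hT₀
  refine ⟨C', T', hC', hT', fun i T S N R hT hS hST hN hNT hR => ?_⟩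
  have hT0 : 0 < T := by linarith
  refine hOPB (fun t => Bab (a i.succ) (b i.succ) t - Dp (a i.succ) (b i.succ) N t) R T S _
      ((Bab_cont _ _).sub (Dp_cont _ _ _)) hR hT0 hS hST (by positivity) fun ξ => ?_
  refine (h i T 0 (2 * T) ξ N ((hi i).2.trans hT) le_rfl (by linarith) le_rfl hN hNT).trans ?_
  have := (hi i).1
  gcongr

lemma vAll (hVB : S_VBQ) (a b : Fin (n + 1) → ℝ) (hab : ∀ j, a j ≠ b j) {ε : ℝ}
    (hε : 0 < ε) : ∃ C T₀ : ℝ, 0 < C ∧ 2 ≤ T₀ ∧ ∀ (i : Fin n) (T v : ℝ) (N : ℕ), T₀ ≤ T →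
    0 ≤ v → v ≤ T → 1 ≤ N → (N : ℝ) ≤ T ^ (1 / 8 : ℝ) →
    ∫ y in (0:ℝ)..T, ‖Bab (a i.succ) (b i.succ) (v + y)‖ ^ 2 ≤ C * T ^ (1 + ε) ∧
    ∫ y in (0:ℝ)..T, ‖Dp (a i.succ) (b i.succ) N (v + y)‖ ^ 2 ≤ C * T ^ (1 + ε) := by
  have h0 : ∀ i : Fin n, _ := fun i => hVB (a i.succ) (b i.succ) ε (hab _) hε
  choose C T₀ hC hT₀ h using h0
  obtain ⟨C', T', hC', hT', hi⟩ := sum_consts C T₀ hC hT₀
  refine ⟨C', T', hC', hT', fun i T v N hT hv hvT hN hNT => ?_⟩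
  have hT0 : 0 < T := by linarith
  obtain ⟨g1, g2⟩ := h i T v N ((hi i).2.trans hT) hv hvT hN hNT
  have := (hi i).1
  exact ⟨g1.trans (by gcongr), g2.trans (by gcongr)⟩

lemma ZQ_cont (a b : Fin (n + 1) → ℝ) : Continuous (Function.uncurry fun (h : Fin n → ℝ) (t : ℝ) =>
    ZQ a b h t) := by
  unfold Function.uncurry ZQ
  refine ((Bab_cont _ _).comp continuous_snd).mul ?_
  exact continuous_finsetProd _ fun j _ => (Bab_cont _ _).comp (by fun_prop)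

theorem z1Q (T S K V : ℝ) (N : ℕ) (a b : Fin (n + 1) → ℝ) (hT : 0 ≤ T) (hS : 0 ≤ S)
    (hK : 0 ≤ K) (hV : 0 ≤ V)
    (hop : ∀ (i : Fin n) (R : ℝ → ℂ), Continuous R →
      ∫ y in (0:ℝ)..T, ‖∫ t in (0:ℝ)..S, (Bab (a i.succ) (b i.succ) (t + y) -
        Dp (a i.succ) (b i.succ) N (t + y)) * R t‖ ^ 2 ≤ K * ∫ t in (0:ℝ)..S, ‖R t‖ ^ 2)
    (hVz : ∀ (i : Fin n) (v : ℝ), 0 ≤ v → v ≤ S →
      ∫ y in (0:ℝ)..T, ‖Bab (a i.succ) (b i.succ) (v + y)‖ ^ 2 ≤ V)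
    (hVP : ∀ (i : Fin n) (v : ℝ), 0 ≤ v → v ≤ S →
      ∫ y in (0:ℝ)..T, ‖Dp (a i.succ) (b i.succ) N (v + y)‖ ^ 2 ≤ V) :
    ∫⁻ h, ENNReal.ofReal (‖A1q a b N S h‖ ^ 2) ∂(mP (Fin n) T) ≤
      ENNReal.ofReal (4 ^ n * K * V ^ (n - 1) * ∫ t in (0:ℝ)..S, ‖Bab (a 0) (b 0) t‖ ^ 2) := by
  have key := repR (Fin n) (fun i v => Bab (a i.succ) (b i.succ) v)
    (fun i v => Dp (a i.succ) (b i.succ) N v) (Bab (a 0) (b 0)) T S K V hS hT hK hV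
    (fun i => Bab_cont _ _) (fun i => Dp_cont _ _ _) (Bab_cont _ _) hop
    (fun i t ht => hVz i t ht.1 ht.2) (fun i t ht => hVP i t ht.1 ht.2)
  have e1 : ∀ h : Fin n → ℝ, (∫ t in (0:ℝ)..S, Bab (a 0) (b 0) t *
      (∏ i : Fin n, Bab (a i.succ) (b i.succ) (t + h i) -
        ∏ i : Fin n, Dp (a i.succ) (b i.succ) N (t + h i))) = A1q a b N S h := by
    intro h
    unfold A1q ZQ
    simp only [mul_sub]
    rw [intervalIntegral.integral_sub]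
    · refine Continuous.intervalIntegrable ?_ _ _
      exact (Bab_cont _ _).mul
        (continuous_finsetProd _ fun i _ => (Bab_cont _ _).comp (by fun_prop))
    · refine Continuous.intervalIntegrable ?_ _ _
      exact (Bab_cont _ _).mul
        (continuous_finsetProd _ fun i _ => (Dp_cont _ _ _).comp (by fun_prop))
  simp only [e1, Fintype.card_fin] at key
  exact key

/-- mean square over a short interval of `t` -/
theorem z2Q (T A B V : ℝ) (a b : Fin (n + 1) → ℝ) (hT : 0 ≤ T) (hAB : A ≤ B) (hV : 0 ≤ V)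
    (hVz : ∀ (i : Fin n) (v : ℝ), A ≤ v → v ≤ B →
      ∫ y in (0:ℝ)..T, ‖Bab (a i.succ) (b i.succ) (v + y)‖ ^ 2 ≤ V) :
    ∫⁻ h, ENNReal.ofReal ((∫ t in A..B, ‖ZQ a b h t‖) ^ 2) ∂(mP (Fin n) T) ≤
      ENNReal.ofReal ((B - A) * (∫ t in A..B, ‖Bab (a 0) (b 0) t‖ ^ 2) * V ^ n) := by
  have key := rep2R (Fin n) (fun i v => Bab (a i.succ) (b i.succ) v) (Bab (a 0) (b 0)) T A B V hT
    hAB hV (fun i => Bab_cont _ _) (Bab_cont _ _) (fun i t ht => hVz i t ht.1 ht.2)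
  simp only [Fintype.card_fin] at key
  exact key

end

end Pool.Agent.T2H54.CL
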