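import Pool.Agent.T2H54.CL.Asm2

set_option autoImplicit false

/-! Assembly of project CL, third part: the pieces of the exceptional set. -/

namespace Pool.Agent.T2H54.CL

open Complex Filter Topology MeasureTheory Set
open Pool.Agent.TH612.CF Pool.Agent.TH612.GS Pool.Agent.T2H54.SB Pool.Agent.T2H54.TP
open Pool.Agent.W182.KO hiding ee SS_summable DD

noncomputable section

variable {n : ℕ}

/-- the exceptional set -/
def BadQ (a b : Fin (n + 1) → ℝ) (T lam : ℝ) : Set (Fin n → ℝ) :=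
  {h | (∀ i, 0 ≤ h i ∧ h i ≤ T) ∧ ∃ S : ℝ, 0 ≤ S ∧ S ≤ T ∧ lam < ‖DD S (gk a b h)‖}

/-- the three differences are large -/
def W3q (ψ : ℝ → ℝ) (a b : Fin (n + 1) → ℝ) (T y : ℝ) (N : ℕ) : Set (Fin n → ℝ) :=
  {h | 1 / y ^ 5 < ‖RQ a b N h - SPq ψ N a b h‖} ∪
  {h | 1 / y ^ 5 < ‖SPq ψ N a b h - GMq N a b h 0‖} ∪
  (SepH n T ∩ {h | 1 / y ^ 5 < ‖GMq N a b h 0 - zrq a b h‖})

lemma E3q_le {ψ : ℝ → ℝ} {a b : Fin (n + 1) → ℝ} {T y : ℝ} {N : ℕ} {h : Fin n → ℝ}
    (hs : h ∈ SepH n T) (hh : h ∉ W3q ψ a b T y N) : E3q ψ a b N h ≤ 3 * (1 / y ^ 5) := by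
  unfold W3q at hh
  simp only [mem_union, not_or, mem_ofPred_eq, not_lt, mem_inter_iff, not_and] at hh
  obtain ⟨⟨h1, h2⟩, h3⟩ := hh
  have h3' := h3 hs
  unfold E3q
  linarith

open Classical in
/-- the pieces of the exceptional set -/
lemma BadQ_sub (hQD : S_QDQ) (ψ : ℝ → ℝ) {a b : Fin (n + 1) → ℝ} {T y K0 Z : ℝ} {N L : ℕ}
    (hT : 3 ≤ T) (hy16 : 16 ≤ y) (hJ1 : 1 ≤ L) (hJl : y ^ 16 ≤ L)
    (hK0 : 0 ≤ K0) (hKy : (Fintype.card (Finset (Fin (n + 1))) : ℝ) * K0 ≤ y)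
    (hK1 : ∀ J : Finset (Fin (n + 1)), ‖zc (sw J a b) (sw J b a)‖ ≤ K0)
    (hZ0 : 0 ≤ Z) (hZ : (Fintype.card (Equiv.Perm (Fin (n + 1) ⊕ Fin (n + 1))) : ℝ) * Z ≤ y)
    (hz : ∀ h ∈ SepH n T, ∀ π : Equiv.Perm (Fin (n + 1) ⊕ Fin (n + 1)),
      ‖zp (gk a b h) π‖ ≤ Z)
    (hTN : ∀ h ∈ SepH n T, ∀ S : ℝ, 0 ≤ S → S ≤ T → ‖TNdq a b N S h‖ ≤ T / y ^ 4) :
    BadQ a b T (T / y ^ 2) ⊆ (SepH n T)ᶜ ∪
      (⋃ J : Finset (Fin (n + 1)), W3q ψ (sw J a b) (sw J b a) T y N) ∪
      (⋃ i ∈ Finset.range (L + 1), {h | T / y ^ 4 < ‖A1q a b N (i * (T / L)) h‖}) ∪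
      (⋃ i ∈ Finset.range (L + 1), ⋃ π ∈ Oq n, {h | T / y ^ 8 < ‖IG (i * (T / L)) (gk a b h) π‖}) ∪
      ⋃ i ∈ Finset.range L, {h | T / y ^ 4 < ∫ t in (i * (T / L))..((i + 1 : ℕ) * (T / L)),
        ‖ZQ a b h t‖} := by
  intro h hh
  by_contra hcon
  simp only [mem_union, not_or, mem_iUnion, not_exists, mem_compl_iff, not_not] at hcon
  obtain ⟨⟨⟨⟨g1, g2⟩, g5⟩, g6⟩, g7⟩ := hcon
  simp only [mem_ofPred_eq, not_lt] at g5 g6 g7
  obtain ⟨hcube, S, hS0, hST, hS⟩ := hh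
  have hy0 : 0 < y := by linarith
  have hJ : (0:ℝ) < L := by exact_mod_cast (by omega : 0 < L)
  have hTJ : 0 < T / L := by positivity
  have hzz := hz h g1
  have k1 : ∀ J : Finset (Fin (n + 1)), E3q ψ (sw J a b) (sw J b a) N h ≤ 3 * (1 / y ^ 5) :=
    fun J => E3q_le g1 (g2 J)
  have kk : ∑ J : Finset (Fin (n + 1)), T * (K0 * E3q ψ (sw J a b) (sw J b a) N h) ≤
      3 * (T / y ^ 4) := by
    calc ∑ J : Finset (Fin (n + 1)), T * (K0 * E3q ψ (sw J a b) (sw J b a) N h)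
        ≤ ∑ _J : Finset (Fin (n + 1)), T * (K0 * (3 * (1 / y ^ 5))) := by
          refine Finset.sum_le_sum fun J _ => ?_
          have := k1 J
          gcongr
      _ = ((Fintype.card (Finset (Fin (n + 1))) : ℝ) * K0) * (T * (3 * (1 / y ^ 5))) := by
          rw [Finset.sum_const, Finset.card_univ, nsmul_eq_mul]; ring
      _ ≤ y * (T * (3 * (1 / y ^ 5))) := by gcongr
      _ = 3 * (T / y ^ 4) := by field_simp
  -- bound at the grid points
  have key1 : ∀ i ∈ Finset.range (L + 1), ‖DD (i * (T / L)) (gk a b h)‖ ≤ 9 * (T / y ^ 4) := by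
    intro i hi
    have hi' : (i:ℝ) ≤ L := by exact_mod_cast Nat.lt_succ_iff.1 (Finset.mem_range.1 hi)
    have hSi0 : 0 ≤ (i:ℝ) * (T / L) := by positivity
    have hSiT : (i:ℝ) * (T / L) ≤ T := by
      calc (i:ℝ) * (T / L) ≤ L * (T / L) := by gcongr
        _ = T := by field_simp
    refine (DD_leQ hQD ψ hSi0 hSiT hZ0 hK0 hK1 N h hzz).trans ?_
    have b1 := g5 i hi
    have b2 := hTN h g1 _ hSi0 hSiT
    have b6 : Z * ∑ π ∈ Oq n, ‖IG (i * (T / L)) (gk a b h) π‖ ≤ T / y ^ 4 := by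
      have c1 : ∑ π ∈ Oq n, ‖IG (i * (T / L)) (gk a b h) π‖ ≤
          (Fintype.card (Equiv.Perm (Fin (n + 1) ⊕ Fin (n + 1))) : ℝ) * (T / y ^ 8) := by
        calc _ ≤ ∑ _π ∈ Oq n, T / y ^ 8 := Finset.sum_le_sum fun π hπ => g6 i hi π hπ
          _ = ((Oq n).card : ℝ) * (T / y ^ 8) := by rw [Finset.sum_const, nsmul_eq_mul]
          _ ≤ _ := by
              gcongr
              exact_mod_cast Finset.card_le_univ _
      calc _ ≤ Z * ((Fintype.card (Equiv.Perm (Fin (n + 1) ⊕ Fin (n + 1))) : ℝ) * (T / y ^ 8)) := by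
            gcongr
        _ = ((Fintype.card (Equiv.Perm (Fin (n + 1) ⊕ Fin (n + 1))) : ℝ) * Z) * (T / y ^ 8) := by ring
        _ ≤ y * (T / y ^ 8) := by gcongr
        _ = T / y ^ 4 * (1 / y ^ 3) := by field_simp
        _ ≤ T / y ^ 4 * 1 := by
            gcongr
            rw [div_le_one (by positivity)]
            exact one_le_pow₀ (by linarith)
        _ = _ := mul_one _
    have hpos : 0 ≤ T / y ^ 4 := by positivity
    linarith
  -- the nearest grid point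
  set i : ℕ := ⌊S / (T / L)⌋₊ with hi
  have hiS : (i:ℝ) * (T / L) ≤ S := by
    have := Nat.floor_le (a := S / (T / L)) (by positivity)
    rwa [← hi, le_div_iff₀ hTJ] at this
  have hiS2 : S < ((i:ℝ) + 1) * (T / L) := by
    have := Nat.lt_floor_add_one (S / (T / L))
    rwa [← hi, div_lt_iff₀ hTJ] at this
  have hiJ : i ≤ L := by
    have h2 : (i:ℝ) * (T / L) ≤ L * (T / L) := by
      refine (hiS.trans hST).trans (le_of_eq ?_)
      field_simp
    have h3 := le_of_mul_le_mul_right h2 hTJ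
    exact_mod_cast h3
  have hfin : ‖DD S (gk a b h)‖ ≤ T / y ^ 2 := by
    have k1 := key1 i (Finset.mem_range.2 (by omega))
    have hd := DD_diffF (k := n + 1) hiS hZ0 hzz
    have k2 : (S - i * (T / L)) * (Fintype.card (Equiv.Perm (Fin (n + 1) ⊕ Fin (n + 1))) * Z) ≤
        T / y ^ 4 := by
      have d1 : S - i * (T / L) ≤ T / L := by linarith
      have d2 : T / (L:ℝ) ≤ T / y ^ 16 := by
        gcongr
      calc _ ≤ T / y ^ 16 * y := by
            refine mul_le_mul (d1.trans d2) hZ (by positivity) (by positivity)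
        _ = T / y ^ 4 * (1 / y ^ 11) := by field_simp
        _ ≤ T / y ^ 4 * 1 := by
            gcongr
            rw [div_le_one (by positivity)]
            exact one_le_pow₀ (by linarith)
        _ = _ := mul_one _
    have eZ : ∀ t, Zg (gk a b h) t = ZQ a b h t := fun t => Zg_gk a b h t
    simp only [eZ] at hd
    have k3 : (∫ t in (i * (T / L))..S, ‖ZQ a b h t‖) ≤ T / y ^ 4 := by
      have hcn : Continuous fun t : ℝ => ‖ZQ a b h t‖ := by
        have := (Zg_cont (gk a b h)).norm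
        simpa only [eZ] using this
      rcases lt_or_eq_of_le hiJ with hlt | heq
      · refine le_trans ?_ (g7 i (Finset.mem_range.2 hlt))
        refine intervalIntegral.integral_mono_interval le_rfl hiS ?_ ?_ (hcn.intervalIntegrable _ _)
        · push_cast; exact hiS2.le
        · exact Eventually.of_forall fun t => norm_nonneg _
      · have e : (i:ℝ) * (T / L) = S := by
          refine le_antisymm hiS ?_
          rw [heq]
          refine hST.trans (le_of_eq ?_)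
          field_simp
        rw [e, intervalIntegral.integral_same]
        positivity
    have k4 : ‖DD S (gk a b h)‖ ≤ ‖DD (i * (T / L)) (gk a b h)‖ +
        ‖DD S (gk a b h) - DD (i * (T / L)) (gk a b h)‖ := by
      have := norm_add_le (DD (i * (T / L)) (gk a b h))
        (DD S (gk a b h) - DD (i * (T / L)) (gk a b h))
      rwa [add_sub_cancel] at this
    have k5 : 11 * (T / y ^ 4) ≤ T / y ^ 2 := by
      have : T / y ^ 2 = (T / y ^ 4) * y ^ 2 := by field_simp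
      rw [this, mul_comm]
      gcongr
      nlinarith
    linarith
  linarith

end

end Pool.Agent.T2H54.CL
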