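import Pool.Agent.T2H54.CL.Asm3

set_option autoImplicit false

/-! Assembly of project CL: continuity and measurability. -/

namespace Pool.Agent.T2H54.CL

open Complex Filter Topology MeasureTheory Set
open Pool.Agent.TH612.CF Pool.Agent.TH612.GS Pool.Agent.T2H54.SB Pool.Agent.T2H54.TP
open Pool.Agent.W182.KO hiding ee SS_summable DD

noncomputable section

variable {n : ℕ}

lemma hc_cont (j : Fin (n + 1)) : Continuous fun h : Fin n → ℝ => hc h j := by
  unfold hc
  refine Fin.cases ?_ (fun j => ?_) j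
  · simp only [Fin.cons_zero]; exact continuous_const
  · simp only [Fin.cons_succ]; exact continuous_apply _

lemma gki_cont (a b : Fin (n + 1) → ℝ) (i : Fin (n + 1) ⊕ Fin (n + 1)) :
    Continuous fun h : Fin n → ℝ => gk a b h i := by
  unfold gk
  cases i with
  | inl j =>
    simp only [Sum.elim_inl]
    exact (hc_cont j).add continuous_const
  | inr j =>
    simp only [Sum.elim_inr]
    exact (hc_cont j).add continuous_const

lemma gk_cont (a b : Fin (n + 1) → ℝ) : Continuous fun h : Fin n → ℝ => gk a b h :=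
  continuous_pi fun i => gki_cont a b i

lemma chq_cont (ν : Fin n → ℕ × ℕ) : Continuous fun h : Fin n → ℝ => chq ν h := by
  unfold chq
  exact continuous_finsetProd _ fun j _ => by fun_prop

lemma RQ_cont (a b : Fin (n + 1) → ℝ) (N : ℕ) : Continuous fun h : Fin n → ℝ => RQ a b N h := by
  unfold RQ
  exact continuous_finsetSum _ fun ν hν => continuous_const.mul (chq_cont ν)

lemma drq_cont (a b : Fin (n + 1) → ℝ) (m : ℕ) :
    Continuous fun h : Fin n → ℝ => drA (gk a b h) m := by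
  have h : Continuous fun γ : Fin (n + 1) ⊕ Fin (n + 1) → ℝ => dr γ m := by
    unfold dr dg
    refine Continuous.mul (Continuous.mul ?_ ?_) continuous_const
    · exact tau_cont' (fun j => by fun_prop) m
    · exact tau_cont' (fun j => by fun_prop) m
  exact h.comp (gk_cont a b)

lemma SPq_cont (ψ : ℝ → ℝ) (a b : Fin (n + 1) → ℝ) (N : ℕ) :
    Continuous fun h : Fin n → ℝ => SPq ψ N a b h := by
  unfold SPq Aq
  refine continuous_finsetSum _ fun m _ => Continuous.mul ?_ continuous_const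
  simp only [ArithmeticFunction.mul_apply]
  exact continuous_finsetSum _ fun p _ => continuous_const.mul (drq_cont a b _)

lemma GMq0_cont (a b : Fin (n + 1) → ℝ) (N : ℕ) :
    Continuous fun h : Fin n → ℝ => GMq N a b h 0 := by
  unfold GMq
  refine Continuous.mul ?_ ?_
  · rw [← continuousOn_univ]
    refine FH_cont isOpen_univ (c := 1 / 8) (by norm_num)
      (a := fun (h : Fin n → ℝ) (j : Fin (n + 1)) => (gk a b h (Sum.inl j) : ℂ) - I * 0 / 2)
      (b := fun (h : Fin n → ℝ) (j : Fin (n + 1)) => (gk a b h (Sum.inr j) : ℂ) + I * 0 / 2)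
      (fun j => ?_) (fun j => ?_) fun γ _ j => ?_
    · have := gki_cont a b (n := n) (Sum.inl j)
      exact (by fun_prop : Continuous fun h : Fin n → ℝ =>
        (gk a b h (Sum.inl j) : ℂ) - I * 0 / 2).continuousOn
    · have := gki_cont a b (n := n) (Sum.inr j)
      exact (by fun_prop : Continuous fun h : Fin n → ℝ =>
        (gk a b h (Sum.inr j) : ℂ) + I * 0 / 2).continuousOn
    · simp
  · refine continuous_finsetProd _ fun p _ => ?_
    unfold zN
    refine continuous_finsetSum _ fun m hm => ?_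
    have hn1 : 1 ≤ m := (Finset.mem_Icc.1 hm).1
    have hn0 : (m : ℂ) ≠ 0 := by exact_mod_cast (by omega : m ≠ 0)
    have h1 := gki_cont a b (n := n) (Sum.inl p.1)
    have h2 := gki_cont a b (n := n) (Sum.inr p.2)
    exact Continuous.const_cpow (by fun_prop) (Or.inl hn0)

lemma SepH_meas (n : ℕ) (T : ℝ) : MeasurableSet (SepH n T) := by
  have : SepH n T = (⋂ i, {h : Fin n → ℝ | 0 ≤ h i ∧ h i ≤ T}) ∩
      (⋂ p : Fin (n + 1), ⋂ q : Fin (n + 1),
        {h | p ≠ q → T ^ (1 / 2 : ℝ) ≤ |hc h p - hc h q|}) := by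
    ext h
    simp only [SepH, mem_ofPred_eq, mem_inter_iff, mem_iInter]
  rw [this]
  refine IsClosed.measurableSet ?_
  refine IsClosed.inter (isClosed_iInter fun i => ?_)
    (isClosed_iInter fun p => isClosed_iInter fun q => ?_)
  · exact (isClosed_le continuous_const (continuous_apply i)).inter
      (isClosed_le (continuous_apply i) continuous_const)
  · by_cases h : p = q
    · simp [h]
    · simp only [ne_eq, h, not_false_eq_true, true_imp_iff]
      exact isClosed_le continuous_const ((hc_cont p).sub (hc_cont q)).abs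

/-- the cluster of an index -/
def cl (i : Fin (n + 1) ⊕ Fin (n + 1)) : Fin (n + 1) := Sum.elim id id i

lemma gk_eq (a b : Fin (n + 1) → ℝ) (h : Fin n → ℝ) (i : Fin (n + 1) ⊕ Fin (n + 1)) :
    gk a b h i = hc h (cl i) + Sum.elim a b i := by
  cases i <;> rfl

lemma SepH_diff {a b : Fin (n + 1) → ℝ} {T D : ℝ} {h : Fin n → ℝ} (hh : h ∈ SepH n T)
    (hD : ∀ p, |a p| ≤ D ∧ |b p| ≤ D) {p q : Fin (n + 1) ⊕ Fin (n + 1)} (hpq : cl p ≠ cl q) :
    T ^ (1 / 2 : ℝ) - 2 * D ≤ |gk a b h p - gk a b h q| := by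
  have h1 := hh.2 _ _ hpq
  have h2 : ∀ p : Fin (n + 1) ⊕ Fin (n + 1), |Sum.elim a b p| ≤ D := by
    intro p
    cases p with
    | inl p => exact (hD p).1
    | inr p => exact (hD p).2
  rw [gk_eq, gk_eq]
  have h3 := h2 p
  have h4 := h2 q
  have h5 : |hc h (cl p) - hc h (cl q)| ≤ |hc h (cl p) + Sum.elim a b p -
      (hc h (cl q) + Sum.elim a b q)| + |Sum.elim a b q - Sum.elim a b p| := by
    refine le_trans (le_of_eq ?_) (abs_add_le _ _)
    congr 1
    ring
  have h6 := abs_sub (Sum.elim a b q) (Sum.elim a b p)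
  linarith

lemma zrq_cont {a b : Fin (n + 1) → ℝ} {T D : ℝ} (hD : ∀ p, |a p| ≤ D ∧ |b p| ≤ D)
    (hT : 2 * D + 1 ≤ T ^ (1 / 2 : ℝ)) :
    ContinuousOn (fun h : Fin n → ℝ => zrq a b h) (SepH n T) := by
  unfold zrq
  refine ContinuousOn.mul ?_ ?_
  · refine ContinuousOn.mono (s := univ) ?_ (subset_univ _)
    refine FH_cont isOpen_univ (c := 1 / 8) (by norm_num)
      (a := fun (h : Fin n → ℝ) (j : Fin (n + 1)) => (gk a b h (Sum.inl j) : ℂ))
      (b := fun (h : Fin n → ℝ) (j : Fin (n + 1)) => (gk a b h (Sum.inr j) : ℂ))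
      (fun j => ?_) (fun j => ?_) fun γ _ j => ?_
    · exact (Complex.continuous_ofReal.comp (gki_cont a b _)).continuousOn
    · exact (Complex.continuous_ofReal.comp (gki_cont a b _)).continuousOn
    · rw [Complex.ofReal_im, Complex.ofReal_im, abs_zero]
      norm_num
  · refine continuousOn_finsetProd _ fun p hp => ?_
    have h1 := gki_cont a b (Sum.inl p.1)
    have h2 := gki_cont a b (Sum.inr p.2)
    refine zeta_cont (by fun_prop) fun h hh hne => ?_
    have hp' : p.1 ≠ p.2 := (Finset.mem_filter.1 hp).2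
    have h3 := SepH_diff hh hD (p := Sum.inl p.1) (q := Sum.inr p.2) hp'
    have h4 : (gk a b h (Sum.inl p.1) : ℂ) - gk a b h (Sum.inr p.2) = 0 := by
      have h5 : I * ((gk a b h (Sum.inl p.1) : ℂ) - gk a b h (Sum.inr p.2)) = 0 := by
        linear_combination hne
      rcases mul_eq_zero.1 h5 with h6 | h6
      · exact absurd h6 I_ne_zero
      · exact h6
    rw [← ofReal_sub, ofReal_eq_zero] at h4
    rw [h4, abs_zero] at h3
    linarith

lemma DQ_cont (a b : Fin (n + 1) → ℝ) (N : ℕ) : Continuous (Function.uncurry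
    fun (h : Fin n → ℝ) (t : ℝ) => Bab (a 0) (b 0) t * ∏ j : Fin n,
      Dp (a j.succ) (b j.succ) N (t + h j)) := by
  unfold Function.uncurry
  refine ((Bab_cont _ _).comp continuous_snd).mul ?_
  exact continuous_finsetProd _ fun j _ => (Dp_cont _ _ _).comp (by fun_prop)

lemma A1q_cont (a b : Fin (n + 1) → ℝ) (N : ℕ) (S : ℝ) :
    Continuous fun h : Fin n → ℝ => A1q a b N S h := by
  unfold A1q
  exact (intervalIntegral.continuous_parametric_intervalIntegral_of_continuous
    (ZQ_cont a b) continuous_const).sub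
    (intervalIntegral.continuous_parametric_intervalIntegral_of_continuous
    (DQ_cont a b N) continuous_const)

lemma intZQ_cont (a b : Fin (n + 1) → ℝ) (A B : ℝ) :
    Continuous fun h : Fin n → ℝ => ∫ t in A..B, ‖ZQ a b h t‖ := by
  exact intervalIntegral.continuous_parametric_intervalIntegral_of_continuous
    (f := fun (h : Fin n → ℝ) (t : ℝ) => ‖ZQ a b h t‖)
    (ZQ_cont a b).norm continuous_const

lemma cheb3q {a b : Fin (n + 1) → ℝ} {T y B3 B4 B5 D : ℝ} {ψ : ℝ → ℝ} {N : ℕ} (hy : 0 < y)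
    (hD : ∀ p, |a p| ≤ D ∧ |b p| ≤ D) (hT : 2 * D + 1 ≤ T ^ (1 / 2 : ℝ))
    (h3 : ∫⁻ h, ENNReal.ofReal (‖RQ a b N h - SPq ψ N a b h‖ ^ 2)
      ∂(mP (Fin n) T) ≤ ENNReal.ofReal B3)
    (h4 : ∫⁻ h, ENNReal.ofReal (‖SPq ψ N a b h - GMq N a b h 0‖ ^ 2)
      ∂(mP (Fin n) T) ≤ ENNReal.ofReal B4)
    (h5 : ∫⁻ h in SepH n T, ENNReal.ofReal (‖GMq N a b h 0 - zrq a b h‖ ^ 2)
      ∂(mP (Fin n) T) ≤ ENNReal.ofReal B5) {c : ℝ} (hc : 0 ≤ c)
    (g3 : B3 * y ^ 10 ≤ c) (g4 : B4 * y ^ 10 ≤ c) (g5 : B5 * y ^ 10 ≤ c) :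
    mP (Fin n) T (W3q ψ a b T y N) ≤ ENNReal.ofReal (3 * c) := by
  have hl : 0 < 1 / y ^ 5 := by positivity
  have hd : ∀ B : ℝ, B / (1 / y ^ 5) ^ 2 = B * y ^ 10 := by
    intro B
    field_simp
  have u3 : mP (Fin n) T {h | 1 / y ^ 5 < ‖RQ a b N h - SPq ψ N a b h‖} ≤
      ENNReal.ofReal c := by
    refine (cheb (((RQ_cont a b N).sub (SPq_cont ψ a b N)).norm.aemeasurable)
      hl h3).trans (ENNReal.ofReal_le_ofReal ?_)
    rw [hd]; exact g3
  have u4 : mP (Fin n) T {h | 1 / y ^ 5 < ‖SPq ψ N a b h - GMq N a b h 0‖} ≤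
      ENNReal.ofReal c := by
    refine (cheb (((SPq_cont ψ a b N).sub (GMq0_cont a b N)).norm.aemeasurable)
      hl h4).trans (ENNReal.ofReal_le_ofReal ?_)
    rw [hd]; exact g4
  have u5 : mP (Fin n) T (SepH n T ∩
      {h | 1 / y ^ 5 < ‖GMq N a b h 0 - zrq a b h‖}) ≤ ENNReal.ofReal c := by
    have hm : AEMeasurable (fun h : Fin n → ℝ => ‖GMq N a b h 0 - zrq a b h‖)
        ((mP (Fin n) T).restrict (SepH n T)) :=
      ((((GMq0_cont a b N)).continuousOn.sub (zrq_cont hD hT)).norm).aemeasurable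
        (SepH_meas n T)
    have hcb := cheb hm (lam := 1 / y ^ 5) hl h5
    have e0 : mP (Fin n) T (SepH n T ∩
        {h | 1 / y ^ 5 < ‖GMq N a b h 0 - zrq a b h‖}) ≤
        ((mP (Fin n) T).restrict (SepH n T))
          {h | 1 / y ^ 5 < ‖GMq N a b h 0 - zrq a b h‖} := by
      rw [inter_comm]
      exact Measure.le_restrict_apply _ _
    refine e0.trans (hcb.trans (ENNReal.ofReal_le_ofReal ?_))
    rw [hd]; exact g5
  unfold W3q
  have e3 : 3 * c = c + c + c := by ring
  rw [e3, ENNReal.ofReal_add (by positivity) hc, ENNReal.ofReal_add hc hc]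
  refine (measure_union_le _ _).trans (add_le_add ?_ u5)
  exact (measure_union_le _ _).trans (add_le_add u3 u4)

end

end Pool.Agent.T2H54.CL
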