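import Pool.Agent.T2H54.TP.Stm

set_option autoImplicit false

/-!
Project CL (helper54), MP_fa2474_nt: clusters. `k = n + 1`, `α_j = h_j + a_j`, `β_j = h_j + b_j` with fixed
arbitrary offsets `a_j ≠ b_j`, `h_0 = 0` and random centres `h_1, …, h_n ∈ [0,T]`. `2^k` terms of the recipe
(the swaps of `α_j` and `β_j` for `j` in a subset `J`) have size `T`. Definitions.
-/

namespace Pool.Agent.T2H54.CL

open Complex Filter Topology MeasureTheory Set
open Pool.Agent.TH612.CF Pool.Agent.TH612.GS Pool.Agent.T2H54.SB Pool.Agent.T2H54.TP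
open Pool.Agent.Y969.GP (ht lam PS FR)

noncomputable section

variable {n : ℕ}

/-- the centres -/
def hc (h : Fin n → ℝ) : Fin (n + 1) → ℝ := Fin.cons 0 h

/-- the shift vector -/
def gk (a b : Fin (n + 1) → ℝ) (h : Fin n → ℝ) : Fin (n + 1) ⊕ Fin (n + 1) → ℝ :=
  Sum.elim (fun j => hc h j + a j) (fun j => hc h j + b j)

/-- the offsets after the swap of the clusters `j ∈ J` -/
def sw (J : Finset (Fin (n + 1))) (a b : Fin (n + 1) → ℝ) : Fin (n + 1) → ℝ :=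
  fun j => if j ∈ J then b j else a j

/-- the factors of the functional equation of the swapped clusters -/
def XJ (J : Finset (Fin (n + 1))) (a b : Fin (n + 1) → ℝ) (h : Fin n → ℝ) (t : ℝ) : ℂ :=
  ∏ j ∈ J, Xab (a j) (b j) (t + hc h j)

/-- the product of the constants `ζ(1 + i(a_j - b_j))` -/
def zc (a b : Fin (n + 1) → ℝ) : ℂ := ∏ j, riemannZeta (1 + I * ((a j - b j : ℝ) : ℂ))

/-- the short polynomial of a pair `ζ(1/2+i(t+a)) ζ(1/2-i(t+b))`; a pair `q = (l, m)` stands for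
`m^(-1/2-it) l^(-1/2+it)` -/
def Dp (a b : ℝ) (N : ℕ) (t : ℝ) : ℂ := ∑ q ∈ FR N,
  (kap a b q.1 q.2 * riemannZeta (1 + I * ((a - b : ℝ) : ℂ)) +
    kap b a q.1 q.2 * riemannZeta (1 - I * ((a - b : ℝ) : ℂ)) * Xab a b t) *
      cexp (-(I * ((t * lam q : ℝ) : ℂ)))

/-- tuples of reduced fractions -/
def tq (n N : ℕ) : Finset (Fin n → ℕ × ℕ) := Fintype.piFinset fun _ => FR N

/-- the two products of a tuple -/
def ql (ν : Fin n → ℕ × ℕ) : ℕ := ∏ j, (ν j).1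
def qm (ν : Fin n → ℕ × ℕ) : ℕ := ∏ j, (ν j).2

/-- the character of a tuple -/
def chq (ν : Fin n → ℕ × ℕ) (h : Fin n → ℝ) : ℂ := ∏ j, cexp (-(I * ((h j * lam (ν j) : ℝ) : ℂ)))

/-- the coefficient of a tuple; its absolute value is `1 / lcm (ql ν) (qm ν)` -/
def cq (a b : Fin (n + 1) → ℝ) (ν : Fin n → ℕ × ℕ) : ℂ :=
  kap (a 0) (b 0) (qm ν / Nat.gcd (ql ν) (qm ν)) (ql ν / Nat.gcd (ql ν) (qm ν)) *
    ∏ j : Fin n, kap (a j.succ) (b j.succ) (ν j).1 (ν j).2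

/-- the (reduced) diagonal sum -/
def RQ (a b : Fin (n + 1) → ℝ) (N : ℕ) (h : Fin n → ℝ) : ℂ := ∑ ν ∈ tq n N, cq a b ν * chq ν h

/-- `μ(g) g^(-1-ic)` -/
def moA (c : ℝ) : ArithmeticFunction ℂ :=
  ⟨fun g => (ArithmeticFunction.moebius g : ℂ) * (g : ℂ) ^ (-(1 + I * (c : ℂ))), by simp⟩

/-- the coefficients of `ζ_{(α,β)}` -/
def drA (γ : Fin (n + 1) ⊕ Fin (n + 1) → ℝ) : ArithmeticFunction ℂ := ⟨dr γ, dg_zero _ _⟩

/-- the reduced coefficients: `drA` divided by all `ζ(1 + s + i(a_j - b_j))` -/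
def Aq (a b : Fin (n + 1) → ℝ) (h : Fin n → ℝ) : ArithmeticFunction ℂ :=
  (∏ j, moA (a j - b j)) * drA (gk a b h)

/-- smoothed sums of the reduced coefficients -/
def SPq (ψ : ℝ → ℝ) (M : ℕ) (a b : Fin (n + 1) → ℝ) (h : Fin n → ℝ) : ℂ :=
  ∑ m ∈ Finset.Icc 1 M, Aq a b h m * (ψ (Real.log m / (Real.log M / 2)) : ℂ)

/-- the pairs of different clusters -/
def OD (n : ℕ) : Finset (Fin (n + 1) × Fin (n + 1)) := Finset.univ.filter fun p => p.1 ≠ p.2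

/-- the arithmetic factor times products of short Dirichlet polynomials -/
def GMq (M : ℕ) (a b : Fin (n + 1) → ℝ) (h : Fin n → ℝ) (s : ℂ) : ℂ :=
  FH (fun j => (gk a b h (Sum.inl j) : ℂ) - I * s / 2) (fun j => (gk a b h (Sum.inr j) : ℂ) + I * s / 2) *
    ∏ p ∈ OD n, zN M (1 + s + I * (gk a b h (Sum.inl p.1) - gk a b h (Sum.inr p.2)))

/-- the limit: `zr (gk a b h) / zc a b` -/
def zrq (a b : Fin (n + 1) → ℝ) (h : Fin n → ℝ) : ℂ :=
  FH (fun j => (gk a b h (Sum.inl j) : ℂ)) (fun j => (gk a b h (Sum.inr j) : ℂ)) *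
    ∏ p ∈ OD n, riemannZeta (1 + I * (gk a b h (Sum.inl p.1) - gk a b h (Sum.inr p.2)))

/-- the separated centres -/
def SepH (n : ℕ) (T : ℝ) : Set (Fin n → ℝ) :=
  {h | (∀ i, 0 ≤ h i ∧ h i ≤ T) ∧ ∀ p q : Fin (n + 1), p ≠ q → T ^ (1 / 2 : ℝ) ≤ |hc h p - hc h q|}

/-- the permutations which for some cluster `j` move exactly one of `α_j`, `β_j` to the other block -/
def Oq (n : ℕ) : Finset (Equiv.Perm (Fin (n + 1) ⊕ Fin (n + 1))) :=
  Finset.univ.filter fun π => ∃ j, (π.symm (Sum.inl j)).isLeft = (π.symm (Sum.inr j)).isLeft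

end

end Pool.Agent.T2H54.CL
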