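import Pool.Agent.T2H54.CL.Def

set_option autoImplicit false

/-!
Project CL (helper54), MP_fa2474_nt: statements of the packages, with proofs. This is the sister of
project TP (`Pool/Agent/T2H54/TP`, complete, same structure); most packages are ports of packages of
TP: read the file named in the docstring first. Free library: everything under
`Pool.Agent.T2H54.TP` (e.g. `Xab_norm`, `Xab_cont` in `TP/AsmA.lean`, `Bab_cont` in `TP/ZF.lean`; the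
theorems `t_WD, t_AFD, t_DG, t_BV, t_TAB, ..` may be taken as hypotheses `S_..` of TP as written in
the column deps), `Pool.Agent.Y379.GP.t_SP : S_SP` (spacing and row sums), `Pool.Agent.Y125.GP.t_LSW`.
-/

namespace Pool.Agent.T2H54.CL

open Complex Filter Topology MeasureTheory Set
open Pool.Agent.TH612.CF Pool.Agent.TH612.GS Pool.Agent.T2H54.SB Pool.Agent.T2H54.TP
open Pool.Agent.Y969.GP (ht lam PS FR)

noncomputable section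

/-! ### The replacement of a pair by its short polynomial -/

/-- SPD: dyadic sums over `FR X` from the row sums of `S_SP` (`Pool.Agent.Y969.GP.S_SP`, theorem
`Pool.Agent.Y379.GP.t_SP`): the pairs with `Y < ht p ≤ 2Y` lie in `FR (2Y)`, and
`∑ p ∈ FR (2Y), mk T (lam p - θ) ≤ C (T + 2Y)(1 + log 2Y)`; multiply by `Y^(-1/2)` and sum over
`Y = 2^i N`, `Y ≤ X`. -/
def S_SPD : Prop := ∃ C : ℝ, 0 < C ∧ ∀ (X N : ℕ) (T θ : ℝ), 1 ≤ N → N ≤ X → 1 ≤ T →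
  ∑ p ∈ (FR X).filter (fun p => N < p.1 * p.2), (√(ht p))⁻¹ * Pool.Agent.Y969.GP.mk T (lam p - θ) ≤
    C * (T * (N : ℝ) ^ (-(1 / 2) : ℝ) + √(X : ℝ)) * (1 + Real.log X) ^ 2

/-- K1 (hypotheses `S_WD, S_AFD, S_DG, S_BV` of TP and `S_SPD`): the Fourier transform of the
difference, uniformly in `ξ`. Port of `S_TSM` (`TP/TSM.lean`). `u = t + a`, `d = b - a`; `u < 16 + |d|` is bounded.
Use `S_AFD` with `ε' = min(ε,1)/20`, `X = ⌈(3T)^(1+ε')⌉`: `Bab a b t = ∑ p ∈ PS X, cW d p u (p.2^(id) +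
Xd d u p.1^(-id)) e^(iuλ_p) + O(u^(-1/2+ε'))`. Write `p = g p'`, `p'` reduced (`ht p = g² ht p'`, `lam p = lam p'`).
(1) `ht p' > N`: by `S_BV` with `Θ = lam p' + ξ` (and trivially) `|∫| ≤ C (ht p)^(-1/2) log T · 4 mk T (lam p' + ξ)`
(if `T |Θ| ≤ 1` trivially `≤ 2 mk`, otherwise `1/|Θ| ≤ 2 mk`), sum over `g` (`∑ 1/g ≤ 1 + log X`) and use `S_SPD`
(`X ≤ T^(1+2ε')`, `√X ≤ T N^(-1/2)`). (2) `ht p' ≤ N`: `p' = (m, l)` corresponds to the term `q = (l, m)`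
of `Dp`; the sum over `g` equals the coefficient of `Dp` up to `O((ht p'/u)^(1/2)) (ht p')^(-1/2)` for
`u ≥ 2π ht p'` by `S_DG` (for `d` and `-d`, as in `TSM`), for smaller `u` trivially `O(log X)`; integrated
trivially this gives `O(√T)` for each `q ∈ FR N`, in all `O(N² √T log T) = O(T^(3/4) log T)`, while
`T N^(-1/2) ≥ T^(15/16)`. -/
def S_K1 : Prop := ∀ a b ε : ℝ, a ≠ b → 0 < ε → ∃ C T₀ : ℝ, 0 < C ∧ 2 ≤ T₀ ∧
  ∀ (T A B ξ : ℝ) (N : ℕ), T₀ ≤ T → 0 ≤ A → A ≤ B → B ≤ 2 * T → 1 ≤ N → (N : ℝ) ≤ T ^ (1 / 8 : ℝ) →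
  ‖∫ t in A..B, (Bab a b t - Dp a b N t) * cexp (I * ((t * ξ : ℝ) : ℂ))‖ ≤
    C * T ^ (1 + ε) * (N : ℝ) ^ (-(1 / 2) : ℝ)

/-- OPB: from the Fourier transform to the operator bound (pure analysis). With `F = f 1_[0,2T]`,
`R' = R 1_[0,S]` the function `c(y) = ∫ F(t+y) R'(t) dt` is the inner integral for `y ∈ [0,T]`, its Fourier
transform is a product, and Plancherel gives the claim with constant `1`. ALTERNATIVE with Fourier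
series: extend `F`, `R'` with period `L = 3T` (no wrap around for `y ∈ [0,T]`); the `k`-th coefficient of `c` is
`≤ (K/L) |∫ R' e^(2πikt/L)|`, Parseval (`AddCircle`, `tsum_sq_fourierCoeff`) for `c` and for `R'`.
ALTERNATIVE with duality/Poisson kernel or with `∫ ‖·‖²` of continuous functions only: approximate. -/
def S_OPB : Prop := ∀ (f R : ℝ → ℂ) (T S K : ℝ), Continuous f → Continuous R → 0 < T → 0 ≤ S → S ≤ T →
  0 ≤ K → (∀ ξ : ℝ, ‖∫ t in (0:ℝ)..(2 * T), f t * cexp (I * ((t * ξ : ℝ) : ℂ))‖ ≤ K) →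
  ∫ y in (0:ℝ)..T, ‖∫ t in (0:ℝ)..S, f (t + y) * R t‖ ^ 2 ≤ K ^ 2 * ∫ t in (0:ℝ)..S, ‖R t‖ ^ 2

/-- VBQ (hypothesis `S_Q4` of TP): mean squares. First part as `Q_bound` in `TP/AsmD.lean` (fourth moment
of zeta). Second part: `|X| = 1` (`Xab_norm`), so `‖Dp‖² ≤ C (‖∑ c_q e^(-itλ_q)‖² + ‖∑ c'_q e^(-itλ_q)‖²)` with
`|c_q| = (ht q)^(-1/2)`; expand and use the spacing `|lam p - lam q| ≥ 1/(2N)` of `S_SP`
(`Pool.Agent.Y379.GP.t_SP`) trivially: off-diagonal `≤ 4N (∑ |c_q|)² ≤ 4 N^5 ≤ T`, diagonal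
`T ∑ 1/ht q ≤ T (1 + log N)²`. -/
def S_VBQ : Prop := ∀ a b ε : ℝ, a ≠ b → 0 < ε → ∃ C T₀ : ℝ, 0 < C ∧ 2 ≤ T₀ ∧
  ∀ (T v : ℝ) (N : ℕ), T₀ ≤ T → 0 ≤ v → v ≤ T → 1 ≤ N → (N : ℝ) ≤ T ^ (1 / 8 : ℝ) →
  ∫ y in (0:ℝ)..T, ‖Bab a b (v + y)‖ ^ 2 ≤ C * T ^ (1 + ε) ∧
  ∫ y in (0:ℝ)..T, ‖Dp a b N (v + y)‖ ^ 2 ≤ C * T ^ (1 + ε)

/-- XD: the derivative of `Xab`. For `t ≥ 16 + |a| + |b|` see the proof of `S_BV` (`TP/BV.lean`:
`Xd' = i (L(u+d) - L(u)) Xd`, `|Xd'| ≤ C/u`); `Xab a b t = Xd (b - a) (t + a)`; `Xab` is smooth (`chi` is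
analytic at `1/2 + iu`), so on the compact rest the derivative is bounded. -/
def S_XD : Prop := ∀ a b : ℝ, (∀ t : ℝ, DifferentiableAt ℝ (Xab a b) t) ∧
  Continuous (deriv (Xab a b)) ∧ ∃ C : ℝ, 0 < C ∧ ∀ t : ℝ, 0 ≤ t → ‖deriv (Xab a b) t‖ ≤ C / (1 + t)

/-- TNQ (hypotheses `S_TAB` of TP, `S_XD`): the integral with the short polynomials. Expand the
product of the `Dp` (over the tuples `ν ∈ tq n N` and the subsets `J' ⊆ Fin n`, the `j ∈ J'` with the second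
summand): `∑ ν ∑ J' const(J') chq ν h e^(-it(log qm ν - log ql ν)) w(t)`, `w(t) = ∏ j ∈ J', Xab (a j) (b j) (t + h j)`,
`|w| = 1`, `|w'| ≤ C/(1+t)` by `S_XD`. `S_TAB` with the coprime pair `l = qm/gcd`, `m = ql/gcd`, `l m ≤ N^n`:
`F(S') = ∫_0^S' Bab (a 0) (b 0) e^(..) - (main terms) = O(T^(4/5))` for all `S' ≤ T`; integrate by parts:
`∫ F' w = F(S) w(S) - ∫ F w'`. The main terms are those of `J = J' + 1` and `J = {0} ∪ (J' + 1)`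
(`Fin.succ`), since `zc (sw J a b) (sw J b a)`, `cq (sw J a b) (sw J b a)` and `XJ` factor over the clusters
(`hc h 0 = 0`, `hc h j.succ = h j`). `#(tq n N) ≤ N^(2n)`. -/
def S_TNQ : Prop := ∀ (n : ℕ) (a b : Fin (n + 1) → ℝ), (∀ j, a j ≠ b j) → ∃ C T₀ : ℝ, 0 < C ∧ 2 ≤ T₀ ∧
  ∀ (T S : ℝ) (N : ℕ) (h : Fin n → ℝ), T₀ ≤ T → 0 ≤ S → S ≤ T → 1 ≤ N →
  (N : ℝ) ^ (2 * n) ≤ T ^ (1 / 8 : ℝ) → (∀ i, 0 ≤ h i) →
  ‖(∫ t in (0:ℝ)..S, Bab (a 0) (b 0) t * ∏ j : Fin n, Dp (a j.succ) (b j.succ) N (t + h j)) -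
    ∑ J : Finset (Fin (n + 1)), zc (sw J a b) (sw J b a) * RQ (sw J a b) (sw J b a) N h *
      ∫ t in (0:ℝ)..S, XJ J a b h t‖ ≤ C * (N : ℝ) ^ (2 * n) * T ^ (5 / 6 : ℝ)

/-! ### The diagonal terms -/

/-- LCMQ: the reduced coefficients as sums over tuples (sister of `TP/LCM.lean`). Let `A''(m)` be the
right side (for any `M ≥ m`). A term of `dr (gk a b h) N` is `N = ∏ x_j = ∏ y_j` (`tau`, `Nat.finMulAntidiag`), with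
`x_j = g_j m_j`, `y_j = g_j l_j`, `g_j = gcd`, and it equals `∏ g_j^(-1-i(a_j-b_j))` times
`∏_j (l_j m_j)^(-1/2) m_j^(-iα_j) l_j^(iβ_j)`, where `∏ m_j = ∏ l_j = N/∏ g_j =: m`. Given the reduced pairs
`(l_j, m_j)`, `j ≥ 1` (the tuple `ν`), the pair `j = 0` is `m_0 = ql/gcd`, `l_0 = qm/gcd` and
`m = lcm (ql ν) (qm ν)`; coprime `l_j, m_j` both divide `m`, so `l_j m_j ≤ m ≤ M`. Hence
`drA = (∏ j, pA j) * A''` with `pA j (g) = g^(-1-i(a_j-b_j))` (`g ≥ 1`), and `moA (a j - b j) * pA j = 1`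
(Möbius, completely multiplicative twist). Induction over the clusters is not needed: commutativity
of Dirichlet convolution. -/
def S_LCMQ : Prop := ∀ (n : ℕ) (a b : Fin (n + 1) → ℝ) (h : Fin n → ℝ) (M m : ℕ), 1 ≤ m → m ≤ M →
  Aq a b h m = ∑ ν ∈ (tq n M).filter (fun ν => Nat.lcm (ql ν) (qm ν) = m), cq a b ν * chq ν h

/-- SSRQ (hypothesis `S_LCMQ`), sister of `TP/SSR.lean`: the difference is `∑ ν ∈ tq n N, B ν chq ν h`,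
`B ν = cq a b ν (1 - 1[lcm ≤ N] ψ(log lcm/(log N/2)))`, which is `0` unless `lcm > N^(1/4)`, and `|cq| = 1/lcm`.
Large sieve `Pool.Agent.Y125.GP.t_LSW Pool.Agent.Y379.GP.t_SP` with `A = 1`, `w = 1`, `a = 0` (`mB n 0 T` is
`mP (Fin n) T`; the sign of the frequency: conjugate): `≤ (C (T+N)(1 + log N))^n ∑ |B ν|²`, and
`#{ν : lcm = m} ≤ d(m)^(2n) ≤ C m^(1/32)`, so `∑ |B|² ≤ C N^(-3/16)`. -/
def S_SSRQ : Prop := ∀ (n : ℕ) (ψ : ℝ → ℝ), Cut ψ → ∃ C : ℝ, 0 < C ∧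
  ∀ (a b : Fin (n + 1) → ℝ) (T : ℝ) (N : ℕ), 2 ≤ N → (N : ℝ) ≤ T →
  ∫⁻ h, ENNReal.ofReal (‖RQ a b N h - SPq ψ N a b h‖ ^ 2) ∂(mP (Fin n) T) ≤
    ENNReal.ofReal (C * T ^ n * (N : ℝ) ^ (-(1 / 8) : ℝ))

/-- CTRQ: port of `TP/CTR.lean` (`S_CTR`): now all the factors `ζ(1+s+i(a_j-b_j))`, `j = 0..n`, are missing.
`Aq` is the Dirichlet convolution of `drA (gk a b h)` with the `moA (a_j - b_j)`, so its series is
`FH * ∏ p ∈ OD n, ζ(1+s+i(α_j-β_l))` for `Re s > 0`; `‖Aq m‖ ≤ D m^(-1+1/32)` say, with `D` depending on `n` only. -/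
def S_CTRQ : Prop := ∀ (n : ℕ) (ψ : ℝ → ℝ), Cut ψ → ∃ (C : ℝ) (M₀ : ℕ), 0 < C ∧ 2 ≤ M₀ ∧
  ∀ (M : ℕ) (a b : Fin (n + 1) → ℝ) (h : Fin n → ℝ), M₀ ≤ M →
  ‖SPq ψ M a b h - GMq M a b h 0‖ ≤ C * (M : ℝ) ^ (-(1 / 16) : ℝ) *
    (1 + ∫ y : ℝ, (1 + |y|) ^ (-(2 : ℝ)) * ‖GMq M a b h (-(1 / 4) + I * (y / (Real.log M / 2)))‖)

/-- MVK: high moments of a short Dirichlet polynomial on the line `3/4`. The `K`-th power is
`∑ m ≤ M^K, c_m m^(-3/4-iu)`, `0 ≤ c_m ≤ d_K(m)`, `∑ c_m² m^(-3/2) ≤ C`; off-diagonal trivially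
`≤ 2 M^K (∑ c_m m^(-3/4))² ≤ 2 M^K (4 M^(1/4))^(2K) ≤ C M^(2K)` (`|log(m/m')| ≥ 1/M^K`). -/
def S_MVK : Prop := ∀ K : ℕ, ∃ C : ℝ, 0 < C ∧ ∀ (x T : ℝ) (M : ℕ), 1 ≤ M → (M : ℝ) ^ (2 * K) ≤ T →
  1 ≤ T → ∫ u in x..(x + T), ‖zN M (3 / 4 + I * (u : ℂ))‖ ^ (2 * K) ≤ C * T

/-- GLRQ (hypothesis `S_MVK`): `FH` is bounded there (see `TP/GLR.lean`). Hoelder over the
`K = (n+1) n` factors `p = (j,l) ∈ OD n` (`ENNReal.lintegral_prod_norm_pow_le` or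
`inner_le_nnorm_mul_nnorm`-type): `∫ ∏ ‖z_p‖² ≤ ∏ (∫ ‖z_p‖^(2K))^(1/K)`. Each `z_p` is
`zN M (3/4 + i(v + h_j - h_l + a_j - b_l))`, one of `j, l` is `≥ 1`: integrate over this coordinate first,
`u` runs over a window of length `T`: `≤ C T^n` by `S_MVK`. (`n = 0`: no factors.) -/
def S_GLRQ : Prop := ∀ n : ℕ, ∃ C : ℝ, 0 < C ∧ ∀ (a b : Fin (n + 1) → ℝ) (T : ℝ) (M : ℕ) (v : ℝ),
  1 ≤ M → 2 * (M : ℝ) ^ (3 * (n + 1) ^ 2) ≤ T → 1 ≤ T →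
  ∫⁻ h, ENNReal.ofReal (‖GMq M a b h (-(1 / 4) + I * v)‖ ^ 2) ∂(mP (Fin n) T) ≤
    ENNReal.ofReal (C * T ^ n)

/-- A4RQ (hypotheses `S_CTRQ`, `S_GLRQ`): port of `TP/A4R.lean` (Cauchy-Schwarz in `y`, Tonelli). -/
def S_A4RQ : Prop := ∀ (n : ℕ) (ψ : ℝ → ℝ), Cut ψ → ∃ (C : ℝ) (M₀ : ℕ), 0 < C ∧ 2 ≤ M₀ ∧
  ∀ (a b : Fin (n + 1) → ℝ) (T : ℝ) (M : ℕ), M₀ ≤ M → 1 ≤ T → 2 * (M : ℝ) ^ (3 * (n + 1) ^ 2) ≤ T →
  ∫⁻ h, ENNReal.ofReal (‖SPq ψ M a b h - GMq M a b h 0‖ ^ 2) ∂(mP (Fin n) T) ≤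
    ENNReal.ofReal (C * T ^ n * (M : ℝ) ^ (-(1 / 8) : ℝ))

/-- ZMRQ: port of `TP/ZMR.lean` (`S_ZMR`): the factors `p = (j,l) ∈ OD n`,
`|h_j - h_l + a_j - b_l| ≥ T^(1/2)/2` on `SepH` and `≤ 2T` for `T ≥ T₀(a,b)`; the window integral is over `h_j` if
`j ≥ 1`, otherwise over `h_l`. -/
def S_ZMRQ : Prop := ∀ (n : ℕ) (a b : Fin (n + 1) → ℝ), ∃ (C T₀ : ℝ) (B : ℕ), 0 < C ∧ 3 ≤ T₀ ∧
  ∀ (T : ℝ) (M : ℕ), T₀ ≤ T → 1 ≤ M → (M : ℝ) ≤ T ^ (1 / 4 : ℝ) →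
  ∫⁻ h in SepH n T, ENNReal.ofReal (‖GMq M a b h 0 - zrq a b h‖ ^ 2) ∂(mP (Fin n) T) ≤
    ENNReal.ofReal (C * Real.log T ^ B * T ^ n / M)

/-- NSQ: the complement of the separated centres (port of `TP/NSF.lean`); outside the cube `mP` is `0`. -/
def S_NSQ : Prop := ∀ (n : ℕ) (T : ℝ), 1 ≤ T →
  mP (Fin n) T (SepH n T)ᶜ ≤ ENNReal.ofReal (4 * (n + 1) ^ 2 * T ^ (n - 1 / 2 : ℝ))

/-- QDQ: the terms of the recipe (sister of `TP/QD.lean`). The complement of `Oq n` is the disjoint union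
over `J ⊆ Fin (n+1)` of `{π | swJ * π ∈ Pk (n+1)}`, `swJ = ∏ j ∈ J, swap (inl j) (inr j)` (define it directly as
an involution), each of cardinality `((n+1)!)²` (`card_Pk`). On it `GG = XJ J a b h t` and
`zp (gk a b h) π = zp (gk (sw J a b) (sw J b a) h) (swJ * π) = zr (gk (sw J a b) (sw J b a) h)`
(`Pool.Agent.TH612.GS.t_INV`), since `gk a b h ∘ swJ = gk (sw J a b) (sw J b a) h`. -/
def S_QDQ : Prop := ∀ (n : ℕ) (a b : Fin (n + 1) → ℝ) (h : Fin n → ℝ) (t : ℝ),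
  Qs t (fun i => (gk a b h i : ℂ)) = ((Nat.factorial (n + 1) : ℂ) ^ 2) *
    (∑ J : Finset (Fin (n + 1)), XJ J a b h t * zr (gk (sw J a b) (sw J b a) h)) +
    ∑ π ∈ Oq n, GG t (fun i => (gk a b h i : ℂ)) π * zp (gk a b h) π

/-- SWQ: sister of `TP/SWF.lean` (`S_SWF`). For `π ∈ Oq n` the numbers of `α_j` and of `β_j` moved to the other
block are equal, so the set of clusters of which exactly one member is moved has even cardinality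
`≥ 2` and contains some `j = i.succ`. Exactly one factor depends on `h i`:
`chi (1/2 + i(t + h i + a j))` or its conjugate type `chi (1/2 - i(t + h i + b j))`; the others have absolute
value `1`. Integrate over `h i` first: `CHIL.pCHIL` (`Pool.Agent.T2H54.SB` file `Chi.lean`,
`≤ 688 S T log² T`) with `T' = T + |a j| + |b j|`, `h i + a j ∈ [0, T']` except for a set of length `|a j|`, where the
trivial bound `S²` is used (`≤ C T²`). -/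
def S_SWQ : Prop := ∀ (n : ℕ) (a b : Fin (n + 1) → ℝ), ∃ C T₀ : ℝ, 0 < C ∧ 16 ≤ T₀ ∧
  ∀ (T S : ℝ) (π : Equiv.Perm (Fin (n + 1) ⊕ Fin (n + 1))), T₀ ≤ T → 0 ≤ S → S ≤ T → π ∈ Oq n →
  ∫⁻ h, ENNReal.ofReal (‖IG S (gk a b h) π‖ ^ 2) ∂(mP (Fin n) T) ≤
    ENNReal.ofReal (C * T ^ 2 * Real.log T ^ 2 * T ^ (n - 1 : ℝ))

end

end Pool.Agent.T2H54.CL
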